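import Pool.Agent.FTB.Defs

/-!
# FTB/AlB: the three relations

PROOF of `alb`.  Everything is polynomial identities and cancellation of `N, k ≠ 0`, `c, v` not
needed (in `ℤ`).
(1) `4 N k u e = (2 k u) (2 N e) = (b v + c κ) (b v - c κ) = b ^ 2 v ^ 2 - c ^ 2 κ ^ 2 =
(4 N ^ 2 k - D c ^ 2) v ^ 2 - c ^ 2 (4 k ^ 2 N - D v ^ 2) = 4 N k (N v ^ 2 - k c ^ 2)`.
(2) `4 k ^ 2 (t1 ^ 2 + D u ^ 2) = (b ^ 2 + D c ^ 2) (κ ^ 2 + D v ^ 2) = 16 N ^ 3 k ^ 3`, so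
`t1 ^ 2 + D u ^ 2 = 4 N ^ 3 k`.  `2 k (u b - t1 c) = b (b v + c κ) - c (b κ - D c v) =
v (b ^ 2 + D c ^ 2) = 4 N ^ 2 k v`, so `u b - t1 c = 2 N ^ 2 v`.  Then
`2 k w * 2 N ^ 2 v = (t1 c + u b) (u b - t1 c) = u ^ 2 b ^ 2 - t1 ^ 2 c ^ 2 =
u ^ 2 (4 N ^ 2 k - D c ^ 2) - c ^ 2 (4 N ^ 3 k - D u ^ 2) = 4 N ^ 2 k (u ^ 2 - N c ^ 2)`, so
`v w = u ^ 2 - c ^ 2 N`.
(3) `4 N ^ 2 (t2 ^ 2 + D e ^ 2) = (b ^ 2 + D c ^ 2) (κ ^ 2 + D v ^ 2)`, so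
`t2 ^ 2 + D e ^ 2 = 4 N k ^ 3`.  `2 N (t2 v - e κ) = v (b κ + D c v) - κ (b v - c κ) =
c (D v ^ 2 + κ ^ 2) = 4 k ^ 2 N c`, so `t2 v - e κ = 2 k ^ 2 c`.  Then
`2 N z * 2 k ^ 2 c = (t2 v + e κ) (t2 v - e κ) = v ^ 2 (4 N k ^ 3 - D e ^ 2) -
e ^ 2 (4 k ^ 2 N - D v ^ 2) = 4 N k ^ 2 (k v ^ 2 - e ^ 2)`, so `c z = v ^ 2 k - e ^ 2`.
-/

set_option autoImplicit false

namespace Pool.Agent.FTB

theorem alb (D N k b c κ v t1 u t2 e w z : ℤ) (hN : N ≠ 0) (hk : k ≠ 0)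
    (h1 : b ^ 2 + D * c ^ 2 = 4 * N ^ 2 * k) (h2 : κ ^ 2 + D * v ^ 2 = 4 * k ^ 2 * N)
    (h3 : 2 * (k * t1) = b * κ - D * c * v) (h4 : 2 * (k * u) = b * v + κ * c)
    (h5 : 2 * (N * t2) = b * κ + D * c * v) (h6 : 2 * (N * e) = b * v - κ * c)
    (h7 : 2 * (k * w) = t1 * c + b * u) (h8 : 2 * (N * z) = t2 * v + κ * e) :
    u * e = v ^ 2 * N - c ^ 2 * k ∧ v * w = u ^ 2 - c ^ 2 * N ∧ c * z = v ^ 2 * k - e ^ 2 := by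
  have hk4 : (4 * k ^ 2 : ℤ) ≠ 0 := mul_ne_zero (by norm_num) (pow_ne_zero 2 hk)
  have hN4 : (4 * N ^ 2 : ℤ) ≠ 0 := mul_ne_zero (by norm_num) (pow_ne_zero 2 hN)
  have hk2 : (2 * k : ℤ) ≠ 0 := mul_ne_zero (by norm_num) hk
  have hN2 : (2 * N : ℤ) ≠ 0 := mul_ne_zero (by norm_num) hN
  have hNk : (4 * N * k : ℤ) ≠ 0 := mul_ne_zero (mul_ne_zero (by norm_num) hN) hk
  have hNNk : (4 * N ^ 2 * k : ℤ) ≠ 0 := mul_ne_zero hN4 hk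
  have hNkk : (4 * N * k ^ 2 : ℤ) ≠ 0 :=
    mul_ne_zero (mul_ne_zero (by norm_num) hN) (pow_ne_zero 2 hk)
  refine ⟨?_, ?_, ?_⟩
  · apply mul_left_cancel₀ hNk
    linear_combination (2*(N*e)) * h4 + (b*v+κ*c) * h6 + v^2 * h1 - c^2 * h2
  · have e1 : t1 ^ 2 + D * u ^ 2 = 4 * N ^ 3 * k := by
      apply mul_left_cancel₀ hk4
      linear_combination (2*(k*t1) + (b * κ - D * c * v)) * h3 +
        D * (2*(k*u) + (b*v+κ*c)) * h4 + (κ^2 + D*v^2) * h1 + (4 * N^2 * k) * h2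
    have e2 : u * b - t1 * c = 2 * N ^ 2 * v := by
      apply mul_left_cancel₀ hk2
      linear_combination b * h4 - c * h3 + v * h1
    apply mul_left_cancel₀ hNNk
    linear_combination (2 * N^2 * v) * h7 - (t1*c + b*u) * e2 + u^2 * h1 - c^2 * e1
  · have e1 : t2 ^ 2 + D * e ^ 2 = 4 * N * k ^ 3 := by
      apply mul_left_cancel₀ hN4
      linear_combination (2*(N*t2) + (b * κ + D * c * v)) * h5 +
        D * (2*(N*e) + (b*v-κ*c)) * h6 + (κ^2 + D*v^2) * h1 + (4 * N^2 * k) * h2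
    have e2 : t2 * v - e * κ = 2 * k ^ 2 * c := by
      apply mul_left_cancel₀ hN2
      linear_combination v * h5 - κ * h6 + c * h2
    apply mul_left_cancel₀ hNkk
    linear_combination (2 * k^2 * c) * h8 - (t2*v + κ*e) * e2 + v^2 * e1 - e^2 * h2

end Pool.Agent.FTB
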