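import Pool.Agent.FTB.Defs

/-!
# FTB/Cau: a weighted Cauchy-Schwarz inequality

PROOF of `cau`.  Over the pairs `(x, n)`, `x ∈ I`, `n ∈ Nf x` (`Finset.sigma`),
`√(F x n) = √(1 / n) * √(n * F x n)` (`n ≥ 1`).  By Cauchy-Schwarz
(`Finset.sum_mul_sq_le_sq_mul_sq` or `Real.sum_sqrt_mul_sqrt_le`) the sum is at most
`√(∑ x, ∑ n, 1 / n) * √(∑ x, ∑ n, n * F x n)`, and `∑ n ∈ Nf x, 1 / n ≤ ∑ n ∈ Ico 1 m, 1 / n ≤
1 + log m` (`harmonic_le_one_add_log`; if `m = 0` both sums are empty and `Real.log 0 = 0`).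
-/

set_option autoImplicit false

namespace Pool.Agent.FTB

private theorem cau_harm (m : ℕ) : ∑ n ∈ Finset.Ico 1 m, (1 : ℝ) / n ≤ 1 + Real.log m := by
  rcases Nat.eq_zero_or_pos m with rfl | hm
  · simp
  · have h1 : ∑ n ∈ Finset.Ico 1 m, (1 : ℝ) / n ≤ ∑ n ∈ Finset.Icc 1 m, (1 : ℝ) / n := by
      refine Finset.sum_le_sum_of_subset_of_nonneg ?_ fun n _ _ => by positivity
      intro n hn
      rw [Finset.mem_Ico] at hn
      rw [Finset.mem_Icc]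
      omega
    refine h1.trans ?_
    have h2 := harmonic_le_one_add_log m
    rw [harmonic_eq_sum_Icc] at h2
    push_cast at h2
    simpa only [one_div] using h2

theorem cau {α : Type*} (I : Finset α) (m : ℕ) (Nf : α → Finset ℕ) (F : α → ℕ → ℝ)
    (hN : ∀ x ∈ I, Nf x ⊆ Finset.Ico 1 m) (hF : ∀ x n, 0 ≤ F x n) :
    ∑ x ∈ I, ∑ n ∈ Nf x, √(F x n) ≤
      √((I.card : ℝ) * (1 + Real.log m)) * √(∑ x ∈ I, ∑ n ∈ Nf x, (n : ℝ) * F x n) := by
  have h1 : ∑ x ∈ I, ∑ n ∈ Nf x, √(F x n) =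
      ∑ y ∈ I.sigma Nf, √(1 / (y.2 : ℝ)) * √((y.2 : ℝ) * F y.1 y.2) := by
    rw [Finset.sum_sigma]
    refine Finset.sum_congr rfl fun x hx => Finset.sum_congr rfl fun n hn => ?_
    have hn1 := Finset.mem_Ico.1 (hN x hx hn)
    have hn0 : (0 : ℝ) < n := by exact_mod_cast hn1.1
    rw [← Real.sqrt_mul (by positivity), ← mul_assoc, one_div, inv_mul_cancel₀ hn0.ne', one_mul]
  have h2 : ∑ x ∈ I, ∑ n ∈ Nf x, (n : ℝ) * F x n =
      ∑ y ∈ I.sigma Nf, (y.2 : ℝ) * F y.1 y.2 := by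
    rw [Finset.sum_sigma]
  have h3 : ∑ y ∈ I.sigma Nf, (1 : ℝ) / (y.2 : ℝ) ≤ (I.card : ℝ) * (1 + Real.log m) := by
    rw [Finset.sum_sigma, ← nsmul_eq_mul]
    refine Finset.sum_le_card_nsmul _ _ _ fun x hx => ?_
    refine le_trans ?_ (cau_harm m)
    exact Finset.sum_le_sum_of_subset_of_nonneg (hN x hx) fun n _ _ => by positivity
  rw [h1, h2]
  have h4 := Real.sum_sqrt_mul_sqrt_le (I.sigma Nf) (f := fun y => (1 : ℝ) / (y.2 : ℝ))
    (g := fun y => (y.2 : ℝ) * F y.1 y.2) (fun y => by positivity)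
    (fun y => mul_nonneg (by positivity) (hF _ _))
  refine h4.trans ?_
  exact mul_le_mul_of_nonneg_right (Real.sqrt_le_sqrt h3) (Real.sqrt_nonneg _)

end Pool.Agent.FTB
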