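import Pool.Agent.FTB.Dga

/-!
# FTB/Dgb: a bound for all quadruples

PROOF of `dgb`.  `∑ n, n * card (Ac C V n b) = ∑ x ∈ Cv C V, ∑ n, n` over the `n ∈ Ico 1 m` with
`n` coprime to `10 c v` and `DvF n b c v` (exchange of sums).  For `x ∈ Cv C V` with
`fF b ≠ 0` (or `gF b ≠ 0`) such `n` divides the non-zero integer `fF b` (or `gF b`), of absolute
value `≤ Z`, so there are at most `T` of them, each `≤ m`: contribution `≤ T m`; at most
`card (Cv C V) ≤ C V` such `x` (`card_Cv`).  The `x` with `fF = gF = 0` are at most 3 (`dga`), each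
contributes at most `∑ n ∈ Ico 1 m, n ≤ m ^ 2`.
-/

set_option autoImplicit false

namespace Pool.Agent.FTB

private theorem dgb_div (m Z : ℕ) (T : ℝ) (hT : TauB Z T) (F : ℤ) (hF : F ≠ 0)
    (hZ : F.natAbs ≤ Z) (P : ℕ → Prop) [DecidablePred P] (hP : ∀ n, P n → (n : ℤ) ∣ F) :
    ∑ n ∈ Finset.Ico 1 m, (if P n then (n : ℝ) else 0) ≤ T * m := by
  have h1 : ∑ n ∈ Finset.Ico 1 m, (if P n then (n : ℝ) else 0) ≤
      ∑ n ∈ (Finset.Ico 1 m).filter P, (m : ℝ) := by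
    rw [← Finset.sum_filter]
    refine Finset.sum_le_sum fun n hn => ?_
    have := (Finset.mem_Ico.1 (Finset.mem_filter.1 hn).1).2
    exact_mod_cast this.le
  have h2 : ((Finset.Ico 1 m).filter P) ⊆ F.natAbs.divisors := by
    intro n hn
    obtain ⟨_, h⟩ := Finset.mem_filter.1 hn
    exact Nat.mem_divisors.2 ⟨Int.natCast_dvd.1 (hP n h), Int.natAbs_ne_zero.2 hF⟩
  have h3 : (((Finset.Ico 1 m).filter P).card : ℝ) ≤ T :=
    le_trans (by exact_mod_cast Finset.card_le_card h2)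
      (hT.2 _ (Nat.one_le_iff_ne_zero.2 (Int.natAbs_ne_zero.2 hF)) hZ)
  refine h1.trans ?_
  rw [Finset.sum_const, nsmul_eq_mul]
  exact mul_le_mul_of_nonneg_right h3 (Nat.cast_nonneg _)

theorem dgb (C V m Z : ℕ) (T : ℝ) (hV : 1 ≤ V) (hT : TauB Z T) (b : ℤ × ℤ × ℤ × ℤ)
    (hb : b ≠ (0, 0, 0, 0))
    (hZ : ∀ x ∈ Cv C V, (fF b.1 b.2.1 b.2.2.1 x.1 x.2).natAbs ≤ Z ∧
      (gF b.2.1 b.2.2.1 b.2.2.2 x.1 x.2).natAbs ≤ Z) :
    ∑ n ∈ Finset.Ico 1 m, (n : ℝ) * ((Ac C V n b).card : ℝ) ≤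
      T * C * V * m + 3 * (m : ℝ) ^ 2 := by
  classical
  have hT0 : (0 : ℝ) ≤ T := zero_le_one.trans hT.1
  have e1 : ∀ n ∈ Finset.Ico 1 m, (n : ℝ) * ((Ac C V n b).card : ℝ) =
      ∑ x ∈ Cv C V, (if Nat.Coprime n (10 * x.1 * x.2) ∧ DvF n b x.1 x.2 then (n : ℝ) else 0) := by
    intro n _
    rw [← Finset.sum_filter, Finset.sum_const, nsmul_eq_mul, mul_comm]
    congr 2
  rw [Finset.sum_congr rfl e1, Finset.sum_comm]
  have e2 : ∀ x ∈ Cv C V,
      ∑ n ∈ Finset.Ico 1 m,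
        (if Nat.Coprime n (10 * x.1 * x.2) ∧ DvF n b x.1 x.2 then (n : ℝ) else 0) ≤
      T * m + (if fF b.1 b.2.1 b.2.2.1 x.1 x.2 = 0 ∧ gF b.2.1 b.2.2.1 b.2.2.2 x.1 x.2 = 0 then
        (m : ℝ) ^ 2 else 0) := by
    intro x hx
    have hTm : (0 : ℝ) ≤ T * m := mul_nonneg hT0 (Nat.cast_nonneg _)
    by_cases hf : fF b.1 b.2.1 b.2.2.1 x.1 x.2 = 0
    · by_cases hg : gF b.2.1 b.2.2.1 b.2.2.2 x.1 x.2 = 0
      · rw [if_pos ⟨hf, hg⟩]
        have h1 : ∑ n ∈ Finset.Ico 1 m,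
            (if Nat.Coprime n (10 * x.1 * x.2) ∧ DvF n b x.1 x.2 then (n : ℝ) else 0) ≤
            ∑ n ∈ Finset.Ico 1 m, (m : ℝ) := by
          refine Finset.sum_le_sum fun n hn => ?_
          have := (Finset.mem_Ico.1 hn).2
          split_ifs
          · exact_mod_cast this.le
          · exact Nat.cast_nonneg _
        rw [Finset.sum_const, nsmul_eq_mul, Nat.card_Ico] at h1
        have h2 : ((m - 1 : ℕ) : ℝ) * m ≤ (m : ℝ) * m :=
          mul_le_mul_of_nonneg_right (by exact_mod_cast Nat.sub_le m 1) (Nat.cast_nonneg _)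
        nlinarith
      · rw [if_neg fun h => hg h.2, add_zero]
        exact dgb_div m Z T hT _ hg (hZ x hx).2 _ fun n hn => hn.2.2
    · rw [if_neg fun h => hf h.1, add_zero]
      exact dgb_div m Z T hT _ hf (hZ x hx).1 _ fun n hn => hn.2.1
  refine (Finset.sum_le_sum e2).trans ?_
  rw [Finset.sum_add_distrib, Finset.sum_const, nsmul_eq_mul, ← Finset.sum_filter,
    Finset.sum_const, nsmul_eq_mul]
  have h3 : (((Cv C V).card : ℕ) : ℝ) ≤ C * V := by exact_mod_cast card_Cv C V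
  have h4 : ((((Cv C V).filter fun x => fF b.1 b.2.1 b.2.2.1 x.1 x.2 = 0 ∧
      gF b.2.1 b.2.2.1 b.2.2.2 x.1 x.2 = 0).card : ℕ) : ℝ) ≤ 3 := by
    exact_mod_cast dga C V hV b hb
  have h5 : ((Cv C V).card : ℝ) * (T * m) ≤ (C * V) * (T * m) :=
    mul_le_mul_of_nonneg_right h3 (mul_nonneg hT0 (Nat.cast_nonneg _))
  have h6 := mul_le_mul_of_nonneg_right h4 (sq_nonneg (m : ℝ))
  nlinarith

end Pool.Agent.FTB
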