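import Pool.Agent.FTB.Dge

/-!
# FTB/Dgf: the number of quadruples with zero resultant

PROOF of `dgf`.  If `s = 0` the set is empty.  Let `s ≥ 1`; an interval `Icc (-s) s` has
`2 s + 1 ≤ 3 s` elements.
(1) `A = 0`, `B = 0`: at most `(3 s) ^ 2`.
(2) `A = 0`, `B ≠ 0`: `RF = B ^ 3 (5 J ^ 3 - 8 B ^ 2 K)`, so `K` is determined by `(B, J)`:
at most `(3 s) ^ 2`.
(3) `A ≠ 0`, `J = 0`: `RF = -K (125 A ^ 3 K ^ 2 + 8 B ^ 5)`: `K = 0` (at most `(3 s) ^ 2`) or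
`125 A ^ 3 K ^ 2 = -8 B ^ 5`, at most 2 values of `K` for given `(A, B)`: at most `2 (3 s) ^ 2`.
(4) `A ≠ 0`, `J ≠ 0`: for given `(A, J)` at most `3 T ^ 2` pairs `(B, K)` (`dge`; `|5 A| ≤ 5 s ≤ Z`):
at most `(3 s) ^ 2 * 3 T ^ 2`.
Total `≤ 9 s ^ 2 (1 + 1 + 1 + 2 + 3 T ^ 2) ≤ 72 T ^ 2 s ^ 2`.
-/

set_option autoImplicit false

namespace Pool.Agent.FTB

theorem dgf (s Z : ℕ) (T : ℝ) (hT : TauB Z T) (hs : 5 * s ≤ Z) :
    (((Q4 s).filter fun b => RF b.1 b.2.1 b.2.2.1 b.2.2.2 = 0).card : ℝ) ≤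
      72 * T ^ 2 * (s : ℝ) ^ 2 := by
  classical
  obtain ⟨hT1, -⟩ := id hT
  obtain ⟨S, hS⟩ : ∃ S : Finset (ℤ × ℤ × ℤ × ℤ),
      S = (Q4 s).filter fun b => RF b.1 b.2.1 b.2.2.1 b.2.2.2 = 0 := ⟨_, rfl⟩
  rw [← hS]
  have mS : ∀ A B J K : ℤ, (A, B, J, K) ∈ S →
      (|A| ≤ s ∧ |B| ≤ s ∧ |J| ≤ s ∧ |K| ≤ s) ∧ RF A B J K = 0 := by
    intro A B J K h
    rw [hS, Finset.mem_filter, mem_Q4] at h
    exact ⟨h.1.2, h.2⟩
  rcases Nat.eq_zero_or_pos s with h0 | hs0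
  · have : S = ∅ := by
      rw [Finset.eq_empty_iff_forall_notMem]
      rintro ⟨A, B, J, K⟩ h
      have h1 := (mS A B J K h).1
      rw [h0] at h1
      have e1 := abs_nonpos_iff.1 h1.1
      have e2 := abs_nonpos_iff.1 h1.2.1
      have e3 := abs_nonpos_iff.1 h1.2.2.1
      have e4 := abs_nonpos_iff.1 h1.2.2.2
      rw [hS, Finset.mem_filter, mem_Q4] at h
      exact h.1.1 (by rw [e1, e2, e3, e4])
    rw [this]
    simp [h0]
  obtain ⟨I, hI⟩ : ∃ I : Finset ℤ, I = Finset.Icc (-(s : ℤ)) s := ⟨_, rfl⟩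
  have mI : ∀ x : ℤ, |x| ≤ s → x ∈ I := by
    intro x hx
    rw [hI, Finset.mem_Icc]
    exact abs_le.1 hx
  have cI : (I ×ˢ I).card ≤ 9 * s ^ 2 := by
    rw [Finset.card_product, hI, Int.card_Icc]
    have : ((s : ℤ) + 1 - -(s : ℤ)).toNat = 2 * s + 1 := by omega
    rw [this]
    nlinarith
  -- (1) A = 0, B = 0
  have c1 : (S.filter fun b => b.1 = 0 ∧ b.2.1 = 0).card ≤ (I ×ˢ I).card := by
    refine Finset.card_le_card_of_injOn (fun b => (b.2.2.1, b.2.2.2)) ?_ ?_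
    · rintro ⟨A, B, J, K⟩ h
      rw [Finset.mem_coe, Finset.mem_filter] at h
      have h1 := (mS A B J K h.1).1
      exact Finset.mem_coe.2 (Finset.mem_product.2 ⟨mI _ h1.2.2.1, mI _ h1.2.2.2⟩)
    · rintro ⟨A, B, J, K⟩ h ⟨A', B', J', K'⟩ h' he
      rw [Finset.mem_coe, Finset.mem_filter] at h h'
      simp only [Prod.mk.injEq] at h h' he ⊢
      exact ⟨h.2.1.trans h'.2.1.symm, h.2.2.trans h'.2.2.symm, he.1, he.2⟩
  -- (2) A = 0, B ≠ 0
  have c2 : (S.filter fun b => b.1 = 0 ∧ b.2.1 ≠ 0).card ≤ (I ×ˢ I).card := by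
    refine Finset.card_le_card_of_injOn (fun b => (b.2.1, b.2.2.1)) ?_ ?_
    · rintro ⟨A, B, J, K⟩ h
      rw [Finset.mem_coe, Finset.mem_filter] at h
      have h1 := (mS A B J K h.1).1
      exact Finset.mem_coe.2 (Finset.mem_product.2 ⟨mI _ h1.2.1, mI _ h1.2.2.1⟩)
    · rintro ⟨A, B, J, K⟩ h ⟨A', B', J', K'⟩ h' he
      rw [Finset.mem_coe, Finset.mem_filter] at h h'
      have r := (mS A B J K h.1).2
      have r' := (mS A' B' J' K' h'.1).2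
      simp only [Prod.mk.injEq] at h h' he ⊢
      obtain ⟨-, hA, hB⟩ := h
      obtain ⟨-, hA', hB'⟩ := h'
      obtain ⟨e1, e2⟩ := he
      subst hA hA' e1 e2
      refine ⟨rfl, rfl, rfl, ?_⟩
      unfold RF at r r'
      have hB5 : 8 * B ^ 5 ≠ 0 := mul_ne_zero (by norm_num) (pow_ne_zero _ hB)
      have : 8 * B ^ 5 * K = 8 * B ^ 5 * K' := by linarith
      exact mul_left_cancel₀ hB5 this
  -- (3) A ≠ 0, J = 0
  have c3 : (S.filter fun b => b.1 ≠ 0 ∧ b.2.2.1 = 0).card ≤ 3 * (I ×ˢ I).card := by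
    refine Finset.card_le_mul_card_image_of_maps_to (f := fun b => (b.1, b.2.1)) ?_ 3 ?_
    · rintro ⟨A, B, J, K⟩ h
      rw [Finset.mem_filter] at h
      have h1 := (mS A B J K h.1).1
      exact Finset.mem_product.2 ⟨mI _ h1.1, mI _ h1.2.1⟩
    · rintro ⟨A0, B0⟩ -
      obtain ⟨F, hF⟩ : ∃ F : Finset (ℤ × ℤ × ℤ × ℤ), F = ((S.filter fun b => b.1 ≠ 0 ∧
        b.2.2.1 = 0).filter fun b => (b.1, b.2.1) = (A0, B0)) := ⟨_, rfl⟩
      have mF : ∀ A B J K : ℤ, (A, B, J, K) ∈ F → A = A0 ∧ B = B0 ∧ J = 0 ∧ A0 ≠ 0 ∧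
          K * (125 * A0 ^ 3 * K ^ 2 + 8 * B0 ^ 5) = 0 := by
        intro A B J K h
        rw [hF, Finset.mem_filter, Finset.mem_filter] at h
        have r := (mS A B J K h.1.1).2
        simp only [Prod.mk.injEq] at h
        obtain ⟨⟨-, hA, hJ⟩, e1, e2⟩ := h
        subst e1 e2 hJ
        refine ⟨rfl, rfl, rfl, hA, ?_⟩
        unfold RF at r
        linarith
      have key : ∃ k : ℤ, ∀ A B J K : ℤ, (A, B, J, K) ∈ F → K = 0 ∨ K = k ∨ K = -k := by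
        by_cases hex : ∃ A B J K : ℤ, (A, B, J, K) ∈ F ∧ K ≠ 0
        · obtain ⟨A, B, J, k, hk, hk0⟩ := hex
          refine ⟨k, ?_⟩
          intro A' B' J' K hK
          obtain ⟨-, -, -, hA0, r1⟩ := mF _ _ _ _ hk
          obtain ⟨-, -, -, -, r2⟩ := mF _ _ _ _ hK
          by_cases hK0 : K = 0
          · exact Or.inl hK0
          right
          have r1' := (mul_eq_zero.1 r1).resolve_left hk0
          have r2' := (mul_eq_zero.1 r2).resolve_left hK0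
          have hA3 : 125 * A0 ^ 3 ≠ 0 := mul_ne_zero (by norm_num) (pow_ne_zero _ hA0)
          have : 125 * A0 ^ 3 * K ^ 2 = 125 * A0 ^ 3 * k ^ 2 := by linarith
          have := mul_left_cancel₀ hA3 this
          exact sq_eq_sq_iff_eq_or_eq_neg.1 this
        · push Not at hex
          exact ⟨0, fun A B J K h => Or.inl (hex A B J K h)⟩
      obtain ⟨k, hk⟩ := key
      have : F.card ≤ ({0, k, -k} : Finset ℤ).card := by
        refine Finset.card_le_card_of_injOn (fun b => b.2.2.2) ?_ ?_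
        · rintro ⟨A, B, J, K⟩ h
          have := hk A B J K (Finset.mem_coe.1 h)
          simpa using this
        · rintro ⟨A, B, J, K⟩ h ⟨A', B', J', K'⟩ h' he
          obtain ⟨a1, a2, a3, -⟩ := mF _ _ _ _ (Finset.mem_coe.1 h)
          obtain ⟨b1, b2, b3, -⟩ := mF _ _ _ _ (Finset.mem_coe.1 h')
          simp only [Prod.mk.injEq] at he ⊢
          exact ⟨a1.trans b1.symm, a2.trans b2.symm, a3.trans b3.symm, he⟩
      rw [hF] at this
      exact this.trans Finset.card_le_three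
  -- (4) A ≠ 0, J ≠ 0
  have c4 : ((S.filter fun b => b.1 ≠ 0 ∧ b.2.2.1 ≠ 0).card : ℝ) ≤
      ((I ×ˢ I).card : ℝ) * (3 * T ^ 2) := by
    have hmaps : ∀ b ∈ (S.filter fun b => b.1 ≠ 0 ∧ b.2.2.1 ≠ 0),
        (fun b : ℤ × ℤ × ℤ × ℤ => (b.1, b.2.2.1)) b ∈ I ×ˢ I := by
      rintro ⟨A, B, J, K⟩ h
      rw [Finset.mem_filter] at h
      have h1 := (mS A B J K h.1).1
      exact Finset.mem_product.2 ⟨mI _ h1.1, mI _ h1.2.2.1⟩
    rw [Finset.card_eq_sum_card_fiberwise hmaps]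
    push_cast
    rw [← nsmul_eq_mul, ← Finset.sum_const]
    refine Finset.sum_le_sum ?_
    rintro ⟨A0, J0⟩ -
    obtain ⟨F, hF⟩ : ∃ F : Finset (ℤ × ℤ × ℤ × ℤ), F = ((S.filter fun b => b.1 ≠ 0 ∧
      b.2.2.1 ≠ 0).filter fun b => (b.1, b.2.2.1) = (A0, J0)) := ⟨_, rfl⟩
    rw [← hF]
    have mF : ∀ A B J K : ℤ, (A, B, J, K) ∈ F → A = A0 ∧ J = J0 ∧ A0 ≠ 0 ∧ J0 ≠ 0 ∧
        |A0| ≤ s ∧ |J0| ≤ s ∧ RF A0 B J0 K = 0 := by
      intro A B J K h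
      rw [hF, Finset.mem_filter, Finset.mem_filter] at h
      have r := mS A B J K h.1.1
      simp only [Prod.mk.injEq] at h
      obtain ⟨⟨-, hA, hJ⟩, e1, e2⟩ := h
      subst e1 e2
      exact ⟨rfl, rfl, hA, hJ, r.1.1, r.1.2.2.1, r.2⟩
    rcases F.eq_empty_or_nonempty with hF0 | ⟨⟨A, B, J, K⟩, hb⟩
    · rw [hF0]
      simp only [Finset.card_empty, Nat.cast_zero]
      positivity
    · obtain ⟨-, -, hA0, hJ0, hA1, hJ1, -⟩ := mF _ _ _ _ hb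
      have hcard : F.card = (F.image fun b => (b.2.1, b.2.2.2)).card := by
        rw [Finset.card_image_of_injOn]
        rintro ⟨A, B, J, K⟩ h ⟨A', B', J', K'⟩ h' he
        obtain ⟨a1, a2, -⟩ := mF _ _ _ _ (Finset.mem_coe.1 h)
        obtain ⟨b1, b2, -⟩ := mF _ _ _ _ (Finset.mem_coe.1 h')
        simp only [Prod.mk.injEq] at he ⊢
        exact ⟨a1.trans b1.symm, he.1, a2.trans b2.symm, he.2⟩
      rw [hcard]
      refine dge Z T hT A0 J0 hA0 hJ0 ?_ ?_ _ ?_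
      · have : (A0.natAbs : ℤ) ≤ s := by rw [Int.natCast_natAbs]; exact hA1
        rw [Int.natAbs_mul]
        have h5 : (5 : ℤ).natAbs = 5 := rfl
        rw [h5]
        have : A0.natAbs ≤ s := by exact_mod_cast this
        omega
      · have : (J0.natAbs : ℤ) ≤ s := by rw [Int.natCast_natAbs]; exact hJ1
        have : J0.natAbs ≤ s := by exact_mod_cast this
        omega
      · rintro ⟨B', K'⟩ h
        obtain ⟨⟨A1, B1, J1, K1⟩, h1, h2⟩ := Finset.mem_image.1 h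
        simp only [Prod.mk.injEq] at h2
        obtain ⟨-, -, -, -, -, -, r⟩ := mF _ _ _ _ h1
        rw [← h2.1, ← h2.2]
        exact r
  -- the total
  have hcov : S.card ≤ (S.filter fun b => b.1 = 0 ∧ b.2.1 = 0).card +
      (S.filter fun b => b.1 = 0 ∧ b.2.1 ≠ 0).card +
      (S.filter fun b => b.1 ≠ 0 ∧ b.2.2.1 = 0).card +
      (S.filter fun b => b.1 ≠ 0 ∧ b.2.2.1 ≠ 0).card := by
    refine le_trans (Finset.card_le_card (t := (((S.filter fun b => b.1 = 0 ∧ b.2.1 = 0) ∪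
      (S.filter fun b => b.1 = 0 ∧ b.2.1 ≠ 0)) ∪
      (S.filter fun b => b.1 ≠ 0 ∧ b.2.2.1 = 0)) ∪
      (S.filter fun b => b.1 ≠ 0 ∧ b.2.2.1 ≠ 0)) ?_) ?_
    · intro b hb
      simp only [Finset.mem_union, Finset.mem_filter]
      tauto
    · refine (Finset.card_union_le _ _).trans (Nat.add_le_add_right ?_ _)
      refine (Finset.card_union_le _ _).trans (Nat.add_le_add_right ?_ _)
      exact Finset.card_union_le _ _
  have hcov' : (S.card : ℝ) ≤ ((S.filter fun b => b.1 = 0 ∧ b.2.1 = 0).card : ℝ) +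
      ((S.filter fun b => b.1 = 0 ∧ b.2.1 ≠ 0).card : ℝ) +
      ((S.filter fun b => b.1 ≠ 0 ∧ b.2.2.1 = 0).card : ℝ) +
      ((S.filter fun b => b.1 ≠ 0 ∧ b.2.2.1 ≠ 0).card : ℝ) := by exact_mod_cast hcov
  have cI' : ((I ×ˢ I).card : ℝ) ≤ 9 * (s : ℝ) ^ 2 := by exact_mod_cast cI
  have c1' : ((S.filter fun b => b.1 = 0 ∧ b.2.1 = 0).card : ℝ) ≤ ((I ×ˢ I).card : ℝ) := by
    exact_mod_cast c1
  have c2' : ((S.filter fun b => b.1 = 0 ∧ b.2.1 ≠ 0).card : ℝ) ≤ ((I ×ˢ I).card : ℝ) := by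
    exact_mod_cast c2
  have c3' : ((S.filter fun b => b.1 ≠ 0 ∧ b.2.2.1 = 0).card : ℝ) ≤
      3 * ((I ×ˢ I).card : ℝ) := by
    exact_mod_cast c3
  have hT2 : 1 ≤ T ^ 2 := one_le_pow₀ hT1
  have hX : 0 ≤ ((I ×ˢ I).card : ℝ) := Nat.cast_nonneg _
  calc (S.card : ℝ) ≤ ((I ×ˢ I).card : ℝ) * (5 + 3 * T ^ 2) := by linarith
    _ ≤ ((I ×ˢ I).card : ℝ) * (8 * T ^ 2) := mul_le_mul_of_nonneg_left (by linarith) hX
    _ ≤ 9 * (s : ℝ) ^ 2 * (8 * T ^ 2) := mul_le_mul_of_nonneg_right cI' (by positivity)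
    _ = 72 * T ^ 2 * (s : ℝ) ^ 2 := by ring

end Pool.Agent.FTB
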