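import Pool.Agent.FTB.Rtb

/-!
# FTB/Gsm: the sum of the greatest common divisors

PROOF.  If `s = 0` then `Q4 s` is empty.  Let `s ≥ 1`.
PROOF of `gsm1`.  `card (Q4 s) ≤ (2 s + 1) ^ 4 ≤ (3 s) ^ 4`.
PROOF of `gsm2`.  For `b ∈ Q4 s` we have `1 ≤ gB b ≤ s` (it divides a non-zero coordinate), and
`gB b ≤ ∑ d ∈ Icc 1 s, if d ∣ gB b then d else 0` (term `d = gB b`).  So
`∑ b, gB b ≤ ∑ d ∈ Icc 1 s, d * card {b ∈ Q4 s : d ∣ gB b}`; if `d ∣ gB b` then `b = d b'` with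
`b' ∈ [-(s / d), s / d] ^ 4`, so this card is at most `(2 (s / d) + 1) ^ 4 ≤ (3 s / d) ^ 4`
(`s / d ≥ 1` the natural quotient, `2 ⌊s/d⌋ + 1 ≤ 3 ⌊s/d⌋ ≤ 3 s / d`).  So the sum is at most
`81 s ^ 4 ∑ d, 1 / d ^ 3 ≤ 162 s ^ 4` (`∑ 1 / d ^ 2 ≤ 2`: `Finset.sum_Ioc_inv_sq_le_sub` or
`1 / d ^ 2 ≤ 1 / (d - 1) - 1 / d` telescoping).
-/

set_option autoImplicit false

namespace Pool.Agent.FTB

/-- the set of `d` times a box -/
private theorem gsm_card4 (t : ℕ) :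
    (Finset.Icc (-(t : ℤ)) t ×ˢ Finset.Icc (-(t : ℤ)) t ×ˢ Finset.Icc (-(t : ℤ)) t ×ˢ
      Finset.Icc (-(t : ℤ)) t).card = (2 * t + 1) ^ 4 := by
  have h : (Finset.Icc (-(t : ℤ)) t).card = 2 * t + 1 := by
    rw [Int.card_Icc]
    omega
  simp only [Finset.card_product, h]
  ring

theorem gsm1 (s : ℕ) : ((Q4 s).card : ℝ) ≤ 81 * (s : ℝ) ^ 4 := by
  rcases Nat.eq_zero_or_pos s with h0 | h0
  · subst h0
    have : Q4 0 = ∅ := by
      apply Finset.eq_empty_of_forall_notMem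
      intro b hb
      rw [mem_Q4] at hb
      obtain ⟨h1, h2, h3, h4, h5⟩ := hb
      apply h1
      have e1 : b.1 = 0 := by
        have := abs_le.1 h2
        simp only [Nat.cast_zero] at this
        omega
      have e2 : b.2.1 = 0 := by
        have := abs_le.1 h3
        simp only [Nat.cast_zero] at this
        omega
      have e3 : b.2.2.1 = 0 := by
        have := abs_le.1 h4
        simp only [Nat.cast_zero] at this
        omega
      have e4 : b.2.2.2 = 0 := by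
        have := abs_le.1 h5
        simp only [Nat.cast_zero] at this
        omega
      exact Prod.ext e1 (Prod.ext e2 (Prod.ext e3 e4))
    rw [this]
    simp
  · have h1 : (Q4 s).card ≤ (2 * s + 1) ^ 4 := by
      unfold Q4
      exact (Finset.card_le_card (Finset.erase_subset _ _)).trans (gsm_card4 s).le
    have h2 : (2 * s + 1) ^ 4 ≤ (3 * s) ^ 4 := Nat.pow_le_pow_left (by omega) 4
    have h3 : ((Q4 s).card : ℝ) ≤ ((3 * s : ℕ) : ℝ) ^ 4 := by exact_mod_cast h1.trans h2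
    refine h3.trans (le_of_eq ?_)
    push_cast
    ring

theorem gB_pos (s : ℕ) (b : ℤ × ℤ × ℤ × ℤ) (hb : b ∈ Q4 s) : 1 ≤ gB b ∧ gB b ≤ s := by
  rw [mem_Q4] at hb
  obtain ⟨h1, h2, h3, h4, h5⟩ := hb
  have hn : ∀ a : ℤ, |a| ≤ s → a.natAbs ≤ s := by
    intro a ha
    rw [Int.abs_eq_natAbs] at ha
    exact_mod_cast ha
  have key : ∀ a : ℤ, a ≠ 0 → |a| ≤ s → ((gB b : ℤ) ∣ a) → 1 ≤ gB b ∧ gB b ≤ s := by
    intro a ha has hd
    have hd' : gB b ∣ a.natAbs := Int.natCast_dvd.1 hd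
    have hpos : 0 < a.natAbs := Int.natAbs_pos.2 ha
    exact ⟨Nat.pos_of_dvd_of_pos hd' hpos, (Nat.le_of_dvd hpos hd').trans (hn a has)⟩
  obtain ⟨d1, d2, d3, d4⟩ := gB_dvd b
  by_cases a1 : b.1 = 0
  · by_cases a2 : b.2.1 = 0
    · by_cases a3 : b.2.2.1 = 0
      · by_cases a4 : b.2.2.2 = 0
        · exact absurd (Prod.ext a1 (Prod.ext a2 (Prod.ext a3 a4))) h1
        · exact key _ a4 h5 d4
      · exact key _ a3 h4 d3
    · exact key _ a2 h3 d2
  · exact key _ a1 h2 d1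

private theorem gsm_div (s d : ℕ) (hd : 1 ≤ d) (hds : d ≤ s) :
    (((Q4 s).filter fun b => d ∣ gB b).card : ℝ) ≤ 81 * (s : ℝ) ^ 4 / (d : ℝ) ^ 4 := by
  classical
  set t := s / d with ht
  have ht1 : 1 ≤ t := (Nat.one_le_div_iff (by omega)).2 hds
  have h1 : ((Q4 s).filter fun b => d ∣ gB b).card ≤ (2 * t + 1) ^ 4 := by
    rw [← gsm_card4 t]
    apply Finset.card_le_card_of_injOn
      (fun b : ℤ × ℤ × ℤ × ℤ => (b.1 / (d : ℤ), b.2.1 / (d : ℤ), b.2.2.1 / (d : ℤ),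
        b.2.2.2 / (d : ℤ)))
    · intro b hb
      have hb' := Finset.mem_filter.1 (Finset.mem_coe.1 hb)
      obtain ⟨hbQ, hbd⟩ := hb'
      rw [mem_Q4] at hbQ
      obtain ⟨-, h2, h3, h4, h5⟩ := hbQ
      obtain ⟨d1, d2, d3, d4⟩ := gB_dvd b
      have hdz : (d : ℤ) ∣ (gB b : ℤ) := Int.natCast_dvd_natCast.2 hbd
      have key : ∀ a : ℤ, |a| ≤ s → (d : ℤ) ∣ a → a / (d : ℤ) ∈ Finset.Icc (-(t : ℤ)) t := by
        intro a ha hda
        obtain ⟨q, rfl⟩ := hda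
        have hd0 : (d : ℤ) ≠ 0 := by exact_mod_cast (by omega : d ≠ 0)
        rw [Int.mul_ediv_cancel_left _ hd0, Finset.mem_Icc, ← abs_le]
        have h6 : (d : ℤ) * |q| ≤ s := by
          rw [abs_mul, abs_of_nonneg (by positivity : (0 : ℤ) ≤ d)] at ha
          exact ha
        have h7 : d * q.natAbs ≤ s := by
          rw [Int.abs_eq_natAbs] at h6
          exact_mod_cast h6
        have h8 : q.natAbs ≤ t := by
          rw [ht, Nat.le_div_iff_mul_le (by omega), mul_comm]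
          exact h7
        rw [Int.abs_eq_natAbs]
        exact_mod_cast h8
      simp only [Finset.coe_product, Set.mem_prod, Finset.mem_coe]
      exact ⟨key _ h2 (hdz.trans d1), key _ h3 (hdz.trans d2), key _ h4 (hdz.trans d3),
        key _ h5 (hdz.trans d4)⟩
    · intro b hb b' hb' e
      have hbd := (Finset.mem_filter.1 (Finset.mem_coe.1 hb)).2
      have hbd' := (Finset.mem_filter.1 (Finset.mem_coe.1 hb')).2
      obtain ⟨d1, d2, d3, d4⟩ := gB_dvd b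
      obtain ⟨d1', d2', d3', d4'⟩ := gB_dvd b'
      have hdz : (d : ℤ) ∣ (gB b : ℤ) := Int.natCast_dvd_natCast.2 hbd
      have hdz' : (d : ℤ) ∣ (gB b' : ℤ) := Int.natCast_dvd_natCast.2 hbd'
      simp only [Prod.mk.injEq] at e
      obtain ⟨e1, e2, e3, e4⟩ := e
      have key : ∀ a a' : ℤ, (d : ℤ) ∣ a → (d : ℤ) ∣ a' → a / (d : ℤ) = a' / (d : ℤ) → a = a' := by
        intro a a' h1 h2 h3
        rw [← Int.mul_ediv_cancel' h1, ← Int.mul_ediv_cancel' h2, h3]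
      exact Prod.ext (key _ _ (hdz.trans d1) (hdz'.trans d1') e1)
        (Prod.ext (key _ _ (hdz.trans d2) (hdz'.trans d2') e2)
          (Prod.ext (key _ _ (hdz.trans d3) (hdz'.trans d3') e3)
            (key _ _ (hdz.trans d4) (hdz'.trans d4') e4)))
  have h2 : (2 * t + 1) ^ 4 ≤ (3 * t) ^ 4 := Nat.pow_le_pow_left (by omega) 4
  have hd0 : (0 : ℝ) < d := by exact_mod_cast hd
  have h3 : (t : ℝ) ≤ s / d := Nat.cast_div_le
  have h4 : (((Q4 s).filter fun b => d ∣ gB b).card : ℝ) ≤ (3 * (t : ℝ)) ^ 4 := by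
    exact_mod_cast h1.trans h2
  refine h4.trans ?_
  have h5 : (3 * (t : ℝ)) ^ 4 ≤ (3 * ((s : ℝ) / d)) ^ 4 :=
    pow_le_pow_left₀ (by positivity) (by linarith) 4
  refine h5.trans (le_of_eq ?_)
  rw [mul_pow, div_pow]
  ring

private theorem gsm_sum3 (s : ℕ) : ∑ d ∈ Finset.Icc 1 s, 1 / (d : ℝ) ^ 3 ≤ 2 := by
  have key : ∀ n : ℕ, 1 ≤ n → ∑ d ∈ Finset.Icc 1 n, 1 / (d : ℝ) ^ 3 ≤ 2 - 1 / (n : ℝ) := by
    intro n hn1
    induction n, hn1 using Nat.le_induction with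
    | base => norm_num
    | succ n hn1 ih =>
      rw [Finset.sum_Icc_succ_top (by omega)]
      have hn : (1 : ℝ) ≤ n := by exact_mod_cast hn1
      have h1 : 1 / (((n + 1 : ℕ) : ℝ)) ^ 3 ≤ 1 / (n : ℝ) - 1 / ((n : ℝ) + 1) := by
        push_cast
        rw [div_sub_div _ _ (by positivity) (by positivity), div_le_div_iff₀ (by positivity)
          (by positivity)]
        nlinarith [mul_nonneg (by linarith : (0 : ℝ) ≤ n) (by linarith : (0 : ℝ) ≤ n),
          mul_nonneg (mul_nonneg (by linarith : (0 : ℝ) ≤ n) (by linarith : (0 : ℝ) ≤ n))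
            (by linarith : (0 : ℝ) ≤ n)]
      push_cast at h1 ⊢
      linarith
  rcases Nat.eq_zero_or_pos s with h0 | h0
  · subst h0
    simp
  · have h := key s h0
    have : (0 : ℝ) ≤ 1 / (s : ℝ) := by positivity
    linarith

theorem gsm2 (s : ℕ) : ∑ b ∈ Q4 s, (gB b : ℝ) ≤ 162 * (s : ℝ) ^ 4 := by
  classical
  have h1 : ∑ b ∈ Q4 s, (gB b : ℝ) ≤
      ∑ b ∈ Q4 s, ∑ d ∈ Finset.Icc 1 s, if d ∣ gB b then (d : ℝ) else 0 := by
    apply Finset.sum_le_sum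
    intro b hb
    obtain ⟨g1, g2⟩ := gB_pos s b hb
    have h2 : (if gB b ∣ gB b then ((gB b : ℕ) : ℝ) else 0) ≤
        ∑ d ∈ Finset.Icc 1 s, if d ∣ gB b then (d : ℝ) else 0 := by
      apply Finset.single_le_sum (f := fun d : ℕ => if d ∣ gB b then (d : ℝ) else 0)
      · intro d _
        split_ifs
        · exact Nat.cast_nonneg d
        · exact le_refl 0
      · rw [Finset.mem_Icc]
        exact ⟨g1, g2⟩
    rwa [if_pos (dvd_refl _)] at h2
  refine h1.trans ?_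
  rw [Finset.sum_comm]
  have h2 : ∀ d ∈ Finset.Icc 1 s, (∑ b ∈ Q4 s, if d ∣ gB b then (d : ℝ) else 0) ≤
      81 * (s : ℝ) ^ 4 * (1 / (d : ℝ) ^ 3) := by
    intro d hd
    rw [Finset.mem_Icc] at hd
    obtain ⟨hd1, hd2⟩ := hd
    have hd0 : (0 : ℝ) < d := by exact_mod_cast hd1
    rw [← Finset.sum_filter, Finset.sum_const, nsmul_eq_mul]
    have h3 := mul_le_mul_of_nonneg_right (gsm_div s d hd1 hd2) hd0.le
    refine h3.trans (le_of_eq ?_)
    field_simp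
  refine (Finset.sum_le_sum h2).trans ?_
  rw [← Finset.mul_sum]
  have h3 := mul_le_mul_of_nonneg_left (gsm_sum3 s) (by positivity : (0 : ℝ) ≤ 81 * (s : ℝ) ^ 4)
  linarith

end Pool.Agent.FTB
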