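import Pool.Agent.FTB.Defs

/-!
# FTB/Omg: `3 ^ ω(n) ≤ τ(n) ^ 2`

PROOF.  `2 ^ ω(n) ≤ τ(n)` (`Nat.card_divisors : (divisors n).card = ∏ x ∈ n.primeFactors,
(n.factorization x + 1)`, every factor is at least 2), and `3 ^ ω ≤ 4 ^ ω = (2 ^ ω) ^ 2`.
-/

set_option autoImplicit false

namespace Pool.Agent.FTB

theorem omg (n : ℕ) (hn : 1 ≤ n) : 3 ^ n.primeFactors.card ≤ n.divisors.card ^ 2 := by
  have hn0 : n ≠ 0 := by omega
  have h1 : 2 ^ n.primeFactors.card ≤ n.divisors.card := by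
    rw [Nat.card_divisors hn0]
    refine Finset.pow_card_le_prod _ _ _ fun p hp => ?_
    have h2 : 0 < n.factorization p :=
      (Nat.prime_of_mem_primeFactors hp).factorization_pos_of_dvd hn0
        (Nat.dvd_of_mem_primeFactors hp)
    omega
  calc 3 ^ n.primeFactors.card ≤ 4 ^ n.primeFactors.card :=
        Nat.pow_le_pow_left (by norm_num) _
    _ = (2 ^ n.primeFactors.card) ^ 2 := by
        rw [← pow_mul, mul_comm, pow_mul]
        norm_num
    _ ≤ n.divisors.card ^ 2 := Nat.pow_le_pow_left h1 2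

end Pool.Agent.FTB
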