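import Pool.Agent.FTB.Defs

/-!
# FTB/ReF: the resultant

With `F = fF A B J c v`, `G = gF B J K c v`:
`v ^ 5 * RF A B J K = F * (a0 c ^ 2 + a1 c v + a2 v ^ 2) + G * (b0 c ^ 2 + b1 c v + b2 v ^ 2)`,
a0 = 50*A^2*B*J*K+30*A*B^2*J^2+4*B^5,
a1 = 100*A^2*J^2*K-10*A*B^3*K+80*A*B*J^3+10*B^4*J,
a2 = 25*A^2*B*K^2-10*A*B^2*J*K+40*A*J^4+5*B^3*J^2,
b0 = -250*A^3*J*K-150*A^2*B*J^2-20*A*B^4,
b1 = 50*A^2*B^2*K-100*A^2*J^3-10*A*B^3*J,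
b2 = -125*A^3*K^2-150*A^2*B*J*K-65*A*B^2*J^2-8*B^5 (check by `ring`).
So `n ∣ v ^ 5 * RF`, and `n` is coprime to `v`.
-/

set_option autoImplicit false

namespace Pool.Agent.FTB

theorem ref_id (A B J K c v : ℤ) : v ^ 5 * RF A B J K =
    fF A B J c v * ((50*A^2*B*J*K+30*A*B^2*J^2+4*B^5) * c ^ 2 +
      (100*A^2*J^2*K-10*A*B^3*K+80*A*B*J^3+10*B^4*J) * c * v +
      (25*A^2*B*K^2-10*A*B^2*J*K+40*A*J^4+5*B^3*J^2) * v ^ 2) +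
    gF B J K c v * ((-250*A^3*J*K-150*A^2*B*J^2-20*A*B^4) * c ^ 2 +
      (50*A^2*B^2*K-100*A^2*J^3-10*A*B^3*J) * c * v +
      (-125*A^3*K^2-150*A^2*B*J*K-65*A*B^2*J^2-8*B^5) * v ^ 2) := by
  unfold RF fF gF
  ring

theorem ref_dvd (n : ℕ) (b : ℤ × ℤ × ℤ × ℤ) (c v : ℕ) (hv : Nat.Coprime n v)
    (h : DvF n b c v) : (n : ℤ) ∣ RF b.1 b.2.1 b.2.2.1 b.2.2.2 := by
  obtain ⟨h1, h2⟩ := h
  have h3 : (n : ℤ) ∣ (v : ℤ) ^ 5 * RF b.1 b.2.1 b.2.2.1 b.2.2.2 := by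
    rw [ref_id b.1 b.2.1 b.2.2.1 b.2.2.2 c v]
    exact dvd_add (h1.mul_right _) (h2.mul_right _)
  have h4 : IsCoprime (n : ℤ) ((v : ℤ) ^ 5) := (Nat.isCoprime_iff_coprime.2 hv).pow_right
  exact h4.dvd_of_dvd_mul_left h3

end Pool.Agent.FTB
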