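import Pool.Agent.FTB.ClN
import Pool.Agent.FTB.Omg
import Pool.Agent.FTB.ReF

/-!
# FTB/Non: quadruples with non-zero resultant

PROOF of `non`.  Let `κ = gB b ≥ 1` (`b ≠ 0`), `b = κ b'` with `gB b' = 1` (`gB_dvd`, `dvd_gB`).
`RF b = κ ^ 6 RF b'` (homogeneous of degree 6), so `R' := |RF b'|` is between 1 and `Z`.  For
`n ∈ Ico 1 m` let `d = gcd (n, κ)`, `n = d n'`.  Then `Ac C V n b ⊆ Ac C V n' b'`: `n'` divides `n`
so it is coprime to `10 c v`, and `n ∣ κ fF b'` gives `n' ∣ (κ / d) fF b'`, `n'` coprime to `κ / d`,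
so `n' ∣ fF b'` (same for `gF`).  If `Ac C V n' b'` is not empty then `n' ∣ RF b'` (`ref_dvd`), i.e.
`n' ∈ divisors R'`.  By `cln` and `omg` (`τ(n') ≤ T`):
`n * card (Ac C V n b) ≤ d n' T ^ 2 (1 + 4 C V / n') = T ^ 2 (n + 4 C V d) ≤ T ^ 2 (m + 4 C V κ)`
if `n' ∣ RF b'`, and it is `0` otherwise.  The map `n ↦ (d, n')` is injective with values in
`divisors κ × divisors R'` for the relevant `n`, so there are at most `T ^ 2` of them.
-/

set_option autoImplicit false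

namespace Pool.Agent.FTB

private theorem non_fF (k A B J c v : ℤ) : fF (k * A) (k * B) (k * J) c v = k * fF A B J c v := by
  unfold fF; ring

private theorem non_gF (k B J K c v : ℤ) : gF (k * B) (k * J) (k * K) c v = k * gF B J K c v := by
  unfold gF; ring

private theorem non_RF (k A B J K : ℤ) : RF (k * A) (k * B) (k * J) (k * K) =
    k ^ 6 * RF A B J K := by
  unfold RF; ring

private theorem non_prim (b : ℤ × ℤ × ℤ × ℤ) (h : gB b ≠ 0) : ∃ A B J K : ℤ,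
    b = ((gB b : ℤ) * A, (gB b : ℤ) * B, (gB b : ℤ) * J, (gB b : ℤ) * K) ∧
      gB (A, B, J, K) = 1 := by
  obtain ⟨a1, a2, a3, a4⟩ := b
  have d1 : gB (a1, a2, a3, a4) ∣ a1.natAbs := Nat.gcd_dvd_left _ _
  have d2 : gB (a1, a2, a3, a4) ∣ a2.natAbs := (Nat.gcd_dvd_right _ _).trans (Nat.gcd_dvd_left _ _)
  have d3 : gB (a1, a2, a3, a4) ∣ a3.natAbs :=
    (Nat.gcd_dvd_right _ _).trans ((Nat.gcd_dvd_right _ _).trans (Nat.gcd_dvd_left _ _))
  have d4 : gB (a1, a2, a3, a4) ∣ a4.natAbs :=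
    (Nat.gcd_dvd_right _ _).trans ((Nat.gcd_dvd_right _ _).trans (Nat.gcd_dvd_right _ _))
  obtain ⟨A, hA⟩ := Int.natCast_dvd.2 d1
  obtain ⟨B, hB⟩ := Int.natCast_dvd.2 d2
  obtain ⟨J, hJ⟩ := Int.natCast_dvd.2 d3
  obtain ⟨K, hK⟩ := Int.natCast_dvd.2 d4
  refine ⟨A, B, J, K, ?_, ?_⟩
  · rw [← hA, ← hB, ← hJ, ← hK]
  · generalize hk : gB (a1, a2, a3, a4) = k at *
    have e : k = k * gB (A, B, J, K) := by
      conv_lhs => rw [← hk]
      unfold gB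
      dsimp only
      rw [hA, hB, hJ, hK, Int.natAbs_mul, Int.natAbs_mul, Int.natAbs_mul, Int.natAbs_mul,
        Int.natAbs_natCast, Nat.gcd_mul_left, Nat.gcd_mul_left, Nat.gcd_mul_left]
    exact (Nat.eq_of_mul_eq_mul_left (Nat.pos_of_ne_zero h) (by rw [mul_one]; exact e)).symm

private theorem non_dvd {n' d k' : ℕ} (hd : d ≠ 0) (hc : Nat.Coprime n' k') {x : ℤ}
    (h : ((d * n' : ℕ) : ℤ) ∣ ((d * k' : ℕ) : ℤ) * x) : (n' : ℤ) ∣ x := by
  obtain ⟨y, hy⟩ := h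
  have hd' : (d : ℤ) ≠ 0 := by exact_mod_cast hd
  have e : (k' : ℤ) * x = n' * y := by
    apply mul_left_cancel₀ hd'
    push_cast at hy
    linarith
  have h2 : (n' : ℤ) ∣ (k' : ℤ) * x := ⟨y, e⟩
  exact (Nat.isCoprime_iff_coprime.2 hc).dvd_of_dvd_mul_left h2

theorem non (C V m Z : ℕ) (T : ℝ) (hV : 1 ≤ V) (hT : TauB Z T) (b : ℤ × ℤ × ℤ × ℤ)
    (hR : RF b.1 b.2.1 b.2.2.1 b.2.2.2 ≠ 0) (hRZ : (RF b.1 b.2.1 b.2.2.1 b.2.2.2).natAbs ≤ Z)
    (hg : gB b ≤ Z) (hm : m ≤ Z) :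
    ∑ n ∈ Finset.Ico 1 m, (n : ℝ) * ((Ac C V n b).card : ℝ) ≤
      T ^ 4 * ((m : ℝ) + 4 * (C : ℝ) * V * (gB b : ℝ)) := by
  classical
  have hk : gB b ≠ 0 := by
    intro h0
    apply hR
    unfold gB at h0
    rw [Nat.gcd_eq_zero_iff, Nat.gcd_eq_zero_iff, Nat.gcd_eq_zero_iff] at h0
    obtain ⟨h1, h2, h3, h4⟩ := h0
    rw [Int.natAbs_eq_zero.1 h1, Int.natAbs_eq_zero.1 h2, Int.natAbs_eq_zero.1 h3,
      Int.natAbs_eq_zero.1 h4]
    unfold RF
    norm_num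
  obtain ⟨A, B, J, K, hb, hg1⟩ := non_prim b hk
  generalize hκ : gB b = κ at *
  have hκ1 : 1 ≤ κ := Nat.one_le_iff_ne_zero.2 hk
  set b' : ℤ × ℤ × ℤ × ℤ := (A, B, J, K) with hb'
  have e6 : RF b.1 b.2.1 b.2.2.1 b.2.2.2 = (κ : ℤ) ^ 6 * RF A B J K := by
    rw [hb]; exact non_RF _ _ _ _ _
  have hR' : RF A B J K ≠ 0 := by
    intro h0
    exact hR (by rw [e6, h0, mul_zero])
  have hR1 : 1 ≤ (RF A B J K).natAbs := Nat.one_le_iff_ne_zero.2 (Int.natAbs_ne_zero.2 hR')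
  have hRZ' : (RF A B J K).natAbs ≤ Z := by
    refine le_trans ?_ hRZ
    rw [e6, Int.natAbs_mul, Int.natAbs_pow, Int.natAbs_natCast]
    exact Nat.le_mul_of_pos_left _ (by positivity)
  have hTp : (0 : ℝ) ≤ T := by linarith [hT.1]
  -- the comparison of the sets
  have hsub : ∀ n : ℕ, 1 ≤ n → Ac C V n b ⊆ Ac C V (n / Nat.gcd n κ) b' := by
    intro n hn x hx
    have hd : Nat.gcd n κ ≠ 0 := Nat.gcd_ne_zero_left (by omega)
    have en : Nat.gcd n κ * (n / Nat.gcd n κ) = n := Nat.mul_div_cancel' (Nat.gcd_dvd_left _ _)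
    have ek : Nat.gcd n κ * (κ / Nat.gcd n κ) = κ := Nat.mul_div_cancel' (Nat.gcd_dvd_right _ _)
    have hc : Nat.Coprime (n / Nat.gcd n κ) (κ / Nat.gcd n κ) :=
      Nat.coprime_div_gcd_div_gcd (Nat.pos_of_ne_zero hd)
    rw [mem_Ac] at hx ⊢
    obtain ⟨h1, h2, h3, h4⟩ := hx
    refine ⟨h1, Nat.Coprime.coprime_dvd_left ⟨Nat.gcd n κ, by rw [mul_comm]; exact en.symm⟩ h2,
      ?_, ?_⟩
    · apply non_dvd hd hc
      rw [en, ek, ← non_fF]
      rw [hb] at h3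
      exact h3
    · apply non_dvd hd hc
      rw [en, ek, ← non_gF]
      rw [hb] at h4
      exact h4
  have hpos : ∀ n : ℕ, 1 ≤ n → 1 ≤ n / Nat.gcd n κ := by
    intro n hn
    apply Nat.div_pos
    · exact Nat.le_of_dvd (by omega) (Nat.gcd_dvd_left _ _)
    · exact Nat.gcd_pos_of_pos_left _ (by omega)
  -- the relevant `n`
  set S : Finset ℕ := (Finset.Ico 1 m).filter
    (fun n => n / Nat.gcd n κ ∣ (RF A B J K).natAbs) with hS
  have hz : ∀ n ∈ Finset.Ico 1 m, n ∉ S → (n : ℝ) * ((Ac C V n b).card : ℝ) = 0 := by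
    intro n hn hnS
    rw [Finset.mem_Ico] at hn
    have : Ac C V n b = ∅ := by
      by_contra hne
      obtain ⟨x, hx⟩ := Finset.nonempty_iff_ne_empty.2 hne
      apply hnS
      rw [hS, Finset.mem_filter, Finset.mem_Ico]
      refine ⟨hn, ?_⟩
      have hx' := hsub n hn.1 hx
      rw [mem_Ac] at hx'
      obtain ⟨_, h2, h3⟩ := hx'
      have h4 := ref_dvd _ b' x.1 x.2 (Nat.Coprime.coprime_mul_left_right h2) h3
      exact Int.natCast_dvd.1 h4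
    rw [this, Finset.card_empty, Nat.cast_zero, mul_zero]
  have hcard : (S.card : ℝ) ≤ T * T := by
    have h1 : S.card ≤ (κ.divisors ×ˢ (RF A B J K).natAbs.divisors).card := by
      apply Finset.card_le_card_of_injOn (fun n => (Nat.gcd n κ, n / Nat.gcd n κ))
      · intro n hn
        rw [Finset.mem_coe, hS, Finset.mem_filter, Finset.mem_Ico] at hn
        rw [Finset.mem_coe, Finset.mem_product]
        exact ⟨Nat.mem_divisors.2 ⟨Nat.gcd_dvd_right _ _, hk⟩,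
          Nat.mem_divisors.2 ⟨hn.2, by omega⟩⟩
      · intro n1 _ n2 _ h12
        rw [Prod.mk.injEq] at h12
        have e1 : Nat.gcd n1 κ * (n1 / Nat.gcd n1 κ) = n1 :=
          Nat.mul_div_cancel' (Nat.gcd_dvd_left _ _)
        have e2 : Nat.gcd n2 κ * (n2 / Nat.gcd n2 κ) = n2 :=
          Nat.mul_div_cancel' (Nat.gcd_dvd_left _ _)
        rw [← e1, ← e2, h12.2, h12.1]
    rw [Finset.card_product] at h1
    calc (S.card : ℝ) ≤ ((κ.divisors.card * (RF A B J K).natAbs.divisors.card : ℕ) : ℝ) := by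
          exact_mod_cast h1
      _ = (κ.divisors.card : ℝ) * ((RF A B J K).natAbs.divisors.card : ℝ) := by push_cast; ring
      _ ≤ T * T := mul_le_mul (hT.2 κ hκ1 hg) (hT.2 _ hR1 hRZ') (Nat.cast_nonneg _) hTp
  have hterm : ∀ n ∈ S, (n : ℝ) * ((Ac C V n b).card : ℝ) ≤
      T ^ 2 * ((m : ℝ) + 4 * (C : ℝ) * V * (κ : ℝ)) := by
    intro n hn
    rw [hS, Finset.mem_filter, Finset.mem_Ico] at hn
    obtain ⟨⟨hn1, hnm⟩, hdv⟩ := hn
    have hn' := hpos n hn1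
    have hle : n / Nat.gcd n κ ≤ Z := (Nat.le_of_dvd (by omega) hdv).trans hRZ'
    have h1 : ((Ac C V n b).card : ℝ) ≤ ((Ac C V (n / Nat.gcd n κ) b').card : ℝ) := by
      exact_mod_cast Finset.card_le_card (hsub n hn1)
    have h2 := cln (n / Nat.gcd n κ) C V hn' hV b' hg1
    have h3 : (3 : ℝ) ^ (n / Nat.gcd n κ).primeFactors.card ≤ T ^ 2 := by
      have ho := omg _ hn'
      calc (3 : ℝ) ^ (n / Nat.gcd n κ).primeFactors.card ≤
            ((n / Nat.gcd n κ).divisors.card : ℝ) ^ 2 := by exact_mod_cast ho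
        _ ≤ T ^ 2 := pow_le_pow_left₀ (Nat.cast_nonneg _) (hT.2 _ hn' hle) 2
    have en : (Nat.gcd n κ : ℝ) * ((n / Nat.gcd n κ : ℕ) : ℝ) = n := by
      exact_mod_cast Nat.mul_div_cancel' (Nat.gcd_dvd_left n κ)
    have hdk : (Nat.gcd n κ : ℝ) ≤ κ := by
      exact_mod_cast Nat.le_of_dvd (by omega) (Nat.gcd_dvd_right n κ)
    generalize (n / Nat.gcd n κ) = n' at *
    generalize Nat.gcd n κ = d at *
    have hn0 : (0 : ℝ) < (n' : ℝ) := by exact_mod_cast hn'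
    have hC : (0 : ℝ) ≤ (C : ℝ) := Nat.cast_nonneg _
    have hV0 : (0 : ℝ) ≤ (V : ℝ) := Nat.cast_nonneg _
    have hnm' : (n : ℝ) ≤ m := by exact_mod_cast hnm.le
    have hq : (0 : ℝ) ≤ 1 + 4 * (C : ℝ) * V / n' := by positivity
    calc (n : ℝ) * ((Ac C V n b).card : ℝ) ≤
          (n : ℝ) * (3 ^ n'.primeFactors.card * (1 + 4 * (C : ℝ) * V / n')) :=
          mul_le_mul_of_nonneg_left (h1.trans h2) (Nat.cast_nonneg _)
      _ ≤ (n : ℝ) * (T ^ 2 * (1 + 4 * (C : ℝ) * V / n')) :=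
          mul_le_mul_of_nonneg_left (mul_le_mul_of_nonneg_right h3 hq) (Nat.cast_nonneg _)
      _ = T ^ 2 * ((n : ℝ) + 4 * (C : ℝ) * V * d) := by
          rw [← en]
          field_simp
      _ ≤ T ^ 2 * ((m : ℝ) + 4 * (C : ℝ) * V * (κ : ℝ)) := by
          apply mul_le_mul_of_nonneg_left _ (by positivity)
          have : 4 * (C : ℝ) * V * d ≤ 4 * (C : ℝ) * V * (κ : ℝ) :=
            mul_le_mul_of_nonneg_left hdk (by positivity)
          linarith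
  have hW : (0 : ℝ) ≤ T ^ 2 * ((m : ℝ) + 4 * (C : ℝ) * V * (κ : ℝ)) := by positivity
  calc ∑ n ∈ Finset.Ico 1 m, (n : ℝ) * ((Ac C V n b).card : ℝ)
      = ∑ n ∈ S, (n : ℝ) * ((Ac C V n b).card : ℝ) := by
        symm
        apply Finset.sum_subset (Finset.filter_subset _ _)
        exact hz
    _ ≤ ∑ _n ∈ S, T ^ 2 * ((m : ℝ) + 4 * (C : ℝ) * V * (κ : ℝ)) := Finset.sum_le_sum hterm
    _ = (S.card : ℝ) * (T ^ 2 * ((m : ℝ) + 4 * (C : ℝ) * V * (κ : ℝ))) := by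
        rw [Finset.sum_const, nsmul_eq_mul]
    _ ≤ (T * T) * (T ^ 2 * ((m : ℝ) + 4 * (C : ℝ) * V * (κ : ℝ))) :=
        mul_le_mul_of_nonneg_right hcard hW
    _ = T ^ 4 * ((m : ℝ) + 4 * (C : ℝ) * V * (κ : ℝ)) := by ring


end Pool.Agent.FTB
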