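import Pool.Agent.FTB.Defs

/-!
# FTB/Swp: exchange of the sums over `(c, v)` and over the quadruples

PROOF of `swp`.  Both sides are the sum of `n` over all `(x, n, b)` with `x ∈ Cv C V`,
`n ∈ Ico 1 m`, `n` coprime to `10 x.1 x.2`, `b ∈ Q4 s`, `DvF n b x.1 x.2`: write the cardinalities
as sums of indicators (`Finset.card_filter`, `Finset.sum_filter`) and use `Finset.sum_comm`.
(`Nn`, `Bc`, `Ac` are filters; `mem_Nn`, `mem_Bc`, `mem_Ac`.)
-/

set_option autoImplicit false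

namespace Pool.Agent.FTB

theorem swp (C V m s : ℕ) :
    ∑ x ∈ Cv C V, ∑ n ∈ Nn m x.1 x.2, (n : ℝ) * ((Bc s n x.1 x.2).card : ℝ) =
      ∑ b ∈ Q4 s, ∑ n ∈ Finset.Ico 1 m, (n : ℝ) * ((Ac C V n b).card : ℝ) := by
  classical
  have h1 : ∀ x ∈ Cv C V, ∑ n ∈ Nn m x.1 x.2, (n : ℝ) * ((Bc s n x.1 x.2).card : ℝ) =
      ∑ b ∈ Q4 s, ∑ n ∈ Finset.Ico 1 m,
        if Nat.Coprime n (10 * x.1 * x.2) ∧ DvF n b x.1 x.2 then (n : ℝ) else 0 := by
    intro x _
    unfold Nn Bc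
    rw [Finset.sum_filter, Finset.sum_comm]
    refine Finset.sum_congr rfl fun n _ => ?_
    split_ifs with h
    · rw [Finset.card_filter]
      push_cast
      rw [Finset.mul_sum]
      refine Finset.sum_congr rfl fun b _ => ?_
      by_cases hd : DvF n b x.1 x.2
      · rw [if_pos hd, if_pos ⟨h, hd⟩, mul_one]
      · rw [if_neg hd, if_neg (fun hh => hd hh.2), mul_zero]
    · symm
      exact Finset.sum_eq_zero fun b _ => if_neg fun hh => h hh.1
  have h2 : ∀ b ∈ Q4 s, ∑ n ∈ Finset.Ico 1 m, (n : ℝ) * ((Ac C V n b).card : ℝ) =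
      ∑ x ∈ Cv C V, ∑ n ∈ Finset.Ico 1 m,
        if Nat.Coprime n (10 * x.1 * x.2) ∧ DvF n b x.1 x.2 then (n : ℝ) else 0 := by
    intro b _
    rw [Finset.sum_comm]
    refine Finset.sum_congr rfl fun n _ => ?_
    unfold Ac
    rw [Finset.card_filter]
    push_cast
    rw [Finset.mul_sum]
    refine Finset.sum_congr rfl fun x _ => ?_
    split_ifs <;> simp
  rw [Finset.sum_congr rfl h1, Finset.sum_congr rfl h2, Finset.sum_comm]

end Pool.Agent.FTB
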