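import Pool.Agent.FTB.Defs

/-! # FTB/Bas: basic facts about `ex` and `dn` -/

set_option autoImplicit false

namespace Pool.Agent.FTB

theorem ex_add (x y : ℝ) : ex (x + y) = ex x * ex y := by
  unfold ex
  rw [← Complex.exp_add]
  congr 1
  push_cast
  ring

theorem ex_zero : ex 0 = 1 := by
  unfold ex
  simp

theorem ex_int (n : ℤ) : ex (n : ℝ) = 1 := by
  unfold ex
  have h : 2 * (Real.pi : ℂ) * ((n : ℝ) : ℂ) * Complex.I = (n : ℂ) * (2 * Real.pi * Complex.I) := by
    push_cast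
    ring
  rw [h, Complex.exp_int_mul_two_pi_mul_I]

theorem ex_neg (x : ℝ) : ex (-x) = (ex x)⁻¹ := by
  have h := ex_add x (-x)
  rw [add_neg_cancel, ex_zero] at h
  exact (inv_eq_of_mul_eq_one_right h.symm).symm

theorem norm_ex (x : ℝ) : ‖ex x‖ = 1 := by
  unfold ex
  have h : 2 * (Real.pi : ℂ) * (x : ℂ) * Complex.I = ((2 * Real.pi * x : ℝ) : ℂ) * Complex.I := by
    push_cast
    ring
  rw [h, Complex.norm_exp_ofReal_mul_I]

theorem ex_conj (x : ℝ) : (starRingEnd ℂ) (ex x) = ex (-x) := by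
  unfold ex
  have h : 2 * (Real.pi : ℂ) * (x : ℂ) * Complex.I = ((2 * Real.pi * x : ℝ) : ℂ) * Complex.I := by
    push_cast
    ring
  rw [h, ← Complex.exp_conj, map_mul, Complex.conj_ofReal, Complex.conj_I]
  congr 1
  push_cast
  ring

theorem ex_re (x : ℝ) : (ex x).re = Real.cos (2 * Real.pi * x) := by
  unfold ex
  have h : 2 * (Real.pi : ℂ) * (x : ℂ) * Complex.I = ((2 * Real.pi * x : ℝ) : ℂ) * Complex.I := by
    push_cast
    ring
  rw [h, Complex.exp_ofReal_mul_I_re]

theorem ex_sub_int (x : ℝ) (n : ℤ) : ex (x - n) = ex x := by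
  have h := ex_add (x - n) (n : ℝ)
  rw [sub_add_cancel, ex_int, mul_one] at h
  exact h.symm

theorem ex_nat_mul (j : ℕ) (x : ℝ) : ex (j * x) = (ex x) ^ j := by
  induction j with
  | zero => simp [ex_zero]
  | succ j ih =>
    rw [pow_succ, ← ih, ← ex_add]
    congr 1
    push_cast
    ring

theorem dn_nonneg (x : ℝ) : 0 ≤ dn x := abs_nonneg _

theorem dn_le_half (x : ℝ) : dn x ≤ 1 / 2 := abs_sub_round x

theorem dn_le (x : ℝ) (n : ℤ) : dn x ≤ |x - n| := round_le x n

theorem dn_exists (x : ℝ) : ∃ n : ℤ, dn x = |x - n| := ⟨round x, rfl⟩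

theorem dn_neg (x : ℝ) : dn (-x) = dn x := by
  apply le_antisymm
  · obtain ⟨n, hn⟩ := dn_exists x
    have h := dn_le (-x) (-n)
    rw [hn, abs_sub_comm x]
    refine h.trans (le_of_eq ?_)
    congr 1
    push_cast
    ring
  · obtain ⟨n, hn⟩ := dn_exists (-x)
    have h := dn_le x (-n)
    rw [hn, abs_sub_comm (-x)]
    refine h.trans (le_of_eq ?_)
    congr 1
    push_cast
    ring

theorem dn_eq_min (x : ℝ) : dn x = min (Int.fract x) (1 - Int.fract x) := abs_sub_round_eq_min x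

theorem ex_mul_round (x : ℝ) : ex x = ex (x - round x) := (ex_sub_int x _).symm

end Pool.Agent.FTB
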