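import Pool.Agent.FTB.Bas

/-!
# FTB/BsB: from the two conditions of `H0` to integers

Here `cb` is an inverse of `c` modulo `v ^ 5`, and the quadratic form is
`θ = cb ^ 5 (u ^ 2 / v - c ^ 2 u e / v ^ 3 - c ^ 4 e ^ 2 / v ^ 5)`, multiplied by `j`.

PROOF of `bsb`.  Let `n = round (2 α h1 + β h2)`, `α = j cb ^ 5 / v`, `β = -j cb ^ 5 c ^ 2 / v ^ 3`,
and `A := j cb ^ 5 (2 v ^ 2 h1 - c ^ 2 h2) - n v ^ 3`, an integer with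
`A / v ^ 3 = (2 α h1 + β h2) - n`, so `|A| / v ^ 3 = dn (..) ≤ 1 / U`.  `v ^ 3 ∣ cb * c - 1` implies
`v ^ 3 ∣ cb ^ 5 c ^ 5 - 1` (`sub_one`-divisibility of powers: `sub_dvd_pow_sub_pow`), so
`c ^ 5 A = j (cb c) ^ 5 (..) - c ^ 5 n v ^ 3 = j (2 v ^ 2 h1 - c ^ 2 h2)` modulo `v ^ 3`.
Similarly `B1 := -j cb ^ 5 (c ^ 2 v ^ 2 h1 + 2 c ^ 4 h2) - n' v ^ 5` with
`n' = round (β h1 + 2 γ h2)`, `γ = -j cb ^ 5 c ^ 4 / v ^ 5`.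
-/

set_option autoImplicit false

namespace Pool.Agent.FTB

theorem bsb (c v j U E : ℕ) (cb : ℤ) (hv : 1 ≤ v) (hU : 1 ≤ U) (hE : 1 ≤ E)
    (hcb : (v : ℤ) ^ 5 ∣ cb * c - 1) (h1 h2 : ℤ)
    (H1 : dn (2 * ((j : ℝ) * ((cb : ℝ) ^ 5 / v)) * (h1 : ℝ) +
      ((j : ℝ) * (-(cb : ℝ) ^ 5 * c ^ 2 / v ^ 3)) * (h2 : ℝ)) ≤ 1 / (U : ℝ))
    (H2 : dn (((j : ℝ) * (-(cb : ℝ) ^ 5 * c ^ 2 / v ^ 3)) * (h1 : ℝ) +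
      2 * ((j : ℝ) * (-(cb : ℝ) ^ 5 * c ^ 4 / v ^ 5)) * (h2 : ℝ)) ≤ 1 / (E : ℝ)) :
    ∃ A B1 : ℤ, |(A : ℝ)| ≤ (v : ℝ) ^ 3 / U ∧ |(B1 : ℝ)| ≤ (v : ℝ) ^ 5 / E ∧
      (v : ℤ) ^ 3 ∣ (c : ℤ) ^ 5 * A - j * (2 * (v : ℤ) ^ 2 * h1 - (c : ℤ) ^ 2 * h2) ∧
      (v : ℤ) ^ 5 ∣ (c : ℤ) ^ 5 * B1 +
        j * ((c : ℤ) ^ 2 * (v : ℤ) ^ 2 * h1 + 2 * (c : ℤ) ^ 4 * h2) := by
  have hv0 : (0 : ℝ) < (v : ℝ) := by exact_mod_cast hv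
  have hvn : (v : ℝ) ≠ 0 := hv0.ne'
  have hp : (v : ℤ) ^ 5 ∣ (cb * c) ^ 5 - 1 := by
    refine hcb.trans ?_
    have := sub_dvd_pow_sub_pow (cb * (c : ℤ)) 1 5
    simpa using this
  have hp3 : (v : ℤ) ^ 3 ∣ (cb * c) ^ 5 - 1 := (pow_dvd_pow _ (by norm_num)).trans hp
  refine ⟨j * cb ^ 5 * (2 * (v : ℤ) ^ 2 * h1 - (c : ℤ) ^ 2 * h2) -
    round (2 * ((j : ℝ) * ((cb : ℝ) ^ 5 / v)) * (h1 : ℝ) +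
      ((j : ℝ) * (-(cb : ℝ) ^ 5 * c ^ 2 / v ^ 3)) * (h2 : ℝ)) * (v : ℤ) ^ 3,
    -(j * cb ^ 5 * ((c : ℤ) ^ 2 * (v : ℤ) ^ 2 * h1 + 2 * (c : ℤ) ^ 4 * h2)) -
    round (((j : ℝ) * (-(cb : ℝ) ^ 5 * c ^ 2 / v ^ 3)) * (h1 : ℝ) +
      2 * ((j : ℝ) * (-(cb : ℝ) ^ 5 * c ^ 4 / v ^ 5)) * (h2 : ℝ)) * (v : ℤ) ^ 5, ?_, ?_, ?_, ?_⟩
  · generalize hX : 2 * ((j : ℝ) * ((cb : ℝ) ^ 5 / v)) * (h1 : ℝ) +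
      ((j : ℝ) * (-(cb : ℝ) ^ 5 * c ^ 2 / v ^ 3)) * (h2 : ℝ) = X at H1 ⊢
    have e : (((j * cb ^ 5 * (2 * (v : ℤ) ^ 2 * h1 - (c : ℤ) ^ 2 * h2) -
        round X * (v : ℤ) ^ 3 : ℤ)) : ℝ) = (X - round X) * (v : ℝ) ^ 3 := by
      rw [← hX]
      push_cast
      field_simp
      ring
    rw [e, abs_mul, abs_of_pos (by positivity : (0 : ℝ) < (v : ℝ) ^ 3)]
    unfold dn at H1
    calc |X - round X| * (v : ℝ) ^ 3 ≤ (1 / (U : ℝ)) * (v : ℝ) ^ 3 :=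
          mul_le_mul_of_nonneg_right H1 (by positivity)
      _ = (v : ℝ) ^ 3 / U := by ring
  · generalize hX : ((j : ℝ) * (-(cb : ℝ) ^ 5 * c ^ 2 / v ^ 3)) * (h1 : ℝ) +
      2 * ((j : ℝ) * (-(cb : ℝ) ^ 5 * c ^ 4 / v ^ 5)) * (h2 : ℝ) = X at H2 ⊢
    have e : (((-(j * cb ^ 5 * ((c : ℤ) ^ 2 * (v : ℤ) ^ 2 * h1 + 2 * (c : ℤ) ^ 4 * h2)) -
        round X * (v : ℤ) ^ 5 : ℤ)) : ℝ) = (X - round X) * (v : ℝ) ^ 5 := by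
      rw [← hX]
      push_cast
      field_simp
      ring
    rw [e, abs_mul, abs_of_pos (by positivity : (0 : ℝ) < (v : ℝ) ^ 5)]
    unfold dn at H2
    calc |X - round X| * (v : ℝ) ^ 5 ≤ (1 / (E : ℝ)) * (v : ℝ) ^ 5 :=
          mul_le_mul_of_nonneg_right H2 (by positivity)
      _ = (v : ℝ) ^ 5 / E := by ring
  · generalize round (2 * ((j : ℝ) * ((cb : ℝ) ^ 5 / v)) * (h1 : ℝ) +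
      ((j : ℝ) * (-(cb : ℝ) ^ 5 * c ^ 2 / v ^ 3)) * (h2 : ℝ)) = n
    have e : (c : ℤ) ^ 5 * (j * cb ^ 5 * (2 * (v : ℤ) ^ 2 * h1 - (c : ℤ) ^ 2 * h2) -
        n * (v : ℤ) ^ 3) - j * (2 * (v : ℤ) ^ 2 * h1 - (c : ℤ) ^ 2 * h2) =
        ((cb * c) ^ 5 - 1) * (j * (2 * (v : ℤ) ^ 2 * h1 - (c : ℤ) ^ 2 * h2)) +
          (v : ℤ) ^ 3 * (-(c : ℤ) ^ 5 * n) := by ring
    rw [e]
    exact dvd_add (Dvd.dvd.mul_right hp3 _) (dvd_mul_right _ _)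
  · generalize round (((j : ℝ) * (-(cb : ℝ) ^ 5 * c ^ 2 / v ^ 3)) * (h1 : ℝ) +
      2 * ((j : ℝ) * (-(cb : ℝ) ^ 5 * c ^ 4 / v ^ 5)) * (h2 : ℝ)) = n
    have e : (c : ℤ) ^ 5 * (-(j * cb ^ 5 * ((c : ℤ) ^ 2 * (v : ℤ) ^ 2 * h1 +
        2 * (c : ℤ) ^ 4 * h2)) - n * (v : ℤ) ^ 5) +
        j * ((c : ℤ) ^ 2 * (v : ℤ) ^ 2 * h1 + 2 * (c : ℤ) ^ 4 * h2) =
        ((cb * c) ^ 5 - 1) * (-(j * ((c : ℤ) ^ 2 * (v : ℤ) ^ 2 * h1 +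
          2 * (c : ℤ) ^ 4 * h2))) + (v : ℤ) ^ 5 * (-(c : ℤ) ^ 5 * n) := by ring
    rw [e]
    exact dvd_add (Dvd.dvd.mul_right hp _) (dvd_mul_right _ _)

end Pool.Agent.FTB
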