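import Pool.Agent.FTB.BsA
import Pool.Agent.FTB.BsB

/-!
# FTB/Bin: the number of difference vectors is bounded by the number of quadruples

PROOF of `bin`.  For `h ∈ H0`, `h ≠ 0`, take `A, B1` from `bsb` and `B, J, K` from `bsa`.
`5 j h2 = fF A B J c v` and `5 j h1 = gF B J K c v`, so `(A, B, J, K)` determines `h` (`j ≥ 1`), and
it is not `(0, 0, 0, 0)` since `h ≠ 0`; and `DvF (5 * j)` holds.  Bounds: `|A| ≤ v ^ 3 / U ≤ sA`,
`|B| = |B1 - 2 c ^ 2 A| / v ^ 2 ≤ v ^ 3 / E + 2 c ^ 2 v / U ≤ sB`; from `5 j h2 = fF ..`,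
`|h2| ≤ 4 E`: `|J| v ^ 3 ≤ 20 j E + 5 c ^ 3 |A| + 2 c v ^ 2 |B| ≤ sJ v ^ 3`; from `5 j h1 = gF ..`,
`|h1| ≤ 4 U`: `|K| v ^ 3 ≤ 20 j U + c ^ 3 |B| + 2 c ^ 2 v |J| ≤ sK v ^ 3`.  As the real bounds are
`< s + 1`, the integers have absolute value `≤ s`.  So choosing `(A, B, J, K)` for every
`h ∈ H0 \ {0}` gives an injective map into `Bc s (5 * j) c v`, and
`card H0 ≤ 1 + card (Bc s (5 j) c v)`.
-/

set_option autoImplicit false

namespace Pool.Agent.FTB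

theorem bin (c v j U E s : ℕ) (cb : ℤ) (hc : 1 ≤ c) (hv : 1 ≤ v) (hj : 1 ≤ j) (hU : 1 ≤ U)
    (hE : 1 ≤ E) (hcv : Nat.Coprime c v) (hcb : (v : ℤ) ^ 5 ∣ cb * c - 1) (sA sB sJ sK : ℝ)
    (hA : (v : ℝ) ^ 3 / U ≤ sA) (hB : (v : ℝ) ^ 3 / E + 2 * (c : ℝ) ^ 2 * v / U ≤ sB)
    (hJ : 20 * (j : ℝ) * E + 5 * (c : ℝ) ^ 3 * sA + 2 * (c : ℝ) * (v : ℝ) ^ 2 * sB ≤
      sJ * (v : ℝ) ^ 3)
    (hK : 20 * (j : ℝ) * U + (c : ℝ) ^ 3 * sB + 2 * (c : ℝ) ^ 2 * (v : ℝ) * sJ ≤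
      sK * (v : ℝ) ^ 3)
    (hs : sA < s + 1 ∧ sB < s + 1 ∧ sJ < s + 1 ∧ sK < s + 1) :
    ((H0 ((j : ℝ) * ((cb : ℝ) ^ 5 / v)) ((j : ℝ) * (-(cb : ℝ) ^ 5 * c ^ 2 / v ^ 3))
      ((j : ℝ) * (-(cb : ℝ) ^ 5 * c ^ 4 / v ^ 5)) U E).card : ℝ) ≤
      1 + ((Bc s (5 * j) c v).card : ℝ) := by
  set HH := H0 ((j : ℝ) * ((cb : ℝ) ^ 5 / v)) ((j : ℝ) * (-(cb : ℝ) ^ 5 * c ^ 2 / v ^ 3))
      ((j : ℝ) * (-(cb : ℝ) ^ 5 * c ^ 4 / v ^ 5)) U E with hHH
  obtain ⟨hs1, hs2, hs3, hs4⟩ := hs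
  have hv0 : (0 : ℝ) < v := by exact_mod_cast hv
  have hU0 : (0 : ℝ) < U := by exact_mod_cast hU
  have hE0 : (0 : ℝ) < E := by exact_mod_cast hE
  have hc0 : (0 : ℝ) < c := by exact_mod_cast hc
  have hj0 : (0 : ℝ) < j := by exact_mod_cast hj
  have small : ∀ (a : ℤ) (r : ℝ), |(a : ℝ)| ≤ r → r < s + 1 → |a| ≤ s := by
    intro a r h1 h2
    have h3 : ((|a| : ℤ) : ℝ) < ((s : ℤ) + 1 : ℤ) := by
      push_cast
      exact h1.trans_lt h2
    have h4 : |a| < (s : ℤ) + 1 := by exact_mod_cast h3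
    omega
  have main : ∀ h ∈ HH.erase 0, ∃ b ∈ Bc s (5 * j) c v,
      5 * (j : ℤ) * h.2 = fF b.1 b.2.1 b.2.2.1 c v ∧
        5 * (j : ℤ) * h.1 = gF b.2.1 b.2.2.1 b.2.2.2 c v := by
    intro h hh
    rw [Finset.mem_erase, hHH, mem_H0, mem_bx] at hh
    obtain ⟨hne, ⟨hb1, hb2⟩, hd1, hd2⟩ := hh
    obtain ⟨A, B1, hA1, hB1, hX, hY⟩ := bsb c v j U E cb hv hU hE hcb h.1 h.2 hd1 hd2
    obtain ⟨B, J, K, e1, e2, e3⟩ := bsa (c : ℤ) v j h.1 h.2 A B1 (by exact_mod_cast (by omega))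
      (Nat.isCoprime_iff_coprime.2 hcv) hX hY
    have e2' : 5 * (j : ℝ) * h.2 = -5 * A * c ^ 3 - 2 * B * c * v ^ 2 + J * v ^ 3 := by
      have := congrArg (fun z : ℤ => (z : ℝ)) e2
      simp only [fF] at this
      push_cast at this
      exact this
    have e3' : 5 * (j : ℝ) * h.1 = -B * c ^ 3 - 2 * J * c ^ 2 * v + K * v ^ 3 := by
      have := congrArg (fun z : ℤ => (z : ℝ)) e3
      simp only [gF] at this
      push_cast at this
      exact this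
    have e1' : (B1 : ℝ) = 2 * c ^ 2 * A + v ^ 2 * B := by
      have := congrArg (fun z : ℤ => (z : ℝ)) e1
      push_cast at this
      exact this
    have hb1' : |(h.1 : ℝ)| ≤ 4 * U := by
      have : ((|h.1| : ℤ) : ℝ) ≤ ((4 * U : ℕ) : ℤ) := by exact_mod_cast hb1
      push_cast at this
      exact this
    have hb2' : |(h.2 : ℝ)| ≤ 4 * E := by
      have : ((|h.2| : ℤ) : ℝ) ≤ ((4 * E : ℕ) : ℤ) := by exact_mod_cast hb2
      push_cast at this
      exact this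
    have bA : |(A : ℝ)| ≤ sA := hA1.trans hA
    have bB : |(B : ℝ)| ≤ sB := by
      refine le_trans ?_ hB
      have h5 : |(B : ℝ)| = |(B1 : ℝ) - 2 * c ^ 2 * A| / v ^ 2 := by
        rw [e1']
        have : (2 * (c : ℝ) ^ 2 * A + v ^ 2 * B - 2 * c ^ 2 * A) = v ^ 2 * B := by ring
        rw [this, abs_mul, abs_of_pos (pow_pos hv0 2), mul_div_cancel_left₀ _ (by positivity)]
      have h6 : |(B1 : ℝ) - 2 * c ^ 2 * A| ≤ (v : ℝ) ^ 5 / E + 2 * c ^ 2 * ((v : ℝ) ^ 3 / U) := by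
        refine (abs_sub _ _).trans ?_
        rw [abs_mul, abs_of_pos (by positivity : (0 : ℝ) < 2 * c ^ 2)]
        exact add_le_add hB1 (mul_le_mul_of_nonneg_left hA1 (by positivity))
      rw [h5, div_le_iff₀ (by positivity)]
      refine h6.trans (le_of_eq ?_)
      field_simp
    have bJ : |(J : ℝ)| ≤ sJ := by
      have h5 : (J : ℝ) * v ^ 3 = 5 * (j : ℝ) * h.2 + 5 * A * c ^ 3 + 2 * B * c * v ^ 2 := by
        rw [e2']
        ring
      have h6 : |(J : ℝ)| * v ^ 3 ≤ 5 * (j : ℝ) * |(h.2 : ℝ)| + 5 * |(A : ℝ)| * c ^ 3 +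
          2 * |(B : ℝ)| * c * v ^ 2 := by
        have h7 : |(J : ℝ)| * v ^ 3 = |(J : ℝ) * v ^ 3| := by
          rw [abs_mul, abs_of_pos (pow_pos hv0 3)]
        rw [h7, h5]
        refine (abs_add_three _ _ _).trans (le_of_eq ?_)
        simp only [abs_mul]
        rw [abs_of_pos hj0, abs_of_pos hc0, abs_of_pos (pow_pos hc0 3), abs_of_pos (pow_pos hv0 2)]
        norm_num
      have h8 : |(J : ℝ)| * v ^ 3 ≤ sJ * v ^ 3 := by
        refine h6.trans (le_trans ?_ hJ)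
        have t1 : 5 * (j : ℝ) * |(h.2 : ℝ)| ≤ 5 * (j : ℝ) * (4 * E) :=
          mul_le_mul_of_nonneg_left hb2' (by positivity)
        have t2 : 5 * |(A : ℝ)| * c ^ 3 ≤ 5 * sA * c ^ 3 :=
          mul_le_mul_of_nonneg_right (by linarith) (by positivity)
        have t3 : 2 * |(B : ℝ)| * c * v ^ 2 ≤ 2 * sB * c * v ^ 2 := by
          have : 2 * |(B : ℝ)| * (c * v ^ 2) ≤ 2 * sB * (c * v ^ 2) :=
            mul_le_mul_of_nonneg_right (by linarith) (by positivity)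
          linarith
        linarith
      exact le_of_mul_le_mul_right h8 (by positivity)
    have bK : |(K : ℝ)| ≤ sK := by
      have h5 : (K : ℝ) * v ^ 3 = 5 * (j : ℝ) * h.1 + B * c ^ 3 + 2 * J * c ^ 2 * v := by
        rw [e3']
        ring
      have h6 : |(K : ℝ)| * v ^ 3 ≤ 5 * (j : ℝ) * |(h.1 : ℝ)| + |(B : ℝ)| * c ^ 3 +
          2 * |(J : ℝ)| * c ^ 2 * v := by
        have h7 : |(K : ℝ)| * v ^ 3 = |(K : ℝ) * v ^ 3| := by
          rw [abs_mul, abs_of_pos (pow_pos hv0 3)]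
        rw [h7, h5]
        refine (abs_add_three _ _ _).trans (le_of_eq ?_)
        simp only [abs_mul]
        rw [abs_of_pos hj0, abs_of_pos hv0, abs_of_pos (pow_pos hc0 3), abs_of_pos (pow_pos hc0 2)]
        norm_num
      have h8 : |(K : ℝ)| * v ^ 3 ≤ sK * v ^ 3 := by
        refine h6.trans (le_trans ?_ hK)
        have t1 : 5 * (j : ℝ) * |(h.1 : ℝ)| ≤ 5 * (j : ℝ) * (4 * U) :=
          mul_le_mul_of_nonneg_left hb1' (by positivity)
        have t2 : |(B : ℝ)| * c ^ 3 ≤ sB * c ^ 3 :=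
          mul_le_mul_of_nonneg_right bB (by positivity)
        have t3 : 2 * |(J : ℝ)| * c ^ 2 * v ≤ 2 * sJ * c ^ 2 * v := by
          have : 2 * |(J : ℝ)| * (c ^ 2 * v) ≤ 2 * sJ * (c ^ 2 * v) :=
            mul_le_mul_of_nonneg_right (by linarith) (by positivity)
          linarith
        linarith
      exact le_of_mul_le_mul_right h8 (by positivity)
    refine ⟨(A, B, J, K), ?_, e2, e3⟩
    rw [mem_Bc, mem_Q4]
    refine ⟨⟨?_, small A sA bA hs1, small B sB bB hs2, small J sJ bJ hs3, small K sK bK hs4⟩, ?_, ?_⟩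
    · intro h0
      simp only [Prod.mk.injEq] at h0
      obtain ⟨a1, a2, a3, a4⟩ := h0
      apply hne
      have j0 : (5 * (j : ℤ)) ≠ 0 := by
        have : (1 : ℤ) ≤ j := by exact_mod_cast hj
        omega
      rw [a1, a2, a3] at e2
      rw [a2, a3, a4] at e3
      have z2 : 5 * (j : ℤ) * h.2 = 0 := by
        rw [e2]
        simp [fF]
      have z1 : 5 * (j : ℤ) * h.1 = 0 := by
        rw [e3]
        simp [gF]
      rw [Prod.ext_iff]
      exact ⟨(mul_eq_zero.1 z1).resolve_left j0, (mul_eq_zero.1 z2).resolve_left j0⟩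
    · refine ⟨h.2, ?_⟩
      push_cast
      exact e2.symm
    · refine ⟨h.1, ?_⟩
      push_cast
      exact e3.symm
  choose! g hg using main
  have card1 : (HH.erase 0).card ≤ (Bc s (5 * j) c v).card := by
    apply Finset.card_le_card_of_injOn g
    · intro h hh
      exact (hg h hh).1
    · intro h hh h' hh' e
      obtain ⟨-, x1, x2⟩ := hg h hh
      obtain ⟨-, y1, y2⟩ := hg h' hh'
      have j0 : (5 * (j : ℤ)) ≠ 0 := by
        have : (1 : ℤ) ≤ j := by exact_mod_cast hj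
        omega
      rw [e, ← y1] at x1
      rw [e, ← y2] at x2
      exact Prod.ext (mul_left_cancel₀ j0 x2) (mul_left_cancel₀ j0 x1)
  have card2 : HH.card ≤ 1 + (Bc s (5 * j) c v).card := by
    have := Finset.pred_card_le_card_erase (s := HH) (a := 0)
    omega
  exact_mod_cast card2

end Pool.Agent.FTB
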