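import Mathlib

/-!
# FTB: the average of the 5-torsion of class groups of imaginary quadratic fields, exponent 1 + ε

Plan.  A class `A` of order 5 of the field of discriminant `-D` gives (with ideals of minimal norm
`N` in `A` and `k` in `A ^ 2`) integers `c, v, u, e, w, z` with

`u e = v² N - c² k`, `v w = u² - c² N`, `c z = v² k - e²`,

so `v⁵ w + c⁵ z = v⁴ u² - c² v² u e - c⁴ e²`.  For fixed coprime `(c, v)` this is one congruence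
modulo `v⁵` for the value of a binary quadratic form in `(u, e)`.  The number of `(u, e)` is bounded
by Weyl differencing in two variables; the differencing leads to common divisors of the two
binary cubic forms `fF`, `gF` in `(c, v)`, which are counted on average over `(c, v)` with their
resultant `RF`.
-/

set_option autoImplicit false

namespace Pool.Agent.FTB

/-- `e(x) = exp (2 π i x)` -/
noncomputable def ex (x : ℝ) : ℂ := Complex.exp (2 * Real.pi * x * Complex.I)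

/-- the distance to the nearest integer -/
noncomputable def dn (x : ℝ) : ℝ := |x - round x|

/-- `min (2 L + 1) (1 / (2 ‖x‖))` -/
noncomputable def gm (L : ℕ) (x : ℝ) : ℝ :=
  if 2 * (2 * (L : ℝ) + 1) * dn x ≤ 1 then 2 * (L : ℝ) + 1 else 1 / (2 * dn x)

/-- the box `[-a, a] × [-b, b]` -/
noncomputable def bx (a b : ℕ) : Finset (ℤ × ℤ) :=
  Finset.Icc (-(a : ℤ)) a ×ˢ Finset.Icc (-(b : ℤ)) b

theorem mem_bx (a b : ℕ) (x : ℤ × ℤ) : x ∈ bx a b ↔ |x.1| ≤ a ∧ |x.2| ≤ b := by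
  unfold bx
  rw [Finset.mem_product, Finset.mem_Icc, Finset.mem_Icc, abs_le, abs_le]

/-- the quadratic form -/
noncomputable def qf (α β γ : ℝ) (x : ℤ × ℤ) : ℝ :=
  α * (x.1 : ℝ) ^ 2 + β * (x.1 : ℝ) * (x.2 : ℝ) + γ * (x.2 : ℝ) ^ 2

open Classical in
/-- the vectors `h` at which both partial derivatives are close to integers -/
noncomputable def H0 (α β γ : ℝ) (U E : ℕ) : Finset (ℤ × ℤ) :=
  (bx (4 * U) (4 * E)).filter fun h =>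
    dn (2 * α * (h.1 : ℝ) + β * (h.2 : ℝ)) ≤ 1 / (U : ℝ) ∧
      dn (β * (h.1 : ℝ) + 2 * γ * (h.2 : ℝ)) ≤ 1 / (E : ℝ)

theorem mem_H0 (α β γ : ℝ) (U E : ℕ) (h : ℤ × ℤ) : h ∈ H0 α β γ U E ↔
    h ∈ bx (4 * U) (4 * E) ∧ dn (2 * α * (h.1 : ℝ) + β * (h.2 : ℝ)) ≤ 1 / (U : ℝ) ∧
      dn (β * (h.1 : ℝ) + 2 * γ * (h.2 : ℝ)) ≤ 1 / (E : ℝ) := by
  unfold H0
  rw [Finset.mem_filter]

/-- the first cubic form -/
def fF (A B J c v : ℤ) : ℤ := -5 * A * c ^ 3 - 2 * B * c * v ^ 2 + J * v ^ 3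

/-- the second cubic form -/
def gF (B J K c v : ℤ) : ℤ := -B * c ^ 3 - 2 * J * c ^ 2 * v + K * v ^ 3

/-- the resultant of the two cubic forms -/
def RF (A B J K : ℤ) : ℤ :=
  -125 * A ^ 3 * K ^ 3 - 125 * A ^ 2 * B * J * K ^ 2 - 75 * A * B ^ 2 * J ^ 2 * K +
    40 * A * J ^ 5 - 8 * B ^ 5 * K + 5 * B ^ 3 * J ^ 3

/-- the non-zero quadruples `(A, B, J, K)` in `[-s, s] ^ 4` -/
noncomputable def Q4 (s : ℕ) : Finset (ℤ × ℤ × ℤ × ℤ) :=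
  (Finset.Icc (-(s : ℤ)) s ×ˢ Finset.Icc (-(s : ℤ)) s ×ˢ Finset.Icc (-(s : ℤ)) s ×ˢ
    Finset.Icc (-(s : ℤ)) s).erase (0, 0, 0, 0)

theorem mem_Q4 (s : ℕ) (b : ℤ × ℤ × ℤ × ℤ) : b ∈ Q4 s ↔
    b ≠ (0, 0, 0, 0) ∧ |b.1| ≤ s ∧ |b.2.1| ≤ s ∧ |b.2.2.1| ≤ s ∧ |b.2.2.2| ≤ s := by
  unfold Q4
  rw [Finset.mem_erase, Finset.mem_product, Finset.mem_product, Finset.mem_product,
    Finset.mem_Icc, Finset.mem_Icc, Finset.mem_Icc, Finset.mem_Icc, abs_le, abs_le, abs_le, abs_le]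

/-- `n` divides the values of both forms at `(c, v)` -/
def DvF (n : ℕ) (b : ℤ × ℤ × ℤ × ℤ) (c v : ℕ) : Prop :=
  (n : ℤ) ∣ fF b.1 b.2.1 b.2.2.1 c v ∧ (n : ℤ) ∣ gF b.2.1 b.2.2.1 b.2.2.2 c v

open Classical in
/-- the quadruples for given `n` and `(c, v)` -/
noncomputable def Bc (s n c v : ℕ) : Finset (ℤ × ℤ × ℤ × ℤ) := (Q4 s).filter fun b => DvF n b c v

open Classical in
theorem mem_Bc (s n c v : ℕ) (b : ℤ × ℤ × ℤ × ℤ) :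
    b ∈ Bc s n c v ↔ b ∈ Q4 s ∧ DvF n b c v := by
  unfold Bc
  exact Finset.mem_filter

/-- the coprime pairs `(c, v)`, `1 ≤ c ≤ C`, `V ≤ v < 2 V` -/
def Cv (C V : ℕ) : Finset (ℕ × ℕ) :=
  (Finset.Icc 1 C ×ˢ Finset.Ico V (2 * V)).filter fun x => Nat.Coprime x.1 x.2

theorem mem_Cv (C V : ℕ) (x : ℕ × ℕ) : x ∈ Cv C V ↔
    (1 ≤ x.1 ∧ x.1 ≤ C) ∧ (V ≤ x.2 ∧ x.2 < 2 * V) ∧ Nat.Coprime x.1 x.2 := by
  unfold Cv
  rw [Finset.mem_filter, Finset.mem_product, Finset.mem_Icc, Finset.mem_Ico, and_assoc]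

theorem card_Cv (C V : ℕ) : (Cv C V).card ≤ C * V := by
  unfold Cv
  refine (Finset.card_filter_le _ _).trans ?_
  rw [Finset.card_product, Nat.card_Icc, Nat.card_Ico, Nat.add_sub_cancel]
  have : 2 * V - V = V := by omega
  rw [this]

open Classical in
/-- the pairs `(c, v)` for given `n` and `b` -/
noncomputable def Ac (C V n : ℕ) (b : ℤ × ℤ × ℤ × ℤ) : Finset (ℕ × ℕ) :=
  (Cv C V).filter fun x => Nat.Coprime n (10 * x.1 * x.2) ∧ DvF n b x.1 x.2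

open Classical in
theorem mem_Ac (C V n : ℕ) (b : ℤ × ℤ × ℤ × ℤ) (x : ℕ × ℕ) : x ∈ Ac C V n b ↔
    x ∈ Cv C V ∧ Nat.Coprime n (10 * x.1 * x.2) ∧ DvF n b x.1 x.2 := by
  unfold Ac
  exact Finset.mem_filter

/-- the greatest common divisor of a quadruple -/
def gB (b : ℤ × ℤ × ℤ × ℤ) : ℕ :=
  Nat.gcd b.1.natAbs (Nat.gcd b.2.1.natAbs (Nat.gcd b.2.2.1.natAbs b.2.2.2.natAbs))

/-- the positive integers `n < m` prime to `10 c v` -/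
def Nn (m c v : ℕ) : Finset ℕ := (Finset.Ico 1 m).filter fun n => Nat.Coprime n (10 * c * v)

theorem mem_Nn (m c v n : ℕ) : n ∈ Nn m c v ↔ (1 ≤ n ∧ n < m) ∧ Nat.Coprime n (10 * c * v) := by
  unfold Nn
  rw [Finset.mem_filter, Finset.mem_Ico]

/-- the points -/
def IsT (N k c v : ℕ) (u e w z : ℤ) : Prop :=
  1 ≤ N ∧ 1 ≤ k ∧ 1 ≤ c ∧ 1 ≤ v ∧ Nat.Coprime c v ∧
    u * e = (v : ℤ) ^ 2 * N - (c : ℤ) ^ 2 * k ∧
    (v : ℤ) * w = u ^ 2 - (c : ℤ) ^ 2 * N ∧ (c : ℤ) * z = (v : ℤ) ^ 2 * k - e ^ 2 ∧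
    |(u : ℝ)| * √(k : ℝ) ≤ v * N + c * √(N : ℝ) * √(k : ℝ) ∧
    |(e : ℝ)| * √(N : ℝ) ≤ v * √(N : ℝ) * √(k : ℝ) + c * k ∧
    v ^ 2 ≤ 4 * N ∧ v ^ 2 * N ≤ 4 * k ^ 2 ∧ c ^ 2 ≤ 4 * k ∧ c ^ 2 * k ≤ 4 * N ^ 2

/-- the tuples `(N, k, c, v, u, e, w, z)` -/
abbrev Pt : Type := ℕ × ℕ × ℕ × ℕ × ℤ × ℤ × ℤ × ℤ

/-- `IsT` for a tuple -/
def IsTq (q : Pt) : Prop :=
  IsT q.1 q.2.1 q.2.2.1 q.2.2.2.1 q.2.2.2.2.1 q.2.2.2.2.2.1 q.2.2.2.2.2.2.1 q.2.2.2.2.2.2.2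

/-- the tuples in a dyadic box, with `c √k ≤ v √N` -/
def InB (M1 M2 V : ℕ) (q : Pt) : Prop :=
  IsTq q ∧ (M1 ≤ q.1 ∧ q.1 < 2 * M1) ∧ (M2 ≤ q.2.1 ∧ q.2.1 < 2 * M2) ∧
    (V ≤ q.2.2.2.1 ∧ q.2.2.2.1 < 2 * V) ∧ q.2.2.1 ^ 2 * q.2.1 ≤ q.2.2.2.1 ^ 2 * q.1

/-- `T` bounds the number of divisors of all `n ≤ Z` -/
def TauB (Z : ℕ) (T : ℝ) : Prop := 1 ≤ T ∧ ∀ n : ℕ, 1 ≤ n → n ≤ Z → (n.divisors.card : ℝ) ≤ T

/-- `Q` bounds the number of integers `≤ Z` composed of the primes of `r`, for all `r ≤ Z` -/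
def UniB (Z : ℕ) (Q : ℝ) : Prop := 1 ≤ Q ∧ ∀ r : ℕ, 1 ≤ r → r ≤ Z →
  (((Finset.Icc 1 Z).filter fun q => q.primeFactors ⊆ r.primeFactors).card : ℝ) ≤ Q

end Pool.Agent.FTB
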