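import Pool.Agent.FTA.Cnt
import Pool.Agent.FTB.Defs

/-!
# FTB/Bx1: the trivial bound for fixed `(c, v)`

PROOF.  Map `q ∈ S` to `(u, e) = (q.1, q.2.1) ∈ bx U E` (at most `(2 U + 1) (2 E + 1) ≤ 9 U E`
values).  Over one `(u, e)` the integers `z` lie in `[-W, W]` and are congruent modulo `v ^ 5`
(`v ^ 5 ∣ c ^ 5 (z - z')`, `c` coprime to `v`), so there are at most `1 + 2 W / v ^ 5` of them
(`Pool.Agent.FTA.cnt`).
-/

set_option autoImplicit false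

namespace Pool.Agent.FTB

theorem bx1 (c v U E : ℕ) (W : ℝ) (hc : 1 ≤ c) (hv : 1 ≤ v) (hU : 1 ≤ U) (hE : 1 ≤ E)
    (hcv : Nat.Coprime c v) (hW : 0 ≤ W) (S : Finset (ℤ × ℤ × ℤ))
    (hS : ∀ q ∈ S, |q.1| ≤ U ∧ |q.2.1| ≤ E ∧ |(q.2.2 : ℝ)| ≤ W ∧
      (v : ℤ) ^ 5 ∣ (c : ℤ) ^ 5 * q.2.2 - ((v : ℤ) ^ 4 * q.1 ^ 2 -
        (c : ℤ) ^ 2 * (v : ℤ) ^ 2 * q.1 * q.2.1 - (c : ℤ) ^ 4 * q.2.1 ^ 2)) :
    (S.card : ℝ) ≤ 9 * U * E * (1 + 2 * W / (v : ℝ) ^ 5) := by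
  have hU' : (1 : ℝ) ≤ U := by exact_mod_cast hU
  have hE' : (1 : ℝ) ≤ E := by exact_mod_cast hE
  have hv' : (1 : ℝ) ≤ v := by exact_mod_cast hv
  have hmaps : ∀ q ∈ S, (q.1, q.2.1) ∈ bx U E := fun q hq => by
    rw [mem_bx]
    exact ⟨(hS q hq).1, (hS q hq).2.1⟩
  have hcard : (S.card : ℝ) = ∑ b ∈ bx U E, ((S.filter fun q => (q.1, q.2.1) = b).card : ℝ) := by
    rw [Finset.card_eq_sum_card_fiberwise hmaps]
    push_cast
    rfl
  have hfib : ∀ b ∈ bx U E, ((S.filter fun q => (q.1, q.2.1) = b).card : ℝ) ≤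
      1 + 2 * W / (v : ℝ) ^ 5 := by
    intro b _
    have hinj : Set.InjOn (fun q : ℤ × ℤ × ℤ => q.2.2) (S.filter fun q => (q.1, q.2.1) = b) := by
      intro x hx y hy hxy
      have hx' := (Finset.mem_filter.1 (Finset.mem_coe.1 hx)).2
      have hy' := (Finset.mem_filter.1 (Finset.mem_coe.1 hy)).2
      have h3 := hx'.trans hy'.symm
      simp only [Prod.mk.injEq] at h3
      exact Prod.ext h3.1 (Prod.ext h3.2 hxy)
    rw [← Finset.card_image_of_injOn hinj]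
    have h1 : 1 ≤ v ^ 5 := Nat.one_le_pow _ _ hv
    have := Pool.Agent.FTA.cnt ((S.filter fun q => (q.1, q.2.1) = b).image
      fun q : ℤ × ℤ × ℤ => q.2.2) (v ^ 5) h1 (2 * W) (by linarith) ?_ ?_
    · push_cast at this
      linarith
    · intro x hx y hy
      obtain ⟨q, hq, rfl⟩ := Finset.mem_image.1 hx
      obtain ⟨r, hr, rfl⟩ := Finset.mem_image.1 hy
      obtain ⟨hqS, hqb⟩ := Finset.mem_filter.1 hq
      obtain ⟨hrS, hrb⟩ := Finset.mem_filter.1 hr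
      have h3 := hqb.trans hrb.symm
      simp only [Prod.mk.injEq] at h3
      have d1 := (hS q hqS).2.2.2
      have d2 := (hS r hrS).2.2.2
      rw [h3.1, h3.2] at d1
      have d3 := dvd_sub d1 d2
      have e1 : (c : ℤ) ^ 5 * q.2.2 - ((v : ℤ) ^ 4 * r.1 ^ 2 -
          (c : ℤ) ^ 2 * (v : ℤ) ^ 2 * r.1 * r.2.1 - (c : ℤ) ^ 4 * r.2.1 ^ 2) -
          ((c : ℤ) ^ 5 * r.2.2 - ((v : ℤ) ^ 4 * r.1 ^ 2 -
          (c : ℤ) ^ 2 * (v : ℤ) ^ 2 * r.1 * r.2.1 - (c : ℤ) ^ 4 * r.2.1 ^ 2)) =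
          (c : ℤ) ^ 5 * (q.2.2 - r.2.2) := by ring
      rw [e1] at d3
      have hcop : IsCoprime ((v : ℤ) ^ 5) ((c : ℤ) ^ 5) :=
        (Nat.isCoprime_iff_coprime.2 hcv.symm).pow
      have d4 := hcop.dvd_of_dvd_mul_left d3
      push_cast
      exact d4
    · intro x hx y hy
      obtain ⟨q, hq, rfl⟩ := Finset.mem_image.1 hx
      obtain ⟨r, hr, rfl⟩ := Finset.mem_image.1 hy
      obtain ⟨hqS, -⟩ := Finset.mem_filter.1 hq
      obtain ⟨hrS, -⟩ := Finset.mem_filter.1 hr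
      have b1 := abs_le.1 (hS q hqS).2.2.1
      have b2 := abs_le.1 (hS r hrS).2.2.1
      push_cast
      linarith [b1.2, b2.1]
  have hbx : ((bx U E).card : ℝ) ≤ 9 * U * E := by
    unfold bx
    rw [Finset.card_product, Int.card_Icc, Int.card_Icc]
    have a1 : (((U : ℤ) + 1 - -(U : ℤ)).toNat : ℝ) = 2 * U + 1 := by
      have : ((U : ℤ) + 1 - -(U : ℤ)).toNat = 2 * U + 1 := by omega
      rw [this]; push_cast; ring
    have a2 : (((E : ℤ) + 1 - -(E : ℤ)).toNat : ℝ) = 2 * E + 1 := by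
      have : ((E : ℤ) + 1 - -(E : ℤ)).toNat = 2 * E + 1 := by omega
      rw [this]; push_cast; ring
    push_cast
    rw [a1, a2]
    nlinarith
  have hT : (0 : ℝ) ≤ 1 + 2 * W / (v : ℝ) ^ 5 := by positivity
  calc (S.card : ℝ) = _ := hcard
    _ ≤ ∑ _b ∈ bx U E, (1 + 2 * W / (v : ℝ) ^ 5) := Finset.sum_le_sum hfib
    _ = ((bx U E).card : ℝ) * (1 + 2 * W / (v : ℝ) ^ 5) := by
        rw [Finset.sum_const, nsmul_eq_mul]
    _ ≤ 9 * U * E * (1 + 2 * W / (v : ℝ) ^ 5) := mul_le_mul_of_nonneg_right hbx hT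

end Pool.Agent.FTB
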