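import Pool.Agent.FTB.Defs

/-!
# FTB/BxF: the fibres over `(c, v)`

PROOF of `cong`: `v ^ 5 w + c ^ 5 z = v ^ 4 (u ^ 2 - c ^ 2 N) + c ^ 4 (v ^ 2 k - e ^ 2) =
v ^ 4 u ^ 2 - c ^ 4 e ^ 2 - c ^ 2 v ^ 2 (v ^ 2 N - c ^ 2 k) = v ^ 4 u ^ 2 - c ^ 2 v ^ 2 u e - c ^ 4 e ^ 2`.
PROOF of `bxf`.  Let `G x` be the image of `{q ∈ S : (c, v) = x}` under `q ↦ (u, e, z)`.  This map
is injective on the set: `v ^ 2 k = e ^ 2 + c z` determines `k`, `v ^ 2 N = u e + c ^ 2 k`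
determines `N`, `v w = u ^ 2 - c ^ 2 N` determines `w` (`v ≥ 1`).  So
`card S = ∑ x ∈ Cv C V, card (G x)` (`Finset.card_eq_sum_card_fiberwise`, every `q ∈ S` has
`(c, v) ∈ Cv C V`: `c ≥ 1`, coprime by `IsT`), and the properties of the elements of `G x` are
clear (`cong` for the congruence).
-/

set_option autoImplicit false

namespace Pool.Agent.FTB

theorem cong (N k c v : ℕ) (u e w z : ℤ) (h : IsT N k c v u e w z) :
    (v : ℤ) ^ 5 ∣ (c : ℤ) ^ 5 * z - ((v : ℤ) ^ 4 * u ^ 2 - (c : ℤ) ^ 2 * (v : ℤ) ^ 2 * u * e -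
      (c : ℤ) ^ 4 * e ^ 2) := by
  obtain ⟨-, -, -, -, -, h1, h2, h3, -⟩ := h
  refine ⟨-w, ?_⟩
  linear_combination (c : ℤ) ^ 4 * h3 + (c : ℤ) ^ 2 * (v : ℤ) ^ 2 * h1 + (v : ℤ) ^ 4 * h2

theorem bxf (C V : ℕ) (S : Finset Pt) (hS : ∀ q ∈ S, IsTq q ∧ q.2.2.1 ≤ C ∧ V ≤ q.2.2.2.1 ∧
    q.2.2.2.1 < 2 * V) :
    ∃ G : ℕ × ℕ → Finset (ℤ × ℤ × ℤ), S.card = ∑ x ∈ Cv C V, (G x).card ∧
      ∀ x ∈ Cv C V, ∀ p ∈ G x,
        (∃ q ∈ S, q.2.2.1 = x.1 ∧ q.2.2.2.1 = x.2 ∧ q.2.2.2.2.1 = p.1 ∧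
          q.2.2.2.2.2.1 = p.2.1 ∧ q.2.2.2.2.2.2.2 = p.2.2) ∧
        (x.2 : ℤ) ^ 5 ∣ (x.1 : ℤ) ^ 5 * p.2.2 - ((x.2 : ℤ) ^ 4 * p.1 ^ 2 -
          (x.1 : ℤ) ^ 2 * (x.2 : ℤ) ^ 2 * p.1 * p.2.1 - (x.1 : ℤ) ^ 4 * p.2.1 ^ 2) := by
  classical
  set F : Pt → ℕ × ℕ := fun q => (q.2.2.1, q.2.2.2.1) with hF
  set P : Pt → ℤ × ℤ × ℤ := fun q => (q.2.2.2.2.1, q.2.2.2.2.2.1, q.2.2.2.2.2.2.2) with hP
  refine ⟨fun x => (S.filter fun q => F q = x).image P, ?_, ?_⟩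
  · have hmaps : Set.MapsTo F (S : Set Pt) (Cv C V : Set (ℕ × ℕ)) := by
      intro q hq
      have h := hS q (Finset.mem_coe.1 hq)
      obtain ⟨h0, h1, h2, h3⟩ := h
      have h0' := h0
      obtain ⟨-, -, hc, -, hcop, -⟩ := h0'
      rw [Finset.mem_coe, mem_Cv]
      exact ⟨⟨hc, h1⟩, ⟨h2, h3⟩, hcop⟩
    rw [Finset.card_eq_sum_card_fiberwise hmaps]
    refine Finset.sum_congr rfl fun x _ => ?_
    rw [Finset.card_image_of_injOn]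
    intro q hq q' hq' hqq
    rw [Finset.coe_filter] at hq hq'
    have hqS : q ∈ S := hq.1
    have hqS' : q' ∈ S := hq'.1
    have hFq : F q = x := hq.2
    have hFq' : F q' = x := hq'.2
    obtain ⟨N, k, c, v, u, e, w, z⟩ := q
    obtain ⟨N', k', c', v', u', e', w', z'⟩ := q'
    obtain ⟨⟨-, -, hc, hv, -, h1, h2, h3, -⟩, -, -, -⟩ := hS _ hqS
    obtain ⟨⟨-, -, hc', hv', -, h1', h2', h3', -⟩, -, -, -⟩ := hS _ hqS'
    simp only [hF] at hFq hFq'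
    simp only [hP] at hqq
    have e1 := hFq.trans hFq'.symm
    rw [Prod.mk.injEq] at e1
    obtain ⟨ec, ev⟩ := e1
    rw [Prod.mk.injEq, Prod.mk.injEq] at hqq
    obtain ⟨eu, ee, ez⟩ := hqq
    dsimp only at hc hv h1 h2 h3 hc' hv' h1' h2' h3' ec ev eu ee ez
    subst ec ev eu ee ez
    have hv0 : (v : ℤ) ≠ 0 := by
      have : 1 ≤ v := hv
      exact_mod_cast (by omega : v ≠ 0)
    have hv2 : (v : ℤ) ^ 2 ≠ 0 := pow_ne_zero 2 hv0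
    have ek : (k : ℤ) = k' := by
      apply mul_left_cancel₀ hv2
      linarith
    have ek' : k = k' := by exact_mod_cast ek
    subst ek'
    have eN : (N : ℤ) = N' := by
      apply mul_left_cancel₀ hv2
      linarith
    have eN' : N = N' := by exact_mod_cast eN
    subst eN'
    have ew : w = w' := by
      apply mul_left_cancel₀ hv0
      linarith
    subst ew
    rfl
  · intro x _ p hp
    obtain ⟨q, hq, hqp⟩ := Finset.mem_image.1 hp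
    obtain ⟨hqS, hqx⟩ := Finset.mem_filter.1 hq
    obtain ⟨h0, -, -, -⟩ := hS q hqS
    have hc := cong _ _ _ _ _ _ _ _ h0
    subst hqx
    subst hqp
    exact ⟨⟨q, hqS, rfl, rfl, rfl, rfl, rfl⟩, hc⟩

end Pool.Agent.FTB
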