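import Pool.Agent.FTB.Defs

/-!
# FTB/BxI: the size of the coordinates of a point in a dyadic box

Let `a = √N`, `b = √k` (so `N = a ^ 2`, `k = b ^ 2`), `a1 = √M1`, `a2 = √M2`; so
`a1 ≤ a ≤ √2 a1`, `a2 ≤ b ≤ √2 a2`; the last condition of `InB` says `c b ≤ v a`.

PROOF of `r3z` (for every point): `|z| * a ^ 2 ≤ 2 v b ^ 3 a + c b ^ 4`.  We know
`c z = v ^ 2 b ^ 2 - e ^ 2`, `|e| a ≤ v a b + c b ^ 2`, so `|e| ≤ v b + c b ^ 2 / a`.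
If `|e| ≥ v b`: `c |z| = (|e| - v b) (|e| + v b) ≤ (c b ^ 2 / a) (2 v b + c b ^ 2 / a)`; divide by `c`.
If `|e| < v b`: `c |z| = (v b - |e|) (v b + |e|) ≤ (v b - |e|) * 2 v b`, and
`v b - |e| ≤ c b ^ 2 / a`: this is clear if `v a ≤ c b`; if `v a > c b`, then
`|u| |e| = v ^ 2 a ^ 2 - c ^ 2 b ^ 2` and `|u| b ≤ v a ^ 2 + c a b = a (v a + c b)` give
`|e| a (v a + c b) ≥ |e| |u| b = b (v a - c b) (v a + c b)`, so `|e| a ≥ b (v a - c b)`.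
PROOF of `bxi`.  (u) `|u| b ≤ v a ^ 2 + c a b ≤ 2 v a ^ 2`, so `|u| ≤ 2 v a ^ 2 / b ≤
2 (2 V) (2 a1 ^ 2) / a2`.  (e) `|e| a ≤ v a b + c b ^ 2 ≤ 2 v a b`, `|e| ≤ 2 v b ≤ 4 V √2 a2 ≤ 7 V a2`.
(z) `|z| a ^ 2 ≤ 2 v b ^ 3 a + c b ^ 4 ≤ 3 v b ^ 3 a`, `|z| ≤ 3 v b ^ 3 / a ≤
6 V * 2 √2 a2 ^ 3 / a1 ≤ 17 V a2 ^ 3 / a1` (`√2 ≤ 1.4143`, `12 √2 = 16.971`).
(c) `c ≤ v a / b ≤ 2 V √2 a1 / a2 ≤ 3 V a1 / a2`.
The other three follow from `v ^ 2 ≤ 4 N`, `v ^ 2 N ≤ 4 k ^ 2`, `c ^ 2 k ≤ 4 N ^ 2`, `c ≥ 1`.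
-/

set_option autoImplicit false

namespace Pool.Agent.FTB

private theorem bxi_key (a b c v u e z : ℝ) (ha : 0 < a) (hb : 0 < b) (hc : 0 < c) (hv : 0 < v)
    (h1 : u * e = v ^ 2 * a ^ 2 - c ^ 2 * b ^ 2) (h3 : c * z = v ^ 2 * b ^ 2 - e ^ 2)
    (h4 : |u| * b ≤ v * a ^ 2 + c * a * b) (h5 : |e| * a ≤ v * a * b + c * b ^ 2) :
    |z| * a ^ 2 ≤ 2 * v * b ^ 3 * a + c * (b ^ 2) ^ 2 := by
  have hE0 : 0 ≤ |e| := abs_nonneg e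
  have hU0 : 0 ≤ |u| := abs_nonneg u
  have hee : e ^ 2 = |e| ^ 2 := (sq_abs e).symm
  have hcz : c * |z| = |v ^ 2 * b ^ 2 - e ^ 2| := by
    rw [← h3, abs_mul, abs_of_pos hc]
  have hvb : 0 < v * b := mul_pos hv hb
  rcases le_or_gt (v * b) |e| with hcase | hcase
  · have e1 : c * |z| = (|e| - v * b) * (|e| + v * b) := by
      rw [hcz, hee, abs_sub_comm, abs_of_nonneg]
      · ring
      · nlinarith
    have e2 : 0 ≤ a * (|e| - v * b) := mul_nonneg ha.le (by linarith)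
    have e3 : a * (|e| - v * b) ≤ c * b ^ 2 := by nlinarith
    have e4 : a * (|e| + v * b) ≤ 2 * v * a * b + c * b ^ 2 := by nlinarith
    have e5 : 0 ≤ a * (|e| + v * b) := by positivity
    have e6 : (a * (|e| - v * b)) * (a * (|e| + v * b)) ≤
        (c * b ^ 2) * (2 * v * a * b + c * b ^ 2) :=
      mul_le_mul e3 e4 e5 (by positivity)
    have e7 : c * (|z| * a ^ 2) ≤ c * (2 * v * b ^ 3 * a + c * (b ^ 2) ^ 2) := by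
      calc c * (|z| * a ^ 2) = (c * |z|) * a ^ 2 := by ring
        _ = (a * (|e| - v * b)) * (a * (|e| + v * b)) := by rw [e1]; ring
        _ ≤ (c * b ^ 2) * (2 * v * a * b + c * b ^ 2) := e6
        _ = c * (2 * v * b ^ 3 * a + c * (b ^ 2) ^ 2) := by ring
    exact le_of_mul_le_mul_left e7 hc
  · have e1 : c * |z| = (v * b - |e|) * (v * b + |e|) := by
      rw [hcz, hee, abs_of_nonneg]
      · ring
      · nlinarith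
    have e2 : (v * b - |e|) * a ≤ c * b ^ 2 := by
      rcases le_or_gt (v * a) (c * b) with hle | hlt
      · have : v * a * b ≤ c * b * b := mul_le_mul_of_nonneg_right hle hb.le
        nlinarith [mul_nonneg hE0 ha.le]
      · have f1 : |u| * |e| = (v * a - c * b) * (v * a + c * b) := by
          rw [← abs_mul, h1, abs_of_nonneg]
          · ring
          · have : 0 < (v * a - c * b) * (v * a + c * b) :=
              mul_pos (by linarith) (by positivity)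
            nlinarith
        have f2 : (|u| * b) * |e| ≤ (v * a ^ 2 + c * a * b) * |e| :=
          mul_le_mul_of_nonneg_right h4 hE0
        have f3 : (v * a + c * b) * (b * (v * a - c * b)) ≤ (v * a + c * b) * (|e| * a) := by
          calc (v * a + c * b) * (b * (v * a - c * b))
              = b * ((v * a - c * b) * (v * a + c * b)) := by ring
            _ = (|u| * b) * |e| := by rw [← f1]; ring
            _ ≤ (v * a ^ 2 + c * a * b) * |e| := f2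
            _ = (v * a + c * b) * (|e| * a) := by ring
        have f4 := le_of_mul_le_mul_left f3 (by positivity : 0 < v * a + c * b)
        nlinarith
    have e3 : 0 ≤ (v * b - |e|) * a := mul_nonneg (by linarith) ha.le
    have e4 : a * (v * b + |e|) ≤ 2 * v * a * b := by nlinarith
    have e5 : 0 ≤ a * (v * b + |e|) := by positivity
    have e6 : ((v * b - |e|) * a) * (a * (v * b + |e|)) ≤ (c * b ^ 2) * (2 * v * a * b) :=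
      mul_le_mul e2 e4 e5 (by positivity)
    have e7 : c * (|z| * a ^ 2) ≤ c * (2 * v * b ^ 3 * a + c * (b ^ 2) ^ 2) := by
      have e8 : 0 ≤ c * (c * (b ^ 2) ^ 2) := by positivity
      calc c * (|z| * a ^ 2) = (c * |z|) * a ^ 2 := by ring
        _ = ((v * b - |e|) * a) * (a * (v * b + |e|)) := by rw [e1]; ring
        _ ≤ (c * b ^ 2) * (2 * v * a * b) := e6
        _ ≤ c * (2 * v * b ^ 3 * a + c * (b ^ 2) ^ 2) := by nlinarith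
    exact le_of_mul_le_mul_left e7 hc

/-- `x² ≤ 2 y²` gives `x ≤ (17/12) y`. -/
private theorem bxi_s2 (x y : ℝ) (hy : 0 ≤ y) (h : x ^ 2 ≤ 2 * y ^ 2) : x ≤ 17 / 12 * y := by
  by_contra hcon
  push Not at hcon
  nlinarith [sq_nonneg y, mul_self_nonneg (x - 17 / 12 * y)]

theorem r3z (N k c v : ℕ) (u e w z : ℤ) (h : IsT N k c v u e w z) :
    |(z : ℝ)| * N ≤ 2 * v * (√(k : ℝ)) ^ 3 * √(N : ℝ) + c * (k : ℝ) ^ 2 := by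
  obtain ⟨hN, hk, hc, hv, -, h1, -, h3, h4, h5, -⟩ := h
  have hN' : (1 : ℝ) ≤ N := by exact_mod_cast hN
  have hk' : (1 : ℝ) ≤ k := by exact_mod_cast hk
  have hc' : (1 : ℝ) ≤ c := by exact_mod_cast hc
  have hv' : (1 : ℝ) ≤ v := by exact_mod_cast hv
  have ha : 0 < √(N : ℝ) := Real.sqrt_pos.2 (by linarith)
  have hb : 0 < √(k : ℝ) := Real.sqrt_pos.2 (by linarith)
  have ea : (N : ℝ) = √(N : ℝ) ^ 2 := (Real.sq_sqrt (by linarith)).symm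
  have eb : (k : ℝ) = √(k : ℝ) ^ 2 := (Real.sq_sqrt (by linarith)).symm
  have h1' : (u : ℝ) * e = (v : ℝ) ^ 2 * N - (c : ℝ) ^ 2 * k := by exact_mod_cast h1
  have h3' : (c : ℝ) * z = (v : ℝ) ^ 2 * k - (e : ℝ) ^ 2 := by exact_mod_cast h3
  set a := √(N : ℝ) with hadef
  set b := √(k : ℝ) with hbdef
  rw [ea, eb] at h1'
  rw [eb] at h3'
  rw [ea] at h4
  rw [eb] at h5
  have key := bxi_key a b c v u e z ha hb (by linarith) (by linarith) h1' h3' h4 h5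
  rw [ea, eb]
  linarith [key]

theorem bxi (M1 M2 V : ℕ) (q : Pt) (h : InB M1 M2 V q) (hM1 : 1 ≤ M1) (hM2 : 1 ≤ M2) :
    |(q.2.2.2.2.1 : ℝ)| ≤ 8 * V * (√(M1 : ℝ)) ^ 2 / √(M2 : ℝ) ∧
    |(q.2.2.2.2.2.1 : ℝ)| ≤ 7 * V * √(M2 : ℝ) ∧
    |(q.2.2.2.2.2.2.2 : ℝ)| ≤ 17 * V * (√(M2 : ℝ)) ^ 3 / √(M1 : ℝ) ∧
    (q.2.2.1 : ℝ) ≤ 3 * V * √(M1 : ℝ) / √(M2 : ℝ) ∧
    (V : ℝ) ^ 2 ≤ 8 * (√(M1 : ℝ)) ^ 2 ∧ (V : ℝ) ^ 2 * (√(M1 : ℝ)) ^ 2 ≤ 16 * (√(M2 : ℝ)) ^ 4 ∧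
    √(M2 : ℝ) ≤ 4 * (√(M1 : ℝ)) ^ 2 := by
  obtain ⟨hT, ⟨hN1, hN2⟩, ⟨hk1, hk2⟩, ⟨hv1, hv2⟩, hcv⟩ := h
  obtain ⟨N, k, c, v, u, e, w, z⟩ := q
  have hz := r3z N k c v u e w z hT
  obtain ⟨hN, hk, hc, hv, -, -, -, -, h4, h5, h6, h7, -, h8⟩ := hT
  dsimp only at hN1 hN2 hk1 hk2 hv1 hv2 hcv hN hk hc hv h4 h5 h6 h7 h8 ⊢
  have hM1' : (1 : ℝ) ≤ M1 := by exact_mod_cast hM1
  have hM2' : (1 : ℝ) ≤ M2 := by exact_mod_cast hM2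
  have rN : (1 : ℝ) ≤ N := by exact_mod_cast hN
  have rk : (1 : ℝ) ≤ k := by exact_mod_cast hk
  have rc : (1 : ℝ) ≤ c := by exact_mod_cast hc
  have rv : (1 : ℝ) ≤ v := by exact_mod_cast hv
  have rN1 : (M1 : ℝ) ≤ N := by exact_mod_cast hN1
  have rN2 : (N : ℝ) ≤ 2 * M1 := by exact_mod_cast hN2.le
  have rk1 : (M2 : ℝ) ≤ k := by exact_mod_cast hk1
  have rk2 : (k : ℝ) ≤ 2 * M2 := by exact_mod_cast hk2.le
  have rv1 : (V : ℝ) ≤ v := by exact_mod_cast hv1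
  have rv2 : (v : ℝ) ≤ 2 * V := by exact_mod_cast hv2.le
  have rcv : (c : ℝ) ^ 2 * k ≤ (v : ℝ) ^ 2 * N := by exact_mod_cast hcv
  have r6 : (v : ℝ) ^ 2 ≤ 4 * N := by exact_mod_cast h6
  have r7 : (v : ℝ) ^ 2 * N ≤ 4 * (k : ℝ) ^ 2 := by exact_mod_cast h7
  have r8 : (c : ℝ) ^ 2 * k ≤ 4 * (N : ℝ) ^ 2 := by exact_mod_cast h8
  have hV0 : (0 : ℝ) ≤ V := Nat.cast_nonneg V
  have ha : 0 < √(N : ℝ) := Real.sqrt_pos.2 (by linarith)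
  have hb : 0 < √(k : ℝ) := Real.sqrt_pos.2 (by linarith)
  have ha1 : 0 < √(M1 : ℝ) := Real.sqrt_pos.2 (by linarith)
  have ha2 : 0 < √(M2 : ℝ) := Real.sqrt_pos.2 (by linarith)
  have la : √(M1 : ℝ) ≤ √(N : ℝ) := Real.sqrt_le_sqrt rN1
  have lb : √(M2 : ℝ) ≤ √(k : ℝ) := Real.sqrt_le_sqrt rk1
  have ea : √(N : ℝ) ^ 2 = N := Real.sq_sqrt (by linarith)
  have eb : √(k : ℝ) ^ 2 = k := Real.sq_sqrt (by linarith)
  have ea1 : √(M1 : ℝ) ^ 2 = M1 := Real.sq_sqrt (by linarith)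
  have ea2 : √(M2 : ℝ) ^ 2 = M2 := Real.sq_sqrt (by linarith)
  have ha17 : √(N : ℝ) ≤ 17 / 12 * √(M1 : ℝ) :=
    bxi_s2 _ _ ha1.le (by rw [ea, ea1]; exact rN2)
  have hb17 : √(k : ℝ) ≤ 17 / 12 * √(M2 : ℝ) :=
    bxi_s2 _ _ ha2.le (by rw [eb, ea2]; exact rk2)
  have hcb : (c : ℝ) * √(k : ℝ) ≤ v * √(N : ℝ) := by
    have h0 : ((c : ℝ) * √(k : ℝ)) ^ 2 ≤ (v * √(N : ℝ)) ^ 2 := by
      rw [mul_pow, mul_pow, ea, eb]
      exact rcv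
    exact (pow_le_pow_iff_left₀ (by positivity) (by positivity) two_ne_zero).1 h0
  have h4' : |(u : ℝ)| * √(k : ℝ) ≤ v * √(N : ℝ) ^ 2 + c * √(N : ℝ) * √(k : ℝ) := by
    rw [ea]; exact h4
  have h5' : |(e : ℝ)| * √(N : ℝ) ≤ v * √(N : ℝ) * √(k : ℝ) + c * √(k : ℝ) ^ 2 := by
    rw [eb]; exact h5
  have hz' : |(z : ℝ)| * √(N : ℝ) ^ 2 ≤
      2 * v * (√(k : ℝ)) ^ 3 * √(N : ℝ) + c * (√(k : ℝ) ^ 2) ^ 2 := by
    rw [ea, eb]; exact hz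
  have bN : √(N : ℝ) ^ 2 ≤ 2 * √(M1 : ℝ) ^ 2 := by rw [ea, ea1]; exact rN2
  have bk : √(k : ℝ) ^ 2 ≤ 2 * √(M2 : ℝ) ^ 2 := by rw [eb, ea2]; exact rk2
  refine ⟨?_, ?_, ?_, ?_, ?_, ?_, ?_⟩
  · rw [le_div_iff₀ ha2]
    have g1 : |(u : ℝ)| * √(M2 : ℝ) ≤ |(u : ℝ)| * √(k : ℝ) :=
      mul_le_mul_of_nonneg_left lb (abs_nonneg _)
    have g2 : (c : ℝ) * √(N : ℝ) * √(k : ℝ) ≤ v * √(N : ℝ) ^ 2 := by
      calc (c : ℝ) * √(N : ℝ) * √(k : ℝ) = √(N : ℝ) * (c * √(k : ℝ)) := by ring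
        _ ≤ √(N : ℝ) * (v * √(N : ℝ)) := mul_le_mul_of_nonneg_left hcb ha.le
        _ = v * √(N : ℝ) ^ 2 := by ring
    have g3 : (v : ℝ) * √(N : ℝ) ^ 2 ≤ (2 * V) * (2 * √(M1 : ℝ) ^ 2) :=
      mul_le_mul rv2 bN (sq_nonneg _) (by positivity)
    linarith
  · have g2 : (c : ℝ) * √(k : ℝ) ^ 2 ≤ v * √(N : ℝ) * √(k : ℝ) := by
      calc (c : ℝ) * √(k : ℝ) ^ 2 = (c * √(k : ℝ)) * √(k : ℝ) := by ring
        _ ≤ (v * √(N : ℝ)) * √(k : ℝ) := mul_le_mul_of_nonneg_right hcb hb.le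
    have g3 : |(e : ℝ)| * √(N : ℝ) ≤ (2 * (v * √(k : ℝ))) * √(N : ℝ) := by linarith
    have g4 := le_of_mul_le_mul_right g3 ha
    have g5 : (v : ℝ) * √(k : ℝ) ≤ (2 * V) * (17 / 12 * √(M2 : ℝ)) :=
      mul_le_mul rv2 hb17 hb.le (by positivity)
    have g6 : 0 ≤ (V : ℝ) * √(M2 : ℝ) := by positivity
    linarith
  · rw [le_div_iff₀ ha1]
    have g2 : (c : ℝ) * (√(k : ℝ) ^ 2) ^ 2 ≤ v * √(N : ℝ) * √(k : ℝ) ^ 3 := by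
      calc (c : ℝ) * (√(k : ℝ) ^ 2) ^ 2 = (c * √(k : ℝ)) * √(k : ℝ) ^ 3 := by ring
        _ ≤ (v * √(N : ℝ)) * √(k : ℝ) ^ 3 := mul_le_mul_of_nonneg_right hcb (by positivity)
    have g3 : (|(z : ℝ)| * √(N : ℝ)) * √(N : ℝ) ≤ (3 * v * √(k : ℝ) ^ 3) * √(N : ℝ) := by
      calc (|(z : ℝ)| * √(N : ℝ)) * √(N : ℝ) = |(z : ℝ)| * √(N : ℝ) ^ 2 := by ring
        _ ≤ 2 * v * (√(k : ℝ)) ^ 3 * √(N : ℝ) + c * (√(k : ℝ) ^ 2) ^ 2 := hz'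
        _ ≤ 2 * v * (√(k : ℝ)) ^ 3 * √(N : ℝ) + v * √(N : ℝ) * √(k : ℝ) ^ 3 := by linarith
        _ = (3 * v * √(k : ℝ) ^ 3) * √(N : ℝ) := by ring
    have g4 := le_of_mul_le_mul_right g3 ha
    have g5 : |(z : ℝ)| * √(M1 : ℝ) ≤ |(z : ℝ)| * √(N : ℝ) :=
      mul_le_mul_of_nonneg_left la (abs_nonneg _)
    have g6 : √(k : ℝ) ^ 3 ≤ 17 / 6 * √(M2 : ℝ) ^ 3 := by
      calc √(k : ℝ) ^ 3 = √(k : ℝ) * √(k : ℝ) ^ 2 := by ring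
        _ ≤ (17 / 12 * √(M2 : ℝ)) * (2 * √(M2 : ℝ) ^ 2) :=
          mul_le_mul hb17 bk (sq_nonneg _) (by positivity)
        _ = 17 / 6 * √(M2 : ℝ) ^ 3 := by ring
    have g7 : (v : ℝ) * √(k : ℝ) ^ 3 ≤ (2 * V) * (17 / 6 * √(M2 : ℝ) ^ 3) :=
      mul_le_mul rv2 g6 (by positivity) (by positivity)
    linarith
  · rw [le_div_iff₀ ha2]
    have g1 : (c : ℝ) * √(M2 : ℝ) ≤ c * √(k : ℝ) := mul_le_mul_of_nonneg_left lb (by linarith)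
    have g2 : (v : ℝ) * √(N : ℝ) ≤ (2 * V) * (17 / 12 * √(M1 : ℝ)) :=
      mul_le_mul rv2 ha17 ha.le (by positivity)
    have g3 : 0 ≤ (V : ℝ) * √(M1 : ℝ) := by positivity
    linarith
  · rw [ea1]
    have g1 : (V : ℝ) ^ 2 ≤ (v : ℝ) ^ 2 := pow_le_pow_left₀ hV0 rv1 2
    linarith
  · have g1 : (V : ℝ) ^ 2 ≤ (v : ℝ) ^ 2 := pow_le_pow_left₀ hV0 rv1 2
    have g2 : (V : ℝ) ^ 2 * M1 ≤ (v : ℝ) ^ 2 * N := mul_le_mul g1 rN1 (by linarith) (by positivity)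
    have g3 : (k : ℝ) ^ 2 ≤ (2 * M2) ^ 2 := pow_le_pow_left₀ (by linarith) rk2 2
    have g4 : √(M2 : ℝ) ^ 4 = (M2 : ℝ) ^ 2 := by
      calc √(M2 : ℝ) ^ 4 = (√(M2 : ℝ) ^ 2) ^ 2 := by ring
        _ = (M2 : ℝ) ^ 2 := by rw [ea2]
    rw [ea1, g4]
    nlinarith
  · rw [ea1]
    have g1 : (k : ℝ) ≤ (c : ℝ) ^ 2 * k := le_mul_of_one_le_left (by linarith) (one_le_pow₀ rc)
    have g2 : (N : ℝ) ^ 2 ≤ (2 * M1) ^ 2 := pow_le_pow_left₀ (by linarith) rN2 2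
    rw [Real.sqrt_le_left (by linarith)]
    nlinarith

end Pool.Agent.FTB
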