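import Pool.Agent.FTB.Defs

/-!
# FTB/PrB: the parameter inequalities

`a1 = √M1`, `a2 = √M2`, `P = C V`.  From `V ^ 2 ≤ 8 a1 ^ 2` and `V ^ 2 a1 ^ 2 ≤ 16 a2 ^ 4`:
`V ≤ 3 a1` and `V a1 ≤ 4 a2 ^ 2`, so `V ^ 2 ≤ 12 a2 ^ 2`.  `P ≤ 3 V ^ 2 a1 / a2`, `U E ≤
96 V ^ 2 a1 ^ 2`, so `√(U E) ≤ 10 V a1`, `P √(U E) ≤ 30 V ^ 3 a1 ^ 2 / a2`.
(1) `V ^ 3 a1 ^ 2 / a2 = (V) (V ^ 2) a1 ^ 2 / a2 ≤ 3 a1 * 12 a2 ^ 2 * a1 ^ 2 / a2 = 36 a1 ^ 3 a2 ≤ 36 X`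
(`a1 ^ 3 a2 ≤ max ^ 4 ≤ X`), total `≤ 1080 X`.
(2) `s ≤ 11000 V ^ 2 (a2 / a1 ^ 2 + a1 ^ 3 / a2 ^ 4)`, `s ^ 2 ≤ 2 * 11000 ^ 2 V ^ 4
(a2 ^ 2 / a1 ^ 4 + a1 ^ 6 / a2 ^ 8)`; so
`P √(U E) s ^ 2 ≤ 10 ^ 10 V ^ 7 (a2 / a1 ^ 2 + a1 ^ 8 / a2 ^ 9)`, while `m ≥ V ^ 4 a1 / (136 a2 ^ 3)`.
The quotient is `≤ 136 * 10 ^ 10 * V ^ 3 (a2 ^ 4 / a1 ^ 3 + a1 ^ 7 / a2 ^ 6)`, and
`V ^ 3 ≤ 27 a1 ^ 3`, `V ^ 3 ≤ 64 a2 ^ 6 / a1 ^ 3` give `V ^ 3 (..) ≤ 27 a2 ^ 4 + 64 a1 ^ 4 ≤ 91 X`.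
(3) squares: `P ^ 2 U E s ^ 2 ≤ 900 V ^ 6 a1 ^ 4 / a2 ^ 2 * 2.42 * 10 ^ 8 * V ^ 4 (a2 ^ 2 / a1 ^ 4 +
a1 ^ 6 / a2 ^ 8)`, against `X ^ 2 m ≥ X ^ 2 V ^ 4 a1 / (136 a2 ^ 3)`: the quotient is
`≤ 3 * 10 ^ 13 * V ^ 6 (a2 ^ 3 / a1 + a1 ^ 9 / a2 ^ 7)`,
`V ^ 6 ≤ 729 a1 ^ 6`, `V ^ 6 ≤ 4096 a2 ^ 12 / a1 ^ 6`: `V ^ 6 (..) ≤ 729 a1 ^ 5 a2 ^ 3 +
4096 a1 ^ 3 a2 ^ 5 ≤ 4825 X ^ 2`.
(4) `P U E ≤ 3 V ^ 2 a1 / a2 * 96 V ^ 2 a1 ^ 2 = 288 V ^ 4 a1 ^ 3 / a2`, divided by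
`m ≥ V ^ 4 a1 / (136 a2 ^ 3)`: `≤ 288 * 136 a1 ^ 2 a2 ^ 2 ≤ 39168 X`.
(5) `m ≤ V ^ 4 a1 / (68 a2 ^ 3) ≤ 12 a2 ^ 2 V ^ 2 a1 / (68 a2 ^ 3) ≤ V ^ 2 a1 / a2 ≤ C V`.
(6) `P U E W / V ^ 5 ≤ 288 V ^ 4 a1 ^ 3 / a2 * 17 V a2 ^ 3 / a1 / V ^ 5 = 4896 a1 ^ 2 a2 ^ 2`.
It is convenient to prove the six parts as separate private lemmas.
-/

set_option autoImplicit false

namespace Pool.Agent.FTB

private lemma le_of_sq_le_sq {x y : ℝ} (h : x ^ 2 ≤ y ^ 2) (hy : 0 ≤ y) : x ≤ y := by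
  by_contra hc
  push Not at hc
  nlinarith [sq_nonneg (x - y)]

/-- `a1 ^ i a2 ^ j ≤ X` for `i + j = 4`. -/
private lemma prB_mix {a1 a2 X : ℝ} (h1 : 0 ≤ a1) (h2 : 0 ≤ a2) (hX1 : a1 ^ 4 ≤ X)
    (hX2 : a2 ^ 4 ≤ X) {i j : ℕ} (hij : i + j = 4) : a1 ^ i * a2 ^ j ≤ X := by
  rcases le_total a1 a2 with h | h
  · calc a1 ^ i * a2 ^ j ≤ a2 ^ i * a2 ^ j := by
          exact mul_le_mul_of_nonneg_right (pow_le_pow_left₀ h1 h i) (pow_nonneg h2 j)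
      _ = a2 ^ 4 := by rw [← pow_add, hij]
      _ ≤ X := hX2
  · calc a1 ^ i * a2 ^ j ≤ a1 ^ i * a1 ^ j := by
          exact mul_le_mul_of_nonneg_left (pow_le_pow_left₀ h2 h j) (pow_nonneg h1 i)
      _ = a1 ^ 4 := by rw [← pow_add, hij]
      _ ≤ X := hX1

theorem prB (V a1 a2 C U E s m X : ℝ) (hV : 1 ≤ V) (h1 : 1 ≤ a1) (h2 : 1 ≤ a2) (hs0 : 0 ≤ s)
    (hC1 : V * a1 / a2 ≤ C) (hC2 : C ≤ 3 * V * a1 / a2) (hU0 : 0 ≤ U)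
    (hU2 : U ≤ 12 * V * a1 ^ 2 / a2) (hE0 : 0 ≤ E) (hE2 : E ≤ 8 * V * a2)
    (hs : s ≤ 11000 * V ^ 2 * (a2 / a1 ^ 2 + a1 ^ 3 / a2 ^ 4)) (hX1 : a1 ^ 4 ≤ X)
    (hX2 : a2 ^ 4 ≤ X) (hV1 : V ^ 2 ≤ 8 * a1 ^ 2) (hV2 : V ^ 2 * a1 ^ 2 ≤ 16 * a2 ^ 4) :
    C * V * √(U * E) ≤ 10 ^ 4 * X ∧
    (V ^ 4 * a1 / (136 * a2 ^ 3) ≤ m → C * V * √(U * E) * s ^ 2 ≤ 10 ^ 16 * X * m) ∧
    (V ^ 4 * a1 / (136 * a2 ^ 3) ≤ m → C * V * √(U * E) * s ≤ 10 ^ 10 * X * √m) ∧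
    (V ^ 4 * a1 / (136 * a2 ^ 3) ≤ m → C * V * (U * E) ≤ 10 ^ 6 * X * m) ∧
    (m ≤ V ^ 4 * a1 / (68 * a2 ^ 3) → m ≤ C * V) ∧
    C * V * (U * E) * (17 * V * a2 ^ 3 / a1) ≤ 10 ^ 4 * X * V ^ 5 := by
  have hV0 : 0 < V := by linarith
  have ha1 : 0 < a1 := by linarith
  have ha2 : 0 < a2 := by linarith
  have hX0 : 0 < X := lt_of_lt_of_le (by positivity) hX1
  have hVa : V ≤ 3 * a1 := by
    have : V ^ 2 ≤ (3 * a1) ^ 2 := by nlinarith [sq_nonneg a1]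
    exact le_of_sq_le_sq this (by positivity)
  have hVb : V * a1 ≤ 4 * a2 ^ 2 := by
    have : (V * a1) ^ 2 ≤ (4 * a2 ^ 2) ^ 2 := by nlinarith
    exact le_of_sq_le_sq this (by positivity)
  have hVc : V ^ 2 ≤ 12 * a2 ^ 2 := by nlinarith
  have hC0 : 0 ≤ C := le_trans (by positivity) hC1
  have hCV0 : 0 ≤ C * V := by positivity
  have hCV : C * V ≤ 3 * V ^ 2 * a1 / a2 := by
    calc C * V ≤ (3 * V * a1 / a2) * V := mul_le_mul_of_nonneg_right hC2 hV0.le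
      _ = 3 * V ^ 2 * a1 / a2 := by ring
  have hUE0 : 0 ≤ U * E := by positivity
  have hUE : U * E ≤ 96 * V ^ 2 * a1 ^ 2 := by
    calc U * E ≤ (12 * V * a1 ^ 2 / a2) * (8 * V * a2) :=
          mul_le_mul hU2 hE2 hE0 (by positivity)
      _ = 96 * V ^ 2 * a1 ^ 2 := by field_simp; ring
  have hsq : √(U * E) ≤ 10 * V * a1 := by
    rw [show 10 * V * a1 = √((10 * V * a1) ^ 2) from (Real.sqrt_sq (by positivity)).symm]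
    apply Real.sqrt_le_sqrt
    nlinarith [mul_pos (pow_pos hV0 2) (pow_pos ha1 2)]
  set T := C * V * √(U * E) with hT
  have hT0 : 0 ≤ T := by positivity
  have hTle : T ≤ 30 * V ^ 3 * a1 ^ 2 / a2 := by
    calc T ≤ (3 * V ^ 2 * a1 / a2) * (10 * V * a1) :=
          mul_le_mul hCV hsq (Real.sqrt_nonneg _) (by positivity)
      _ = 30 * V ^ 3 * a1 ^ 2 / a2 := by ring
  have hV3a : V ^ 3 ≤ 27 * a1 ^ 3 := by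
    calc V ^ 3 ≤ (3 * a1) ^ 3 := pow_le_pow_left₀ hV0.le hVa 3
      _ = 27 * a1 ^ 3 := by ring
  have hV3b : V ^ 3 ≤ 64 * a2 ^ 6 / a1 ^ 3 := by
    rw [le_div_iff₀ (by positivity)]
    calc V ^ 3 * a1 ^ 3 = (V * a1) ^ 3 := by ring
      _ ≤ (4 * a2 ^ 2) ^ 3 := pow_le_pow_left₀ (by positivity) hVb 3
      _ = 64 * a2 ^ 6 := by ring
  have hs2 : s ^ 2 ≤ 242000000 * V ^ 4 * (a2 ^ 2 / a1 ^ 4 + a1 ^ 6 / a2 ^ 8) := by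
    have e1 : s ^ 2 ≤ (11000 * V ^ 2 * (a2 / a1 ^ 2 + a1 ^ 3 / a2 ^ 4)) ^ 2 :=
      pow_le_pow_left₀ hs0 hs 2
    have e2 : (a2 / a1 ^ 2 + a1 ^ 3 / a2 ^ 4) ^ 2 ≤ 2 * (a2 ^ 2 / a1 ^ 4 + a1 ^ 6 / a2 ^ 8) := by
      have e3 : a2 ^ 2 / a1 ^ 4 = (a2 / a1 ^ 2) ^ 2 := by rw [div_pow]; ring
      have e4 : a1 ^ 6 / a2 ^ 8 = (a1 ^ 3 / a2 ^ 4) ^ 2 := by rw [div_pow]; ring
      rw [e3, e4]
      nlinarith [sq_nonneg (a2 / a1 ^ 2 - a1 ^ 3 / a2 ^ 4)]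
    calc s ^ 2 ≤ (11000 * V ^ 2 * (a2 / a1 ^ 2 + a1 ^ 3 / a2 ^ 4)) ^ 2 := e1
      _ = 121000000 * V ^ 4 * (a2 / a1 ^ 2 + a1 ^ 3 / a2 ^ 4) ^ 2 := by ring
      _ ≤ 121000000 * V ^ 4 * (2 * (a2 ^ 2 / a1 ^ 4 + a1 ^ 6 / a2 ^ 8)) :=
          mul_le_mul_of_nonneg_left e2 (by positivity)
      _ = _ := by ring
  have m22 : a1 ^ 2 * a2 ^ 2 ≤ X := prB_mix ha1.le ha2.le hX1 hX2 (by norm_num)
  have m31 : a1 ^ 3 * a2 ^ 1 ≤ X := prB_mix ha1.le ha2.le hX1 hX2 (by norm_num)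
  have m13 : a1 ^ 1 * a2 ^ 3 ≤ X := prB_mix ha1.le ha2.le hX1 hX2 (by norm_num)
  have m53 : a1 ^ 5 * a2 ^ 3 ≤ X ^ 2 := by
    calc a1 ^ 5 * a2 ^ 3 = a1 ^ 4 * (a1 ^ 1 * a2 ^ 3) := by ring
      _ ≤ X * X := mul_le_mul hX1 m13 (by positivity) hX0.le
      _ = X ^ 2 := by ring
  have m35 : a1 ^ 3 * a2 ^ 5 ≤ X ^ 2 := by
    calc a1 ^ 3 * a2 ^ 5 = (a1 ^ 3 * a2 ^ 1) * a2 ^ 4 := by ring
      _ ≤ X * X := mul_le_mul m31 hX2 (by positivity) hX0.le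
      _ = X ^ 2 := by ring
  refine ⟨?_, ?_, ?_, ?_, ?_, ?_⟩
  · -- (1)
    have e1 : 30 * V ^ 3 * a1 ^ 2 / a2 ≤ 1080 * X := by
      rw [div_le_iff₀ ha2]
      have e2 : V ^ 3 * a1 ^ 2 ≤ 36 * (a1 ^ 3 * a2 ^ 1) * a2 := by
        calc V ^ 3 * a1 ^ 2 = V * V ^ 2 * a1 ^ 2 := by ring
          _ ≤ (3 * a1) * (12 * a2 ^ 2) * a1 ^ 2 := by
              apply mul_le_mul_of_nonneg_right _ (by positivity)
              exact mul_le_mul hVa hVc (by positivity) (by positivity)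
          _ = 36 * (a1 ^ 3 * a2 ^ 1) * a2 := by ring
      nlinarith [mul_le_mul_of_nonneg_right m31 ha2.le]
    linarith
  · -- (2)
    intro hm
    have k1 : V ^ 3 * (a2 / a1 ^ 2) ≤ 27 * X * (a1 / a2 ^ 3) := by
      calc V ^ 3 * (a2 / a1 ^ 2) ≤ (27 * a1 ^ 3) * (a2 / a1 ^ 2) :=
            mul_le_mul_of_nonneg_right hV3a (by positivity)
        _ = 27 * (a2 ^ 4) * (a1 / a2 ^ 3) := by field_simp
        _ ≤ 27 * X * (a1 / a2 ^ 3) := by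
            apply mul_le_mul_of_nonneg_right _ (by positivity)
            linarith
    have k2 : V ^ 3 * (a1 ^ 8 / a2 ^ 9) ≤ 64 * X * (a1 / a2 ^ 3) := by
      calc V ^ 3 * (a1 ^ 8 / a2 ^ 9) ≤ (64 * a2 ^ 6 / a1 ^ 3) * (a1 ^ 8 / a2 ^ 9) :=
            mul_le_mul_of_nonneg_right hV3b (by positivity)
        _ = 64 * (a1 ^ 4) * (a1 / a2 ^ 3) := by field_simp
        _ ≤ 64 * X * (a1 / a2 ^ 3) := by
            apply mul_le_mul_of_nonneg_right _ (by positivity)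
            linarith
    calc T * s ^ 2 ≤ (30 * V ^ 3 * a1 ^ 2 / a2) *
          (242000000 * V ^ 4 * (a2 ^ 2 / a1 ^ 4 + a1 ^ 6 / a2 ^ 8)) :=
          mul_le_mul hTle hs2 (by positivity) (by positivity)
      _ = 7260000000 * V ^ 4 * (V ^ 3 * (a2 / a1 ^ 2) + V ^ 3 * (a1 ^ 8 / a2 ^ 9)) := by
          field_simp; ring
      _ ≤ 7260000000 * V ^ 4 * (27 * X * (a1 / a2 ^ 3) + 64 * X * (a1 / a2 ^ 3)) := by
          apply mul_le_mul_of_nonneg_left (add_le_add k1 k2) (by positivity)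
      _ = 7260000000 * 91 * 136 * X * (V ^ 4 * a1 / (136 * a2 ^ 3)) := by
          field_simp; ring
      _ ≤ 7260000000 * 91 * 136 * X * m := mul_le_mul_of_nonneg_left hm (by positivity)
      _ ≤ 10 ^ 16 * X * m := by
          have hm0 : 0 ≤ m := le_trans (by positivity) hm
          have : 0 ≤ X * m := by positivity
          nlinarith
  · -- (3)
    intro hm
    have hm0 : 0 ≤ m := le_trans (by positivity) hm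
    have k1 : V ^ 6 ≤ 729 * X ^ 2 * (a1 / a2 ^ 3) := by
      calc V ^ 6 = (V ^ 3) ^ 2 := by ring
        _ ≤ (27 * a1 ^ 3) ^ 2 := pow_le_pow_left₀ (by positivity) hV3a 2
        _ = 729 * (a1 ^ 5 * a2 ^ 3) * (a1 / a2 ^ 3) := by field_simp; ring
        _ ≤ 729 * X ^ 2 * (a1 / a2 ^ 3) := by
            apply mul_le_mul_of_nonneg_right _ (by positivity)
            linarith
    have k2 : V ^ 6 * (a1 ^ 10 / a2 ^ 10) ≤ 4096 * X ^ 2 * (a1 / a2 ^ 3) := by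
      calc V ^ 6 * (a1 ^ 10 / a2 ^ 10) = (V ^ 3) ^ 2 * (a1 ^ 10 / a2 ^ 10) := by ring
        _ ≤ (64 * a2 ^ 6 / a1 ^ 3) ^ 2 * (a1 ^ 10 / a2 ^ 10) := by
            apply mul_le_mul_of_nonneg_right _ (by positivity)
            exact pow_le_pow_left₀ (by positivity) hV3b 2
        _ = 4096 * (a1 ^ 3 * a2 ^ 5) * (a1 / a2 ^ 3) := by field_simp; ring
        _ ≤ 4096 * X ^ 2 * (a1 / a2 ^ 3) := by
            apply mul_le_mul_of_nonneg_right _ (by positivity)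
            linarith
    have hT2 : T ^ 2 ≤ (30 * V ^ 3 * a1 ^ 2 / a2) ^ 2 := pow_le_pow_left₀ hT0 hTle 2
    have main : (T * s) ^ 2 ≤ (10 ^ 10 * X * √m) ^ 2 := by
      calc (T * s) ^ 2 = T ^ 2 * s ^ 2 := by ring
        _ ≤ (30 * V ^ 3 * a1 ^ 2 / a2) ^ 2 *
            (242000000 * V ^ 4 * (a2 ^ 2 / a1 ^ 4 + a1 ^ 6 / a2 ^ 8)) :=
            mul_le_mul hT2 hs2 (by positivity) (by positivity)
        _ = 217800000000 * V ^ 4 * (V ^ 6 + V ^ 6 * (a1 ^ 10 / a2 ^ 10)) := by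
            field_simp; ring
        _ ≤ 217800000000 * V ^ 4 * (729 * X ^ 2 * (a1 / a2 ^ 3) +
              4096 * X ^ 2 * (a1 / a2 ^ 3)) := by
            apply mul_le_mul_of_nonneg_left (add_le_add k1 k2) (by positivity)
        _ = 217800000000 * 4825 * 136 * X ^ 2 * (V ^ 4 * a1 / (136 * a2 ^ 3)) := by
            field_simp; ring
        _ ≤ 217800000000 * 4825 * 136 * X ^ 2 * m := mul_le_mul_of_nonneg_left hm (by positivity)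
        _ ≤ (10 ^ 10) ^ 2 * X ^ 2 * m := by
            have : 0 ≤ X ^ 2 * m := by positivity
            nlinarith
        _ = (10 ^ 10 * X * √m) ^ 2 := by
            rw [mul_pow, mul_pow, Real.sq_sqrt hm0]
    exact le_of_sq_le_sq main (by positivity)
  · -- (4)
    intro hm
    have hm0 : 0 ≤ m := le_trans (by positivity) hm
    calc C * V * (U * E) ≤ (3 * V ^ 2 * a1 / a2) * (96 * V ^ 2 * a1 ^ 2) :=
          mul_le_mul hCV hUE hUE0 (by positivity)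
      _ = 39168 * (a1 ^ 2 * a2 ^ 2) * (V ^ 4 * a1 / (136 * a2 ^ 3)) := by field_simp; ring
      _ ≤ 39168 * X * m := by
          apply mul_le_mul _ hm (by positivity) (by positivity)
          linarith
      _ ≤ 10 ^ 6 * X * m := by
          have : 0 ≤ X * m := by positivity
          nlinarith
  · -- (5)
    intro hm
    calc m ≤ V ^ 4 * a1 / (68 * a2 ^ 3) := hm
      _ = V ^ 2 * (V ^ 2 * a1 / (68 * a2 ^ 3)) := by ring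
      _ ≤ (12 * a2 ^ 2) * (V ^ 2 * a1 / (68 * a2 ^ 3)) :=
          mul_le_mul_of_nonneg_right hVc (by positivity)
      _ = (12 / 68) * (V * a1 / a2) * V := by field_simp
      _ ≤ 1 * C * V := by
          apply mul_le_mul_of_nonneg_right _ hV0.le
          exact mul_le_mul (by norm_num) hC1 (by positivity) (by norm_num)
      _ = C * V := by ring
  · -- (6)
    calc C * V * (U * E) * (17 * V * a2 ^ 3 / a1)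
        ≤ (3 * V ^ 2 * a1 / a2) * (96 * V ^ 2 * a1 ^ 2) * (17 * V * a2 ^ 3 / a1) := by
          apply mul_le_mul_of_nonneg_right _ (by positivity)
          exact mul_le_mul hCV hUE hUE0 (by positivity)
      _ = 4896 * (a1 ^ 2 * a2 ^ 2) * V ^ 5 := by field_simp; ring
      _ ≤ 10 ^ 4 * X * V ^ 5 := by
          apply mul_le_mul_of_nonneg_right _ (by positivity)
          nlinarith

end Pool.Agent.FTB
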