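import Pool.Agent.FTB.Defs

/-!
# FTB/PrC: the final inequality for a box

PROOF of `prC`.  First term: `18 UE P / m ≤ 18 * 10 ^ 6 X`.  Second: `28 L √UE P ≤ 28 * 10 ^ 4 L X`.
Third: with `m ≤ P`, `T ≥ 1` the radicand is at most `T ^ 4 * 729 P s ^ 4 + 72 T ^ 3 s ^ 2 * 4 P m ≤
T ^ 4 P (729 s ^ 4 + 288 s ^ 2 m) ≤ (T ^ 2 √P (27 s ^ 2 + 17 s √m)) ^ 2`, so
`S1 ≤ Q √L T ^ 2 P (27 s ^ 2 + 17 s √m)` (`√(P L) = √P √L`, `√P √P = P`), `√L ≤ L`, and
`(28 / m) L √UE S1 ≤ 28 L ^ 2 Q T ^ 2 (27 P √UE s ^ 2 / m + 17 P √UE s √m / m) ≤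
28 L ^ 2 Q T ^ 2 (27 * 10 ^ 16 X + 17 * 10 ^ 10 X)` (`√m * √m = m`).  Sum `≤ 10 ^ 20 Q T ^ 2 L ^ 2 X`.
-/

set_option autoImplicit false

namespace Pool.Agent.FTB

theorem prC (P UE s m X L T Q S1 : ℝ) (hP : 0 ≤ P) (hUE : 0 ≤ UE) (hs : 0 ≤ s) (hm : 1 ≤ m)
    (hX : 0 ≤ X) (hL : 1 ≤ L) (hT : 1 ≤ T) (hQ : 1 ≤ Q) (hmP : m ≤ P)
    (h0 : P * √UE ≤ 10 ^ 4 * X) (h1 : P * √UE * s ^ 2 ≤ 10 ^ 16 * X * m)
    (h2 : P * √UE * s ≤ 10 ^ 10 * X * √m) (h3 : P * UE ≤ 10 ^ 6 * X * m)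
    (hS : S1 ≤ Q * √(P * L) * √(T ^ 4 * (81 * s ^ 4 * m + 648 * P * s ^ 4) +
      72 * T ^ 2 * s ^ 2 * (T * P * m + 3 * m ^ 2))) :
    2 / m * (9 * UE * P + 14 * (L * √UE) * (m * P + S1)) ≤ 10 ^ 20 * Q * T ^ 2 * L ^ 2 * X := by
  set a : ℝ := √UE with ha
  have ha0 : 0 ≤ a := Real.sqrt_nonneg _
  have hr0 : 0 ≤ √m := Real.sqrt_nonneg _
  have hm0 : (0 : ℝ) < m := by linarith
  have hrm : √m * √m = m := Real.mul_self_sqrt hm0.le
  have hL0 : (0 : ℝ) ≤ L := by linarith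
  have hQ0 : (0 : ℝ) ≤ Q := by linarith
  have hT0 : (0 : ℝ) ≤ T := by linarith
  -- the radicand
  have hrad : T ^ 4 * (81 * s ^ 4 * m + 648 * P * s ^ 4) +
      72 * T ^ 2 * s ^ 2 * (T * P * m + 3 * m ^ 2) ≤
      (T ^ 2 * (√P * (27 * s ^ 2 + 17 * s * √m))) ^ 2 := by
    have hPP : √P * √P = P := Real.mul_self_sqrt hP
    have e1 : (T ^ 2 * (√P * (27 * s ^ 2 + 17 * s * √m))) ^ 2 =
        T ^ 4 * (P * (729 * s ^ 4 + 918 * s ^ 3 * √m + 289 * s ^ 2 * m)) := by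
      calc (T ^ 2 * (√P * (27 * s ^ 2 + 17 * s * √m))) ^ 2
          = T ^ 4 * ((√P * √P) * (729 * s ^ 4 + 918 * s ^ 3 * √m + 289 * s ^ 2 * (√m * √m))) := by
            ring
        _ = _ := by rw [hPP, hrm]
    rw [e1]
    have a1 : 81 * s ^ 4 * m ≤ 81 * s ^ 4 * P := mul_le_mul_of_nonneg_left hmP (by positivity)
    have a2 : 3 * m ^ 2 ≤ 3 * T * P * m := by
      have : m ≤ T * P := by nlinarith
      nlinarith
    have a3 : T * P * m + 3 * m ^ 2 ≤ 4 * T * P * m := by linarith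
    have a4 : 72 * T ^ 2 * s ^ 2 * (T * P * m + 3 * m ^ 2) ≤ 72 * T ^ 2 * s ^ 2 * (4 * T * P * m) :=
      mul_le_mul_of_nonneg_left a3 (by positivity)
    have a5 : 72 * T ^ 2 * s ^ 2 * (4 * T * P * m) ≤ T ^ 4 * (P * (288 * s ^ 2 * m)) := by
      have : T ^ 3 ≤ T ^ 4 := pow_le_pow_right₀ hT (by norm_num)
      have h0 : 0 ≤ 288 * s ^ 2 * P * m := by positivity
      calc 72 * T ^ 2 * s ^ 2 * (4 * T * P * m) = T ^ 3 * (288 * s ^ 2 * P * m) := by ring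
        _ ≤ T ^ 4 * (288 * s ^ 2 * P * m) := mul_le_mul_of_nonneg_right this h0
        _ = _ := by ring
    have a6 : T ^ 4 * (81 * s ^ 4 * m + 648 * P * s ^ 4) ≤ T ^ 4 * (P * (729 * s ^ 4)) := by
      apply mul_le_mul_of_nonneg_left _ (by positivity)
      linarith
    have a7 : 0 ≤ T ^ 4 * (P * (918 * s ^ 3 * √m + s ^ 2 * m)) := by positivity
    calc T ^ 4 * (81 * s ^ 4 * m + 648 * P * s ^ 4) +
          72 * T ^ 2 * s ^ 2 * (T * P * m + 3 * m ^ 2)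
        ≤ T ^ 4 * (P * (729 * s ^ 4)) + T ^ 4 * (P * (288 * s ^ 2 * m)) := by linarith
      _ ≤ T ^ 4 * (P * (729 * s ^ 4)) + T ^ 4 * (P * (288 * s ^ 2 * m)) +
          T ^ 4 * (P * (918 * s ^ 3 * √m + s ^ 2 * m)) := by linarith
      _ = _ := by ring
  have hsq : √(T ^ 4 * (81 * s ^ 4 * m + 648 * P * s ^ 4) +
      72 * T ^ 2 * s ^ 2 * (T * P * m + 3 * m ^ 2)) ≤
      T ^ 2 * (√P * (27 * s ^ 2 + 17 * s * √m)) := by
    apply Real.sqrt_le_iff.2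
    exact ⟨by positivity, hrad⟩
  have hsL : √L ≤ L := by
    apply Real.sqrt_le_iff.2
    exact ⟨hL0, by nlinarith⟩
  have hS2 : S1 ≤ Q * L * T ^ 2 * P * (27 * s ^ 2 + 17 * s * √m) := by
    refine hS.trans ?_
    have hPP : √P * √P = P := Real.mul_self_sqrt hP
    calc Q * √(P * L) * √(T ^ 4 * (81 * s ^ 4 * m + 648 * P * s ^ 4) +
          72 * T ^ 2 * s ^ 2 * (T * P * m + 3 * m ^ 2))
        ≤ Q * √(P * L) * (T ^ 2 * (√P * (27 * s ^ 2 + 17 * s * √m))) :=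
          mul_le_mul_of_nonneg_left hsq (by positivity)
      _ = √L * (Q * T ^ 2 * (√P * √P) * (27 * s ^ 2 + 17 * s * √m)) := by
          rw [Real.sqrt_mul hP]
          ring
      _ = √L * (Q * T ^ 2 * P * (27 * s ^ 2 + 17 * s * √m)) := by rw [hPP]
      _ ≤ L * (Q * T ^ 2 * P * (27 * s ^ 2 + 17 * s * √m)) :=
          mul_le_mul_of_nonneg_right hsL (by positivity)
      _ = _ := by ring
  -- the three terms
  set W : ℝ := Q * T ^ 2 * L ^ 2 with hW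
  have hQT : 1 ≤ Q * T ^ 2 := one_le_mul_of_one_le_of_one_le hQ (one_le_pow₀ hT)
  have hLL : L ≤ L ^ 2 := by nlinarith
  have hWL : L ≤ W := by
    calc L ≤ L ^ 2 := hLL
      _ = 1 * L ^ 2 := (one_mul _).symm
      _ ≤ Q * T ^ 2 * L ^ 2 := mul_le_mul_of_nonneg_right hQT (by positivity)
  have hW1 : 1 ≤ W := hL.trans hWL
  have hXm : 0 ≤ X * m := mul_nonneg hX hm0.le
  have t1 : 18 * (UE * P) ≤ 18 * 10 ^ 6 * (W * (X * m)) := by
    have : X * m ≤ W * (X * m) := le_mul_of_one_le_left hXm hW1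
    nlinarith
  have t2 : 28 * (L * a * (m * P)) ≤ 28 * 10 ^ 4 * (W * (X * m)) := by
    have b1 : L * a * (m * P) ≤ L * m * (10 ^ 4 * X) := by
      calc L * a * (m * P) = L * m * (P * a) := by ring
        _ ≤ L * m * (10 ^ 4 * X) := mul_le_mul_of_nonneg_left h0 (by positivity)
    have b2 : L * (X * m) ≤ W * (X * m) := mul_le_mul_of_nonneg_right hWL hXm
    nlinarith
  have t3 : 28 * (L * a * S1) ≤ 28 * (27 * 10 ^ 16 + 17 * 10 ^ 10) * (W * (X * m)) := by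
    have b1 : L * a * S1 ≤ L * a * (Q * L * T ^ 2 * P * (27 * s ^ 2 + 17 * s * √m)) :=
      mul_le_mul_of_nonneg_left hS2 (by positivity)
    have b2 : L * a * (Q * L * T ^ 2 * P * (27 * s ^ 2 + 17 * s * √m)) =
        W * (27 * (P * a * s ^ 2) + 17 * (P * a * s * √m)) := by
      rw [hW]
      ring
    have b3 : P * a * s * √m ≤ 10 ^ 10 * X * m := by
      calc P * a * s * √m ≤ 10 ^ 10 * X * √m * √m := mul_le_mul_of_nonneg_right h2 hr0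
        _ = 10 ^ 10 * X * (√m * √m) := by ring
        _ = _ := by rw [hrm]
    have b4 : W * (27 * (P * a * s ^ 2) + 17 * (P * a * s * √m)) ≤
        W * (27 * (10 ^ 16 * X * m) + 17 * (10 ^ 10 * X * m)) := by
      apply mul_le_mul_of_nonneg_left _ (by linarith)
      linarith
    calc 28 * (L * a * S1) ≤ 28 * (W * (27 * (P * a * s ^ 2) + 17 * (P * a * s * √m))) := by
          rw [← b2]
          linarith
      _ ≤ 28 * (W * (27 * (10 ^ 16 * X * m) + 17 * (10 ^ 10 * X * m))) := by linarith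
      _ = _ := by ring
  have hfin : 2 * (9 * UE * P + 14 * (L * a) * (m * P + S1)) ≤ 10 ^ 20 * (W * (X * m)) := by
    have e : 2 * (9 * UE * P + 14 * (L * a) * (m * P + S1)) =
        18 * (UE * P) + 28 * (L * a * (m * P)) + 28 * (L * a * S1) := by ring
    rw [e]
    have hWX : 0 ≤ W * (X * m) := by positivity
    nlinarith
  have e2 : 2 / m * (9 * UE * P + 14 * (L * a) * (m * P + S1)) =
      2 * (9 * UE * P + 14 * (L * a) * (m * P + S1)) / m := by ring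
  rw [e2, div_le_iff₀ hm0]
  refine hfin.trans (le_of_eq ?_)
  rw [hW]
  ring

end Pool.Agent.FTB
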