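import Pool.Agent.FTB.CeA

/-!
# FTB/Cel: the cell lemma

PROOF of `cel`.  Let `l1 h = 2 α h.1 + β h.2`, `l2 h = β h.1 + 2 γ h.2` (additive in `h`).  Map
`h ∈ bx (2 U) (2 E)` to the cell `(a, b) = (⌊U fract (l1 h)⌋₊, ⌊E fract (l2 h)⌋₊)`, which lies in
`range U ×ˢ range E` (`cea0`).  By `cea1` and `gm_nonneg` the summand is at most `Gc U a * Gc E b`
(`Gc ≥ 0` for such `a`: it is `≥ gm ≥ 0` for some `x`, or directly).
Every cell contains at most `card (H0 α β γ U E)` of the `h`: if `h0` is in the cell, then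
`h ↦ h - h0` maps the `h` of the cell injectively into `H0`: `h - h0 ∈ bx (4 U) (4 E)`, and
`dn (l1 (h - h0)) = dn (l1 h - l1 h0) ≤ |fract (l1 h) - fract (l1 h0)| ≤ 1 / U` (both
`U fract` lie in `[a, a + 1)`; `dn_le` with the integer `⌊l1 h⌋ - ⌊l1 h0⌋`), the same for `l2`.
So the sum is at most `∑ (a, b), card H0 * (Gc U a * Gc E b) = card H0 * (∑ Gc U a) * (∑ Gc E b)`
(`Finset.sum_fiberwise_of_maps_to`, `Finset.sum_product`), and `cea2` gives the result.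
-/

set_option autoImplicit false

namespace Pool.Agent.FTB

private theorem cel_dn (U : ℕ) (hU : 1 ≤ U) (x y : ℝ)
    (h : ⌊(U : ℝ) * Int.fract x⌋₊ = ⌊(U : ℝ) * Int.fract y⌋₊) : dn (x - y) ≤ 1 / (U : ℝ) := by
  have hU0 : (0 : ℝ) < U := by exact_mod_cast hU
  have hx0 : 0 ≤ (U : ℝ) * Int.fract x := mul_nonneg hU0.le (Int.fract_nonneg x)
  have hy0 : 0 ≤ (U : ℝ) * Int.fract y := mul_nonneg hU0.le (Int.fract_nonneg y)
  have h1 := Nat.floor_le hx0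
  have h2 := Nat.lt_floor_add_one ((U : ℝ) * Int.fract x)
  have h3 := Nat.floor_le hy0
  have h4 := Nat.lt_floor_add_one ((U : ℝ) * Int.fract y)
  rw [h] at h1 h2
  have h5 : |Int.fract x - Int.fract y| ≤ 1 / (U : ℝ) := by
    have h6 : |Int.fract x - Int.fract y| * (U : ℝ) = |(Int.fract x - Int.fract y) * (U : ℝ)| := by
      rw [abs_mul, abs_of_pos hU0]
    rw [le_div_iff₀ hU0, h6, abs_le]
    constructor
    · nlinarith
    · nlinarith
  refine (dn_le (x - y) (⌊x⌋ - ⌊y⌋)).trans ?_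
  have h6 : x - y - ((⌊x⌋ - ⌊y⌋ : ℤ) : ℝ) = Int.fract x - Int.fract y := by
    have a1 := Int.floor_add_fract x
    have a2 := Int.floor_add_fract y
    push_cast
    linarith
  rw [h6]
  exact h5

theorem cel (α β γ : ℝ) (U E : ℕ) (hU : 1 ≤ U) (hE : 1 ≤ E) :
    ∑ h ∈ bx (2 * U) (2 * E), gm U (2 * α * (h.1 : ℝ) + β * (h.2 : ℝ)) *
        gm E (β * (h.1 : ℝ) + 2 * γ * (h.2 : ℝ)) ≤
      49 * (U : ℝ) * (E : ℝ) * (1 + Real.log U) * (1 + Real.log E) *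
        ((H0 α β γ U E).card : ℝ) := by
  classical
  have hU1 : (1 : ℝ) ≤ U := by exact_mod_cast hU
  have hE1 : (1 : ℝ) ≤ E := by exact_mod_cast hE
  have hlU : 0 ≤ Real.log U := Real.log_nonneg hU1
  have hlE : 0 ≤ Real.log E := Real.log_nonneg hE1
  have hGc : ∀ V a : ℕ, a < V → 0 ≤ Gc V a := by
    intro V a ha
    unfold Gc
    split_ifs with h
    · positivity
    · have h1 : (a : ℝ) + 1 ≤ V := by exact_mod_cast ha
      have h2 : 0 ≤ 1 / ((V : ℝ) - 1 - a) := by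
        apply div_nonneg zero_le_one
        linarith
      positivity
  let l1 : ℤ × ℤ → ℝ := fun h => 2 * α * (h.1 : ℝ) + β * (h.2 : ℝ)
  let l2 : ℤ × ℤ → ℝ := fun h => β * (h.1 : ℝ) + 2 * γ * (h.2 : ℝ)
  have hmap : ∀ h ∈ bx (2 * U) (2 * E),
      ((⌊(U : ℝ) * Int.fract (l1 h)⌋₊, ⌊(E : ℝ) * Int.fract (l2 h)⌋₊) : ℕ × ℕ) ∈
        Finset.range U ×ˢ Finset.range E := fun h _ =>
    Finset.mem_product.2 ⟨Finset.mem_range.2 (cea0 U hU _), Finset.mem_range.2 (cea0 E hE _)⟩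
  have hcard : ∀ c ∈ Finset.range U ×ˢ Finset.range E,
      ((bx (2 * U) (2 * E)).filter (fun h =>
        ((⌊(U : ℝ) * Int.fract (l1 h)⌋₊, ⌊(E : ℝ) * Int.fract (l2 h)⌋₊) : ℕ × ℕ) = c)).card ≤
        (H0 α β γ U E).card := by
    intro c _
    rcases Finset.eq_empty_or_nonempty ((bx (2 * U) (2 * E)).filter (fun h =>
        ((⌊(U : ℝ) * Int.fract (l1 h)⌋₊, ⌊(E : ℝ) * Int.fract (l2 h)⌋₊) : ℕ × ℕ) = c)) with
      h0 | ⟨h0, hh0⟩
    · rw [h0]
      simp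
    obtain ⟨hb0, hc0⟩ := Finset.mem_filter.1 hh0
    refine Finset.card_le_card_of_injOn (fun h => h - h0) ?_ ?_
    · intro h hh
      obtain ⟨hb, hc⟩ := Finset.mem_filter.1 (Finset.mem_coe.1 hh)
      refine Finset.mem_coe.2 ((mem_H0 _ _ _ _ _ _).2 ⟨?_, ?_, ?_⟩)
      · rw [mem_bx] at hb0 hb ⊢
        obtain ⟨a1, a2⟩ := hb0
        obtain ⟨b1, b2⟩ := hb
        rw [abs_le] at a1 a2 b1 b2
        push_cast at a1 a2 b1 b2
        refine ⟨abs_le.2 ⟨?_, ?_⟩, abs_le.2 ⟨?_, ?_⟩⟩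
        · show -((4 * U : ℕ) : ℤ) ≤ h.1 - h0.1
          push_cast; linarith
        · show h.1 - h0.1 ≤ ((4 * U : ℕ) : ℤ)
          push_cast; linarith
        · show -((4 * E : ℕ) : ℤ) ≤ h.2 - h0.2
          push_cast; linarith
        · show h.2 - h0.2 ≤ ((4 * E : ℕ) : ℤ)
          push_cast; linarith
      · have e1 : 2 * α * ((h - h0).1 : ℝ) + β * ((h - h0).2 : ℝ) = l1 h - l1 h0 := by
          have q1 : (h - h0).1 = h.1 - h0.1 := rfl
          have q2 : (h - h0).2 = h.2 - h0.2 := rfl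
          rw [q1, q2]
          push_cast
          show _ = (2 * α * (h.1 : ℝ) + β * (h.2 : ℝ)) - (2 * α * (h0.1 : ℝ) + β * (h0.2 : ℝ))
          ring
        have e2 := (Prod.ext_iff.1 (hc.trans hc0.symm)).1
        have e3 := cel_dn U hU (l1 h) (l1 h0) e2
        show dn (2 * α * ((h - h0).1 : ℝ) + β * ((h - h0).2 : ℝ)) ≤ 1 / (U : ℝ)
        rw [e1]
        exact e3
      · have e1 : β * ((h - h0).1 : ℝ) + 2 * γ * ((h - h0).2 : ℝ) = l2 h - l2 h0 := by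
          have q1 : (h - h0).1 = h.1 - h0.1 := rfl
          have q2 : (h - h0).2 = h.2 - h0.2 := rfl
          rw [q1, q2]
          push_cast
          show _ = (β * (h.1 : ℝ) + 2 * γ * (h.2 : ℝ)) - (β * (h0.1 : ℝ) + 2 * γ * (h0.2 : ℝ))
          ring
        have e2 := (Prod.ext_iff.1 (hc.trans hc0.symm)).2
        have e3 := cel_dn E hE (l2 h) (l2 h0) e2
        show dn (β * ((h - h0).1 : ℝ) + 2 * γ * ((h - h0).2 : ℝ)) ≤ 1 / (E : ℝ)
        rw [e1]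
        exact e3
    · intro x _ y _ hxy
      exact sub_left_injective hxy
  have h1 : ∑ h ∈ bx (2 * U) (2 * E), gm U (l1 h) * gm E (l2 h) ≤
      ∑ h ∈ bx (2 * U) (2 * E),
        Gc U ⌊(U : ℝ) * Int.fract (l1 h)⌋₊ * Gc E ⌊(E : ℝ) * Int.fract (l2 h)⌋₊ := by
    refine Finset.sum_le_sum fun h _ => ?_
    exact mul_le_mul (cea1 U hU _) (cea1 E hE _) (gm_nonneg _ _) (hGc _ _ (cea0 U hU _))
  have h2 : ∑ h ∈ bx (2 * U) (2 * E),
        Gc U ⌊(U : ℝ) * Int.fract (l1 h)⌋₊ * Gc E ⌊(E : ℝ) * Int.fract (l2 h)⌋₊ ≤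
      ∑ c ∈ Finset.range U ×ˢ Finset.range E,
        ((H0 α β γ U E).card : ℝ) * (Gc U c.1 * Gc E c.2) := by
    rw [← Finset.sum_fiberwise_of_maps_to hmap]
    refine Finset.sum_le_sum fun c hc => ?_
    have h3 : ∑ h ∈ (bx (2 * U) (2 * E)).filter (fun h =>
        ((⌊(U : ℝ) * Int.fract (l1 h)⌋₊, ⌊(E : ℝ) * Int.fract (l2 h)⌋₊) : ℕ × ℕ) = c),
        Gc U ⌊(U : ℝ) * Int.fract (l1 h)⌋₊ * Gc E ⌊(E : ℝ) * Int.fract (l2 h)⌋₊ =
        ∑ h ∈ (bx (2 * U) (2 * E)).filter (fun h =>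
        ((⌊(U : ℝ) * Int.fract (l1 h)⌋₊, ⌊(E : ℝ) * Int.fract (l2 h)⌋₊) : ℕ × ℕ) = c),
        Gc U c.1 * Gc E c.2 := by
      refine Finset.sum_congr rfl fun h hh => ?_
      have h4 := (Finset.mem_filter.1 hh).2
      rw [← h4]
    rw [h3, Finset.sum_const, nsmul_eq_mul]
    obtain ⟨hc1, hc2⟩ := Finset.mem_product.1 hc
    refine mul_le_mul_of_nonneg_right ?_ (mul_nonneg (hGc _ _ (Finset.mem_range.1 hc1))
      (hGc _ _ (Finset.mem_range.1 hc2)))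
    exact_mod_cast hcard c hc
  have h5 : ∑ c ∈ Finset.range U ×ˢ Finset.range E,
        ((H0 α β γ U E).card : ℝ) * (Gc U c.1 * Gc E c.2) =
      ((H0 α β γ U E).card : ℝ) * ((∑ a ∈ Finset.range U, Gc U a) *
        (∑ b ∈ Finset.range E, Gc E b)) := by
    rw [← Finset.mul_sum, Finset.sum_mul_sum, ← Finset.sum_product']
  have h6 : (∑ a ∈ Finset.range U, Gc U a) * (∑ b ∈ Finset.range E, Gc E b) ≤
      (7 * (U : ℝ) * (1 + Real.log U)) * (7 * (E : ℝ) * (1 + Real.log E)) := by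
    refine mul_le_mul (cea2 U hU) (cea2 E hE) ?_ (by positivity)
    exact Finset.sum_nonneg fun a ha => hGc _ _ (Finset.mem_range.1 ha)
  have h7 : ((H0 α β γ U E).card : ℝ) * ((∑ a ∈ Finset.range U, Gc U a) *
        (∑ b ∈ Finset.range E, Gc E b)) ≤
      ((H0 α β γ U E).card : ℝ) *
        ((7 * (U : ℝ) * (1 + Real.log U)) * (7 * (E : ℝ) * (1 + Real.log E))) :=
    mul_le_mul_of_nonneg_left h6 (Nat.cast_nonneg _)
  refine (h1.trans (h2.trans (h5.le.trans h7))).trans (le_of_eq ?_)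
  ring

end Pool.Agent.FTB
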