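import Pool.Agent.FTB.Wey
import Pool.Agent.FTB.Cel

/-! # FTB/Sqr: the bound for one exponential sum -/

set_option autoImplicit false

namespace Pool.Agent.FTB

theorem sqr (α β γ : ℝ) (U E : ℕ) (hU : 1 ≤ U) (hE : 1 ≤ E) :
    ‖∑ x ∈ bx U E, ex (qf α β γ x)‖ ≤
      7 * √((U : ℝ) * (E : ℝ) * (1 + Real.log U) * (1 + Real.log E)) *
        √((H0 α β γ U E).card : ℝ) := by
  have h1 := (wey α β γ U E).trans (cel α β γ U E hU hE)
  have hU1 : (1 : ℝ) ≤ U := by exact_mod_cast hU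
  have hE1 : (1 : ℝ) ≤ E := by exact_mod_cast hE
  have hlU : 0 ≤ Real.log U := Real.log_nonneg hU1
  have hlE : 0 ≤ Real.log E := Real.log_nonneg hE1
  have h0 : (0 : ℝ) ≤ (U : ℝ) * (E : ℝ) * (1 + Real.log U) * (1 + Real.log E) := by positivity
  apply (pow_le_pow_iff_left₀ (norm_nonneg _) (by positivity) two_ne_zero).1
  rw [mul_pow, mul_pow, Real.sq_sqrt h0, Real.sq_sqrt (Nat.cast_nonneg _)]
  refine h1.trans (le_of_eq ?_)
  ring

end Pool.Agent.FTB
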