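import Pool.Agent.FTB.FjB
import Pool.Agent.FTB.Sqr
import Pool.Agent.FTB.Bin

/-!
# FTB/Tcv: the number of points for fixed `(c, v)`

PROOF of `tcv`.  Take `cb` with `v ^ 5 ∣ cb * c - 1` (`c`, `v ^ 5` are coprime).  The map
`S → bx U E`, `q ↦ (q.1, q.2.1) = (u, e)` is injective: for two elements with the same `(u, e)`,
`v ^ 5 ∣ c ^ 5 (z - z')`, so `v ^ 5 ∣ z - z'`, and `|z - z'| ≤ 2 W < v ^ 5` (`4 m W ≤ v ^ 5`,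
`m ≥ 1`; if `W < 0` then `S` is empty).  Let `T` be its image, `α = cb ^ 5 / v`,
`β = -cb ^ 5 c ^ 2 / v ^ 3`, `γ = -cb ^ 5 c ^ 4 / v ^ 5`, `θ = qf α β γ`.  For `(u, e) ∈ T`:
`z = cb ^ 5 (v ^ 4 u ^ 2 - c ^ 2 v ^ 2 u e - c ^ 4 e ^ 2) - n v ^ 5` for some integer `n`
(multiply the congruence by `cb ^ 5`), so `θ (u, e) - n = z / v ^ 5`, of absolute value
`≤ W / v ^ 5 ≤ 1 / (4 m)`.  So `fjb` applies (with `S := bx U E`):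
`card S = card T ≤ 2 / m * (card (bx U E) + 2 ∑ j ∈ Ico 1 m, ‖∑ x ∈ bx U E, ex (j * θ x)‖)`,
`card (bx U E) = (2 U + 1) (2 E + 1) ≤ 9 U E`, and `j * qf α β γ x = qf (j α) (j β) (j γ) x`, so
`sqr` and the hypothesis `hH` bound the norm by
`7 √(U E (1 + log U) (1 + log E)) √(1 + card (Bc s (5 j) c v))` and `√(1 + x) ≤ 1 + √x`.
-/

set_option autoImplicit false

namespace Pool.Agent.FTB

theorem tcv (c v U E m s : ℕ) (W : ℝ) (hc : 1 ≤ c) (hv : 1 ≤ v) (hU : 1 ≤ U) (hE : 1 ≤ E)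
    (hm : 1 ≤ m) (hcv : Nat.Coprime c v) (hW : 4 * (m : ℝ) * W ≤ (v : ℝ) ^ 5)
    (hH : ∀ cb : ℤ, (v : ℤ) ^ 5 ∣ cb * c - 1 → ∀ j ∈ Finset.Ico 1 m,
      ((H0 ((j : ℝ) * ((cb : ℝ) ^ 5 / v)) ((j : ℝ) * (-(cb : ℝ) ^ 5 * c ^ 2 / v ^ 3))
        ((j : ℝ) * (-(cb : ℝ) ^ 5 * c ^ 4 / v ^ 5)) U E).card : ℝ) ≤
        1 + ((Bc s (5 * j) c v).card : ℝ))
    (S : Finset (ℤ × ℤ × ℤ))
    (hS : ∀ q ∈ S, |q.1| ≤ U ∧ |q.2.1| ≤ E ∧ |(q.2.2 : ℝ)| ≤ W ∧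
      (v : ℤ) ^ 5 ∣ (c : ℤ) ^ 5 * q.2.2 - ((v : ℤ) ^ 4 * q.1 ^ 2 -
        (c : ℤ) ^ 2 * (v : ℤ) ^ 2 * q.1 * q.2.1 - (c : ℤ) ^ 4 * q.2.1 ^ 2)) :
    (S.card : ℝ) ≤ 2 / (m : ℝ) * (9 * U * E +
      14 * √((U : ℝ) * (E : ℝ) * (1 + Real.log U) * (1 + Real.log E)) *
        ∑ j ∈ Finset.Ico 1 m, (1 + √((Bc s (5 * j) c v).card : ℝ))) := by
  classical
  have hc0 : (0 : ℝ) < c := by exact_mod_cast hc
  have hv0 : (0 : ℝ) < v := by exact_mod_cast hv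
  have hm0 : (0 : ℝ) < m := by exact_mod_cast hm
  have hU1 : (1 : ℝ) ≤ U := by exact_mod_cast hU
  have hE1 : (1 : ℝ) ≤ E := by exact_mod_cast hE
  have hlU : 0 ≤ Real.log U := Real.log_nonneg hU1
  have hlE : 0 ≤ Real.log E := Real.log_nonneg hE1
  -- an inverse of `c` modulo `v ^ 5`
  obtain ⟨cb, hcb⟩ : ∃ cb : ℤ, (v : ℤ) ^ 5 ∣ cb * c - 1 := by
    have h1 : IsCoprime (c : ℤ) ((v : ℤ) ^ 5) :=
      ((Nat.isCoprime_iff_coprime).2 hcv).pow_right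
    obtain ⟨a, b, hab⟩ := h1
    exact ⟨a, -b, by linarith⟩
  have hcb5 : (v : ℤ) ^ 5 ∣ cb ^ 5 * c ^ 5 - 1 := by
    have h1 : cb ^ 5 * (c : ℤ) ^ 5 - 1 = (cb * c) ^ 5 - 1 ^ 5 := by ring
    rw [h1]
    exact hcb.trans (sub_dvd_pow_sub_pow _ _ 5)
  have hv5 : (0 : ℝ) < (v : ℝ) ^ 5 := by positivity
  have hv5z : (0 : ℤ) < (v : ℤ) ^ 5 := by exact_mod_cast (by positivity : 0 < v ^ 5)
  -- the map to `(u, e)`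
  have hinj : Set.InjOn (fun q : ℤ × ℤ × ℤ => ((q.1, q.2.1) : ℤ × ℤ)) (S : Set (ℤ × ℤ × ℤ)) := by
    intro q hq r hr hqr
    have hqr' : ((q.1, q.2.1) : ℤ × ℤ) = (r.1, r.2.1) := hqr
    have e1 : q.1 = r.1 := (Prod.mk.inj hqr').1
    have e2 : q.2.1 = r.2.1 := (Prod.mk.inj hqr').2
    obtain ⟨q1, q2, q3, q4⟩ := hS q (Finset.mem_coe.1 hq)
    obtain ⟨r1, r2, r3, r4⟩ := hS r (Finset.mem_coe.1 hr)
    have h1 : (v : ℤ) ^ 5 ∣ (c : ℤ) ^ 5 * (q.2.2 - r.2.2) := by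
      have h2 := dvd_sub q4 r4
      rw [e1, e2] at h2
      have h3 : (c : ℤ) ^ 5 * q.2.2 - ((v : ℤ) ^ 4 * r.1 ^ 2 -
        (c : ℤ) ^ 2 * (v : ℤ) ^ 2 * r.1 * r.2.1 - (c : ℤ) ^ 4 * r.2.1 ^ 2) -
        ((c : ℤ) ^ 5 * r.2.2 - ((v : ℤ) ^ 4 * r.1 ^ 2 -
        (c : ℤ) ^ 2 * (v : ℤ) ^ 2 * r.1 * r.2.1 - (c : ℤ) ^ 4 * r.2.1 ^ 2)) =
        (c : ℤ) ^ 5 * (q.2.2 - r.2.2) := by ring
      rw [h3] at h2
      exact h2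
    have h2 : (v : ℤ) ^ 5 ∣ q.2.2 - r.2.2 := by
      have h3 : IsCoprime ((v : ℤ) ^ 5) ((c : ℤ) ^ 5) :=
        (((Nat.isCoprime_iff_coprime).2 hcv).symm).pow
      exact h3.dvd_of_dvd_mul_left h1
    have h4 : |q.2.2 - r.2.2| < (v : ℤ) ^ 5 := by
      have h5 : (|q.2.2 - r.2.2| : ℝ) < (v : ℝ) ^ 5 := by
        have h6 : |(q.2.2 : ℝ) - (r.2.2 : ℝ)| ≤ |(q.2.2 : ℝ)| + |(r.2.2 : ℝ)| := abs_sub _ _
        have h7 : (1 : ℝ) ≤ m := by exact_mod_cast hm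
        have hW0 : 0 ≤ W := (abs_nonneg _).trans q3
        have h8 : W ≤ (m : ℝ) * W := by nlinarith
        linarith
      have h9 : ((|q.2.2 - r.2.2| : ℤ) : ℝ) < (((v : ℤ) ^ 5 : ℤ) : ℝ) := by
        push_cast
        exact h5
      exact_mod_cast h9
    have h5 := Int.eq_zero_of_abs_lt_dvd h2 h4
    have e3 : q.2.2 = r.2.2 := by linarith
    exact Prod.ext e1 (Prod.ext e2 e3)
  set T : Finset (ℤ × ℤ) := S.image (fun q : ℤ × ℤ × ℤ => ((q.1, q.2.1) : ℤ × ℤ)) with hTdef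
  have hTcard : T.card = S.card := Finset.card_image_of_injOn hinj
  have hTS : T ⊆ bx U E := by
    intro x hx
    obtain ⟨q, hq, rfl⟩ := Finset.mem_image.1 hx
    obtain ⟨q1, q2, q3, q4⟩ := hS q hq
    exact (mem_bx _ _ _).2 ⟨q1, q2⟩
  have hT : ∀ x ∈ T, ∃ n : ℤ, |qf ((cb : ℝ) ^ 5 / v) (-(cb : ℝ) ^ 5 * c ^ 2 / v ^ 3)
      (-(cb : ℝ) ^ 5 * c ^ 4 / v ^ 5) x - n| ≤ 1 / (4 * (m : ℝ)) := by
    intro x hx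
    obtain ⟨q, hq, rfl⟩ := Finset.mem_image.1 hx
    obtain ⟨q1, q2, q3, q4⟩ := hS q hq
    have h1 : (v : ℤ) ^ 5 ∣ q.2.2 - cb ^ 5 * ((v : ℤ) ^ 4 * q.1 ^ 2 -
        (c : ℤ) ^ 2 * (v : ℤ) ^ 2 * q.1 * q.2.1 - (c : ℤ) ^ 4 * q.2.1 ^ 2) := by
      have h2 : q.2.2 - cb ^ 5 * ((v : ℤ) ^ 4 * q.1 ^ 2 -
        (c : ℤ) ^ 2 * (v : ℤ) ^ 2 * q.1 * q.2.1 - (c : ℤ) ^ 4 * q.2.1 ^ 2) =
        cb ^ 5 * ((c : ℤ) ^ 5 * q.2.2 - ((v : ℤ) ^ 4 * q.1 ^ 2 -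
        (c : ℤ) ^ 2 * (v : ℤ) ^ 2 * q.1 * q.2.1 - (c : ℤ) ^ 4 * q.2.1 ^ 2)) -
        (cb ^ 5 * c ^ 5 - 1) * q.2.2 := by ring
      rw [h2]
      exact dvd_sub (q4.mul_left _) (hcb5.mul_right _)
    obtain ⟨k, hk⟩ := h1
    refine ⟨-k, ?_⟩
    have hk2 : (q.2.2 : ℝ) - (cb : ℝ) ^ 5 * ((v : ℝ) ^ 4 * (q.1 : ℝ) ^ 2 -
        (c : ℝ) ^ 2 * (v : ℝ) ^ 2 * q.1 * q.2.1 - (c : ℝ) ^ 4 * (q.2.1 : ℝ) ^ 2) =
        (v : ℝ) ^ 5 * k := by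
      have h3 : ((q.2.2 - cb ^ 5 * ((v : ℤ) ^ 4 * q.1 ^ 2 -
        (c : ℤ) ^ 2 * (v : ℤ) ^ 2 * q.1 * q.2.1 - (c : ℤ) ^ 4 * q.2.1 ^ 2) : ℤ) : ℝ) =
        (((v : ℤ) ^ 5 * k : ℤ) : ℝ) := by rw [hk]
      push_cast at h3
      exact h3
    have h4 : qf ((cb : ℝ) ^ 5 / v) (-(cb : ℝ) ^ 5 * c ^ 2 / v ^ 3)
      (-(cb : ℝ) ^ 5 * c ^ 4 / v ^ 5) ((q.1, q.2.1) : ℤ × ℤ) - ((-k : ℤ) : ℝ) =
        (q.2.2 : ℝ) / (v : ℝ) ^ 5 := by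
      have h5 : (q.2.2 : ℝ) = (v : ℝ) ^ 5 * k + (cb : ℝ) ^ 5 * ((v : ℝ) ^ 4 * (q.1 : ℝ) ^ 2 -
        (c : ℝ) ^ 2 * (v : ℝ) ^ 2 * q.1 * q.2.1 - (c : ℝ) ^ 4 * (q.2.1 : ℝ) ^ 2) := by
        linarith
      rw [h5]
      unfold qf
      push_cast
      field_simp
      ring
    rw [h4, abs_div, abs_of_pos hv5, div_le_div_iff₀ hv5 (by positivity)]
    have h6 : |(q.2.2 : ℝ)| * (4 * (m : ℝ)) ≤ W * (4 * (m : ℝ)) :=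
      mul_le_mul_of_nonneg_right q3 (by positivity)
    linarith
  have h1 := fjb (bx U E) T (qf ((cb : ℝ) ^ 5 / v) (-(cb : ℝ) ^ 5 * c ^ 2 / v ^ 3)
      (-(cb : ℝ) ^ 5 * c ^ 4 / v ^ 5)) m hm hTS hT
  rw [hTcard] at h1
  refine h1.trans (mul_le_mul_of_nonneg_left ?_ (by positivity))
  have h2 : ((bx U E).card : ℝ) ≤ 9 * U * E := by
    have h3 : (bx U E).card = (2 * U + 1) * (2 * E + 1) := by
      unfold bx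
      rw [Finset.card_product, Int.card_Icc, Int.card_Icc]
      congr 1
      · have : (U : ℤ) + 1 - -(U : ℤ) = ((2 * U + 1 : ℕ) : ℤ) := by push_cast; ring
        rw [this, Int.toNat_natCast]
      · have : (E : ℤ) + 1 - -(E : ℤ) = ((2 * E + 1 : ℕ) : ℤ) := by push_cast; ring
        rw [this, Int.toNat_natCast]
    rw [h3]
    push_cast
    nlinarith
  have h3 : ∀ j ∈ Finset.Ico 1 m, ‖∑ x ∈ bx U E, ex ((j : ℝ) *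
      qf ((cb : ℝ) ^ 5 / v) (-(cb : ℝ) ^ 5 * c ^ 2 / v ^ 3)
      (-(cb : ℝ) ^ 5 * c ^ 4 / v ^ 5) x)‖ ≤
      7 * √((U : ℝ) * (E : ℝ) * (1 + Real.log U) * (1 + Real.log E)) *
        (1 + √((Bc s (5 * j) c v).card : ℝ)) := by
    intro j hj
    have h4 := sqr ((j : ℝ) * ((cb : ℝ) ^ 5 / v)) ((j : ℝ) * (-(cb : ℝ) ^ 5 * c ^ 2 / v ^ 3))
      ((j : ℝ) * (-(cb : ℝ) ^ 5 * c ^ 4 / v ^ 5)) U E hU hE
    have h5 : (∑ x ∈ bx U E, ex ((j : ℝ) *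
      qf ((cb : ℝ) ^ 5 / v) (-(cb : ℝ) ^ 5 * c ^ 2 / v ^ 3)
      (-(cb : ℝ) ^ 5 * c ^ 4 / v ^ 5) x)) =
      ∑ x ∈ bx U E, ex (qf ((j : ℝ) * ((cb : ℝ) ^ 5 / v))
        ((j : ℝ) * (-(cb : ℝ) ^ 5 * c ^ 2 / v ^ 3))
        ((j : ℝ) * (-(cb : ℝ) ^ 5 * c ^ 4 / v ^ 5)) x) := by
      refine Finset.sum_congr rfl fun x _ => ?_
      congr 1
      unfold qf
      ring
    rw [h5]
    refine h4.trans (mul_le_mul_of_nonneg_left ?_ (by positivity))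
    have h6 := hH cb hcb j hj
    have hB0 : (0 : ℝ) ≤ ((Bc s (5 * j) c v).card : ℝ) := Nat.cast_nonneg _
    have h7 := Real.sqrt_nonneg ((Bc s (5 * j) c v).card : ℝ)
    rw [Real.sqrt_le_left (by positivity)]
    refine h6.trans ?_
    have h8 := Real.sq_sqrt hB0
    nlinarith
  have h4 := Finset.sum_le_sum h3
  rw [← Finset.mul_sum] at h4
  have h5 : 0 ≤ √((U : ℝ) * (E : ℝ) * (1 + Real.log U) * (1 + Real.log E)) := Real.sqrt_nonneg _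
  linarith

end Pool.Agent.FTB
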