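import Pool.Agent.FTB.BxP
import Pool.Agent.FTB.BxA
import Pool.Agent.FTB.BxB

/-! # FTB/Box: the number of points in a dyadic box -/

set_option autoImplicit false

namespace Pool.Agent.FTB

theorem box (M1 M2 V X Z : ℕ) (T Q L : ℝ) (hM1 : 1 ≤ M1) (hM2 : 1 ≤ M2) (hV : 1 ≤ V)
    (hX1 : M1 ^ 2 ≤ X) (hX2 : M2 ^ 2 ≤ X)
    (hT : TauB Z T) (hQ : UniB Z Q) (hZ : (2 * 10 ^ 7 * X) ^ 8 ≤ Z)
    (hL : 6 + Real.log X ≤ L) (S : Finset Pt) (hS : ∀ q ∈ S, InB M1 M2 V q) :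
    (S.card : ℝ) ≤ 10 ^ 20 * Q * T ^ 2 * L ^ 2 * X := by
  have hX : 1 ≤ X := (Nat.one_le_pow _ _ hM1).trans hX1
  have hXR : (1 : ℝ) ≤ X := by exact_mod_cast hX
  have hL1 : 1 ≤ L := by
    have := Real.log_nonneg hXR
    linarith
  have hT1 := hT.1
  have hQ1 := hQ.1
  rcases S.eq_empty_or_nonempty with h0 | ⟨q, hq⟩
  · rw [h0, Finset.card_empty]
    push_cast
    positivity
  · obtain ⟨U, E, C, s, m, h⟩ := bxp M1 M2 V X hM1 hM2 hV hX1 hX2 q (hS q hq)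
    rcases Nat.lt_or_ge m 2 with hm | hm
    · refine (bxa M1 M2 V X U E C s m h (by omega) S hS).trans ?_
      have h1 : 1 ≤ T ^ 2 := one_le_pow₀ hT1
      have h2 : 1 ≤ L ^ 2 := one_le_pow₀ hL1
      have h3 : 1 ≤ Q * T ^ 2 * L ^ 2 := by
        have := one_le_mul_of_one_le_of_one_le hQ1 h1
        exact one_le_mul_of_one_le_of_one_le this h2
      calc (10 : ℝ) ^ 6 * X ≤ 10 ^ 20 * 1 * X := by nlinarith
        _ ≤ 10 ^ 20 * (Q * T ^ 2 * L ^ 2) * X := by gcongr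
        _ = _ := by ring
    · exact bxb M1 M2 V X U E C s m Z T Q L h hm hT hQ hZ hL S hS

end Pool.Agent.FTB
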