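import Pool.Agent.FTB.Defs

/-!
# FTB/BsA: the integers attached to a difference vector

`c, v` are coprime.  (X) `v ^ 3 ∣ c ^ 5 * A - j * (2 v ^ 2 h1 - c ^ 2 h2)`;
(Y) `v ^ 5 ∣ c ^ 5 * B1 + j * (c ^ 2 v ^ 2 h1 + 2 c ^ 4 h2)`.

PROOF of `bsa`.  (1) Modulo `v ^ 2`: `c ^ 5 B1 = -2 j c ^ 4 h2`, `c ^ 5 A = -j c ^ 2 h2`, so
`c ^ 5 (B1 - 2 c ^ 2 A) = 0`, so `v ^ 2 ∣ B1 - 2 c ^ 2 A` (`IsCoprime`), `B1 = 2 c ^ 2 A + v ^ 2 B`.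
(2) From (Y), cancelling `c ^ 2`: `v ^ 5 ∣ c ^ 3 B1 + j v ^ 2 h1 + 2 j c ^ 2 h2`.  (Y')
(3) Add (X) and 2 (Y') modulo `v ^ 3`: `c ^ 5 A + 2 c ^ 3 B1 = 2 j v ^ 2 h1 - j c ^ 2 h2 -
2 j v ^ 2 h1 - 4 j c ^ 2 h2 = -5 j c ^ 2 h2`, cancel `c ^ 2`: `v ^ 3 ∣ c ^ 3 A + 2 c B1 + 5 j h2`, and
`c ^ 3 A + 2 c B1 = 5 c ^ 3 A + 2 c v ^ 2 B`: so `5 j h2 = -5 c ^ 3 A - 2 c v ^ 2 B + J v ^ 3`.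
(4) 5 (Y'): `v ^ 5 ∣ 5 c ^ 3 B1 + 5 j v ^ 2 h1 + 2 c ^ 2 (5 j h2) =
10 c ^ 5 A + 5 c ^ 3 v ^ 2 B + 5 j v ^ 2 h1 - 10 c ^ 5 A - 4 c ^ 3 v ^ 2 B + 2 c ^ 2 J v ^ 3 =
v ^ 2 (c ^ 3 B + 5 j h1 + 2 c ^ 2 J v)`, so `v ^ 3 ∣ c ^ 3 B + 5 j h1 + 2 c ^ 2 v J`, i.e.
`5 j h1 = -c ^ 3 B - 2 c ^ 2 v J + K v ^ 3`.
-/

set_option autoImplicit false

namespace Pool.Agent.FTB

theorem bsa (c v j h1 h2 A B1 : ℤ) (hv : v ≠ 0) (hcv : IsCoprime c v)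
    (hX : v ^ 3 ∣ c ^ 5 * A - j * (2 * v ^ 2 * h1 - c ^ 2 * h2))
    (hY : v ^ 5 ∣ c ^ 5 * B1 + j * (c ^ 2 * v ^ 2 * h1 + 2 * c ^ 4 * h2)) :
    ∃ B J K : ℤ, B1 = 2 * c ^ 2 * A + v ^ 2 * B ∧ 5 * j * h2 = fF A B J c v ∧
      5 * j * h1 = gF B J K c v := by
  obtain ⟨x, hx⟩ := hX
  obtain ⟨y, hy⟩ := hY
  have s1 : v ^ 2 ∣ c ^ 5 * (B1 - 2 * c ^ 2 * A) :=
    ⟨v ^ 3 * y - 2 * c ^ 2 * v * x - 5 * j * c ^ 2 * h1, by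
      linear_combination hy - 2 * c ^ 2 * hx⟩
  have c1 : IsCoprime (v ^ 2) (c ^ 5) := hcv.symm.pow
  obtain ⟨B, hB⟩ := c1.dvd_of_dvd_mul_left s1
  have s2 : v ^ 5 ∣ c ^ 2 * (c ^ 3 * B1 + j * v ^ 2 * h1 + 2 * j * c ^ 2 * h2) :=
    ⟨y, by linear_combination hy⟩
  have c2 : IsCoprime (v ^ 5) (c ^ 2) := hcv.symm.pow
  obtain ⟨y', hy'⟩ := c2.dvd_of_dvd_mul_left s2
  have s3 : v ^ 3 ∣ c ^ 2 * (c ^ 3 * A + 2 * c * B1 + 5 * j * h2) :=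
    ⟨x + 2 * v ^ 2 * y', by linear_combination hx + 2 * hy'⟩
  have c3 : IsCoprime (v ^ 3) (c ^ 2) := hcv.symm.pow
  obtain ⟨J, hJ⟩ := c3.dvd_of_dvd_mul_left s3
  refine ⟨B, J, 5 * y', by linear_combination hB, ?_, ?_⟩
  · unfold fF
    linear_combination hJ - 2 * c * hB
  · unfold gF
    apply mul_left_cancel₀ (pow_ne_zero 2 hv)
    linear_combination 5 * hy' - 2 * c ^ 2 * hJ - c ^ 3 * hB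

end Pool.Agent.FTB
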