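import Pool.Agent.FTB.Defs

/-!
# FTB/PrA: the sizes of the quadruple

`a1 = √M1`, `a2 = √M2`.  All inequalities are elementary; `j ≤ V ^ 4 a1 / (68 a2 ^ 3)`.
(hA) `v ^ 3 / U ≤ 8 V ^ 3 a2 / (8 V a1 ^ 2)`.
(hB) `8 V ^ 3 / (7 V a2) + 2 * 9 V ^ 2 (a1 ^ 2 / a2 ^ 2) * 2 V * a2 / (8 V a1 ^ 2) ≤ 6 V ^ 2 / a2`.
(hJ) divide by `V ^ 5 a1 / a2 ^ 2` (using `v ≥ V` on the right and `v < 2 V` on the left):
`20 * 8 / 68 + 5 * 27 + 2 * 3 * 4 * 6 ≤ 300`.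
(hK) divide by `V ^ 5 a1 ^ 3 / a2 ^ 4`: `20 * 12 / 68 + 27 * 6 + 2 * 9 * 2 * 300 ≤ 11000`.
(last) with `t = a1 / a2`: `1 ≤ t ^ (-2) + t ^ 3` and `t ≤ t ^ (-2) + t ^ 3`
(cases `t ≤ 1`, `t ≥ 1`), after dividing by `V ^ 2 / a2`.
-/

set_option autoImplicit false

namespace Pool.Agent.FTB

private theorem prA_aux {t : ℝ} (ht : 0 < t) : 1 ≤ 1 / t ^ 2 + t ^ 3 ∧ t ≤ 1 / t ^ 2 + t ^ 3 := by
  have h3 : 0 < t ^ 3 := pow_pos ht 3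
  have h2 : 0 < t ^ 2 := pow_pos ht 2
  have h4 : 0 < 1 / t ^ 2 := one_div_pos.2 h2
  rcases le_total t 1 with h | h
  · have h5 : 1 ≤ 1 / t ^ 2 := by
      rw [le_div_iff₀ h2, one_mul]
      exact pow_le_one₀ ht.le h
    constructor <;> linarith
  · have h5 : t ≤ t ^ 3 := le_self_pow₀ h (by norm_num)
    constructor <;> linarith

theorem prA (V a1 a2 c v j U E : ℝ) (hV : 1 ≤ V) (h1 : 1 ≤ a1) (h2 : 1 ≤ a2) (hc0 : 0 ≤ c)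
    (hc : c ≤ 3 * V * a1 / a2) (hv1 : V ≤ v) (hv2 : v ≤ 2 * V) (hj0 : 0 ≤ j)
    (hj : j ≤ V ^ 4 * a1 / (68 * a2 ^ 3)) (hU1 : 8 * V * a1 ^ 2 / a2 ≤ U)
    (hU2 : U ≤ 12 * V * a1 ^ 2 / a2) (hE1 : 7 * V * a2 ≤ E) (hE2 : E ≤ 8 * V * a2) :
    v ^ 3 / U ≤ V ^ 2 * a2 / a1 ^ 2 ∧ v ^ 3 / E + 2 * c ^ 2 * v / U ≤ 6 * V ^ 2 / a2 ∧
      20 * j * E + 5 * c ^ 3 * (V ^ 2 * a2 / a1 ^ 2) + 2 * c * v ^ 2 * (6 * V ^ 2 / a2) ≤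
        (300 * V ^ 2 * a1 / a2 ^ 2) * v ^ 3 ∧
      20 * j * U + c ^ 3 * (6 * V ^ 2 / a2) + 2 * c ^ 2 * v * (300 * V ^ 2 * a1 / a2 ^ 2) ≤
        (11000 * V ^ 2 * a1 ^ 3 / a2 ^ 4) * v ^ 3 ∧
      V ^ 2 * a2 / a1 ^ 2 ≤ 11000 * V ^ 2 * (a2 / a1 ^ 2 + a1 ^ 3 / a2 ^ 4) ∧
      6 * V ^ 2 / a2 ≤ 11000 * V ^ 2 * (a2 / a1 ^ 2 + a1 ^ 3 / a2 ^ 4) ∧
      300 * V ^ 2 * a1 / a2 ^ 2 ≤ 11000 * V ^ 2 * (a2 / a1 ^ 2 + a1 ^ 3 / a2 ^ 4) ∧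
      11000 * V ^ 2 * a1 ^ 3 / a2 ^ 4 ≤ 11000 * V ^ 2 * (a2 / a1 ^ 2 + a1 ^ 3 / a2 ^ 4) := by
  have hV0 : 0 < V := by linarith
  have ha1 : 0 < a1 := by linarith
  have ha2 : 0 < a2 := by linarith
  have hv0 : 0 < v := by linarith
  obtain ⟨t, ht⟩ : ∃ t : ℝ, t = a1 / a2 := ⟨_, rfl⟩
  have ht0 : 0 < t := by rw [ht]; exact div_pos ha1 ha2
  have e0 : a1 = t * a2 := by rw [ht]; field_simp
  subst e0
  have r1 : 3 * V * (t * a2) / a2 = 3 * V * t := by field_simp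
  have r2 : V ^ 4 * (t * a2) / (68 * a2 ^ 3) = V ^ 4 * t / (68 * a2 ^ 2) := by field_simp
  have r3 : 8 * V * (t * a2) ^ 2 / a2 = 8 * V * t ^ 2 * a2 := by field_simp
  have r4 : 12 * V * (t * a2) ^ 2 / a2 = 12 * V * t ^ 2 * a2 := by field_simp
  rw [r1] at hc
  rw [r2] at hj
  rw [r3] at hU1
  rw [r4] at hU2
  have hU0 : 0 < U := lt_of_lt_of_le (by positivity) hU1
  have hE0 : 0 < E := lt_of_lt_of_le (by positivity) hE1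
  have s1 : V ^ 2 * a2 / (t * a2) ^ 2 = V ^ 2 / a2 * (1 / t ^ 2) := by field_simp
  have s2 : 6 * V ^ 2 / a2 = V ^ 2 / a2 * 6 := by ring
  have s3 : 300 * V ^ 2 * (t * a2) / a2 ^ 2 = V ^ 2 / a2 * (300 * t) := by field_simp
  have s4 : 11000 * V ^ 2 * (t * a2) ^ 3 / a2 ^ 4 = V ^ 2 / a2 * (11000 * t ^ 3) := by field_simp
  have s5 : 11000 * V ^ 2 * (a2 / (t * a2) ^ 2 + (t * a2) ^ 3 / a2 ^ 4) =
      V ^ 2 / a2 * (11000 * (1 / t ^ 2 + t ^ 3)) := by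
    field_simp
  rw [s1, s2, s3, s4, s5]
  have hP : 0 < V ^ 2 / a2 := by positivity
  have v3 : v ^ 3 ≤ 8 * V ^ 3 := by
    calc v ^ 3 ≤ (2 * V) ^ 3 := pow_le_pow_left₀ hv0.le hv2 3
      _ = 8 * V ^ 3 := by ring
  have v3' : V ^ 3 ≤ v ^ 3 := pow_le_pow_left₀ hV0.le hv1 3
  obtain ⟨g1, g2⟩ := prA_aux ht0
  have c2 : c ^ 2 ≤ 9 * V ^ 2 * t ^ 2 := by
    calc c ^ 2 ≤ (3 * V * t) ^ 2 := pow_le_pow_left₀ hc0 hc 2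
      _ = 9 * V ^ 2 * t ^ 2 := by ring
  have c3 : c ^ 3 ≤ 27 * V ^ 3 * t ^ 3 := by
    calc c ^ 3 ≤ (3 * V * t) ^ 3 := pow_le_pow_left₀ hc0 hc 3
      _ = 27 * V ^ 3 * t ^ 3 := by ring
  refine ⟨?_, ?_, ?_, ?_, ?_, ?_, ?_, ?_⟩
  · rw [div_le_iff₀ hU0]
    calc v ^ 3 ≤ 8 * V ^ 3 := v3
      _ = V ^ 2 / a2 * (1 / t ^ 2) * (8 * V * t ^ 2 * a2) := by field_simp
      _ ≤ V ^ 2 / a2 * (1 / t ^ 2) * U := by gcongr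
  · have q1 : v ^ 3 / E ≤ V ^ 2 / a2 * (8 / 7) := by
      rw [div_le_iff₀ hE0]
      calc v ^ 3 ≤ 8 * V ^ 3 := v3
        _ = V ^ 2 / a2 * (8 / 7) * (7 * V * a2) := by field_simp
        _ ≤ V ^ 2 / a2 * (8 / 7) * E := by gcongr
    have q2 : 2 * c ^ 2 * v / U ≤ V ^ 2 / a2 * (9 / 2) := by
      rw [div_le_iff₀ hU0]
      calc 2 * c ^ 2 * v ≤ 2 * (9 * V ^ 2 * t ^ 2) * (2 * V) := by gcongr
        _ = V ^ 2 / a2 * (9 / 2) * (8 * V * t ^ 2 * a2) := by field_simp; ring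
        _ ≤ V ^ 2 / a2 * (9 / 2) * U := by gcongr
    linarith
  · have q1 : 20 * j * E ≤ V ^ 2 / a2 * (V ^ 3 * t) * (160 / 68) := by
      calc 20 * j * E ≤ 20 * (V ^ 4 * t / (68 * a2 ^ 2)) * (8 * V * a2) := by gcongr
        _ = V ^ 2 / a2 * (V ^ 3 * t) * (160 / 68) := by field_simp; ring
    have q2 : 5 * c ^ 3 * (V ^ 2 / a2 * (1 / t ^ 2)) ≤ V ^ 2 / a2 * (V ^ 3 * t) * 135 := by
      calc 5 * c ^ 3 * (V ^ 2 / a2 * (1 / t ^ 2)) ≤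
          5 * (27 * V ^ 3 * t ^ 3) * (V ^ 2 / a2 * (1 / t ^ 2)) := by gcongr
        _ = V ^ 2 / a2 * (V ^ 3 * t) * 135 := by field_simp; ring
    have q3 : 2 * c * v ^ 2 * (V ^ 2 / a2 * 6) ≤ V ^ 2 / a2 * (V ^ 3 * t) * 144 := by
      calc 2 * c * v ^ 2 * (V ^ 2 / a2 * 6) ≤
          2 * (3 * V * t) * (2 * V) ^ 2 * (V ^ 2 / a2 * 6) := by gcongr
        _ = V ^ 2 / a2 * (V ^ 3 * t) * 144 := by ring
    have q4 : V ^ 2 / a2 * (V ^ 3 * t) * 300 ≤ V ^ 2 / a2 * (300 * t) * v ^ 3 := by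
      calc V ^ 2 / a2 * (V ^ 3 * t) * 300 = V ^ 2 / a2 * (300 * t) * V ^ 3 := by ring
        _ ≤ V ^ 2 / a2 * (300 * t) * v ^ 3 := by gcongr
    have q5 : 0 < V ^ 2 / a2 * (V ^ 3 * t) := by positivity
    linarith
  · have q1 : 20 * j * U ≤ V ^ 2 / a2 * (V ^ 3 * t ^ 3) * (240 / 68) := by
      calc 20 * j * U ≤ 20 * (V ^ 4 * t / (68 * a2 ^ 2)) * (12 * V * t ^ 2 * a2) := by gcongr
        _ = V ^ 2 / a2 * (V ^ 3 * t ^ 3) * (240 / 68) := by field_simp; ring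
    have q2 : c ^ 3 * (V ^ 2 / a2 * 6) ≤ V ^ 2 / a2 * (V ^ 3 * t ^ 3) * 162 := by
      calc c ^ 3 * (V ^ 2 / a2 * 6) ≤ (27 * V ^ 3 * t ^ 3) * (V ^ 2 / a2 * 6) := by gcongr
        _ = V ^ 2 / a2 * (V ^ 3 * t ^ 3) * 162 := by ring
    have q3 : 2 * c ^ 2 * v * (V ^ 2 / a2 * (300 * t)) ≤
        V ^ 2 / a2 * (V ^ 3 * t ^ 3) * 10800 := by
      calc 2 * c ^ 2 * v * (V ^ 2 / a2 * (300 * t)) ≤
          2 * (9 * V ^ 2 * t ^ 2) * (2 * V) * (V ^ 2 / a2 * (300 * t)) := by gcongr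
        _ = V ^ 2 / a2 * (V ^ 3 * t ^ 3) * 10800 := by ring
    have q4 : V ^ 2 / a2 * (V ^ 3 * t ^ 3) * 11000 ≤ V ^ 2 / a2 * (11000 * t ^ 3) * v ^ 3 := by
      calc V ^ 2 / a2 * (V ^ 3 * t ^ 3) * 11000 = V ^ 2 / a2 * (11000 * t ^ 3) * V ^ 3 := by ring
        _ ≤ V ^ 2 / a2 * (11000 * t ^ 3) * v ^ 3 := by gcongr
    have q5 : 0 < V ^ 2 / a2 * (V ^ 3 * t ^ 3) := by positivity
    linarith
  · apply mul_le_mul_of_nonneg_left _ hP.le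
    have : 0 < 1 / t ^ 2 := by positivity
    have : 0 < t ^ 3 := by positivity
    linarith
  · apply mul_le_mul_of_nonneg_left _ hP.le
    linarith
  · apply mul_le_mul_of_nonneg_left _ hP.le
    linarith
  · apply mul_le_mul_of_nonneg_left _ hP.le
    have : 0 < 1 / t ^ 2 := by positivity
    have : 0 < t ^ 3 := by positivity
    linarith

end Pool.Agent.FTB
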