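import Pool.Agent.FTB.DefsP
import Pool.Agent.FTB.PrA
import Pool.Agent.FTB.Bin

/-!
# FTB/BxC: the number of difference vectors in a dyadic box

PROOF of `bxc`.  Apply `bin` with `sA = V ^ 2 a2 / a1 ^ 2`, `sB = 6 V ^ 2 / a2`,
`sJ = 300 V ^ 2 a1 / a2 ^ 2`, `sK = 11000 V ^ 2 a1 ^ 3 / a2 ^ 4` (`a1 = √M1`, `a2 = √M2`); the
hypotheses are given by `prA` (`c ≤ C ≤ 3 V a1 / a2`, `V ≤ v < 2 V`,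
`1 ≤ j ≤ m ≤ mu = V ^ 4 a1 / (68 a2 ^ 3)`), and all four are `≤ sig < s + 1`.
-/

set_option autoImplicit false

namespace Pool.Agent.FTB

theorem bxc (M1 M2 V X U E C s m : ℕ) (h : PB M1 M2 V X U E C s m) (x : ℕ × ℕ)
    (hx : x ∈ Cv C V) (cb : ℤ) (hcb : (x.2 : ℤ) ^ 5 ∣ cb * x.1 - 1) (j : ℕ)
    (hj : j ∈ Finset.Ico 1 m) :
    ((H0 ((j : ℝ) * ((cb : ℝ) ^ 5 / x.2)) ((j : ℝ) * (-(cb : ℝ) ^ 5 * x.1 ^ 2 / x.2 ^ 3))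
      ((j : ℝ) * (-(cb : ℝ) ^ 5 * x.1 ^ 4 / x.2 ^ 5)) U E).card : ℝ) ≤
      1 + ((Bc s (5 * j) x.1 x.2).card : ℝ) := by
  obtain ⟨hx1, hx2, hx3⟩ := (mem_Cv C V x).1 hx
  obtain ⟨hj1, hj2⟩ := Finset.mem_Ico.1 hj
  have h1 : (1 : ℝ) ≤ √(M1 : ℝ) := by
    rw [Real.one_le_sqrt]
    exact_mod_cast h.hM1
  have h2 : (1 : ℝ) ≤ √(M2 : ℝ) := by
    rw [Real.one_le_sqrt]
    exact_mod_cast h.hM2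
  have hc : (x.1 : ℝ) ≤ 3 * (V : ℝ) * √(M1 : ℝ) / √(M2 : ℝ) := by
    refine le_trans ?_ h.hC1
    exact_mod_cast hx1.2
  have hjm : (j : ℝ) ≤ (V : ℝ) ^ 4 * √(M1 : ℝ) / (68 * (√(M2 : ℝ)) ^ 3) := by
    refine le_trans ?_ h.hm1
    exact_mod_cast hj2.le
  obtain ⟨p1, p2, p3, p4, p5, p6, p7, p8⟩ := prA (V : ℝ) (√(M1 : ℝ)) (√(M2 : ℝ)) (x.1 : ℝ) (x.2 : ℝ)
    (j : ℝ) (U : ℝ) (E : ℝ) (by exact_mod_cast h.hV) h1 h2 (Nat.cast_nonneg _) hc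
    (by exact_mod_cast hx2.1) (by exact_mod_cast hx2.2.le) (Nat.cast_nonneg _) hjm
    h.hU1 h.hU2 h.hE1 h.hE2
  have hs := h.hs2
  unfold sig at hs
  exact bin x.1 x.2 j U E s cb hx1.1 (h.hV.trans hx2.1) hj1 h.hU h.hE hx3 hcb _ _ _ _ p1 p2 p3 p4
    ⟨p5.trans_lt hs, p6.trans_lt hs, p7.trans_lt hs, p8.trans_lt hs⟩

end Pool.Agent.FTB
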