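import Pool.Agent.FTB.DefsP
import Pool.Agent.FTB.BxI

/-!
# FTB/BxP: the choice of the parameters

PROOF of `bxp`.  Let `a1 = √M1 ≥ 1`, `a2 = √M2 ≥ 1` and `q ∈ S`.  `bxi` gives `V ^ 2 ≤ 8 a1 ^ 2`,
`V ^ 2 a1 ^ 2 ≤ 16 a2 ^ 4`, `a2 ≤ 4 a1 ^ 2` and `1 ≤ c ≤ 3 V a1 / a2`.  Put
`U = ⌈8 V a1 ^ 2 / a2⌉₊` (`8 V a1 ^ 2 / a2 ≥ 2`, so `U ≤ 8 V a1 ^ 2 / a2 + 1 ≤ 12 V a1 ^ 2 / a2`),
`E = ⌈7 V a2⌉₊` (`V a2 ≥ 1`), `C = ⌊3 V a1 / a2⌋₊`, `s = ⌊sig⌋₊`, `m = ⌊mu⌋₊`.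
Bounds by `X`: `V ≤ 3 a1`, `V a1 ≤ 4 a2 ^ 2`, so `V ^ 2 ≤ 12 a2 ^ 2`, `a1 ≤ a1 ^ 4 = M1 ^ 2 ≤ X`, the
same for `a2`, and products `a1 ^ i a2 ^ j ≤ X` for `i + j ≤ 4` (as `a1 ^ 4, a2 ^ 4 ≤ X`, `≥ 1`).
`U ≤ 12 * 3 a1 * a1 ^ 2 ≤ 36 X`; `E ≤ 24 a1 a2 ≤ 36 X`; `C ≤ 9 a1 ^ 2 ≤ 9 X`; `2 V ≤ 6 a1`;
`s ≤ 11000 (8 a2 + 16 a1) ≤ 264000 X`; `m ≤ V ^ 4 a1 / (68 a2 ^ 3) ≤ 12 a2 ^ 2 * 9 a1 ^ 2 * a1 /
(68 a2 ^ 3) ≤ 36 a1 ^ 3`.
-/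

set_option autoImplicit false

namespace Pool.Agent.FTB

theorem bxp (M1 M2 V X : ℕ) (hM1 : 1 ≤ M1) (hM2 : 1 ≤ M2) (hV : 1 ≤ V) (hX1 : M1 ^ 2 ≤ X)
    (hX2 : M2 ^ 2 ≤ X) (q : Pt) (hq : InB M1 M2 V q) :
    ∃ U E C s m : ℕ, PB M1 M2 V X U E C s m := by
  obtain ⟨-, -, -, hc, hV1, hV2, h3⟩ := bxi M1 M2 V q hq hM1 hM2
  set a1 := √(M1 : ℝ) with ha1
  set a2 := √(M2 : ℝ) with ha2
  have h1 : (1 : ℝ) ≤ a1 := by
    rw [ha1, Real.one_le_sqrt]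
    exact_mod_cast hM1
  have h2 : (1 : ℝ) ≤ a2 := by
    rw [ha2, Real.one_le_sqrt]
    exact_mod_cast hM2
  have hv : (1 : ℝ) ≤ (V : ℝ) := by exact_mod_cast hV
  have e1 : a1 ^ 2 = (M1 : ℝ) := Real.sq_sqrt (Nat.cast_nonneg _)
  have e2 : a2 ^ 2 = (M2 : ℝ) := Real.sq_sqrt (Nat.cast_nonneg _)
  have hx1 : a1 ^ 4 ≤ X := by
    have : a1 ^ 4 = (M1 : ℝ) ^ 2 := by rw [← e1]; ring
    rw [this]
    exact_mod_cast hX1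
  have hx2 : a2 ^ 4 ≤ X := by
    have : a2 ^ 4 = (M2 : ℝ) ^ 2 := by rw [← e2]; ring
    rw [this]
    exact_mod_cast hX2
  have hX0 : (1 : ℝ) ≤ X := le_trans (one_le_pow₀ h1) hx1
  have p1 : a1 ≤ a1 ^ 4 := by
    calc a1 = a1 ^ 1 := (pow_one _).symm
      _ ≤ a1 ^ 4 := pow_le_pow_right₀ h1 (by norm_num)
  have p2 : a1 ^ 2 ≤ a1 ^ 4 := pow_le_pow_right₀ h1 (by norm_num)
  have p3 : a1 ^ 3 ≤ a1 ^ 4 := pow_le_pow_right₀ h1 (by norm_num)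
  have r1 : a2 ≤ a2 ^ 4 := by
    calc a2 = a2 ^ 1 := (pow_one _).symm
      _ ≤ a2 ^ 4 := pow_le_pow_right₀ h2 (by norm_num)
  have r2 : a2 ^ 2 ≤ a2 ^ 4 := pow_le_pow_right₀ h2 (by norm_num)
  have hV3 : (V : ℝ) ≤ 3 * a1 := by
    apply le_of_sq_le_sq _ (by positivity)
    calc (V : ℝ) ^ 2 ≤ 8 * a1 ^ 2 := hV1
      _ ≤ (3 * a1) ^ 2 := by nlinarith [sq_nonneg a1]
  have hV4 : (V : ℝ) * a1 ≤ 4 * a2 ^ 2 := by
    apply le_of_sq_le_sq _ (by positivity)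
    calc ((V : ℝ) * a1) ^ 2 = (V : ℝ) ^ 2 * a1 ^ 2 := by ring
      _ ≤ 16 * a2 ^ 4 := hV2
      _ = (4 * a2 ^ 2) ^ 2 := by ring
  have hV5 : (V : ℝ) ^ 2 ≤ 12 * a2 ^ 2 := by
    calc (V : ℝ) ^ 2 = V * V := by ring
      _ ≤ V * (3 * a1) := mul_le_mul_of_nonneg_left hV3 (by positivity)
      _ = 3 * (V * a1) := by ring
      _ ≤ 3 * (4 * a2 ^ 2) := by linarith
      _ = _ := by ring
  have ha12 : a1 * a2 ≤ X := by nlinarith [sq_nonneg (a1 - a2)]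
  have hp1 : 0 < a1 := by linarith
  have hp2 : 0 < a2 := by linarith
  -- the size of `8 V a1 ^ 2 / a2`
  have hU0 : 1 / 4 ≤ (V : ℝ) * a1 ^ 2 / a2 := by
    rw [le_div_iff₀ hp2]
    nlinarith [mul_le_mul_of_nonneg_right hv (sq_nonneg a1)]
  have hU3 : (V : ℝ) * a1 ^ 2 / a2 ≤ 3 * a1 ^ 3 := by
    rw [div_le_iff₀ hp2]
    calc (V : ℝ) * a1 ^ 2 ≤ 3 * a1 * a1 ^ 2 := mul_le_mul_of_nonneg_right hV3 (sq_nonneg _)
      _ = 3 * a1 ^ 3 * 1 := by ring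
      _ ≤ 3 * a1 ^ 3 * a2 := mul_le_mul_of_nonneg_left h2 (by positivity)
  have hE0 : 1 ≤ (V : ℝ) * a2 := by nlinarith
  have hc1 : (1 : ℝ) ≤ 3 * V * a1 / a2 := by
    refine le_trans ?_ hc
    have := hq.1.2.2.1
    exact_mod_cast this
  have hcX : 3 * V * a1 / a2 ≤ 9 * X := by
    rw [div_le_iff₀ hp2]
    calc 3 * V * a1 ≤ 3 * (3 * a1) * a1 := by
          apply mul_le_mul_of_nonneg_right _ hp1.le
          linarith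
      _ = 9 * a1 ^ 2 * 1 := by ring
      _ ≤ 9 * X * a2 := by
          apply mul_le_mul (by linarith) h2 (by norm_num) (by positivity)
  have hsig : sig M1 M2 V ≤ 264000 * X := by
    have s1 : (V : ℝ) ^ 2 * (a2 / a1 ^ 2) ≤ 8 * a2 := by
      rw [← mul_div_assoc, div_le_iff₀ (by positivity)]
      nlinarith [mul_le_mul_of_nonneg_right hV1 hp2.le]
    have s2 : (V : ℝ) ^ 2 * (a1 ^ 3 / a2 ^ 4) ≤ 16 * a1 := by
      rw [← mul_div_assoc, div_le_iff₀ (by positivity)]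
      nlinarith [mul_le_mul_of_nonneg_right hV2 hp1.le]
    have : sig M1 M2 V = 11000 * ((V : ℝ) ^ 2 * (a2 / a1 ^ 2) + (V : ℝ) ^ 2 * (a1 ^ 3 / a2 ^ 4)) := by
      unfold sig
      rw [← ha1, ← ha2]
      ring
    rw [this]
    linarith
  have hmu : mu M1 M2 V ≤ 2 * X := by
    unfold mu
    rw [← ha1, ← ha2, div_le_iff₀ (by positivity)]
    have w1 : (V : ℝ) ^ 2 ≤ 9 * a1 ^ 2 := by nlinarith [sq_nonneg a1]
    have w2 : (V : ℝ) ^ 4 ≤ 12 * a2 ^ 2 * (9 * a1 ^ 2) := by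
      calc (V : ℝ) ^ 4 = (V : ℝ) ^ 2 * (V : ℝ) ^ 2 := by ring
        _ ≤ 12 * a2 ^ 2 * (9 * a1 ^ 2) := mul_le_mul hV5 w1 (by positivity) (by positivity)
    calc (V : ℝ) ^ 4 * a1 ≤ 12 * a2 ^ 2 * (9 * a1 ^ 2) * a1 :=
          mul_le_mul_of_nonneg_right w2 hp1.le
      _ = 108 * a1 ^ 3 * (a2 ^ 2 * 1) := by ring
      _ ≤ 136 * X * (a2 ^ 2 * a2) := by
          apply mul_le_mul _ (mul_le_mul_of_nonneg_left h2 (by positivity)) (by positivity)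
            (by positivity)
          linarith
      _ = 2 * X * (68 * a2 ^ 3) := by ring
  have hsig0 : 0 ≤ sig M1 M2 V := by unfold sig; positivity
  have hmu0 : 0 ≤ mu M1 M2 V := by unfold mu; positivity
  have key : ∀ (n : ℕ) (r : ℝ) (k : ℕ), (n : ℝ) ≤ r → r ≤ k * X → n ≤ k * X := by
    intro n r k i1 i2
    have := i1.trans i2
    exact_mod_cast this
  refine ⟨⌈8 * (V : ℝ) * a1 ^ 2 / a2⌉₊, ⌈7 * (V : ℝ) * a2⌉₊, ⌊3 * (V : ℝ) * a1 / a2⌋₊,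
    ⌊sig M1 M2 V⌋₊, ⌊mu M1 M2 V⌋₊, ?_⟩
  have cU := Nat.ceil_lt_add_one (a := 8 * (V : ℝ) * a1 ^ 2 / a2) (by positivity)
  have cE := Nat.ceil_lt_add_one (a := 7 * (V : ℝ) * a2) (by positivity)
  have eU : 8 * (V : ℝ) * a1 ^ 2 / a2 = 8 * (V * a1 ^ 2 / a2) := by ring
  have eU2 : 12 * (V : ℝ) * a1 ^ 2 / a2 = 12 * (V * a1 ^ 2 / a2) := by ring
  have dU : (⌈8 * (V : ℝ) * a1 ^ 2 / a2⌉₊ : ℝ) ≤ 12 * (V : ℝ) * a1 ^ 2 / a2 := by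
    refine cU.le.trans ?_
    rw [eU, eU2]
    linarith
  have dE : (⌈7 * (V : ℝ) * a2⌉₊ : ℝ) ≤ 8 * (V : ℝ) * a2 := by
    refine cE.le.trans ?_
    nlinarith
  constructor
  · exact hM1
  · exact hM2
  · exact hV
  · exact Nat.ceil_pos.2 (by positivity)
  · exact Nat.ceil_pos.2 (by positivity)
  · exact Nat.le_floor (by exact_mod_cast hc1)
  · exact hX1
  · exact hX2
  · exact Nat.le_ceil _
  · exact dU
  · exact Nat.le_ceil _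
  · exact dE
  · exact Nat.floor_le (by positivity)
  · exact Nat.lt_floor_add_one _
  · exact Nat.floor_le hsig0
  · exact Nat.lt_floor_add_one _
  · exact Nat.floor_le hmu0
  · exact Nat.lt_floor_add_one _
  · exact hV1
  · exact hV2
  · refine key _ _ _ (Nat.floor_le hsig0) (hsig.trans ?_)
    push_cast
    linarith
  · refine key _ _ _ (Nat.floor_le (by positivity)) (hcX.trans ?_)
    push_cast
    linarith
  · refine key (2 * V) (6 * a1) _ ?_ ?_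
    · push_cast
      linarith
    · push_cast
      linarith
  · refine key _ _ _ (Nat.floor_le hmu0) (hmu.trans ?_)
    push_cast
    linarith
  · refine key _ _ _ dU ?_
    rw [eU2]
    push_cast
    linarith
  · refine key _ _ _ dE ?_
    push_cast
    calc 8 * (V : ℝ) * a2 ≤ 8 * (3 * a1) * a2 := by
          apply mul_le_mul_of_nonneg_right _ hp2.le
          linarith
      _ = 24 * (a1 * a2) := by ring
      _ ≤ 36 * X := by linarith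

end Pool.Agent.FTB
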