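import Pool.Agent.FTB.DefsI

/-!
# FTB/CMn: ideals of minimal norm, complementary ideals

PROOF of `cmn`: as `cmin` in Pool/Agent/FTA/CMin.lean (Minkowski bound and an ideal of minimal
norm among the ideals of the class; the proof there gives the minimality `hmin`).

PROOF of `cpl`.  `N = absNorm I ∈ I` (`Ideal.absNorm_mem`), so `I ∣ span {N}`
(`Ideal.dvd_iff_le`), `span {N} = I * I1`.  `absNorm (span {N}) = N ^ 2` (`Ideal.absNorm_span_singleton`,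
the norm of the integer `N` is `N ^ finrank = N ^ 2`; `Algebra.norm_algebraMap`, rank of `𝓞 K` over
`ℤ` is `2`: `RingOfIntegers.rank`), so `absNorm I1 = N` (`N ≥ 1`).  `mk0 I * mk0 I1 = mk0 (span N) = 1`
(`ClassGroup.mk0_eq_one_iff`).

PROOF of `prm1`.  If `I ≤ span {n}`, then `I = span {n} * J`, `mk0 J = mk0 I`,
`absNorm I = n ^ 2 * absNorm J > absNorm J`, a contradiction.
PROOF of `prm2`.  If `I1 ≤ span {n}`, `I1 = span {n} * J`, then `mk0 J = mk0 I1 = (mk0 I)⁻¹` and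
`absNorm J < absNorm I1 = absNorm I`; `cpl` for `J` gives `J1` with `mk0 J1 = mk0 I` and
`absNorm J1 = absNorm J < absNorm I`, a contradiction.
-/

set_option autoImplicit false

namespace Pool.Agent.FTB

open NumberField Pool.Agent.FTA nonZeroDivisors

private theorem CMn_bound (K : IntermediateField ℚ ℂ) [NumberField K]
    (h2 : Module.finrank ℚ K = 2) :
    (4 / Real.pi) ^ InfinitePlace.nrComplexPlaces K * (((Module.finrank ℚ K).factorial : ℝ) /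
      (Module.finrank ℚ K : ℝ) ^ (Module.finrank ℚ K) * √|(discr K : ℝ)|) ≤ √|(discr K : ℝ)| := by
  have hr : InfinitePlace.nrComplexPlaces K ≤ 1 := by
    have := InfinitePlace.card_add_two_mul_card_eq_rank K
    omega
  have hpi := Real.pi_gt_three
  have h43 : 1 ≤ 4 / Real.pi := by
    rw [le_div_iff₀ Real.pi_pos]
    linarith [Real.pi_lt_four]
  have h1 : (4 / Real.pi) ^ InfinitePlace.nrComplexPlaces K ≤ 4 / Real.pi := by
    calc (4 / Real.pi) ^ InfinitePlace.nrComplexPlaces K ≤ (4 / Real.pi) ^ 1 :=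
          pow_le_pow_right₀ h43 hr
      _ = 4 / Real.pi := pow_one _
  have h3 : 4 / Real.pi ≤ 2 := by
    rw [div_le_iff₀ Real.pi_pos]
    linarith
  rw [h2]
  have h4 : ((2 : ℕ).factorial : ℝ) / ((2 : ℕ) : ℝ) ^ 2 = 1 / 2 := by
    norm_num [Nat.factorial]
  rw [h4]
  have h5 : 0 ≤ √|(discr K : ℝ)| := Real.sqrt_nonneg _
  nlinarith

theorem cmn (K : IntermediateField ℚ ℂ) [NumberField K] (h2 : Module.finrank ℚ K = 2)
    (C : ClassGroup (𝓞 K)) :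
    ∃ I : (Ideal (𝓞 K))⁰, ClassGroup.mk0 I = C ∧
      (Ideal.absNorm (I : Ideal (𝓞 K))) ^ 2 ≤ aD K ∧ MinI K I := by
  classical
  obtain ⟨I0, hI0, hn0⟩ := exists_ideal_in_class_of_norm_le C
  have hex : ∃ m : ℕ, ∃ I : (Ideal (𝓞 K))⁰, ClassGroup.mk0 I = C ∧
      Ideal.absNorm (I : Ideal (𝓞 K)) = m := ⟨_, I0, hI0, rfl⟩
  obtain ⟨I, hI, hIn⟩ := Nat.find_spec hex
  have hmin : ∀ J : (Ideal (𝓞 K))⁰, ClassGroup.mk0 J = C →
      Ideal.absNorm (I : Ideal (𝓞 K)) ≤ Ideal.absNorm (J : Ideal (𝓞 K)) := by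
    intro J hJ
    rw [hIn]
    exact Nat.find_min' hex ⟨J, hJ, rfl⟩
  refine ⟨I, hI, ?_, fun J hJ => hmin J (hJ.trans hI)⟩
  have h3 : (Ideal.absNorm (I : Ideal (𝓞 K)) : ℝ) ≤ √|(discr K : ℝ)| := by
    have h4 : (Ideal.absNorm (I : Ideal (𝓞 K)) : ℝ) ≤ Ideal.absNorm (I0 : Ideal (𝓞 K)) := by
      exact_mod_cast hmin I0 hI0
    exact h4.trans (le_trans hn0 (by exact_mod_cast CMn_bound K h2))
  have h5 : ((Ideal.absNorm (I : Ideal (𝓞 K)) : ℝ)) ^ 2 ≤ |(discr K : ℝ)| := by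
    have h6 := pow_le_pow_left₀ (Nat.cast_nonneg _) h3 2
    rwa [Real.sq_sqrt (abs_nonneg _)] at h6
  rw [aD_eq]
  have h7 : (((discr K).natAbs : ℕ) : ℝ) = |(discr K : ℝ)| := by
    rw [Nat.cast_natAbs, Int.cast_abs]
  rw [← h7] at h5
  exact_mod_cast h5

theorem nrm_nat (K : IntermediateField ℚ ℂ) [NumberField K] (h2 : Module.finrank ℚ K = 2)
    (n : ℕ) : Ideal.absNorm (Ideal.span {(n : 𝓞 K)}) = n ^ 2 := by
  rw [Ideal.absNorm_span_singleton]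
  have h7 : Algebra.norm ℤ (n : 𝓞 K) = (n : ℤ) ^ 2 := by
    have h8 := Algebra.norm_algebraMap_of_basis (RingOfIntegers.basis K) (n : ℤ)
    rw [← Module.finrank_eq_card_basis (RingOfIntegers.basis K), RingOfIntegers.rank, h2] at h8
    simpa using h8
  rw [h7]
  simp [Int.natAbs_pow]

theorem cpl (K : IntermediateField ℚ ℂ) [NumberField K] (h2 : Module.finrank ℚ K = 2)
    (I : (Ideal (𝓞 K))⁰) :
    ∃ I1 : (Ideal (𝓞 K))⁰, (I : Ideal (𝓞 K)) * (I1 : Ideal (𝓞 K)) =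
      Ideal.span {((Ideal.absNorm (I : Ideal (𝓞 K)) : ℕ) : 𝓞 K)} ∧
      Ideal.absNorm (I1 : Ideal (𝓞 K)) = Ideal.absNorm (I : Ideal (𝓞 K)) ∧
      ClassGroup.mk0 I1 = (ClassGroup.mk0 I)⁻¹ := by
  have hI0 : (I : Ideal (𝓞 K)) ≠ 0 := nonZeroDivisors.coe_ne_zero I
  have hN : Ideal.absNorm (I : Ideal (𝓞 K)) ≠ 0 := by
    rw [Ne, Ideal.absNorm_eq_zero_iff]
    exact hI0
  have hmem := Ideal.absNorm_mem (I : Ideal (𝓞 K))
  obtain ⟨J, hJ⟩ := Ideal.dvd_iff_le.2 ((Ideal.span_singleton_le_iff_mem _).2 hmem)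
  have hS0 : Ideal.span {((Ideal.absNorm (I : Ideal (𝓞 K)) : ℕ) : 𝓞 K)} ≠ 0 := by
    rw [Ne, Ideal.zero_eq_bot, Ideal.span_singleton_eq_bot]
    exact_mod_cast hN
  have hJ0 : J ≠ 0 := by
    rintro rfl
    rw [mul_zero] at hJ
    exact hS0 hJ
  refine ⟨⟨J, mem_nonZeroDivisors_iff_ne_zero.2 hJ0⟩, hJ.symm, ?_, ?_⟩
  · have h1 := congrArg Ideal.absNorm hJ
    rw [nrm_nat K h2, map_mul, pow_two] at h1
    exact (Nat.eq_of_mul_eq_mul_left (Nat.pos_of_ne_zero hN) h1).symm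
  · apply eq_inv_of_mul_eq_one_right
    rw [← map_mul, ClassGroup.mk0_eq_one_iff]
    refine ⟨((Ideal.absNorm (I : Ideal (𝓞 K)) : ℕ) : 𝓞 K), ?_⟩
    exact hJ.symm

private theorem CMn_fac (K : IntermediateField ℚ ℂ) [NumberField K] (h2 : Module.finrank ℚ K = 2)
    (I : (Ideal (𝓞 K))⁰) (n : ℕ) (hn : 2 ≤ n)
    (hle : (I : Ideal (𝓞 K)) ≤ Ideal.span {(n : 𝓞 K)}) :
    ∃ J : (Ideal (𝓞 K))⁰, ClassGroup.mk0 J = ClassGroup.mk0 I ∧
      Ideal.absNorm (J : Ideal (𝓞 K)) < Ideal.absNorm (I : Ideal (𝓞 K)) := by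
  obtain ⟨J, hJ⟩ := Ideal.dvd_iff_le.2 hle
  have hn0' : (n : 𝓞 K) ≠ 0 := by
    have : n ≠ 0 := by omega
    exact_mod_cast this
  have hS0 : Ideal.span {(n : 𝓞 K)} ≠ 0 := by
    rw [Ne, Ideal.zero_eq_bot, Ideal.span_singleton_eq_bot]
    exact hn0'
  have hI00 : (I : Ideal (𝓞 K)) ≠ 0 := nonZeroDivisors.coe_ne_zero I
  have hJ0 : J ≠ 0 := by
    rintro rfl
    rw [mul_zero] at hJ
    exact hI00 hJ
  let S' : (Ideal (𝓞 K))⁰ := ⟨Ideal.span {(n : 𝓞 K)}, mem_nonZeroDivisors_iff_ne_zero.2 hS0⟩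
  let J' : (Ideal (𝓞 K))⁰ := ⟨J, mem_nonZeroDivisors_iff_ne_zero.2 hJ0⟩
  have hIS : I = S' * J' := Subtype.ext hJ
  have hS1 : ClassGroup.mk0 S' = 1 := by
    rw [ClassGroup.mk0_eq_one_iff]
    exact ⟨(n : 𝓞 K), rfl⟩
  have hJC : ClassGroup.mk0 J' = ClassGroup.mk0 I := by
    rw [hIS, map_mul, hS1, one_mul]
  refine ⟨J', hJC, ?_⟩
  have h4 : Ideal.absNorm (I : Ideal (𝓞 K)) =
      Ideal.absNorm (Ideal.span {(n : 𝓞 K)}) * Ideal.absNorm J := by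
    rw [hJ, map_mul]
  have h5 : Ideal.absNorm J ≠ 0 := by
    rw [Ne, Ideal.absNorm_eq_zero_iff]
    exact hJ0
  have h9 : Ideal.absNorm (J' : Ideal (𝓞 K)) = Ideal.absNorm J := rfl
  rw [h4, nrm_nat K h2, h9]
  have h10 : 4 ≤ n ^ 2 := by nlinarith
  have h11 : 0 < Ideal.absNorm J := Nat.pos_of_ne_zero h5
  nlinarith

theorem prm1 (K : IntermediateField ℚ ℂ) [NumberField K] (h2 : Module.finrank ℚ K = 2)
    (I : (Ideal (𝓞 K))⁰) (hI : MinI K I) (n : ℕ) (hn : 2 ≤ n) :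
    ¬ ((I : Ideal (𝓞 K)) ≤ Ideal.span {(n : 𝓞 K)}) := by
  intro hle
  obtain ⟨J, hJ, hlt⟩ := CMn_fac K h2 I n hn hle
  exact absurd (hI J hJ) (not_le.2 hlt)

theorem prm2 (K : IntermediateField ℚ ℂ) [NumberField K] (h2 : Module.finrank ℚ K = 2)
    (I I1 : (Ideal (𝓞 K))⁰) (hI : MinI K I)
    (h : (I : Ideal (𝓞 K)) * (I1 : Ideal (𝓞 K)) =
      Ideal.span {((Ideal.absNorm (I : Ideal (𝓞 K)) : ℕ) : 𝓞 K)}) (n : ℕ) (hn : 2 ≤ n) :
    ¬ ((I1 : Ideal (𝓞 K)) ≤ Ideal.span {(n : 𝓞 K)}) := by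
  intro hle
  have hI0 : (I : Ideal (𝓞 K)) ≠ 0 := nonZeroDivisors.coe_ne_zero I
  have hN : Ideal.absNorm (I : Ideal (𝓞 K)) ≠ 0 := by
    rw [Ne, Ideal.absNorm_eq_zero_iff]
    exact hI0
  have hcl : ClassGroup.mk0 I1 = (ClassGroup.mk0 I)⁻¹ := by
    apply eq_inv_of_mul_eq_one_right
    rw [← map_mul, ClassGroup.mk0_eq_one_iff]
    exact ⟨((Ideal.absNorm (I : Ideal (𝓞 K)) : ℕ) : 𝓞 K), h⟩
  have hnm : Ideal.absNorm (I1 : Ideal (𝓞 K)) = Ideal.absNorm (I : Ideal (𝓞 K)) := by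
    have h1 := congrArg Ideal.absNorm h
    rw [nrm_nat K h2, map_mul, pow_two] at h1
    exact Nat.eq_of_mul_eq_mul_left (Nat.pos_of_ne_zero hN) h1
  obtain ⟨J, hJ, hlt⟩ := CMn_fac K h2 I1 n hn hle
  obtain ⟨J1, -, hJ1, hJ2⟩ := cpl K h2 J
  have h3 := hI J1 (by rw [hJ2, hJ, hcl, inv_inv])
  omega

end Pool.Agent.FTB
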