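import Pool.Agent.FTB.Geo

/-!
# FTB/CeA: the weights of the cells

`Gc U a` is an upper bound for `gm U x` if `⌊U * fract x⌋₊ = a`.

PROOF of `cea1`.  Always `gm U x ≤ 2 U + 1` (in the second case of the definition
`2 (2 U + 1) dn x > 1`).  If `a ≠ 0` and `a + 1 ≠ U` then `1 ≤ a ≤ U - 2` (as `U * fract x < U`,
`a < U`), `a ≤ U * fract x < a + 1` (`Nat.floor_le`, `Nat.lt_floor_add_one`), so
`dn x = min (fract x) (1 - fract x) ≥ min (a / U) ((U - 1 - a) / U) > 0` (`dn_eq_min`), and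
`gm U x ≤ 1 / (2 dn x)` (in the first case `2 U + 1 ≤ 1 / (2 dn x)` since
`2 (2 U + 1) dn x ≤ 1`), so `gm U x ≤ U / (2 min (a, U - 1 - a)) ≤ U / 2 * (1 / a + 1 / (U - 1 - a))`.

PROOF of `cea2`.  The (at most 2) terms with `a = 0` or `a + 1 = U` give at most
`2 (2 U + 1) ≤ 6 U`.  The others give at most `U / 2 * 2 * ∑ a ∈ Ico 1 U, 1 / a ≤ U (1 + log U)`
(reflect `a ↦ U - 1 - a`; harmonic sum: `harmonic_le_one_add_log` or
`Finset.sum_Ioc_inv..`).  Total `≤ 6 U + U (1 + log U) ≤ 7 U (1 + log U)`.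
-/

set_option autoImplicit false

namespace Pool.Agent.FTB

/-- the weight of the cell `a` -/
noncomputable def Gc (U a : ℕ) : ℝ :=
  if a = 0 ∨ a + 1 = U then 2 * (U : ℝ) + 1
  else (U : ℝ) / 2 * (1 / (a : ℝ) + 1 / ((U : ℝ) - 1 - a))

theorem cea0 (U : ℕ) (hU : 1 ≤ U) (x : ℝ) : ⌊(U : ℝ) * Int.fract x⌋₊ < U := by
  have h1 := Int.fract_lt_one x
  have h2 := Int.fract_nonneg x
  have h3 : (0 : ℝ) < U := by exact_mod_cast hU
  rw [Nat.floor_lt (by positivity)]
  nlinarith

theorem cea1 (U : ℕ) (hU : 1 ≤ U) (x : ℝ) : gm U x ≤ Gc U ⌊(U : ℝ) * Int.fract x⌋₊ := by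
  have hU' : (0 : ℝ) < U := by exact_mod_cast hU
  have hf1 := Int.fract_lt_one x
  have hf0 := Int.fract_nonneg x
  have hdn0 := dn_nonneg x
  have hlt := cea0 U hU x
  have hUf : (0 : ℝ) ≤ (U : ℝ) * Int.fract x := by positivity
  have hfl1 := Nat.floor_le hUf
  have hfl2 := Nat.lt_floor_add_one ((U : ℝ) * Int.fract x)
  generalize ha : ⌊(U : ℝ) * Int.fract x⌋₊ = a at *
  by_cases hc : a = 0 ∨ a + 1 = U
  · have h1 : Gc U a = 2 * (U : ℝ) + 1 := by
      unfold Gc
      rw [if_pos hc]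
    rw [h1]
    unfold gm
    split_ifs with h2
    · exact le_refl _
    · push Not at h2
      have h3 : 0 < dn x := by
        rcases hdn0.lt_or_eq with h4 | h4
        · exact h4
        · rw [← h4] at h2
          norm_num at h2
      rw [div_le_iff₀ (by positivity)]
      linarith
  · have h1 : Gc U a = (U : ℝ) / 2 * (1 / (a : ℝ) + 1 / ((U : ℝ) - 1 - a)) := by
      unfold Gc
      rw [if_neg hc]
    push Not at hc
    obtain ⟨ha0, ha1⟩ := hc
    have ha2 : a + 2 ≤ U := by omega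
    have ha3 : (a : ℝ) + 2 ≤ U := by exact_mod_cast ha2
    have ha4 : (1 : ℝ) ≤ a := by exact_mod_cast Nat.one_le_iff_ne_zero.mpr ha0
    have hb : (0 : ℝ) < (U : ℝ) - 1 - a := by linarith
    have hgm : gm U x ≤ 1 / (2 * dn x) := by
      unfold gm
      split_ifs with h2
      · have h3 : 0 < dn x := by
          rw [dn_eq_min]
          apply lt_min
          · by_contra hcon
            push Not at hcon
            have : Int.fract x = 0 := le_antisymm hcon hf0
            rw [this, mul_zero] at hfl1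
            linarith
          · linarith
        rw [le_div_iff₀ (by positivity)]
        linarith
      · exact le_refl _
    refine hgm.trans ?_
    rw [h1, dn_eq_min]
    have hx1 : (a : ℝ) / U ≤ Int.fract x := by
      rw [div_le_iff₀ hU']
      linarith
    have hx2 : ((U : ℝ) - 1 - a) / U ≤ 1 - Int.fract x := by
      rw [div_le_iff₀ hU']
      nlinarith
    have hp1 : (0 : ℝ) < 1 / (a : ℝ) := by positivity
    have hp2 : (0 : ℝ) < 1 / ((U : ℝ) - 1 - a) := by positivity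
    rcases min_cases (Int.fract x) (1 - Int.fract x) with ⟨hm, _⟩ | ⟨hm, _⟩
    · rw [hm]
      calc 1 / (2 * Int.fract x) ≤ 1 / (2 * ((a : ℝ) / U)) := by
            apply one_div_le_one_div_of_le (by positivity)
            linarith
        _ = (U : ℝ) / 2 * (1 / (a : ℝ)) := by
            field_simp
        _ ≤ _ := mul_le_mul_of_nonneg_left (by linarith) (by positivity)
    · rw [hm]
      calc 1 / (2 * (1 - Int.fract x)) ≤ 1 / (2 * (((U : ℝ) - 1 - a) / U)) := by
            apply one_div_le_one_div_of_le (by positivity)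
            linarith
        _ = (U : ℝ) / 2 * (1 / ((U : ℝ) - 1 - a)) := by
            field_simp
        _ ≤ _ := mul_le_mul_of_nonneg_left (by linarith) (by positivity)

private theorem cea_harm (n : ℕ) :
    ∑ a ∈ Finset.Ico 1 (n + 1), 1 / (a : ℝ) ≤ 1 + Real.log n := by
  have h := harmonic_le_one_add_log n
  have h1 : ((harmonic n : ℚ) : ℝ) = ∑ a ∈ Finset.Ico 1 (n + 1), 1 / (a : ℝ) := by
    unfold harmonic
    push_cast
    rw [Finset.sum_Ico_eq_sum_range, Nat.add_sub_cancel]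
    apply Finset.sum_congr rfl
    intro i _
    push_cast
    rw [one_div, add_comm]
  rw [← h1]
  exact h

theorem cea2 (U : ℕ) (hU : 1 ≤ U) :
    ∑ a ∈ Finset.range U, Gc U a ≤ 7 * (U : ℝ) * (1 + Real.log U) := by
  have hU' : (1 : ℝ) ≤ U := by exact_mod_cast hU
  have hlog : 0 ≤ Real.log U := Real.log_nonneg hU'
  rcases Nat.lt_or_ge U 3 with h3 | h3
  · -- all terms are of the first kind
    have h1 : ∀ a ∈ Finset.range U, Gc U a = 2 * (U : ℝ) + 1 := by
      intro a ha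
      rw [Finset.mem_range] at ha
      unfold Gc
      rw [if_pos (by omega)]
    rw [Finset.sum_congr rfl h1, Finset.sum_const, Finset.card_range, nsmul_eq_mul]
    have h2 : (U : ℝ) ≤ 2 := by
      have : U ≤ 2 := by omega
      exact_mod_cast this
    nlinarith [mul_nonneg (show (0 : ℝ) ≤ U by linarith) hlog]
  · obtain ⟨m, rfl⟩ : ∃ m, U = m + 1 + 1 + 1 := ⟨U - 3, by omega⟩
    have hm1 : (((m + 1 + 1 + 1 : ℕ)) : ℝ) = (m : ℝ) + 3 := by push_cast; ring
    rw [Finset.sum_range_succ, Finset.sum_range_succ']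
    have e0 : Gc (m + 1 + 1 + 1) 0 = 2 * (((m + 1 + 1 + 1 : ℕ)) : ℝ) + 1 := by
      unfold Gc
      rw [if_pos (Or.inl rfl)]
    have e1 : Gc (m + 1 + 1 + 1) (m + 1 + 1) = 2 * (((m + 1 + 1 + 1 : ℕ)) : ℝ) + 1 := by
      unfold Gc
      rw [if_pos (Or.inr rfl)]
    rw [e0, e1]
    have e2 : ∀ i ∈ Finset.range (m + 1), Gc (m + 1 + 1 + 1) (i + 1) =
        ((m : ℝ) + 3) / 2 * (1 / ((i + 1 : ℕ) : ℝ)) +
          ((m : ℝ) + 3) / 2 * (1 / (((m + 1 - 1 - i) + 1 : ℕ) : ℝ)) := by
      intro i hi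
      rw [Finset.mem_range] at hi
      unfold Gc
      rw [if_neg (by omega), hm1]
      have h4 : (((m + 1 - 1 - i) + 1 : ℕ) : ℝ) = (m : ℝ) + 3 - 1 - ((i + 1 : ℕ) : ℝ) := by
        have h5 : (m + 1 - 1 - i) + 1 + (i + 1) + 1 = m + 3 := by omega
        have h6 : ((((m + 1 - 1 - i) + 1 + (i + 1) + 1 : ℕ)) : ℝ) = ((m + 3 : ℕ) : ℝ) := by
          rw [h5]
        push_cast at h6 ⊢
        linarith
      rw [h4]
      ring
    rw [Finset.sum_congr rfl e2, Finset.sum_add_distrib, ← Finset.mul_sum, ← Finset.mul_sum,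
      Finset.sum_range_reflect (fun i : ℕ => 1 / ((i + 1 : ℕ) : ℝ)) (m + 1)]
    have h7 : ∑ i ∈ Finset.range (m + 1), 1 / ((i + 1 : ℕ) : ℝ) ≤ 1 + Real.log ((m : ℝ) + 3) := by
      have h8 := cea_harm (m + 1)
      rw [Finset.sum_Ico_eq_sum_range, Nat.add_sub_cancel] at h8
      have h9 : ∑ i ∈ Finset.range (m + 1), 1 / ((i + 1 : ℕ) : ℝ) =
          ∑ k ∈ Finset.range (m + 1), 1 / ((1 + k : ℕ) : ℝ) := by
        apply Finset.sum_congr rfl
        intro i _
        rw [add_comm]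
      rw [h9]
      refine h8.trans ?_
      have h10 : Real.log ((m + 1 : ℕ) : ℝ) ≤ Real.log ((m : ℝ) + 3) := by
        apply Real.log_le_log
        · positivity
        · push_cast
          linarith
      linarith
    rw [hm1] at hlog ⊢
    have h11 : (0 : ℝ) ≤ m := Nat.cast_nonneg m
    have h12 : ((m : ℝ) + 3) / 2 * ∑ i ∈ Finset.range (m + 1), 1 / ((i + 1 : ℕ) : ℝ) ≤
        ((m : ℝ) + 3) / 2 * (1 + Real.log ((m : ℝ) + 3)) :=
      mul_le_mul_of_nonneg_left h7 (by positivity)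
    nlinarith [mul_nonneg (show (0 : ℝ) ≤ (m : ℝ) + 3 by linarith) hlog]

end Pool.Agent.FTB
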