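import Pool.Agent.FTB.DefsI

/-!
# FTB/RIn: the reduced point

`G = gcd (c, v)`; `c = G c0`, `v = G v0`, `u = G u0`, ... with `c0, v0 ≥ 1` coprime.

PROOF of `rin`.  Dividing the three relations by `G ^ 2` gives those for the reduced tuple.
Coprimality: `Int.gcd` / `Nat.Coprime` of the quotients.
Reals: `b ^ 2 ≤ 4 N ^ 2 k`, so `|b| ≤ 2 N √k`; `κ ^ 2 ≤ 4 k ^ 2 N`, `|κ| ≤ 2 k √N`.
`2 k |u| ≤ |b| v + c |κ| ≤ 2 N √k v + 2 k √N c`; divide by `2 √k` (`k = √k * √k`):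
`|u| √k ≤ v N + c √N √k`.  `2 N |e| ≤ 2 N √k v + 2 k √N c`; divide by `2 √N`:
`|e| √N ≤ v √N √k + c k`.  Divide both by `G`.
`v ^ 2 D ≤ 4 k ^ 2 N` with `D ≥ N ^ 2` gives `v ^ 2 N ≤ 4 k ^ 2`, with `D ≥ k ^ 2` it gives
`v ^ 2 ≤ 4 N`; similarly `c ^ 2 k ≤ 4 N ^ 2`, `c ^ 2 ≤ 4 k`; and `v0 ≤ v`, `c0 ≤ c`.
`Dat`: `b v = k u + N e` from `h4 + h6` (`2 b v = 2 k u + 2 N e`), divide by `G`; and
`b ^ 2 + D (G c0) ^ 2 = 4 N ^ 2 k`.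
-/

set_option autoImplicit false

namespace Pool.Agent.FTB

private theorem rin_abs (N k : ℝ) (hN : 0 ≤ N) (hk : 0 ≤ k) (b : ℝ) (h : b ^ 2 ≤ 4 * N ^ 2 * k) :
    |b| ≤ 2 * N * √k := by
  apply abs_le_of_sq_le_sq _ (by positivity)
  rw [mul_pow, mul_pow, Real.sq_sqrt hk]
  linarith

private theorem rin_u (N k b c κ v u : ℝ) (hN : 0 < N) (hk : 0 < k) (hc : 0 ≤ c) (hv : 0 ≤ v)
    (hb : b ^ 2 ≤ 4 * N ^ 2 * k) (hκ : κ ^ 2 ≤ 4 * k ^ 2 * N)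
    (h : 2 * (k * u) = b * v + κ * c) : |u| * √k ≤ v * N + c * √N * √k := by
  have h1 := rin_abs N k hN.le hk.le b hb
  have h2 := rin_abs k N hk.le hN.le κ hκ
  have hs : 0 < √k := Real.sqrt_pos.2 hk
  have hsk : √k * √k = k := Real.mul_self_sqrt hk.le
  have h3 : 2 * k * |u| ≤ 2 * N * √k * v + 2 * k * √N * c := by
    have e : 2 * k * |u| = |b * v + κ * c| := by
      rw [← h, abs_mul, abs_mul, abs_of_pos hk]
      norm_num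
      ring
    rw [e]
    refine (abs_add_le _ _).trans ?_
    rw [abs_mul, abs_mul, abs_of_nonneg hc, abs_of_nonneg hv]
    gcongr
  have h4 : (2 * √k) * (|u| * √k) ≤ (2 * √k) * (v * N + c * √N * √k) := by
    have e1 : (2 * √k) * (|u| * √k) = 2 * (√k * √k) * |u| := by ring
    have e2 : (2 * √k) * (v * N + c * √N * √k) = 2 * N * √k * v + 2 * (√k * √k) * √N * c := by ring
    rw [e1, e2, hsk]
    exact h3
  exact le_of_mul_le_mul_left h4 (by positivity)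

theorem rin (D N k : ℕ) (b c κ v u e w z : ℤ) (hN : 1 ≤ N) (hk : 1 ≤ k) (hND : N ^ 2 ≤ D)
    (hkD : k ^ 2 ≤ D) (hc : 0 < c) (hv : 0 < v)
    (h1 : b ^ 2 + (D : ℤ) * c ^ 2 = 4 * (N : ℤ) ^ 2 * k)
    (h2 : κ ^ 2 + (D : ℤ) * v ^ 2 = 4 * (k : ℤ) ^ 2 * N)
    (h4 : 2 * ((k : ℤ) * u) = b * v + κ * c) (h6 : 2 * ((N : ℤ) * e) = b * v - κ * c)
    (r1 : u * e = v ^ 2 * N - c ^ 2 * k) (r2 : v * w = u ^ 2 - c ^ 2 * N)
    (r3 : c * z = v ^ 2 * k - e ^ 2) (gu : (Int.gcd c v : ℤ) ∣ u) (ge : (Int.gcd c v : ℤ) ∣ e)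
    (gw : (Int.gcd c v : ℤ) ∣ w) (gz : (Int.gcd c v : ℤ) ∣ z) :
    Dat D (Int.gcd c v) (N, k, (c / (Int.gcd c v : ℤ)).toNat, (v / (Int.gcd c v : ℤ)).toNat,
      u / (Int.gcd c v : ℤ), e / (Int.gcd c v : ℤ), w / (Int.gcd c v : ℤ),
      z / (Int.gcd c v : ℤ)) := by
  have hG : 0 < Int.gcd c v := Int.gcd_pos_of_ne_zero_left _ hc.ne'
  have hcop : Int.gcd (c / (Int.gcd c v : ℤ)) (v / (Int.gcd c v : ℤ)) = 1 :=
    Int.gcd_div_gcd_div_gcd hG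
  have gc : (Int.gcd c v : ℤ) ∣ c := Int.gcd_dvd_left ..
  have gv : (Int.gcd c v : ℤ) ∣ v := Int.gcd_dvd_right ..
  generalize hGG : Int.gcd c v = G at *
  have hGz : (0 : ℤ) < G := by exact_mod_cast hG
  have hG0 : (G : ℤ) ≠ 0 := hGz.ne'
  obtain ⟨c0, rfl⟩ := gc
  obtain ⟨v0, rfl⟩ := gv
  obtain ⟨u0, rfl⟩ := gu
  obtain ⟨e0, rfl⟩ := ge
  obtain ⟨w0, rfl⟩ := gw
  obtain ⟨z0, rfl⟩ := gz
  rw [Int.mul_ediv_cancel_left _ hG0, Int.mul_ediv_cancel_left _ hG0] at hcop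
  rw [Int.mul_ediv_cancel_left _ hG0, Int.mul_ediv_cancel_left _ hG0,
    Int.mul_ediv_cancel_left _ hG0, Int.mul_ediv_cancel_left _ hG0,
    Int.mul_ediv_cancel_left _ hG0, Int.mul_ediv_cancel_left _ hG0]
  have hc0 : 0 < c0 := (mul_pos_iff_of_pos_left hGz).1 hc
  have hv0 : 0 < v0 := (mul_pos_iff_of_pos_left hGz).1 hv
  obtain ⟨c1, rfl⟩ := Int.eq_ofNat_of_zero_le hc0.le
  obtain ⟨v1, rfl⟩ := Int.eq_ofNat_of_zero_le hv0.le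
  have hc1 : 1 ≤ c1 := by exact_mod_cast hc0
  have hv1 : 1 ≤ v1 := by exact_mod_cast hv0
  have hG2 : (G : ℤ) ^ 2 ≠ 0 := pow_ne_zero _ hG0
  have hNz : (1 : ℤ) ≤ N := by exact_mod_cast hN
  have hkz : (1 : ℤ) ≤ k := by exact_mod_cast hk
  have hGz1 : (1 : ℤ) ≤ G := hGz
  have hNDz : (N : ℤ) ^ 2 ≤ D := by exact_mod_cast hND
  have hkDz : (k : ℤ) ^ 2 ≤ D := by exact_mod_cast hkD
  -- the relations
  have s1 : u0 * e0 = (v1 : ℤ) ^ 2 * N - (c1 : ℤ) ^ 2 * k := by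
    apply mul_left_cancel₀ hG2
    linear_combination r1
  have s2 : (v1 : ℤ) * w0 = u0 ^ 2 - (c1 : ℤ) ^ 2 * N := by
    apply mul_left_cancel₀ hG2
    linear_combination r2
  have s3 : (c1 : ℤ) * z0 = (v1 : ℤ) ^ 2 * k - e0 ^ 2 := by
    apply mul_left_cancel₀ hG2
    linear_combination r3
  have s4 : b * (v1 : ℤ) = k * u0 + N * e0 := by
    apply mul_left_cancel₀ hG0
    linarith
  -- the sizes
  have hGv : (v1 : ℤ) ^ 2 ≤ ((G : ℤ) * v1) ^ 2 := by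
    rw [mul_pow]
    nlinarith [sq_nonneg (v1 : ℤ), mul_self_nonneg ((G : ℤ) - 1), pow_le_pow_left₀ (by norm_num : (0:ℤ) ≤ 1) hGz1 2]
  have hGc : (c1 : ℤ) ^ 2 ≤ ((G : ℤ) * c1) ^ 2 := by
    rw [mul_pow]
    nlinarith [sq_nonneg (c1 : ℤ), mul_self_nonneg ((G : ℤ) - 1), pow_le_pow_left₀ (by norm_num : (0:ℤ) ≤ 1) hGz1 2]
  have hDv : (D : ℤ) * (v1 : ℤ) ^ 2 ≤ 4 * (k : ℤ) ^ 2 * N := by
    have : (D : ℤ) * (v1 : ℤ) ^ 2 ≤ D * ((G : ℤ) * v1) ^ 2 :=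
      mul_le_mul_of_nonneg_left hGv (Int.natCast_nonneg _)
    nlinarith [sq_nonneg κ]
  have hDc : (D : ℤ) * (c1 : ℤ) ^ 2 ≤ 4 * (N : ℤ) ^ 2 * k := by
    have : (D : ℤ) * (c1 : ℤ) ^ 2 ≤ D * ((G : ℤ) * c1) ^ 2 :=
      mul_le_mul_of_nonneg_left hGc (Int.natCast_nonneg _)
    nlinarith [sq_nonneg b]
  have t1 : (v1 : ℤ) ^ 2 ≤ 4 * N := by
    have h7 : (k : ℤ) ^ 2 * (v1 : ℤ) ^ 2 ≤ (k : ℤ) ^ 2 * (4 * N) := by
      have := mul_le_mul_of_nonneg_right hkDz (sq_nonneg (v1 : ℤ))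
      linarith
    exact le_of_mul_le_mul_left h7 (by positivity)
  have t2 : (v1 : ℤ) ^ 2 * N ≤ 4 * k ^ 2 := by
    have h7 : (N : ℤ) * ((v1 : ℤ) ^ 2 * N) ≤ N * (4 * k ^ 2) := by
      have := mul_le_mul_of_nonneg_right hNDz (sq_nonneg (v1 : ℤ))
      linarith
    exact le_of_mul_le_mul_left h7 (by positivity)
  have t3 : (c1 : ℤ) ^ 2 ≤ 4 * k := by
    have h7 : (N : ℤ) ^ 2 * (c1 : ℤ) ^ 2 ≤ (N : ℤ) ^ 2 * (4 * k) := by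
      have := mul_le_mul_of_nonneg_right hNDz (sq_nonneg (c1 : ℤ))
      linarith
    exact le_of_mul_le_mul_left h7 (by positivity)
  have t4 : (c1 : ℤ) ^ 2 * k ≤ 4 * N ^ 2 := by
    have h7 : (k : ℤ) * ((c1 : ℤ) ^ 2 * k) ≤ k * (4 * N ^ 2) := by
      have := mul_le_mul_of_nonneg_right hkDz (sq_nonneg (c1 : ℤ))
      linarith
    exact le_of_mul_le_mul_left h7 (by positivity)
  -- the reals
  have hGr : (0 : ℝ) < G := by exact_mod_cast hG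
  have hNr : (0 : ℝ) < N := by exact_mod_cast hN
  have hkr : (0 : ℝ) < k := by exact_mod_cast hk
  have hbr : (b : ℝ) ^ 2 ≤ 4 * (N : ℝ) ^ 2 * k := by
    have : b ^ 2 ≤ 4 * (N : ℤ) ^ 2 * k := by
      have : 0 ≤ (D : ℤ) * ((G : ℤ) * c1) ^ 2 := by positivity
      linarith
    exact_mod_cast this
  have hκr : (κ : ℝ) ^ 2 ≤ 4 * (k : ℝ) ^ 2 * N := by
    have : κ ^ 2 ≤ 4 * (k : ℤ) ^ 2 * N := by
      have : 0 ≤ (D : ℤ) * ((G : ℤ) * v1) ^ 2 := by positivity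
      linarith
    exact_mod_cast this
  have u1 := rin_u N k b ((G : ℝ) * c1) κ ((G : ℝ) * v1) ((G : ℝ) * u0) hNr hkr (by positivity)
    (by positivity) hbr hκr (by
      have : ((2 * ((k : ℤ) * ((G : ℤ) * u0)) : ℤ) : ℝ) = ((b * ((G : ℤ) * v1) + κ * ((G : ℤ) * c1) : ℤ) : ℝ) := by
        rw [h4]
      push_cast at this
      linarith)
  have u2 := rin_u k N (-κ) ((G : ℝ) * v1) b ((G : ℝ) * c1) ((G : ℝ) * e0) hkr hNr (by positivity)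
    (by positivity) (by rw [neg_sq]; exact hκr) hbr (by
      have : ((2 * ((N : ℤ) * ((G : ℤ) * e0)) : ℤ) : ℝ) = ((b * ((G : ℤ) * v1) - κ * ((G : ℤ) * c1) : ℤ) : ℝ) := by
        rw [h6]
      push_cast at this
      linarith)
  rw [abs_mul, abs_of_pos hGr] at u1 u2
  have w1 : |(u0 : ℝ)| * √(k : ℝ) ≤ v1 * N + c1 * √(N : ℝ) * √(k : ℝ) := by
    refine le_of_mul_le_mul_left ?_ hGr
    linarith
  have w2 : |(e0 : ℝ)| * √(N : ℝ) ≤ v1 * √(N : ℝ) * √(k : ℝ) + c1 * k := by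
    refine le_of_mul_le_mul_left ?_ hGr
    linarith
  simp only [Int.ofNat_eq_natCast, Int.toNat_natCast] at *
  refine ⟨⟨hN, hk, hc1, hv1, ?_, s1, s2, s3, w1, w2, ?_, ?_, ?_, ?_⟩, hG, hND, hkD, b, s4, h1⟩
  · rwa [Int.gcd_natCast_natCast] at hcop
  · exact_mod_cast t1
  · exact_mod_cast t2
  · exact_mod_cast t3
  · exact_mod_cast t4

end Pool.Agent.FTB
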