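import Pool.Agent.FTB.LmG
import Pool.Agent.FTB.AlB
import Pool.Agent.FTB.RIn

/-!
# FTB/ClD: the data attached to a class of order dividing 5

PROOF of `clD`.  `N = absNorm I`, `k = absNorm J` (`≥ 1`, the ideals are not zero).  `cpl` gives `I1`,
`J1`.  `prm1`, `prm2` give the primitivity of `I, J, J1`.  `els1` gives `β, βc, γ` with coordinates
`(b, c)`, `(b, -c)`, `(κ, v)`, `c, v ≥ 0`; `els2` gives `δ1, δ2, α, α2`; take their coordinates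
`(t1, u)`, `(t2, e)`, `(t3, w)`, `(t4, z)` (`co_exists`).  `co_nat`, `co_mul`, `co_unique` turn the four
multiplicative relations into the hypotheses of `alb`.  `c ≠ 0`: otherwise `b ^ 2 = 4 N ^ 2 k`, so
`k` is the square of the rational number `b / (2 N)`, so a perfect square
(`Nat`/`Int`: `(2 N) ^ 2 ∣ b ^ 2` implies `2 N ∣ b`, `Int.pow_dvd_pow_iff`), a contradiction;
`v ≠ 0`: otherwise `κ ^ 2 = 4 k ^ 2 N` and `N` is a perfect square.  `lmG` gives the divisibilities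
by `G = gcd (c, v)`, and `rin` gives `Dat`.  `c = G (c / G)`, so the coordinates of `β` are
`(b, G * c0)`, and those of `γ` are `(κ, G * v0)`.  The last two relations: from
`2 k u = b v + κ c`, `2 N e = b v - κ c` divided by `G`:
`b v0 = k u0 + N e0`, `κ c0 = k u0 - N e0`.
-/

set_option autoImplicit false

namespace Pool.Agent.FTB

open NumberField Pool.Agent.FTA nonZeroDivisors

private theorem ClD_sq (N k : ℕ) (hN : 1 ≤ N) (b : ℤ) (h : b ^ 2 = 4 * (N : ℤ) ^ 2 * k) :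
    IsSquare k := by
  have hd : (2 * (N : ℤ)) ^ 2 ∣ b ^ 2 := ⟨(k : ℤ), by rw [h]; ring⟩
  have hd2 : (2 * (N : ℤ)) ∣ b := (Int.pow_dvd_pow_iff (by norm_num)).1 hd
  obtain ⟨m, hm⟩ := hd2
  have hN0 : (N : ℤ) ≠ 0 := by positivity
  have hk : (k : ℤ) = m ^ 2 := by
    have h3 : (4 * (N : ℤ) ^ 2) * (k : ℤ) = (4 * (N : ℤ) ^ 2) * m ^ 2 := by
      rw [← h, hm]; ring
    exact mul_left_cancel₀ (by positivity) h3
  refine ⟨m.natAbs, ?_⟩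
  have : ((m.natAbs * m.natAbs : ℕ) : ℤ) = m ^ 2 := by
    rw [Int.natCast_mul, Int.natAbs_mul_self' m]; ring
  have h4 : (k : ℤ) = ((m.natAbs * m.natAbs : ℕ) : ℤ) := by rw [this, hk]
  exact_mod_cast h4

theorem clD (K : IntermediateField ℚ ℂ) [NumberField K] (h2 : Module.finrank ℚ K = 2)
    (him : ∃ x : K, (x : ℂ).im ≠ 0) (A : ClassGroup (𝓞 K)) (hA : A ^ 5 = 1)
    (I J : (Ideal (𝓞 K))⁰) (hI : ClassGroup.mk0 I = A) (hJ : ClassGroup.mk0 J = A ^ 2)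
    (mI : MinI K I) (mJ : MinI K J)
    (hID : (Ideal.absNorm (I : Ideal (𝓞 K))) ^ 2 ≤ aD K)
    (hJD : (Ideal.absNorm (J : Ideal (𝓞 K))) ^ 2 ≤ aD K)
    (sI : ¬ IsSquare (Ideal.absNorm (I : Ideal (𝓞 K))))
    (sJ : ¬ IsSquare (Ideal.absNorm (J : Ideal (𝓞 K)))) :
    ∃ (G : ℕ) (q : Pt), Dat (aD K) G q ∧ q.1 = Ideal.absNorm (I : Ideal (𝓞 K)) ∧
      q.2.1 = Ideal.absNorm (J : Ideal (𝓞 K)) ∧
      ∃ (β γ δ1 α : 𝓞 K) (b κ : ℤ), Co K β b ((G : ℤ) * q.2.2.1) ∧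
        Co K γ κ ((G : ℤ) * q.2.2.2.1) ∧ (q.2.1 : 𝓞 K) * δ1 = β * γ ∧
        (q.2.1 : 𝓞 K) * α = δ1 * β ∧ Ideal.span {α} = (I : Ideal (𝓞 K)) ^ 5 ∧
        b * q.2.2.2.1 = q.2.1 * q.2.2.2.2.1 + q.1 * q.2.2.2.2.2.1 ∧
        κ * q.2.2.1 = q.2.1 * q.2.2.2.2.1 - q.1 * q.2.2.2.2.2.1 := by
  obtain ⟨I1, hI1, hnI1, hcI1⟩ := cpl K h2 I
  obtain ⟨J1, hJ1, hnJ1, hcJ1⟩ := cpl K h2 J
  have pI := prm1 K h2 I mI
  have pJ := prm1 K h2 J mJ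
  have pJ1 := prm2 K h2 J J1 mJ hJ1
  have hN1 : 1 ≤ Ideal.absNorm (I : Ideal (𝓞 K)) :=
    Nat.one_le_iff_ne_zero.2 (Ideal.absNorm_ne_zero_of_nonZeroDivisors I)
  have hk1 : 1 ≤ Ideal.absNorm (J : Ideal (𝓞 K)) :=
    Nat.one_le_iff_ne_zero.2 (Ideal.absNorm_ne_zero_of_nonZeroDivisors J)
  generalize hNdef : Ideal.absNorm (I : Ideal (𝓞 K)) = N at *
  generalize hkdef : Ideal.absNorm (J : Ideal (𝓞 K)) = k at *
  obtain ⟨β, βc, γ, b, c, κ, v, cβ, cβc, cγ, hc0, hv0, hβ, hβc, hγ, hnb, hng⟩ :=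
    els1 K h2 him A hA I J I1 J1 hI hJ N k hNdef hkdef hI1 hJ1 hnJ1 hcJ1
  obtain ⟨δ1, δ2, α, α2, e1, e2, e3, e4, s1, s2, s3, s4⟩ :=
    els2 K I J I1 J1 N k hN1 hk1 hI1 hJ1 β βc γ hβ hβc hγ
  obtain ⟨t1, u, cδ1⟩ := co_exists K h2 him δ1
  obtain ⟨t2, e, cδ2⟩ := co_exists K h2 him δ2
  obtain ⟨t3, w, cα⟩ := co_exists K h2 him α
  obtain ⟨t4, z, cα2⟩ := co_exists K h2 him α2
  have m1 := co_mul K β γ b c κ v _ _ cβ cγ (e1 ▸ co_nat K δ1 t1 u k cδ1)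
  have m2 := co_mul K βc γ b (-c) κ v _ _ cβc cγ (e2 ▸ co_nat K δ2 t2 e N cδ2)
  have m3 := co_mul K δ1 β t1 u b c _ _ cδ1 cβ (e3 ▸ co_nat K α t3 w k cα)
  have m4 := co_mul K δ2 γ t2 e κ v _ _ cδ2 cγ (e4 ▸ co_nat K α2 t4 z N cα2)
  have hNz : (N : ℤ) ≠ 0 := by positivity
  have hkz : (k : ℤ) ≠ 0 := by positivity
  have h4 : 2 * ((k : ℤ) * u) = b * v + κ * c := m1.2
  have h6 : 2 * ((N : ℤ) * e) = b * v - κ * c := by
    rw [m2.2]; ring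
  have hal := alb (aD K : ℤ) N k b c κ v t1 u t2 e w z hNz hkz hnb hng m1.1 h4
    (by rw [m2.1]; ring) h6 m3.2 m4.2
  obtain ⟨r1, r2, r3⟩ := hal
  have hc : 0 < c := by
    rcases hc0.lt_or_eq with h | h
    · exact h
    · exfalso
      apply sJ
      apply ClD_sq N k hN1 b
      rw [← hnb, ← h]; ring
  have hv : 0 < v := by
    rcases hv0.lt_or_eq with h | h
    · exact h
    · exfalso
      apply sI
      apply ClD_sq k N hk1 κ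
      rw [← hng, ← h]; ring
  obtain ⟨gu, ge, gw, gz⟩ := lmG K h2 him I J I1 J1 N k hN1 hk1 hI1 hJ1 pI pJ pJ1 β βc γ δ1 δ2 α α2
    b c κ v t1 u t2 e t3 w t4 z cβ cβc cγ cδ1 cδ2 cα cα2 hβ hγ hnb hng e1 e2 e3 e4 s1 s2 s3 s4
  have hD := rin (aD K) N k b c κ v u e w z hN1 hk1 hID hJD hc hv hnb hng h4 h6 r1 r2 r3 gu ge gw gz
  have hG1 : 1 ≤ Int.gcd c v := hD.2.1
  generalize hG : Int.gcd c v = G at *
  have hGc : (G : ℤ) ∣ c := by rw [← hG]; exact Int.gcd_dvd_left ..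
  have hGv : (G : ℤ) ∣ v := by rw [← hG]; exact Int.gcd_dvd_right ..
  have hGz : (G : ℤ) ≠ 0 := by positivity
  have hc1 : ((c / (G : ℤ)).toNat : ℤ) = c / (G : ℤ) :=
    Int.toNat_of_nonneg (Int.ediv_nonneg hc.le (by positivity))
  have hv1 : ((v / (G : ℤ)).toNat : ℤ) = v / (G : ℤ) :=
    Int.toNat_of_nonneg (Int.ediv_nonneg hv.le (by positivity))
  have hc2 : (G : ℤ) * (c / (G : ℤ)) = c := Int.mul_ediv_cancel' hGc
  have hv2 : (G : ℤ) * (v / (G : ℤ)) = v := Int.mul_ediv_cancel' hGv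
  have hu2 : (G : ℤ) * (u / (G : ℤ)) = u := Int.mul_ediv_cancel' gu
  have he2 : (G : ℤ) * (e / (G : ℤ)) = e := Int.mul_ediv_cancel' ge
  refine ⟨G, _, hD, rfl, rfl, β, γ, δ1, α, b, κ, ?_, ?_, e1, e3, s3, ?_, ?_⟩
  · show Co K β b ((G : ℤ) * ((c / (G : ℤ)).toNat : ℤ))
    rw [hc1, hc2]; exact cβ
  · show Co K γ κ ((G : ℤ) * ((v / (G : ℤ)).toNat : ℤ))
    rw [hv1, hv2]; exact cγ
  · show b * ((v / (G : ℤ)).toNat : ℤ) = (k : ℤ) * (u / (G : ℤ)) + (N : ℤ) * (e / (G : ℤ))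
    rw [hv1]
    apply mul_left_cancel₀ (mul_ne_zero two_ne_zero hGz)
    calc 2 * (G : ℤ) * (b * (v / (G : ℤ))) = 2 * (b * ((G : ℤ) * (v / (G : ℤ)))) := by ring
      _ = 2 * (b * v) := by rw [hv2]
      _ = 2 * ((k : ℤ) * u) + 2 * ((N : ℤ) * e) := by rw [h4, h6]; ring
      _ = 2 * ((k : ℤ) * ((G : ℤ) * (u / (G : ℤ)))) + 2 * ((N : ℤ) * ((G : ℤ) * (e / (G : ℤ)))) := by
        rw [hu2, he2]
      _ = 2 * (G : ℤ) * ((k : ℤ) * (u / (G : ℤ)) + (N : ℤ) * (e / (G : ℤ))) := by ring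
  · show κ * ((c / (G : ℤ)).toNat : ℤ) = (k : ℤ) * (u / (G : ℤ)) - (N : ℤ) * (e / (G : ℤ))
    rw [hc1]
    apply mul_left_cancel₀ (mul_ne_zero two_ne_zero hGz)
    calc 2 * (G : ℤ) * (κ * (c / (G : ℤ))) = 2 * (κ * ((G : ℤ) * (c / (G : ℤ)))) := by ring
      _ = 2 * (κ * c) := by rw [hc2]
      _ = 2 * ((k : ℤ) * u) - 2 * ((N : ℤ) * e) := by rw [h4, h6]; ring
      _ = 2 * ((k : ℤ) * ((G : ℤ) * (u / (G : ℤ)))) - 2 * ((N : ℤ) * ((G : ℤ) * (e / (G : ℤ)))) := by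
        rw [hu2, he2]
      _ = 2 * (G : ℤ) * ((k : ℤ) * (u / (G : ℤ)) - (N : ℤ) * (e / (G : ℤ))) := by ring

end Pool.Agent.FTB
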