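import Pool.Agent.FTB.Defs

/-!
# FTB/Spc: spacing of slopes

PROOF of `spc`.  For `x ∈ S` let `σ x = x.1 / x.2 ∈ (0, C / V]` (real).  For `x ≠ y` in `S` the
integer `x.1 y.2 - y.1 x.2` is not zero (the pairs are coprime with positive entries, so equal
slopes mean `x = y`) and divisible by `n`, so `|σ x - σ y| = |x.1 y.2 - y.1 x.2| / (x.2 y.2) ≥
n / (4 V ^ 2) =: δ` (`x.2, y.2 ≤ 2 V`).  So `x ↦ ⌊σ x / δ⌋₊` is injective on `S` (the quotients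
differ by at least 1), with values in `range (⌊C / (V δ)⌋₊ + 1)`.  So
`card S ≤ C / (V δ) + 1 = 4 C V / n + 1`.
-/

set_option autoImplicit false

namespace Pool.Agent.FTB

theorem spc (n C V : ℕ) (hn : 1 ≤ n) (hV : 1 ≤ V) (S : Finset (ℕ × ℕ)) (hS : S ⊆ Cv C V)
    (h : ∀ x ∈ S, ∀ y ∈ S, (n : ℤ) ∣ (x.1 : ℤ) * y.2 - (y.1 : ℤ) * x.2) :
    (S.card : ℝ) ≤ 1 + 4 * (C : ℝ) * V / n := by
  have hn' : (0 : ℝ) < n := by exact_mod_cast hn
  have hV' : (0 : ℝ) < V := by exact_mod_cast hV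
  have hmem : ∀ x ∈ S, (1 ≤ x.1 ∧ x.1 ≤ C) ∧ (V ≤ x.2 ∧ x.2 < 2 * V) ∧ Nat.Coprime x.1 x.2 :=
    fun x hx => (mem_Cv C V x).mp (hS hx)
  set F : ℕ × ℕ → ℝ := fun x => 4 * (V : ℝ) ^ 2 / n * ((x.1 : ℝ) / x.2) with hF
  have hFpos : ∀ x ∈ S, 0 ≤ F x := by
    intro x hx
    rw [hF]
    positivity
  have hsep : ∀ x ∈ S, ∀ y ∈ S, x ≠ y → 1 ≤ |F x - F y| := by
    intro x hx y hy hxy
    obtain ⟨⟨hx1, hx1'⟩, ⟨hx2, hx2'⟩, hx3⟩ := hmem x hx
    obtain ⟨⟨hy1, hy1'⟩, ⟨hy2, hy2'⟩, hy3⟩ := hmem y hy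
    have hne : (x.1 : ℤ) * y.2 - (y.1 : ℤ) * x.2 ≠ 0 := by
      intro h0
      apply hxy
      have h1 : x.1 * y.2 = y.1 * x.2 := by
        have : (x.1 : ℤ) * y.2 = (y.1 : ℤ) * x.2 := by linarith
        exact_mod_cast this
      have h2 : x.1 ∣ y.1 := by
        have : x.1 ∣ y.1 * x.2 := ⟨y.2, h1.symm⟩
        exact hx3.dvd_of_dvd_mul_right this
      have h3 : y.1 ∣ x.1 := by
        have : y.1 ∣ x.1 * y.2 := ⟨x.2, h1⟩
        exact hy3.dvd_of_dvd_mul_right this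
      have h4 : x.1 = y.1 := Nat.dvd_antisymm h2 h3
      rw [← h4] at h1
      have h5 : y.2 = x.2 := Nat.eq_of_mul_eq_mul_left (by omega) h1
      exact Prod.ext h4 h5.symm
    have hdvd := h x hx y hy
    have hle : (n : ℤ) ≤ |(x.1 : ℤ) * y.2 - (y.1 : ℤ) * x.2| :=
      Int.le_of_dvd (abs_pos.mpr hne) ((dvd_abs _ _).mpr hdvd)
    have hle' : (n : ℝ) ≤ |(x.1 : ℝ) * y.2 - (y.1 : ℝ) * x.2| := by exact_mod_cast hle
    have hx2p : (0 : ℝ) < x.2 := by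
      have : 0 < x.2 := by omega
      exact_mod_cast this
    have hy2p : (0 : ℝ) < y.2 := by
      have : 0 < y.2 := by omega
      exact_mod_cast this
    have hx2q : (x.2 : ℝ) ≤ 2 * V := by exact_mod_cast hx2'.le
    have hy2q : (y.2 : ℝ) ≤ 2 * V := by exact_mod_cast hy2'.le
    have hFd : F x - F y = 4 * (V : ℝ) ^ 2 / n *
        (((x.1 : ℝ) * y.2 - (y.1 : ℝ) * x.2) / ((x.2 : ℝ) * y.2)) := by
      simp only [hF]
      field_simp
    have hc0 : (0 : ℝ) < 4 * (V : ℝ) ^ 2 / n := by positivity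
    rw [hFd, abs_mul, abs_of_pos hc0, abs_div, abs_of_pos (mul_pos hx2p hy2p)]
    have h1 : (x.2 : ℝ) * y.2 ≤ 4 * (V : ℝ) ^ 2 := by
      calc (x.2 : ℝ) * y.2 ≤ (2 * V) * (2 * V) := mul_le_mul hx2q hy2q hy2p.le (by positivity)
        _ = 4 * (V : ℝ) ^ 2 := by ring
    rw [div_mul_div_comm, le_div_iff₀ (by positivity), one_mul]
    calc (n : ℝ) * ((x.2 : ℝ) * y.2) ≤ n * (4 * (V : ℝ) ^ 2) := by
          exact mul_le_mul_of_nonneg_left h1 hn'.le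
      _ = 4 * (V : ℝ) ^ 2 * n := by ring
      _ ≤ _ := mul_le_mul_of_nonneg_left hle' (by positivity)
  have hinj : Set.InjOn (fun x => ⌊F x⌋₊) (S : Set (ℕ × ℕ)) := by
    intro x hx y hy hxy
    by_contra hne
    have h1 := hsep x hx y hy hne
    have h2 : ⌊F x⌋₊ = ⌊F y⌋₊ := hxy
    have h3 := Nat.floor_le (hFpos x hx)
    have h4 := Nat.lt_floor_add_one (F x)
    have h5 := Nat.floor_le (hFpos y hy)
    have h6 := Nat.lt_floor_add_one (F y)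
    rw [h2] at h3 h4
    have : |F x - F y| < 1 := by
      rw [abs_lt]
      constructor <;> linarith
    linarith
  have hmaps : Set.MapsTo (fun x => ⌊F x⌋₊) (S : Set (ℕ × ℕ))
      (Finset.range (⌊4 * (C : ℝ) * V / n⌋₊ + 1) : Set ℕ) := by
    intro x hx
    have hx' : x ∈ S := hx
    obtain ⟨⟨hx1, hx1'⟩, ⟨hx2, hx2'⟩, hx3⟩ := hmem x hx'
    rw [Finset.mem_coe, Finset.mem_range, Nat.lt_add_one_iff]
    apply Nat.floor_le_floor
    have hx2q : (V : ℝ) ≤ x.2 := by exact_mod_cast hx2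
    have hx1q : (x.1 : ℝ) ≤ C := by exact_mod_cast hx1'
    have hx2p : (0 : ℝ) < x.2 := lt_of_lt_of_le hV' hx2q
    have h1 : (x.1 : ℝ) / x.2 ≤ (C : ℝ) / V := by
      apply div_le_div₀ (Nat.cast_nonneg C) hx1q hV' hx2q
    calc F x = 4 * (V : ℝ) ^ 2 / n * ((x.1 : ℝ) / x.2) := rfl
      _ ≤ 4 * (V : ℝ) ^ 2 / n * ((C : ℝ) / V) := mul_le_mul_of_nonneg_left h1 (by positivity)
      _ = 4 * (C : ℝ) * V / n := by field_simp
  have hcard := Finset.card_le_card_of_injOn (fun x => ⌊F x⌋₊) hmaps hinj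
  rw [Finset.card_range] at hcard
  have h1 : (S.card : ℝ) ≤ (⌊4 * (C : ℝ) * V / n⌋₊ : ℝ) + 1 := by exact_mod_cast hcard
  have h2 := Nat.floor_le (show (0 : ℝ) ≤ 4 * (C : ℝ) * V / n by positivity)
  linarith

end Pool.Agent.FTB
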