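import Pool.Agent.FTB.Rtc
import Pool.Agent.FTB.Spc

/-!
# FTB/ClN: the number of pairs `(c, v)` for a primitive quadruple `b` and given `n`

PROOF of `cln`.  If `Ac C V n b` is empty this is clear; otherwise `n` is coprime to 10.  Every
prime `p ∣ n` does not divide `10 c v` for `(c, v) ∈ Ac`.  Map `x = (c, v) ∈ Ac` to the function
`p ↦ c / v ∈ ZMod p` for `p ∈ n.primeFactors`; its values lie in `rootsP p b` (`rtc2`; `DvF n`
implies `DvF p`).  So the image lies in a product (`Finset.pi`, over `n.primeFactors.attach` or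
over the subtype `Fintype.piFinset`) of `card n.primeFactors` sets, each of at most 3 elements
(`rtc`), so the image has at most `3 ^ card n.primeFactors` elements.  On a fibre, any two
elements satisfy `hp` of `rtb` (by `rtc3`), so `n ∣ x.1 y.2 - y.1 x.2` by `rtb`, and `spc` bounds the
number of elements of the fibre.
(An alternative that avoids dependent types: code the class as the function
`p ↦ (c / v : ZMod p).val` on ℕ (`0` outside `n.primeFactors`), values in
`(rootsP p b).image ZMod.val`, and `Finset.pi`.)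
-/

set_option autoImplicit false

namespace Pool.Agent.FTB

theorem cln (n C V : ℕ) (hn : 1 ≤ n) (hV : 1 ≤ V) (b : ℤ × ℤ × ℤ × ℤ) (hb : gB b = 1) :
    ((Ac C V n b).card : ℝ) ≤ 3 ^ n.primeFactors.card * (1 + 4 * (C : ℝ) * V / n) := by
  classical
  have hpos : (0 : ℝ) ≤ 1 + 4 * (C : ℝ) * V / n := by positivity
  rcases Finset.eq_empty_or_nonempty (Ac C V n b) with he | ⟨x0, hx0⟩
  · rw [he, Finset.card_empty, Nat.cast_zero]
    positivity
  have hn10 : Nat.Coprime n 10 := by
    have h := ((mem_Ac C V n b x0).1 hx0).2.1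
    exact Nat.Coprime.coprime_dvd_right ⟨x0.1 * x0.2, by ring⟩ h
  have hF : ∀ p : {p // p ∈ n.primeFactors}, Fact (p.1).Prime :=
    fun p => ⟨Nat.prime_of_mem_primeFactors p.2⟩
  have hpn : ∀ p : {p // p ∈ n.primeFactors}, p.1 ∣ n := fun p => Nat.dvd_of_mem_primeFactors p.2
  let φ : ℕ × ℕ → (∀ p : {p // p ∈ n.primeFactors}, ZMod p.1) :=
    fun x p => (x.1 : ZMod p.1) * ((x.2 : ZMod p.1))⁻¹
  have hv : ∀ x ∈ Ac C V n b, ∀ p : {p // p ∈ n.primeFactors}, ¬ p.1 ∣ x.2 := by
    intro x hx p hd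
    have h := ((mem_Ac C V n b x).1 hx).2.1
    have h1 : p.1 ∣ Nat.gcd n (10 * x.1 * x.2) := Nat.dvd_gcd (hpn p) (hd.mul_left _)
    rw [Nat.Coprime] at h
    rw [h] at h1
    exact (hF p).out.one_lt.ne' (Nat.dvd_one.1 h1)
  have hmaps : ∀ x ∈ Ac C V n b, φ x ∈ Fintype.piFinset
      (fun p : {p // p ∈ n.primeFactors} => rootsP p.1 b) := by
    intro x hx
    rw [Fintype.mem_piFinset]
    intro p
    have h := ((mem_Ac C V n b x).1 hx).2.2
    apply rtc2 p.1 b x.1 x.2 (hv x hx p)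
    have hd : ((p.1 : ℕ) : ℤ) ∣ (n : ℤ) := Int.natCast_dvd_natCast.2 (hpn p)
    exact ⟨hd.trans h.1, hd.trans h.2⟩
  have himg : ((Ac C V n b).image φ).card ≤ 3 ^ n.primeFactors.card := by
    have h1 : (Ac C V n b).image φ ⊆ Fintype.piFinset
        (fun p : {p // p ∈ n.primeFactors} => rootsP p.1 b) := by
      intro y hy
      obtain ⟨x, hx, rfl⟩ := Finset.mem_image.1 hy
      exact hmaps x hx
    refine (Finset.card_le_card h1).trans ?_
    rw [Fintype.card_piFinset]
    calc ∏ p : {p // p ∈ n.primeFactors}, (rootsP p.1 b).card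
        ≤ ∏ _p : {p // p ∈ n.primeFactors}, 3 := by
          apply Finset.prod_le_prod'
          intro p _
          exact rtc p.1 b hb (Nat.Coprime.coprime_dvd_left (hpn p) hn10)
      _ = 3 ^ n.primeFactors.card := by
          rw [Finset.prod_const, Finset.card_univ, Fintype.card_coe]
  have hfib : ∀ a ∈ (Ac C V n b).image φ, ((Ac C V n b).filter (fun x => φ x = a)).card ≤
      ⌊1 + 4 * (C : ℝ) * V / n⌋₊ := by
    intro a ha
    apply Nat.le_floor
    apply spc n C V hn hV
    · intro x hx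
      exact ((mem_Ac C V n b x).1 (Finset.mem_filter.1 hx).1).1
    · intro x hx y hy
      obtain ⟨hx1, hx2⟩ := Finset.mem_filter.1 hx
      obtain ⟨hy1, hy2⟩ := Finset.mem_filter.1 hy
      have hx3 := (mem_Ac C V n b x).1 hx1
      have hy3 := (mem_Ac C V n b y).1 hy1
      apply rtb n b hb hn x y hx3.2.1 hy3.2.1 hx3.2.2 hy3.2.2
      intro p hp
      have he : φ x = φ y := hx2.trans hy2.symm
      have hep := congrFun he ⟨p, hp⟩
      have : Fact p.Prime := ⟨Nat.prime_of_mem_primeFactors hp⟩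
      exact rtc3 p x.1 x.2 y.1 y.2 (hv x hx1 ⟨p, hp⟩) (hv y hy1 ⟨p, hp⟩) hep
  have hmain := Finset.card_le_mul_card_image (f := φ) (Ac C V n b) _ hfib
  have hfl : ((⌊1 + 4 * (C : ℝ) * V / n⌋₊ : ℕ) : ℝ) ≤ 1 + 4 * (C : ℝ) * V / n :=
    Nat.floor_le hpos
  calc ((Ac C V n b).card : ℝ)
      ≤ ((⌊1 + 4 * (C : ℝ) * V / n⌋₊ * ((Ac C V n b).image φ).card : ℕ) : ℝ) := by
        exact_mod_cast hmain
    _ = (⌊1 + 4 * (C : ℝ) * V / n⌋₊ : ℝ) * (((Ac C V n b).image φ).card : ℝ) := by
        push_cast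
        ring
    _ ≤ (1 + 4 * (C : ℝ) * V / n) * (3 ^ n.primeFactors.card : ℝ) := by
        apply mul_le_mul hfl _ (by positivity) hpos
        exact_mod_cast himg
    _ = 3 ^ n.primeFactors.card * (1 + 4 * (C : ℝ) * V / n) := by ring

end Pool.Agent.FTB
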