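import Pool.Agent.FTB.CMn

/-!
# FTB/SqI: the solution of `t ^ 2 + D y ^ 2 = 4 N ^ 5` attached to a class

PROOF of `sqI`.  This is `cls` (Pool/Agent/FTA/Cls.lean, copy its proof) with `p = 5` and the
given ideal `IA A` instead of the one from `cmin`; `prm1` gives `hn` of `keyP`.
-/

set_option autoImplicit false

namespace Pool.Agent.FTB

open NumberField Pool.Agent.FTA nonZeroDivisors

private theorem sqI_data (K : IntermediateField ℚ ℂ) [NumberField K]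
    (h2 : Module.finrank ℚ K = 2) (him : ∃ x : K, (x : ℂ).im ≠ 0) (c : ClassGroup (𝓞 K))
    (I : (Ideal (𝓞 K))⁰) (hI : ClassGroup.mk0 I = c)
    (hN : (Ideal.absNorm (I : Ideal (𝓞 K))) ^ 2 ≤ aD K) (hM : MinI K I)
    (hc : c ^ 5 = 1) (hc1 : c ≠ 1) :
    ∃ x : 𝓞 K × ℤ × ℤ,
      (I : Ideal (𝓞 K)) ^ 5 = Ideal.span {x.1} ∧
      2 * ((x.1 : K) : ℂ) = (x.2.1 : ℂ) + (x.2.2 : ℂ) * ((√(aD K : ℝ) : ℝ) : ℂ) * Complex.I ∧
      SolP 5 (aD K) (Ideal.absNorm (I : Ideal (𝓞 K))) x.2.1 x.2.2 := by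
  have hp : Odd 5 := by decide
  have hn : ∀ n : ℕ, 2 ≤ n → ¬ ((I : Ideal (𝓞 K)) ≤ Ideal.span {(n : 𝓞 K)}) :=
    fun n hn => prm1 K h2 I hM n hn
  have h1 : ClassGroup.mk0 (I ^ 5) = 1 := by rw [map_pow, hI, hc]
  rw [ClassGroup.mk0_eq_one_iff] at h1
  obtain ⟨a, ha⟩ := h1.principal
  have ha' : (I : Ideal (𝓞 K)) ^ 5 = Ideal.span {a} := by
    rw [← Ideal.submodule_span_eq, ← ha]
    rfl
  have hne0 : Ideal.absNorm (I : Ideal (𝓞 K)) ≠ 0 := by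
    rw [Ne, Ideal.absNorm_eq_zero_iff]
    exact nonZeroDivisors.coe_ne_zero I
  have hne1 : Ideal.absNorm (I : Ideal (𝓞 K)) ≠ 1 := by
    rw [Ne, Ideal.absNorm_eq_one_iff]
    intro h
    apply hc1
    rw [← hI, ClassGroup.mk0_eq_one_iff, h]
    exact top_isPrincipal
  have hN2 : 2 ≤ Ideal.absNorm (I : Ideal (𝓞 K)) := by omega
  have main : ∀ (a : 𝓞 K) (t y : ℤ), (I : Ideal (𝓞 K)) ^ 5 = Ideal.span {a} →
      2 * ((a : K) : ℂ) = (t : ℂ) + (y : ℂ) * ((√(aD K : ℝ) : ℝ) : ℂ) * Complex.I → 0 < y →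
      SolP 5 (aD K) (Ideal.absNorm (I : Ideal (𝓞 K))) t y := by
    intro a t y ha h hy
    obtain ⟨k1, -, k3⟩ := keyP 5 hp K h2 him I hN2 hn a ha t y h
    exact ⟨hN2, hN, hy, k1, k3⟩
  obtain ⟨t, y, hty⟩ := coord K h2 him a
  obtain ⟨-, hy0, -⟩ := keyP 5 hp K h2 him I hN2 hn a ha' t y hty
  rcases lt_or_gt_of_ne hy0 with hy | hy
  · have ha2 : (I : Ideal (𝓞 K)) ^ 5 = Ideal.span {-a} := by rw [Ideal.span_singleton_neg, ha']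
    have hty2 : 2 * (((-a : 𝓞 K) : K) : ℂ) =
        ((-t : ℤ) : ℂ) + ((-y : ℤ) : ℂ) * ((√(aD K : ℝ) : ℝ) : ℂ) * Complex.I := by
      have e1 : (((-a : 𝓞 K) : K) : ℂ) = - ((a : K) : ℂ) := by simp
      rw [e1, mul_neg, hty]
      push_cast
      ring
    exact ⟨(-a, -t, -y), ha2, hty2, main _ _ _ ha2 hty2 (by
      show 0 < -y
      omega)⟩
  · exact ⟨(a, t, y), ha', hty, main _ _ _ ha' hty hy⟩

theorem sqI (K : IntermediateField ℚ ℂ) [NumberField K] (h2 : Module.finrank ℚ K = 2)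
    (him : ∃ x : K, (x : ℂ).im ≠ 0) (IA : ClassGroup (𝓞 K) → (Ideal (𝓞 K))⁰)
    (hIA : ∀ A, ClassGroup.mk0 (IA A) = A ∧
      (Ideal.absNorm (IA A : Ideal (𝓞 K))) ^ 2 ≤ aD K ∧ MinI K (IA A)) :
    ∃ f : ClassGroup (𝓞 K) → ℕ × ℤ × ℤ,
      (∀ A, A ^ 5 = 1 → A ≠ 1 → SolP 5 (aD K) (f A).1 (f A).2.1 (f A).2.2 ∧
        (f A).1 = Ideal.absNorm (IA A : Ideal (𝓞 K))) ∧
      Set.InjOn f {A | A ^ 5 = 1 ∧ A ≠ 1} := by
  classical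
  have h0 : ∀ c : ClassGroup (𝓞 K), (c ^ 5 = 1 ∧ c ≠ 1) → ∃ x : 𝓞 K × ℤ × ℤ,
      (IA c : Ideal (𝓞 K)) ^ 5 = Ideal.span {x.1} ∧
      2 * ((x.1 : K) : ℂ) = (x.2.1 : ℂ) + (x.2.2 : ℂ) * ((√(aD K : ℝ) : ℝ) : ℂ) * Complex.I ∧
      SolP 5 (aD K) (Ideal.absNorm (IA c : Ideal (𝓞 K))) x.2.1 x.2.2 :=
    fun c hc => sqI_data K h2 him c (IA c) (hIA c).1 (hIA c).2.1 (hIA c).2.2 hc.1 hc.2
  choose! G hG using h0
  refine ⟨fun c => (Ideal.absNorm (IA c : Ideal (𝓞 K)), (G c).2.1, (G c).2.2), ?_, ?_⟩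
  · intro c hc hc1
    exact ⟨(hG c ⟨hc, hc1⟩).2.2, rfl⟩
  · rintro c ⟨hc, hc1⟩ c' ⟨hc', hc1'⟩ h
    simp only [Prod.mk.injEq] at h
    obtain ⟨-, ht, hy⟩ := h
    obtain ⟨k2, k3, -⟩ := hG c ⟨hc, hc1⟩
    obtain ⟨l2, l3, -⟩ := hG c' ⟨hc', hc1'⟩
    rw [← ht, ← hy, ← k3] at l3
    have h4 : (((G c').1 : K) : ℂ) = (((G c).1 : K) : ℂ) := mul_left_cancel₀ two_ne_zero l3
    have h5 : (G c').1 = (G c).1 := by
      apply RingOfIntegers.ext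
      exact Subtype.ext h4
    rw [h5, ← k2] at l2
    have h6 := powEq (𝓞 K) _ _ 5 (by norm_num) l2
    rw [← (hIA c).1, ← (hIA c').1]
    congr 1
    exact Subtype.ext h6.symm

end Pool.Agent.FTB
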