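import Pool.Agent.FTB.DaI
import Pool.Agent.FTB.SqI

/-!
# FTB/Clt: the classes of one field

PROOF of `clt`.  Choose `IA` by `cmn` (`Classical.choice`).  Let `f1` be from `sqI` and `f2` from
`daI`.  Put `Sq = {A : A ^ 5 = 1, A ≠ 1, absNorm (IA A) is a square}`, `A1 = f1 '' Sq`,
`Gd = {A : A ^ 5 = 1, absNorm (IA A), absNorm (IA (A ^ 2)) are not squares}`, `A2 = f2 '' Gd` (the
class group is finite).  Every `A` with `A ^ 5 = 1` is `1`, or in `Sq`, or `A ^ 2 ∈ Sq`
(`(A ^ 2) ^ 5 = 1`, `A ^ 2 ≠ 1` as `A ^ 5 = 1`, `A ≠ 1`), or in `Gd`; `A ↦ A ^ 2` is injective on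
`{A ^ 5 = 1}` (`A = (A ^ 2) ^ 3`).  So the number of `A` is at most
`1 + card Sq + card Sq + card Gd`, `card A1 = card Sq`, `card A2 = card Gd`.
-/

set_option autoImplicit false

namespace Pool.Agent.FTB

open NumberField Pool.Agent.FTA nonZeroDivisors

theorem clt (K : IntermediateField ℚ ℂ) [NumberField K] (h2 : Module.finrank ℚ K = 2)
    (him : ∃ x : K, (x : ℂ).im ≠ 0) :
    ∃ (A1 : Finset (ℕ × ℤ × ℤ)) (A2 : Finset (ℕ × Pt)),
      (∀ a ∈ A1, SolP 5 (aD K) a.1 a.2.1 a.2.2 ∧ IsSquare a.1) ∧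
      (∀ a ∈ A2, Dat (aD K) a.1 a.2) ∧
      Nat.card {c : ClassGroup (𝓞 K) // c ^ 5 = 1} ≤ 1 + 2 * A1.card + A2.card := by
  classical
  choose IA hIA using cmn K h2
  obtain ⟨f1, hf1, hf1i⟩ := sqI K h2 him IA hIA
  obtain ⟨f2, hf2, hf2i⟩ := daI K h2 him IA hIA
  set T : Finset (ClassGroup (𝓞 K)) := Finset.univ.filter fun A => A ^ 5 = 1 with hT
  set Sq : Finset (ClassGroup (𝓞 K)) := Finset.univ.filter fun A =>
    (A ^ 5 = 1 ∧ A ≠ 1) ∧ IsSquare (Ideal.absNorm (IA A : Ideal (𝓞 K))) with hSq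
  set Gd : Finset (ClassGroup (𝓞 K)) := Finset.univ.filter fun A =>
    A ^ 5 = 1 ∧ ¬ IsSquare (Ideal.absNorm (IA A : Ideal (𝓞 K))) ∧
      ¬ IsSquare (Ideal.absNorm (IA (A ^ 2) : Ideal (𝓞 K))) with hGd
  have hc1 : (Sq.image f1).card = Sq.card := by
    apply Finset.card_image_of_injOn
    intro x hx y hy hxy
    rw [Finset.mem_coe, hSq, Finset.mem_filter] at hx hy
    exact hf1i hx.2.1 hy.2.1 hxy
  have hc2 : (Gd.image f2).card = Gd.card := by
    apply Finset.card_image_of_injOn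
    intro x hx y hy hxy
    rw [Finset.mem_coe, hGd, Finset.mem_filter] at hx hy
    exact hf2i hx.2 hy.2 hxy
  refine ⟨Sq.image f1, Gd.image f2, ?_, ?_, ?_⟩
  · intro a ha
    rw [Finset.mem_image] at ha
    obtain ⟨A, hA, rfl⟩ := ha
    rw [hSq, Finset.mem_filter] at hA
    obtain ⟨h1, h3⟩ := hf1 A hA.2.1.1 hA.2.1.2
    refine ⟨h1, ?_⟩
    rw [h3]
    exact hA.2.2
  · intro a ha
    rw [Finset.mem_image] at ha
    obtain ⟨A, hA, rfl⟩ := ha
    rw [hGd, Finset.mem_filter] at hA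
    exact hf2 A hA.2.1 hA.2.2.1 hA.2.2.2
  · have hcard : Nat.card {c : ClassGroup (𝓞 K) // c ^ 5 = 1} = T.card := by
      rw [Nat.card_eq_fintype_card, Fintype.card_subtype]
    rw [hcard, hc1, hc2]
    have hsub : T ⊆ (({1} ∪ Sq) ∪ (T.filter fun A => A ^ 2 ∈ Sq)) ∪ Gd := by
      intro A hA
      have hA5 : A ^ 5 = 1 := by
        rw [hT, Finset.mem_filter] at hA
        exact hA.2
      rw [Finset.mem_union, Finset.mem_union, Finset.mem_union, Finset.mem_singleton]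
      by_cases h1 : A = 1
      · exact Or.inl (Or.inl (Or.inl h1))
      by_cases h3 : IsSquare (Ideal.absNorm (IA A : Ideal (𝓞 K)))
      · refine Or.inl (Or.inl (Or.inr ?_))
        rw [hSq, Finset.mem_filter]
        exact ⟨Finset.mem_univ _, ⟨hA5, h1⟩, h3⟩
      by_cases h4 : IsSquare (Ideal.absNorm (IA (A ^ 2) : Ideal (𝓞 K)))
      · refine Or.inl (Or.inr ?_)
        rw [Finset.mem_filter]
        refine ⟨hA, ?_⟩
        rw [hSq, Finset.mem_filter]
        refine ⟨Finset.mem_univ _, ⟨?_, ?_⟩, h4⟩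
        · rw [← pow_mul, mul_comm, pow_mul, hA5, one_pow]
        · intro h5
          apply h1
          calc A = A ^ 5 * (A ^ 2)⁻¹ * (A ^ 2)⁻¹ := by group
            _ = 1 := by rw [hA5, h5]; group
      · refine Or.inr ?_
        rw [hGd, Finset.mem_filter]
        exact ⟨Finset.mem_univ _, hA5, h3, h4⟩
    have hSq' : (T.filter fun A => A ^ 2 ∈ Sq).card ≤ Sq.card := by
      apply Finset.card_le_card_of_injOn (fun A => A ^ 2)
      · intro A hA
        rw [Finset.mem_coe, Finset.mem_filter] at hA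
        exact hA.2
      · intro A hA B hB hAB
        rw [Finset.mem_coe, Finset.mem_filter, hT, Finset.mem_filter] at hA hB
        have hA5 := hA.1.2
        have hB5 := hB.1.2
        have hAB' : A ^ 2 = B ^ 2 := hAB
        calc A = (A ^ 2) ^ 3 * (A ^ 5)⁻¹ := by group
          _ = (B ^ 2) ^ 3 * (B ^ 5)⁻¹ := by rw [hA5, hB5, hAB']
          _ = B := by group
    calc T.card ≤ ((({1} ∪ Sq) ∪ (T.filter fun A => A ^ 2 ∈ Sq)) ∪ Gd).card :=
          Finset.card_le_card hsub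
      _ ≤ ((({1} ∪ Sq) ∪ (T.filter fun A => A ^ 2 ∈ Sq))).card + Gd.card :=
          Finset.card_union_le _ _
      _ ≤ ((({1} ∪ Sq)).card + (T.filter fun A => A ^ 2 ∈ Sq).card) + Gd.card :=
          Nat.add_le_add_right (Finset.card_union_le _ _) _
      _ ≤ ((({1} : Finset (ClassGroup (𝓞 K))).card + Sq.card) +
            (T.filter fun A => A ^ 2 ∈ Sq).card) + Gd.card :=
          Nat.add_le_add_right (Nat.add_le_add_right (Finset.card_union_le _ _) _) _
      _ ≤ 1 + 2 * Sq.card + Gd.card := by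
          rw [Finset.card_singleton]
          omega

end Pool.Agent.FTB
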