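import Pool.Agent.FTB.DefsI

/-!
# FTB/Cor: coordinates of integers

PROOFS.  Let `s = √D > 0` (`aD_pos`), so `s * s = D` (`Real.mul_self_sqrt`).
`co_exists` is `coord`.  `co_unique`: compare real and imaginary parts.  `co_inj`: `2 a = 2 b` in
`ℂ`, so `a = b` (`RingOfIntegers.ext`, `Subtype.ext`).  `co_mul`: multiply the two equations:
`4 a b = (t + y s i) (t' + y' s i) = (t t' - D y y') + (t y' + t' y) s i` and
`4 a b = 2 (T + Y s i)`; compare.  `co_nat`, `co_neg`: clear.  `co_norm`: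
`absNorm (span {a}) = ‖a‖ ^ 2` (`absNorm_span`), `4 ‖a‖ ^ 2 = t ^ 2 + D y ^ 2` (see `keyP_norm` in
Pool/Agent/FTA/KeyP.lean).  `co_conj`: `a' = Tr a - a` (`Algebra.trace ℤ (𝓞 K) a`, see the proof of
`coord` in Pool/Agent/FTA/Coord.lean: the trace is `t`), so `2 a' = 2 t - (t + y s i) = t - y s i`;
`a a'` has complex value `|a| ^ 2 = absNorm (span {a})`.
-/

set_option autoImplicit false

namespace Pool.Agent.FTB

open NumberField Pool.Agent.FTA nonZeroDivisors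

private theorem Cor_s (K : IntermediateField ℚ ℂ) [NumberField K] : 0 < √(aD K : ℝ) :=
  Real.sqrt_pos.2 (by exact_mod_cast aD_pos K)

private theorem Cor_ss (K : IntermediateField ℚ ℂ) [NumberField K] :
    √(aD K : ℝ) * √(aD K : ℝ) = (aD K : ℝ) := Real.mul_self_sqrt (Nat.cast_nonneg _)

private theorem Cor_cmp (K : IntermediateField ℚ ℂ) [NumberField K] (t y t' y' : ℝ)
    (h : (t : ℂ) + (y : ℂ) * ((√(aD K : ℝ) : ℝ) : ℂ) * Complex.I =
      (t' : ℂ) + (y' : ℂ) * ((√(aD K : ℝ) : ℝ) : ℂ) * Complex.I) : t = t' ∧ y = y' := by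
  have h1 := congrArg Complex.re h
  have h2 := congrArg Complex.im h
  simp at h1 h2
  refine ⟨h1, ?_⟩
  rcases h2 with h2 | h2
  · exact h2
  · exfalso
    have := aD_pos K
    omega

theorem co_exists (K : IntermediateField ℚ ℂ) [NumberField K] (h2 : Module.finrank ℚ K = 2)
    (him : ∃ x : K, (x : ℂ).im ≠ 0) (a : 𝓞 K) : ∃ t y : ℤ, Co K a t y :=
  coord K h2 him a

theorem co_unique (K : IntermediateField ℚ ℂ) [NumberField K] (a : 𝓞 K) (t y t' y' : ℤ)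
    (h : Co K a t y) (h' : Co K a t' y') : t = t' ∧ y = y' := by
  unfold Co at h h'
  rw [h] at h'
  obtain ⟨h1, h2⟩ := Cor_cmp K (t : ℝ) (y : ℝ) (t' : ℝ) (y' : ℝ) (by exact_mod_cast h')
  exact ⟨by exact_mod_cast h1, by exact_mod_cast h2⟩

theorem co_inj (K : IntermediateField ℚ ℂ) [NumberField K] (a b : 𝓞 K) (t y : ℤ)
    (h : Co K a t y) (h' : Co K b t y) : a = b := by
  unfold Co at h h'
  rw [← h'] at h
  exact RingOfIntegers.ext (Subtype.ext (mul_left_cancel₀ two_ne_zero h))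

theorem co_mul (K : IntermediateField ℚ ℂ) [NumberField K] (a b : 𝓞 K) (t y t' y' T Y : ℤ)
    (h : Co K a t y) (h' : Co K b t' y') (hab : Co K (a * b) T Y) :
    2 * T = t * t' - (aD K : ℤ) * y * y' ∧ 2 * Y = t * y' + t' * y := by
  unfold Co at h h' hab
  have hss : ((√(aD K : ℝ) : ℝ) : ℂ) * ((√(aD K : ℝ) : ℝ) : ℂ) = (aD K : ℂ) := by
    rw [← Complex.ofReal_mul, Cor_ss K]
    simp
  have hm : (((a * b : 𝓞 K) : K) : ℂ) = ((a : K) : ℂ) * ((b : K) : ℂ) := by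
    push_cast
    rfl
  rw [hm] at hab
  have e : (((2 * T : ℝ)) : ℂ) + ((2 * Y : ℝ) : ℂ) * ((√(aD K : ℝ) : ℝ) : ℂ) * Complex.I =
      ((t * t' - (aD K : ℝ) * y * y' : ℝ) : ℂ) +
        ((t * y' + t' * y : ℝ) : ℂ) * ((√(aD K : ℝ) : ℝ) : ℂ) * Complex.I := by
    push_cast
    have e1 : 2 * ((T : ℂ) + (Y : ℂ) * ((√(aD K : ℝ) : ℝ) : ℂ) * Complex.I) =
        ((t : ℂ) + (y : ℂ) * ((√(aD K : ℝ) : ℝ) : ℂ) * Complex.I) *
          ((t' : ℂ) + (y' : ℂ) * ((√(aD K : ℝ) : ℝ) : ℂ) * Complex.I) := by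
      rw [← h, ← h', ← hab]
      ring
    have hI := Complex.I_mul_I
    linear_combination e1 + (y : ℂ) * y' * Complex.I * Complex.I * hss +
      (y : ℂ) * y' * (aD K : ℂ) * hI
  obtain ⟨h1, h2⟩ := Cor_cmp K _ _ _ _ e
  exact ⟨by exact_mod_cast h1, by exact_mod_cast h2⟩

theorem co_nat (K : IntermediateField ℚ ℂ) [NumberField K] (a : 𝓞 K) (t y : ℤ) (n : ℕ)
    (h : Co K a t y) : Co K ((n : 𝓞 K) * a) (n * t) (n * y) := by
  unfold Co at h ⊢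
  have hm : ((((n : 𝓞 K) * a : 𝓞 K) : K) : ℂ) = (n : ℂ) * ((a : K) : ℂ) := by
    push_cast
    rfl
  rw [hm]
  push_cast
  linear_combination (n : ℂ) * h

theorem co_neg (K : IntermediateField ℚ ℂ) [NumberField K] (a : 𝓞 K) (t y : ℤ)
    (h : Co K a t y) : Co K (-a) (-t) (-y) := by
  unfold Co at h ⊢
  have hm : (((-a : 𝓞 K) : K) : ℂ) = -((a : K) : ℂ) := by
    push_cast
    rfl
  rw [hm]
  push_cast
  linear_combination -h

theorem co_norm (K : IntermediateField ℚ ℂ) [NumberField K] (h2 : Module.finrank ℚ K = 2)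
    (him : ∃ x : K, (x : ℂ).im ≠ 0) (a : 𝓞 K) (t y : ℤ) (h : Co K a t y) :
    4 * (Ideal.absNorm (Ideal.span {a}) : ℤ) = t ^ 2 + (aD K : ℤ) * y ^ 2 := by
  unfold Co at h
  have h1 : 4 * ‖((a : K) : ℂ)‖ ^ 2 = (t : ℝ) ^ 2 + (aD K : ℝ) * (y : ℝ) ^ 2 := by
    have h3 : Complex.normSq (2 * ((a : K) : ℂ)) = 4 * ‖((a : K) : ℂ)‖ ^ 2 := by
      rw [Complex.normSq_mul, Complex.normSq_eq_norm_sq ((a : K) : ℂ)]
      norm_num
    rw [← h3, h, Complex.normSq_apply]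
    have hre : ((t : ℂ) + (y : ℂ) * ((√(aD K : ℝ) : ℝ) : ℂ) * Complex.I).re = t := by simp
    have him' : ((t : ℂ) + (y : ℂ) * ((√(aD K : ℝ) : ℝ) : ℂ) * Complex.I).im =
        y * √(aD K : ℝ) := by simp
    rw [hre, him']
    have h4 := Cor_ss K
    calc (t : ℝ) * t + (y : ℝ) * √(aD K : ℝ) * (y * √(aD K : ℝ)) =
        (t : ℝ) ^ 2 + (√(aD K : ℝ) * √(aD K : ℝ)) * (y : ℝ) ^ 2 := by ring
      _ = _ := by rw [h4]
  rw [← absNorm_span K h2 him a] at h1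
  exact_mod_cast h1

theorem co_conj (K : IntermediateField ℚ ℂ) [NumberField K] (h2 : Module.finrank ℚ K = 2)
    (him : ∃ x : K, (x : ℂ).im ≠ 0) (a : 𝓞 K) (t y : ℤ) (h : Co K a t y) :
    ∃ a' : 𝓞 K, Co K a' t (-y) ∧ a * a' = ((Ideal.absNorm (Ideal.span {a}) : ℕ) : 𝓞 K) := by
  have htr : ((Algebra.trace ℤ (𝓞 K) a : ℤ) : ℂ) =
      ((a : K) : ℂ) + (starRingEnd ℂ) ((a : K) : ℂ) := by
    rw [← trace_eq K h2 him, ← Algebra.coe_trace_int]
    simp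
  have hm : (((((Algebra.trace ℤ (𝓞 K) a : ℤ) : 𝓞 K) - a : 𝓞 K) : K) : ℂ) =
      (starRingEnd ℂ) ((a : K) : ℂ) := by
    have e : (((((Algebra.trace ℤ (𝓞 K) a : ℤ) : 𝓞 K) - a : 𝓞 K) : K) : ℂ) =
        ((Algebra.trace ℤ (𝓞 K) a : ℤ) : ℂ) - ((a : K) : ℂ) := by
      push_cast
      rfl
    rw [e, htr]
    ring
  refine ⟨((Algebra.trace ℤ (𝓞 K) a : ℤ) : 𝓞 K) - a, ?_, ?_⟩
  · unfold Co at h ⊢
    rw [hm]
    have h1 := congrArg (starRingEnd ℂ) h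
    simp only [map_mul, map_add, Complex.conj_ofReal, Complex.conj_I] at h1
    have e1 : (starRingEnd ℂ) (t : ℂ) = (t : ℂ) := by simp
    have e2 : (starRingEnd ℂ) (y : ℂ) = (y : ℂ) := by simp
    have e3 : (starRingEnd ℂ) (2 : ℂ) = 2 := map_ofNat _ 2
    rw [e1, e2, e3] at h1
    rw [h1]
    push_cast
    ring
  · apply RingOfIntegers.ext
    apply Subtype.ext
    have e : (((a * (((Algebra.trace ℤ (𝓞 K) a : ℤ) : 𝓞 K) - a) : 𝓞 K) : K) : ℂ) =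
        ((a : K) : ℂ) * (starRingEnd ℂ) ((a : K) : ℂ) := by
      rw [← hm]
      push_cast
      rfl
    have e2 : ((((Ideal.absNorm (Ideal.span {a}) : ℕ) : 𝓞 K) : K) : ℂ) =
        ((Ideal.absNorm (Ideal.span {a}) : ℝ) : ℂ) := by
      push_cast
      rfl
    rw [e, e2, absNorm_span K h2 him a, Complex.mul_conj, Complex.normSq_eq_norm_sq]

end Pool.Agent.FTB
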