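import Pool.Agent.FTA.Fam
import Pool.Agent.FTB.Defs

/-! # FTB/DefsI: definitions for the part on ideals -/

set_option autoImplicit false

namespace Pool.Agent.FTB

open NumberField Pool.Agent.FTA nonZeroDivisors

/-- the coordinates `(t, y)` of an integer `a` of `K`: `2 a = t + y √D i` -/
def Co (K : IntermediateField ℚ ℂ) [NumberField K] (a : 𝓞 K) (t y : ℤ) : Prop :=
  2 * ((a : K) : ℂ) = (t : ℂ) + (y : ℂ) * ((√(aD K : ℝ) : ℝ) : ℂ) * Complex.I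

/-- `I` has minimal norm in its class -/
def MinI (K : IntermediateField ℚ ℂ) [NumberField K] (I : (Ideal (𝓞 K))⁰) : Prop :=
  ∀ J : (Ideal (𝓞 K))⁰, ClassGroup.mk0 J = ClassGroup.mk0 I →
    Ideal.absNorm (I : Ideal (𝓞 K)) ≤ Ideal.absNorm (J : Ideal (𝓞 K))

/-- the data attached to a class -/
def Dat (D G : ℕ) (q : Pt) : Prop :=
  IsTq q ∧ 1 ≤ G ∧ q.1 ^ 2 ≤ D ∧ q.2.1 ^ 2 ≤ D ∧
    ∃ b : ℤ, b * q.2.2.2.1 = q.2.1 * q.2.2.2.2.1 + q.1 * q.2.2.2.2.2.1 ∧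
      b ^ 2 + (D : ℤ) * ((G : ℤ) * q.2.2.1) ^ 2 = 4 * (q.1 : ℤ) ^ 2 * q.2.1

end Pool.Agent.FTB
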