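import Pool.Agent.FTA.Fib
import Pool.Agent.FTB.Box

/-!
# FTB/Dya: the dyadic sum

PROOF of `dya`.  Map `q = (N, k, c, v, ..) ∈ S` to `(Nat.log 2 N, Nat.log 2 k, Nat.log 2 v)`.  With
`l = Nat.log 2 X + 2`: `N ≤ N ^ 2 ≤ X`, `k ≤ X`, `v ^ 2 ≤ 4 N ≤ 4 X`, so `v ≤ 2 X`; so the values lie in
`range l ×ˢ range l ×ˢ range l`.  Over `(i, j, r)` the elements satisfy `InB (2 ^ i) (2 ^ j) (2 ^ r)`
(`Nat.pow_log_le_self`, `Nat.lt_pow_succ_log_self`) and `(2 ^ i) ^ 2 ≤ N ^ 2 ≤ X`,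
`(2 ^ j) ^ 2 ≤ k ^ 2 ≤ X` (if the fibre is not empty), so `box` bounds the fibre
(`Pool.Agent.FTA.fib_const` for the sum).  `l = Nat.log 2 X + 2 ≤ 2 log X + 2 ≤ 2 L` (real log;
`Nat.log 2 X ≤ Real.log X / Real.log 2`, `Real.log 2 ≥ 1 / 2`).  Total
`≤ (2 L) ^ 3 * 10 ^ 20 Q T ^ 2 L ^ 2 X`.
PROOF of `sym`.  Split `S` into the `q` with `c ^ 2 k ≤ v ^ 2 N` and the others; to the others apply
the injective map `(N, k, c, v, u, e, w, z) ↦ (k, N, v, c, e, -u, -z, -w)`, which preserves `IsTq`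
(check each condition; the two real inequalities are exchanged), and apply `dya` to both.
-/

set_option autoImplicit false

namespace Pool.Agent.FTB

private theorem dya_log_le {X : ℕ} (hX : 1 ≤ X) {L : ℝ} (hL : 6 + Real.log X ≤ L) :
    ((Nat.log 2 X + 2 : ℕ) : ℝ) ≤ 2 * L := by
  have h0 : X ≠ 0 := by omega
  have h1 : ((2 : ℝ)) ^ (Nat.log 2 X) ≤ X := by exact_mod_cast Nat.pow_log_le_self 2 h0
  have h2 : (Nat.log 2 X : ℝ) * Real.log 2 ≤ Real.log X := by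
    rw [← Real.log_pow]
    exact Real.log_le_log (by positivity) h1
  have h3 : (1 : ℝ) / 2 ≤ Real.log 2 := by
    have := Real.log_two_gt_d9
    linarith
  have h4 : (Nat.log 2 X : ℝ) * (1 / 2) ≤ (Nat.log 2 X : ℝ) * Real.log 2 :=
    mul_le_mul_of_nonneg_left h3 (Nat.cast_nonneg _)
  have h5 : 0 ≤ Real.log X := Real.log_natCast_nonneg X
  push_cast
  linarith

private theorem dya_mem {n Y l : ℕ} (h : n ≤ Y) (hl : Nat.log 2 Y < l) :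
    Nat.log 2 n ∈ Finset.range l :=
  Finset.mem_range.2 (lt_of_le_of_lt (Nat.log_mono_right h) hl)

private theorem dya_dy {n : ℕ} (h : 1 ≤ n) :
    2 ^ Nat.log 2 n ≤ n ∧ n < 2 * 2 ^ Nat.log 2 n := by
  refine ⟨Nat.pow_log_le_self 2 (by omega), ?_⟩
  have := Nat.lt_pow_succ_log_self (b := 2) (by norm_num) n
  rwa [Nat.pow_succ, mul_comm] at this

theorem dya (X Z : ℕ) (T Q L : ℝ) (hX : 1 ≤ X) (hT : TauB Z T) (hQ : UniB Z Q)
    (hZ : (2 * 10 ^ 7 * X) ^ 8 ≤ Z) (hL : 6 + Real.log X ≤ L) (S : Finset Pt)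
    (hS : ∀ q ∈ S, IsTq q ∧ q.1 ^ 2 ≤ X ∧ q.2.1 ^ 2 ≤ X ∧
      q.2.2.1 ^ 2 * q.2.1 ≤ q.2.2.2.1 ^ 2 * q.1) :
    (S.card : ℝ) ≤ 8 * 10 ^ 20 * Q * T ^ 2 * L ^ 5 * X := by
  classical
  have hXR : (1 : ℝ) ≤ X := by exact_mod_cast hX
  have hlog : 0 ≤ Real.log X := Real.log_nonneg hXR
  have hL0 : 0 ≤ L := by linarith
  have hT1 := hT.1
  have hQ1 := hQ.1
  have hb0 : 0 ≤ 10 ^ 20 * Q * T ^ 2 * L ^ 2 * X := by positivity
  set l : ℕ := Nat.log 2 X + 2 with hl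
  let f : Pt → ℕ × ℕ × ℕ := fun q => (Nat.log 2 q.1, Nat.log 2 q.2.1, Nat.log 2 q.2.2.2.1)
  have hmaps : ∀ q ∈ S, f q ∈ Finset.range l ×ˢ (Finset.range l ×ˢ Finset.range l) := by
    intro q hq
    obtain ⟨hq1, hq2, hq3, -⟩ := hS q hq
    unfold IsTq IsT at hq1
    obtain ⟨hN, hk, hc, hv, -, -, -, -, -, -, hv2, -, -, -⟩ := hq1
    have hN1 : q.1 ≤ X := (Nat.le_self_pow (by norm_num) _).trans hq2
    have hk1 : q.2.1 ≤ X := (Nat.le_self_pow (by norm_num) _).trans hq3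
    have hv1 : q.2.2.2.1 ≤ X * 2 := by
      by_contra hcon
      push Not at hcon
      have h1 : (X * 2) * (X * 2) < q.2.2.2.1 * q.2.2.2.1 := Nat.mul_self_lt_mul_self hcon
      nlinarith
    have hl1 : Nat.log 2 X < l := by omega
    have hl2 : Nat.log 2 (X * 2) < l := by
      rw [Nat.log_mul_base (by norm_num) (by omega)]
      omega
    rw [Finset.mem_product, Finset.mem_product]
    exact ⟨dya_mem hN1 hl1, dya_mem hk1 hl1, dya_mem hv1 hl2⟩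
  have hfib : ∀ y ∈ Finset.range l ×ˢ (Finset.range l ×ˢ Finset.range l),
      ((S.filter (fun q => f q = y)).card : ℝ) ≤ 10 ^ 20 * Q * T ^ 2 * L ^ 2 * X := by
    intro y _
    rcases (S.filter (fun q => f q = y)).eq_empty_or_nonempty with h0 | ⟨q0, hq0⟩
    · rw [h0, Finset.card_empty, Nat.cast_zero]
      exact hb0
    have hB : ∀ q ∈ S.filter (fun q => f q = y), InB (2 ^ y.1) (2 ^ y.2.1) (2 ^ y.2.2) q := by
      intro q hq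
      rw [Finset.mem_filter] at hq
      obtain ⟨hqS, hfy⟩ := hq
      obtain ⟨hq1, hq2, hq3, hq4⟩ := hS q hqS
      have hq1' := hq1
      unfold IsTq IsT at hq1'
      obtain ⟨hN, hk, hc, hv, -⟩ := hq1'
      subst hfy
      exact ⟨hq1, dya_dy hN, dya_dy hk, dya_dy hv, hq4⟩
    have hq0' := hB q0 hq0
    rw [Finset.mem_filter] at hq0
    obtain ⟨-, hq2, hq3, -⟩ := hS q0 hq0.1
    exact box (2 ^ y.1) (2 ^ y.2.1) (2 ^ y.2.2) X Z T Q L Nat.one_le_two_pow Nat.one_le_two_pow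
      Nat.one_le_two_pow ((Nat.pow_le_pow_left hq0'.2.1.1 2).trans hq2)
      ((Nat.pow_le_pow_left hq0'.2.2.1.1 2).trans hq3) hT hQ hZ hL _ hB
  have h := Pool.Agent.FTA.fib_const S f _ hmaps _ hfib
  refine h.trans ?_
  rw [Finset.card_product, Finset.card_product, Finset.card_range]
  have hlL : ((l : ℕ) : ℝ) ≤ 2 * L := dya_log_le hX hL
  have hl0 : (0 : ℝ) ≤ (l : ℝ) := Nat.cast_nonneg _
  have h3 : (l : ℝ) ^ 3 ≤ (2 * L) ^ 3 := pow_le_pow_left₀ hl0 hlL 3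
  calc ((l * (l * l) : ℕ) : ℝ) * (10 ^ 20 * Q * T ^ 2 * L ^ 2 * X)
      = (l : ℝ) ^ 3 * (10 ^ 20 * Q * T ^ 2 * L ^ 2 * X) := by push_cast; ring
    _ ≤ (2 * L) ^ 3 * (10 ^ 20 * Q * T ^ 2 * L ^ 2 * X) := mul_le_mul_of_nonneg_right h3 hb0
    _ = 8 * 10 ^ 20 * Q * T ^ 2 * L ^ 5 * X := by ring

theorem sym (X Z : ℕ) (T Q L : ℝ) (hX : 1 ≤ X) (hT : TauB Z T) (hQ : UniB Z Q)
    (hZ : (2 * 10 ^ 7 * X) ^ 8 ≤ Z) (hL : 6 + Real.log X ≤ L) (S : Finset Pt)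
    (hS : ∀ q ∈ S, IsTq q ∧ q.1 ^ 2 ≤ X ∧ q.2.1 ^ 2 ≤ X) :
    (S.card : ℝ) ≤ 16 * 10 ^ 20 * Q * T ^ 2 * L ^ 5 * X := by
  classical
  let φ : Pt → Pt := fun q => (q.2.1, q.1, q.2.2.2.1, q.2.2.1, q.2.2.2.2.2.1, -q.2.2.2.2.1,
    -q.2.2.2.2.2.2.2, -q.2.2.2.2.2.2.1)
  have hφ : Function.Injective φ := by
    rintro ⟨a1, a2, a3, a4, a5, a6, a7, a8⟩ ⟨b1, b2, b3, b4, b5, b6, b7, b8⟩ hab
    simp only [φ, Prod.mk.injEq, neg_inj] at hab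
    obtain ⟨h1, h2, h3, h4, h5, h6, h7, h8⟩ := hab
    simp only [Prod.mk.injEq]
    exact ⟨h2, h1, h4, h3, h6, h5, h8, h7⟩
  have hIs : ∀ q : Pt, IsTq q → IsTq (φ q) := by
    rintro ⟨N, k, c, v, u, e, w, z⟩ hq
    simp only [IsTq, IsT, φ] at hq ⊢
    obtain ⟨hN, hk, hc, hv, hcv, h1, h2, h3, h4, h5, h6, h7, h8, h9⟩ := hq
    refine ⟨hk, hN, hv, hc, hcv.symm, by linarith, by linarith, by linarith, ?_, ?_, h8, h9, h6, h7⟩
    · linarith [mul_comm (√(k : ℝ)) (√(N : ℝ)), h5,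
        mul_assoc (v : ℝ) (√(N : ℝ)) (√(k : ℝ)), mul_assoc (v : ℝ) (√(k : ℝ)) (√(N : ℝ)),
        congrArg (fun t => (v : ℝ) * t) (mul_comm (√(k : ℝ)) (√(N : ℝ)))]
    · push_cast
      rw [abs_neg]
      have h10 : (c : ℝ) * √(k : ℝ) * √(N : ℝ) = c * √(N : ℝ) * √(k : ℝ) := by ring
      linarith
  set S1 := S.filter (fun q => q.2.2.1 ^ 2 * q.2.1 ≤ q.2.2.2.1 ^ 2 * q.1) with hS1
  set S2 := S.filter (fun q => ¬ (q.2.2.1 ^ 2 * q.2.1 ≤ q.2.2.2.1 ^ 2 * q.1)) with hS2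
  have hcard : S.card = S1.card + S2.card :=
    (Finset.card_filter_add_card_filter_not _).symm
  have h1 : (S1.card : ℝ) ≤ 8 * 10 ^ 20 * Q * T ^ 2 * L ^ 5 * X := by
    refine dya X Z T Q L hX hT hQ hZ hL S1 fun q hq => ?_
    rw [hS1, Finset.mem_filter] at hq
    obtain ⟨ha, hb, hc⟩ := hS q hq.1
    exact ⟨ha, hb, hc, hq.2⟩
  have h2 : ((S2.image φ).card : ℝ) ≤ 8 * 10 ^ 20 * Q * T ^ 2 * L ^ 5 * X := by
    refine dya X Z T Q L hX hT hQ hZ hL (S2.image φ) fun q' hq' => ?_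
    obtain ⟨q, hq, rfl⟩ := Finset.mem_image.1 hq'
    rw [hS2, Finset.mem_filter] at hq
    obtain ⟨ha, hb, hc⟩ := hS q hq.1
    exact ⟨hIs q ha, hc, hb, (not_le.1 hq.2).le⟩
  rw [Finset.card_image_of_injective _ hφ] at h2
  rw [hcard]
  push_cast
  linarith

end Pool.Agent.FTB
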