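import Pool.Agent.FTA.DivB
import Pool.Agent.FTB.Defs

/-!
# FTB/SUn: integers composed of given primes (Rankin's trick)

PROOF of `sun`.  Let `δ = ε` and `q0 = (1 - 2 ^ (-δ))⁻¹ ≥ 1`.  For a finite set `s` of primes let
`N_s(y)` be the number of `q ≤ y`, `q ≥ 1`, with `q.primeFactors ⊆ s`.  Claim
`N_s(y) ≤ y ^ δ * q0 ^ card s` for all real (or natural) `y ≥ 1`.  By Rankin:
`N_s(Z) ≤ ∑ (Z / q) ^ δ` over the `q ≤ Z` with `q.primeFactors ⊆ s`
`≤ Z ^ δ ∑ q ^ (-δ) ≤ Z ^ δ ∏ p ∈ s, (1 - p ^ (-δ))⁻¹` (Euler product over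
`Nat.factoredNumbers s`: `EulerProduct.summable_and_hasSum_factoredNumbers_prod_filter_prime_geometric`,
or induction on `s`: `N_{s ∪ {p}}(y) = ∑ a, N_s(y / p ^ a)
≤ q0 ^ card s * y ^ δ * ∑ a, (p ^ (-δ)) ^ a ≤ q0 ^ (card s + 1) * y ^ δ` since `p ≥ 2`).
Finally with `s = r.primeFactors`: choose `A` (natural number) with `q0 ≤ 2 ^ A`; then
`q0 ^ card s ≤ (2 ^ card s) ^ A ≤ (card r.divisors) ^ A` (`2 ^ ω(r) ≤ τ(r)`), and the divisor bound
(`divisor_bound` with exponent `ε / (A + 1)`) gives `(τ r) ^ A ≤ c ^ A * r ^ ε`.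
-/

set_option autoImplicit false

namespace Pool.Agent.FTB

private theorem sun_omega (r : ℕ) (hr : 1 ≤ r) : (2 : ℝ) ^ r.primeFactors.card ≤ (r.divisors.card : ℝ) := by
  have h : 2 ^ r.primeFactors.card ≤ r.divisors.card := by
    rw [Nat.card_divisors (by omega), ← Finset.prod_const]
    refine Finset.prod_le_prod' fun p hp => ?_
    have h1 : r.factorization p ≠ 0 := by
      rw [← Finsupp.mem_support_iff, Nat.support_factorization]
      exact hp
    omega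
  exact_mod_cast h

private noncomputable def sunf (ε : ℝ) : ℕ →* ℝ where
  toFun n := (n : ℝ) ^ (-ε)
  map_one' := by simp
  map_mul' m n := by
    rw [Nat.cast_mul, Real.mul_rpow (by positivity) (by positivity)]

private theorem sunf_apply (ε : ℝ) (n : ℕ) : sunf ε n = (n : ℝ) ^ (-ε) := rfl

private theorem sun_sum (ε : ℝ) (hε : 0 < ε) (Z r : ℕ) :
    ∑ q ∈ (Finset.Icc 1 Z).filter (fun q => q.primeFactors ⊆ r.primeFactors), (q : ℝ) ^ (-ε) ≤
      ((1 - (2 : ℝ) ^ (-ε))⁻¹) ^ r.primeFactors.card := by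
  classical
  have h2 : (2 : ℝ) ^ (-ε) < 1 := Real.rpow_lt_one_of_one_lt_of_neg (by norm_num) (by linarith)
  have h20 : 0 < (2 : ℝ) ^ (-ε) := by positivity
  have hle : ∀ p : ℕ, p.Prime → (p : ℝ) ^ (-ε) ≤ (2 : ℝ) ^ (-ε) := by
    intro p hp
    exact Real.rpow_le_rpow_of_nonpos (by norm_num) (by exact_mod_cast hp.two_le) (by linarith)
  have hf : ∀ {p : ℕ}, p.Prime → ‖sunf ε p‖ < 1 := by
    intro p hp
    rw [sunf_apply, Real.norm_of_nonneg (by positivity)]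
    exact lt_of_le_of_lt (hle p hp) h2
  have hs := (EulerProduct.summable_and_hasSum_factoredNumbers_prod_filter_prime_geometric
    hf r.primeFactors).2
  have hmem : ∀ q ∈ (Finset.Icc 1 Z).filter (fun q => q.primeFactors ⊆ r.primeFactors),
      q ∈ Nat.factoredNumbers r.primeFactors := by
    intro q hq
    rw [Finset.mem_filter, Finset.mem_Icc] at hq
    exact Nat.mem_factoredNumbers_iff_primeFactors_subset.2 ⟨by omega, hq.2⟩
  have h3 := sum_le_hasSum (((Finset.Icc 1 Z).filter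
    (fun q => q.primeFactors ⊆ r.primeFactors)).subtype (fun q => q ∈ Nat.factoredNumbers r.primeFactors))
    (fun i _ => by
      rw [sunf_apply]
      positivity) hs
  rw [Finset.sum_subtype_of_mem (fun q => sunf ε q) hmem] at h3
  refine h3.trans ?_
  have hq0 : 1 ≤ (1 - (2 : ℝ) ^ (-ε))⁻¹ := by
    rw [one_le_inv₀ (by linarith)]
    linarith
  calc ∏ p ∈ r.primeFactors with p.Prime, (1 - sunf ε p)⁻¹
      ≤ ∏ p ∈ r.primeFactors with p.Prime, (1 - (2 : ℝ) ^ (-ε))⁻¹ := by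
        refine Finset.prod_le_prod (fun p hp => ?_) (fun p hp => ?_)
        · have h4 := hle p (Finset.mem_filter.1 hp).2
          rw [sunf_apply]
          exact inv_nonneg.2 (by linarith)
        · have h4 := hle p (Finset.mem_filter.1 hp).2
          rw [sunf_apply]
          exact inv_anti₀ (by linarith) (by linarith)
    _ = ((1 - (2 : ℝ) ^ (-ε))⁻¹) ^ (r.primeFactors.filter Nat.Prime).card := by
        rw [Finset.prod_const]
    _ ≤ ((1 - (2 : ℝ) ^ (-ε))⁻¹) ^ r.primeFactors.card :=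
        pow_le_pow_right₀ hq0 (Finset.card_le_card (Finset.filter_subset _ _))

theorem sun (ε : ℝ) (hε : 0 < ε) : ∃ C : ℝ, 0 < C ∧ ∀ Z r : ℕ, 1 ≤ Z → 1 ≤ r →
    (((Finset.Icc 1 Z).filter fun q => q.primeFactors ⊆ r.primeFactors).card : ℝ) ≤
      C * (Z : ℝ) ^ ε * (r : ℝ) ^ ε := by
  classical
  have h2 : (2 : ℝ) ^ (-ε) < 1 := Real.rpow_lt_one_of_one_lt_of_neg (by norm_num) (by linarith)
  have hq0 : 0 ≤ (1 - (2 : ℝ) ^ (-ε))⁻¹ := inv_nonneg.2 (by linarith)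
  obtain ⟨A, hA⟩ := pow_unbounded_of_one_lt ((1 - (2 : ℝ) ^ (-ε))⁻¹) (one_lt_two : (1 : ℝ) < 2)
  obtain ⟨c, hc, hdiv⟩ := Pool.Agent.FTA.divisor_bound (ε := ε / ((A : ℝ) + 1)) (by positivity)
  refine ⟨c ^ A, by positivity, fun Z r hZ hr => ?_⟩
  have hr1 : (1 : ℝ) ≤ r := by exact_mod_cast hr
  have h1 : (((Finset.Icc 1 Z).filter fun q => q.primeFactors ⊆ r.primeFactors).card : ℝ) ≤
      (Z : ℝ) ^ ε * ∑ q ∈ (Finset.Icc 1 Z).filter (fun q => q.primeFactors ⊆ r.primeFactors),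
        (q : ℝ) ^ (-ε) := by
    rw [Finset.card_eq_sum_ones, Nat.cast_sum, Finset.mul_sum]
    refine Finset.sum_le_sum fun q hq => ?_
    rw [Finset.mem_filter, Finset.mem_Icc] at hq
    have hq1 : (0 : ℝ) < q := by exact_mod_cast hq.1.1
    have hqZ : (q : ℝ) ≤ Z := by exact_mod_cast hq.1.2
    rw [Nat.cast_one, Real.rpow_neg hq1.le, ← div_eq_mul_inv, one_le_div (by positivity)]
    exact Real.rpow_le_rpow hq1.le hqZ hε.le
  have h3 := sun_sum ε hε Z r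
  have h4 : ((1 - (2 : ℝ) ^ (-ε))⁻¹) ^ r.primeFactors.card ≤ c ^ A * (r : ℝ) ^ ε := by
    calc ((1 - (2 : ℝ) ^ (-ε))⁻¹) ^ r.primeFactors.card ≤ ((2 : ℝ) ^ A) ^ r.primeFactors.card :=
          pow_le_pow_left₀ hq0 hA.le _
      _ = ((2 : ℝ) ^ r.primeFactors.card) ^ A := by rw [← pow_mul, ← pow_mul, mul_comm]
      _ ≤ (r.divisors.card : ℝ) ^ A := pow_le_pow_left₀ (by positivity) (sun_omega r hr) _
      _ ≤ (c * (r : ℝ) ^ (ε / ((A : ℝ) + 1))) ^ A :=
          pow_le_pow_left₀ (by positivity) (hdiv r (by omega)) _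
      _ = c ^ A * (r : ℝ) ^ (ε / ((A : ℝ) + 1) * A) := by
          rw [mul_pow, ← Real.rpow_natCast ((r : ℝ) ^ (ε / ((A : ℝ) + 1))) A, ← Real.rpow_mul (by positivity)]
      _ ≤ c ^ A * (r : ℝ) ^ ε := by
          refine mul_le_mul_of_nonneg_left (Real.rpow_le_rpow_of_exponent_le hr1 ?_) (by positivity)
          rw [div_mul_eq_mul_div, div_le_iff₀ (by positivity)]
          nlinarith
  calc (((Finset.Icc 1 Z).filter fun q => q.primeFactors ⊆ r.primeFactors).card : ℝ)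
      ≤ (Z : ℝ) ^ ε * ∑ q ∈ (Finset.Icc 1 Z).filter (fun q => q.primeFactors ⊆ r.primeFactors),
        (q : ℝ) ^ (-ε) := h1
    _ ≤ (Z : ℝ) ^ ε * (c ^ A * (r : ℝ) ^ ε) :=
        mul_le_mul_of_nonneg_left (h3.trans h4) (by positivity)
    _ = c ^ A * (Z : ℝ) ^ ε * (r : ℝ) ^ ε := by ring

end Pool.Agent.FTB
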