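import Pool.Agent.FTA.DivB
import Pool.Agent.FTB.SUn
import Pool.Agent.FTB.Dya

/-!
# FTB/PtB: the number of points, final form

PROOF of `ptB`.  Let `δ = ε / 100`, `Z = (2 * 10 ^ 7 * X) ^ 8`.  `divisor_bound` gives `c` with
`τ(n) ≤ c n ^ δ`, so `TauB Z T` with `T = 1 + c Z ^ δ ≤ C₁ X ^ (8 δ)`; `sun` with exponent `δ` gives
`UniB Z Q` with `Q = 1 + C' Z ^ (2 δ) ≤ C₂ X ^ (16 δ)`; `L = 6 + log X ≤ (6 + 1 / δ) X ^ δ`
(`Real.log_le_rpow_div`).  Then `sym` gives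
`card S ≤ 16 * 10 ^ 20 * C₂ C₁ ^ 2 C₃ ^ 5 * X ^ (16 δ + 16 δ + 5 δ) * X`, and `37 δ ≤ ε`.
(See the proof of `intMain` in Pool/Agent/FTA/IntMain.lean.)
-/

set_option autoImplicit false

namespace Pool.Agent.FTB

theorem ptB (ε : ℝ) (hε : 0 < ε) : ∃ K : ℝ, 0 < K ∧ ∀ X : ℕ, 1 ≤ X →
    ∀ S : Finset Pt, (∀ q ∈ S, IsTq q ∧ q.1 ^ 2 ≤ X ∧ q.2.1 ^ 2 ≤ X) →
      (S.card : ℝ) ≤ K * (X : ℝ) ^ (1 + ε) := by
  obtain ⟨δ, hδ⟩ : ∃ δ : ℝ, δ = ε / 100 := ⟨_, rfl⟩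
  have hδ0 : 0 < δ := by rw [hδ]; positivity
  obtain ⟨c, hc0, hc⟩ := Pool.Agent.FTA.divisor_bound hδ0
  obtain ⟨C, hC0, hC⟩ := sun δ hδ0
  obtain ⟨A, hA⟩ : ∃ A : ℝ, A = (((2 : ℝ) * 10 ^ 7) ^ 8) ^ δ := ⟨_, rfl⟩
  have hA0 : 0 < A := by rw [hA]; positivity
  refine ⟨16 * 10 ^ 20 * (1 + C * A ^ 2) * (1 + c * A) ^ 2 * (6 + 1 / δ) ^ 5, by positivity, ?_⟩
  intro X hX S hS
  have hXr : (1 : ℝ) ≤ X := by exact_mod_cast hX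
  have hX0 : (0 : ℝ) ≤ X := by linarith
  obtain ⟨y, hy⟩ : ∃ y : ℝ, y = (X : ℝ) ^ δ := ⟨_, rfl⟩
  have hy1 : 1 ≤ y := by rw [hy]; exact Real.one_le_rpow hXr hδ0.le
  have hy0 : 0 ≤ y := by linarith
  obtain ⟨Z, hZ⟩ : ∃ Z : ℕ, Z = (2 * 10 ^ 7 * X) ^ 8 := ⟨_, rfl⟩
  have hZ1 : 1 ≤ Z := by
    rw [hZ]
    exact Nat.one_le_pow _ _ (by positivity)
  have hZd : (Z : ℝ) ^ δ = A * y ^ 8 := by
    have h1 : (Z : ℝ) = ((2 : ℝ) * 10 ^ 7) ^ 8 * (X : ℝ) ^ 8 := by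
      rw [hZ]; push_cast; ring
    have h2 : ((X : ℝ) ^ 8) ^ δ = ((X : ℝ) ^ δ) ^ 8 := by
      rw [← Real.rpow_natCast, ← Real.rpow_mul hX0, ← Real.rpow_natCast, ← Real.rpow_mul hX0]
      congr 1
      ring
    rw [h1, hA, hy, Real.mul_rpow (by positivity) (by positivity), h2]
  have hT : TauB Z (1 + c * (Z : ℝ) ^ δ) := by
    refine ⟨by nlinarith [Real.rpow_nonneg (Nat.cast_nonneg Z) δ], ?_⟩
    intro n hn1 hn2
    have h1 := hc n (by omega)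
    have h2 : (n : ℝ) ^ δ ≤ (Z : ℝ) ^ δ :=
      Real.rpow_le_rpow (Nat.cast_nonneg _) (by exact_mod_cast hn2) hδ0.le
    have h3 := mul_le_mul_of_nonneg_left h2 hc0.le
    linarith
  have hQ : UniB Z (1 + C * (Z : ℝ) ^ δ * (Z : ℝ) ^ δ) := by
    have hz := Real.rpow_nonneg (Nat.cast_nonneg (α := ℝ) Z) δ
    refine ⟨by nlinarith [mul_nonneg (mul_nonneg hC0.le hz) hz], ?_⟩
    intro r hr1 hr2
    have h1 := hC Z r hZ1 hr1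
    have h2 : (r : ℝ) ^ δ ≤ (Z : ℝ) ^ δ :=
      Real.rpow_le_rpow (Nat.cast_nonneg _) (by exact_mod_cast hr2) hδ0.le
    have h3 := mul_le_mul_of_nonneg_left h2 (mul_nonneg hC0.le hz)
    linarith
  have hL : 6 + Real.log X ≤ (6 + 1 / δ) * y := by
    have h1 : Real.log X ≤ (X : ℝ) ^ δ / δ := Real.log_le_rpow_div hX0 hδ0
    rw [← hy] at h1
    have h2 : (6 + 1 / δ) * y = 6 * y + y / δ := by ring
    rw [h2]
    linarith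
  have hmain := sym X Z _ _ _ hX hT hQ (le_of_eq hZ.symm) hL S hS
  have hT1 : 1 + c * (Z : ℝ) ^ δ ≤ (1 + c * A) * y ^ 8 := by
    rw [hZd]
    have : 1 ≤ y ^ 8 := one_le_pow₀ hy1
    nlinarith
  have hQ1 : 1 + C * (Z : ℝ) ^ δ * (Z : ℝ) ^ δ ≤ (1 + C * A ^ 2) * y ^ 16 := by
    rw [hZd]
    have : 1 ≤ y ^ 16 := one_le_pow₀ hy1
    nlinarith
  have hQ0 := hQ.1
  have hT0 := hT.1
  have hlog : 0 ≤ Real.log X := Real.log_nonneg hXr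
  calc (S.card : ℝ) ≤ 16 * 10 ^ 20 * (1 + C * (Z : ℝ) ^ δ * (Z : ℝ) ^ δ) *
        (1 + c * (Z : ℝ) ^ δ) ^ 2 * ((6 + 1 / δ) * y) ^ 5 * X := hmain
    _ ≤ 16 * 10 ^ 20 * ((1 + C * A ^ 2) * y ^ 16) * ((1 + c * A) * y ^ 8) ^ 2 *
        ((6 + 1 / δ) * y) ^ 5 * X := by
        gcongr
    _ = 16 * 10 ^ 20 * (1 + C * A ^ 2) * (1 + c * A) ^ 2 * (6 + 1 / δ) ^ 5 * (y ^ 37 * X) := by
        ring
    _ ≤ 16 * 10 ^ 20 * (1 + C * A ^ 2) * (1 + c * A) ^ 2 * (6 + 1 / δ) ^ 5 *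
          (X : ℝ) ^ (1 + ε) := by
        apply mul_le_mul_of_nonneg_left _ (by positivity)
        have h1 : y ^ 37 = (X : ℝ) ^ (37 * δ) := by
          rw [hy, ← Real.rpow_natCast, ← Real.rpow_mul hX0]
          congr 1
          push_cast
          ring
        have hXp : (0 : ℝ) < X := by linarith
        rw [h1, Real.rpow_add hXp, Real.rpow_one, mul_comm]
        apply mul_le_mul_of_nonneg_left _ hX0
        apply Real.rpow_le_rpow_of_exponent_le hXr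
        rw [hδ]
        linarith

end Pool.Agent.FTB
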