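import Pool.Agent.FTA.DivB
import Pool.Agent.FTB.DefsI
import Pool.Agent.FTB.PtB

/-!
# FTB/DCt: from the data to the points

PROOF of `dct1`.  Map `(D, G, q) ∈ S` to `q`.  For given `q` the integer `b` is determined by
`b v = k u + N e` (`v ≥ 1`), and `D G ^ 2 c ^ 2 = 4 N ^ 2 k - b ^ 2`, `c ≥ 1`; so `D G ^ 2 =: n` is
determined by `q`, `n ≥ 1` (`D ≥ N ^ 2 ≥ 1`), `n ≤ 4 N ^ 2 k ≤ 4 X ^ 2` (`N ^ 2 ≤ D ≤ X`,
`k ≤ k ^ 2 ≤ X`), and `G` divides `n`, `D = n / G ^ 2`.  So the fibre over `q` has at most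
`card (divisors n) ≤ T` elements.
PROOF of `dct`.  Take for `P` the image of `S` (classically); its points satisfy `IsTq q`,
`N ^ 2 ≤ X`, `k ^ 2 ≤ X`: `ptB` with `ε / 2`; and
`divisor_bound` with `δ = ε / 100` for `T` (`Z = 4 X ^ 2`).
-/

set_option autoImplicit false

namespace Pool.Agent.FTB

open Pool.Agent.FTA

private theorem dctUniq (D G D' G' : ℕ) (q : Pt) (h : Dat D G q) (h' : Dat D' G' q) :
    D * G ^ 2 = D' * G' ^ 2 := by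
  obtain ⟨hT, hG, hN, hk, b, hb1, hb2⟩ := h
  obtain ⟨-, hG', hN', hk', b', hb1', hb2'⟩ := h'
  obtain ⟨h1, h2, hc, hv, -⟩ := hT
  have hv0 : (q.2.2.2.1 : ℤ) ≠ 0 := by
    have : (1 : ℤ) ≤ (q.2.2.2.1 : ℤ) := by exact_mod_cast hv
    omega
  have hc0 : (q.2.2.1 : ℤ) ≠ 0 := by
    have : (1 : ℤ) ≤ (q.2.2.1 : ℤ) := by exact_mod_cast hc
    omega
  have hbb : b = b' := by
    apply mul_right_cancel₀ hv0
    rw [hb1, hb1']
  subst hbb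
  have e : ((D : ℤ) * (G : ℤ) ^ 2) * (q.2.2.1 : ℤ) ^ 2 =
      ((D' : ℤ) * (G' : ℤ) ^ 2) * (q.2.2.1 : ℤ) ^ 2 := by linear_combination hb2 - hb2'
  have e2 := mul_right_cancel₀ (pow_ne_zero 2 hc0) e
  exact_mod_cast e2

private theorem dctLe (X D G : ℕ) (q : Pt) (hD : D ≤ X) (h : Dat D G q) :
    1 ≤ D * G ^ 2 ∧ D * G ^ 2 ≤ 4 * X ^ 2 := by
  obtain ⟨hT, hG, hN, hk, b, hb1, hb2⟩ := h
  obtain ⟨h1, h2, hc, hv, -⟩ := hT
  have hD1 : 1 ≤ D := le_trans (Nat.one_le_pow _ _ h1) hN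
  refine ⟨Nat.mul_pos hD1 (Nat.pow_pos hG), ?_⟩
  have hb3 : (D : ℤ) * ((G : ℤ) * q.2.2.1) ^ 2 ≤ 4 * (q.1 : ℤ) ^ 2 * q.2.1 := by
    have := sq_nonneg b
    linarith
  have hb4 : D * (G * q.2.2.1) ^ 2 ≤ 4 * q.1 ^ 2 * q.2.1 := by exact_mod_cast hb3
  have hkX : q.2.1 ≤ X := by
    have : q.2.1 ≤ q.2.1 ^ 2 := Nat.le_self_pow (by norm_num) _
    omega
  have hNX : q.1 ^ 2 ≤ X := hN.trans hD
  calc D * G ^ 2 ≤ D * (G * q.2.2.1) ^ 2 := by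
        gcongr
        exact Nat.le_mul_of_pos_right _ hc
    _ ≤ 4 * q.1 ^ 2 * q.2.1 := hb4
    _ ≤ 4 * X * X := by gcongr
    _ = 4 * X ^ 2 := by ring

theorem dct1 (X Z : ℕ) (T : ℝ) (hX : 1 ≤ X) (hT : TauB Z T) (hZ : 4 * X ^ 2 ≤ Z)
    (S : Finset (ℕ × ℕ × Pt)) (hS : ∀ q ∈ S, q.1 ≤ X ∧ Dat q.1 q.2.1 q.2.2)
    (P : Finset Pt) (hP : ∀ q ∈ S, q.2.2 ∈ P) : (S.card : ℝ) ≤ T * (P.card : ℝ) := by
  classical
  have h1 := Finset.card_eq_sum_card_fiberwise (s := S) (t := P) (f := fun q => q.2.2)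
    (fun q hq => hP q hq)
  rw [h1]
  push_cast
  have h2 : ∀ p ∈ P, ((S.filter fun q => q.2.2 = p).card : ℝ) ≤ T := by
    intro p _
    rcases (S.filter fun q => q.2.2 = p).eq_empty_or_nonempty with he | ⟨q0, hq0⟩
    · rw [he]
      simp only [Finset.card_empty, Nat.cast_zero]
      linarith [hT.1]
    · rw [Finset.mem_filter] at hq0
      obtain ⟨hq0S, hq0p⟩ := hq0
      obtain ⟨hq0X, hq0D⟩ := hS q0 hq0S
      rw [hq0p] at hq0D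
      obtain ⟨hn1, hn2⟩ := dctLe X q0.1 q0.2.1 p hq0X hq0D
      obtain ⟨n, hn⟩ : ∃ n : ℕ, n = q0.1 * q0.2.1 ^ 2 := ⟨_, rfl⟩
      rw [← hn] at hn1 hn2
      refine le_trans ?_ (hT.2 n hn1 (hn2.trans hZ))
      have : (S.filter fun q => q.2.2 = p).card ≤ n.divisors.card := by
        apply Finset.card_le_card_of_injOn (fun q => q.2.1)
        · intro q hq
          rw [Finset.mem_coe, Finset.mem_filter] at hq
          obtain ⟨hqS, hqp⟩ := hq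
          obtain ⟨hqX, hqD⟩ := hS q hqS
          rw [hqp] at hqD
          have e := dctUniq _ _ _ _ p hqD hq0D
          rw [Finset.mem_coe, Nat.mem_divisors]
          refine ⟨?_, by omega⟩
          rw [hn, ← e]
          exact Dvd.dvd.mul_left (dvd_pow_self _ (by norm_num)) _
        · intro q hq q' hq' hqq
          rw [Finset.mem_coe, Finset.mem_filter] at hq hq'
          obtain ⟨hqS, hqp⟩ := hq
          obtain ⟨hqS', hqp'⟩ := hq'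
          obtain ⟨hqX, hqD⟩ := hS q hqS
          obtain ⟨hqX', hqD'⟩ := hS q' hqS'
          rw [hqp] at hqD
          rw [hqp'] at hqD'
          have e := dctUniq _ _ _ _ p hqD hqD'
          have hqq' : q.2.1 = q'.2.1 := hqq
          have hG : 0 < q'.2.1 := hqD'.2.1
          rw [hqq'] at e
          have e3 : q.1 = q'.1 := Nat.eq_of_mul_eq_mul_right (Nat.pow_pos hG) e
          exact Prod.ext e3 (Prod.ext hqq' (hqp.trans hqp'.symm))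
      exact_mod_cast this
  calc ∑ p ∈ P, ((S.filter fun q => q.2.2 = p).card : ℝ) ≤ ∑ _p ∈ P, T := Finset.sum_le_sum h2
    _ = T * (P.card : ℝ) := by
        rw [Finset.sum_const, nsmul_eq_mul]
        ring

theorem dct (ε : ℝ) (hε : 0 < ε) : ∃ K : ℝ, 0 < K ∧ ∀ X : ℕ, 1 ≤ X →
    ∀ S : Finset (ℕ × ℕ × Pt), (∀ q ∈ S, q.1 ≤ X ∧ Dat q.1 q.2.1 q.2.2) →
      (S.card : ℝ) ≤ K * (X : ℝ) ^ (1 + ε) := by
  classical
  obtain ⟨K1, hK1, h1⟩ := ptB (ε / 2) (by positivity)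
  obtain ⟨c, hc, h2⟩ := divisor_bound (ε := ε / 4) (by positivity)
  refine ⟨(1 + c * (4 : ℝ) ^ (ε / 4)) * K1, by positivity, ?_⟩
  intro X hX S hS
  have hX1 : (1 : ℝ) ≤ (X : ℝ) := by exact_mod_cast hX
  have hX0 : (0 : ℝ) < (X : ℝ) := by linarith
  have hT : TauB (4 * X ^ 2) (1 + c * (((4 * X ^ 2 : ℕ) : ℝ)) ^ (ε / 4)) := by
    refine ⟨by
      have : (0 : ℝ) ≤ c * (((4 * X ^ 2 : ℕ) : ℝ)) ^ (ε / 4) := by positivity
      linarith, ?_⟩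
    intro n hn1 hn2
    have hn3 : (n : ℝ) ≤ (((4 * X ^ 2 : ℕ) : ℝ)) := by exact_mod_cast hn2
    calc (n.divisors.card : ℝ) ≤ c * (n : ℝ) ^ (ε / 4) := h2 n (by omega)
      _ ≤ c * (((4 * X ^ 2 : ℕ) : ℝ)) ^ (ε / 4) := by gcongr
      _ ≤ 1 + c * (((4 * X ^ 2 : ℕ) : ℝ)) ^ (ε / 4) := by linarith
  have h3 := dct1 X (4 * X ^ 2) _ hX hT le_rfl S hS (S.image fun q => q.2.2)
    (fun q hq => Finset.mem_image_of_mem _ hq)
  have h4 := h1 X hX (S.image fun q => q.2.2) (by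
    intro p hp
    rw [Finset.mem_image] at hp
    obtain ⟨q, hq, rfl⟩ := hp
    obtain ⟨hqX, hqD⟩ := hS q hq
    exact ⟨hqD.1, hqD.2.2.1.trans hqX, hqD.2.2.2.1.trans hqX⟩)
  have hTle : 1 + c * (((4 * X ^ 2 : ℕ) : ℝ)) ^ (ε / 4) ≤
      (1 + c * (4 : ℝ) ^ (ε / 4)) * (X : ℝ) ^ (ε / 2) := by
    have e1 : (((4 * X ^ 2 : ℕ) : ℝ)) ^ (ε / 4) = (4 : ℝ) ^ (ε / 4) * (X : ℝ) ^ (ε / 2) := by
      push_cast
      rw [Real.mul_rpow (by norm_num) (by positivity), ← Real.rpow_natCast, ← Real.rpow_mul hX0.le]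
      congr 2
      push_cast
      ring
    have e2 : (1 : ℝ) ≤ (X : ℝ) ^ (ε / 2) := Real.one_le_rpow hX1 (by positivity)
    rw [e1]
    nlinarith
  calc (S.card : ℝ) ≤ (1 + c * (((4 * X ^ 2 : ℕ) : ℝ)) ^ (ε / 4)) *
        ((S.image fun q => q.2.2).card : ℝ) := h3
    _ ≤ ((1 + c * (4 : ℝ) ^ (ε / 4)) * (X : ℝ) ^ (ε / 2)) * (K1 * (X : ℝ) ^ (1 + ε / 2)) := by
        gcongr
    _ = (1 + c * (4 : ℝ) ^ (ε / 4)) * K1 * ((X : ℝ) ^ (ε / 2) * (X : ℝ) ^ (1 + ε / 2)) := by ring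
    _ = (1 + c * (4 : ℝ) ^ (ε / 4)) * K1 * (X : ℝ) ^ (1 + ε) := by
        rw [← Real.rpow_add hX0]
        congr 2
        ring

end Pool.Agent.FTB
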