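import Pool.Agent.FTB.ClD

/-!
# FTB/DaI: the data determine the class

PROOF of `daI`.  For `A` with `A ^ 5 = 1`, `IA A` and `IA (A ^ 2)` of non-square norm, `clD` gives
`(G, q)` with the additional data; choose (`choose!` or `Classical.choice`) and put
`f A = (G, q)`.  Injectivity: let `f A = f A'`.  `b * v0` is given by `q` and `v0 ≥ 1`
(from `Dat`, `IsTq`), so `b = b'`; `κ * c0` is given by `q`, `c0 ≥ 1`, so `κ = κ'`.  So `β = β'`,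
`γ = γ'` (`co_inj`), `k δ1 = k δ1'` with `k ≠ 0`, so `δ1 = δ1'`, `α = α'`,
`(IA A) ^ 5 = (IA A') ^ 5`, so `IA A = IA A'` (`powEq`), `A = mk0 (IA A) = A'`.
-/

set_option autoImplicit false

namespace Pool.Agent.FTB

open NumberField Pool.Agent.FTA nonZeroDivisors

theorem daI (K : IntermediateField ℚ ℂ) [NumberField K] (h2 : Module.finrank ℚ K = 2)
    (him : ∃ x : K, (x : ℂ).im ≠ 0) (IA : ClassGroup (𝓞 K) → (Ideal (𝓞 K))⁰)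
    (hIA : ∀ A, ClassGroup.mk0 (IA A) = A ∧
      (Ideal.absNorm (IA A : Ideal (𝓞 K))) ^ 2 ≤ aD K ∧ MinI K (IA A)) :
    ∃ f : ClassGroup (𝓞 K) → ℕ × Pt,
      (∀ A, A ^ 5 = 1 → ¬ IsSquare (Ideal.absNorm (IA A : Ideal (𝓞 K))) →
        ¬ IsSquare (Ideal.absNorm (IA (A ^ 2) : Ideal (𝓞 K))) →
        Dat (aD K) (f A).1 (f A).2) ∧
      Set.InjOn f {A | A ^ 5 = 1 ∧ ¬ IsSquare (Ideal.absNorm (IA A : Ideal (𝓞 K))) ∧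
        ¬ IsSquare (Ideal.absNorm (IA (A ^ 2) : Ideal (𝓞 K)))} := by
  classical
  have hex : ∀ A : ClassGroup (𝓞 K), ∃ Gq : ℕ × Pt,
      (A ^ 5 = 1 ∧ ¬ IsSquare (Ideal.absNorm (IA A : Ideal (𝓞 K))) ∧
        ¬ IsSquare (Ideal.absNorm (IA (A ^ 2) : Ideal (𝓞 K)))) →
      Dat (aD K) Gq.1 Gq.2 ∧ ∃ (β γ δ1 α : 𝓞 K) (b κ : ℤ), Co K β b ((Gq.1 : ℤ) * Gq.2.2.2.1) ∧
        Co K γ κ ((Gq.1 : ℤ) * Gq.2.2.2.2.1) ∧ (Gq.2.2.1 : 𝓞 K) * δ1 = β * γ ∧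
        (Gq.2.2.1 : 𝓞 K) * α = δ1 * β ∧ Ideal.span {α} = (IA A : Ideal (𝓞 K)) ^ 5 ∧
        b * Gq.2.2.2.2.1 = Gq.2.2.1 * Gq.2.2.2.2.2.1 + Gq.2.1 * Gq.2.2.2.2.2.2.1 ∧
        κ * Gq.2.2.2.1 = Gq.2.2.1 * Gq.2.2.2.2.2.1 - Gq.2.1 * Gq.2.2.2.2.2.2.1 := by
    intro A
    by_cases hA : A ^ 5 = 1 ∧ ¬ IsSquare (Ideal.absNorm (IA A : Ideal (𝓞 K))) ∧
        ¬ IsSquare (Ideal.absNorm (IA (A ^ 2) : Ideal (𝓞 K)))
    · obtain ⟨hA1, hA2, hA3⟩ := hA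
      obtain ⟨i1, i2, i3⟩ := hIA A
      obtain ⟨j1, j2, j3⟩ := hIA (A ^ 2)
      obtain ⟨G, q, h1, -, -, h4⟩ := clD K h2 him A hA1 (IA A) (IA (A ^ 2)) i1 j1 i3 j3 i2 j2
        hA2 hA3
      exact ⟨(G, q), fun _ => ⟨h1, h4⟩⟩
    · exact ⟨(0, (0, 0, 0, 0, 0, 0, 0, 0)), fun h => absurd h hA⟩
  choose f hf using hex
  refine ⟨f, fun A h1 h2' h3 => (hf A ⟨h1, h2', h3⟩).1, ?_⟩
  intro A hA A' hA' hff
  obtain ⟨hD, β, γ, δ1, α, b, κ, c1, c2, c3, c4, c5, c6, c7⟩ := hf A hA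
  obtain ⟨-, β', γ', δ1', α', b', κ', c1', c2', c3', c4', c5', c6', c7'⟩ := hf A' hA'
  rw [← hff] at c1' c2' c3' c4' c6' c7'
  obtain ⟨hT, -⟩ := hD
  have hk : 1 ≤ (f A).2.2.1 := hT.2.1
  have hc : 1 ≤ (f A).2.2.2.1 := hT.2.2.1
  have hv : 1 ≤ (f A).2.2.2.2.1 := hT.2.2.2.1
  have hk0 : ((f A).2.2.1 : 𝓞 K) ≠ 0 := by
    have : (f A).2.2.1 ≠ 0 := by omega
    exact_mod_cast this
  have hc0 : ((f A).2.2.2.1 : ℤ) ≠ 0 := by omega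
  have hv0 : ((f A).2.2.2.2.1 : ℤ) ≠ 0 := by omega
  have hb : b' = b := mul_right_cancel₀ hv0 (c6'.trans c6.symm)
  have hκ : κ' = κ := mul_right_cancel₀ hc0 (c7'.trans c7.symm)
  rw [hb] at c1'
  rw [hκ] at c2'
  have hβ : β' = β := co_inj K β' β _ _ c1' c1
  have hγ : γ' = γ := co_inj K γ' γ _ _ c2' c2
  have hδ : δ1' = δ1 := by
    refine mul_left_cancel₀ hk0 ?_
    rw [c3', c3, hβ, hγ]
  have hα : α' = α := by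
    refine mul_left_cancel₀ hk0 ?_
    rw [c4', c4, hβ, hδ]
  have h5 : (IA A : Ideal (𝓞 K)) ^ 5 = (IA A' : Ideal (𝓞 K)) ^ 5 := by
    rw [← c5, ← c5', hα]
  have h6 : IA A = IA A' := Subtype.ext (powEq (𝓞 K) _ _ 5 (by norm_num) h5)
  rw [← (hIA A).1, h6, (hIA A').1]

end Pool.Agent.FTB
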