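import Pool.Agent.FTB.Defs

/-! # FTB/DefsP: the parameters of a dyadic box -/

set_option autoImplicit false

namespace Pool.Agent.FTB

/-- `11000 V² (a2 / a1² + a1³ / a2⁴)` with `a1 = √M1`, `a2 = √M2` -/
noncomputable def sig (M1 M2 V : ℕ) : ℝ :=
  11000 * (V : ℝ) ^ 2 * (√(M2 : ℝ) / (√(M1 : ℝ)) ^ 2 + (√(M1 : ℝ)) ^ 3 / (√(M2 : ℝ)) ^ 4)

/-- `V⁴ a1 / (68 a2³)` -/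
noncomputable def mu (M1 M2 V : ℕ) : ℝ := (V : ℝ) ^ 4 * √(M1 : ℝ) / (68 * (√(M2 : ℝ)) ^ 3)

/-- the conditions on the parameters -/
structure PB (M1 M2 V X U E C s m : ℕ) : Prop where
  hM1 : 1 ≤ M1
  hM2 : 1 ≤ M2
  hV : 1 ≤ V
  hU : 1 ≤ U
  hE : 1 ≤ E
  hC : 1 ≤ C
  hX1 : M1 ^ 2 ≤ X
  hX2 : M2 ^ 2 ≤ X
  hU1 : 8 * (V : ℝ) * (√(M1 : ℝ)) ^ 2 / √(M2 : ℝ) ≤ U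
  hU2 : (U : ℝ) ≤ 12 * (V : ℝ) * (√(M1 : ℝ)) ^ 2 / √(M2 : ℝ)
  hE1 : 7 * (V : ℝ) * √(M2 : ℝ) ≤ E
  hE2 : (E : ℝ) ≤ 8 * (V : ℝ) * √(M2 : ℝ)
  hC1 : (C : ℝ) ≤ 3 * (V : ℝ) * √(M1 : ℝ) / √(M2 : ℝ)
  hC2 : 3 * (V : ℝ) * √(M1 : ℝ) / √(M2 : ℝ) < C + 1
  hs1 : (s : ℝ) ≤ sig M1 M2 V
  hs2 : sig M1 M2 V < s + 1
  hm1 : (m : ℝ) ≤ mu M1 M2 V
  hm2 : mu M1 M2 V < m + 1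
  hV1 : (V : ℝ) ^ 2 ≤ 8 * (√(M1 : ℝ)) ^ 2
  hV2 : (V : ℝ) ^ 2 * (√(M1 : ℝ)) ^ 2 ≤ 16 * (√(M2 : ℝ)) ^ 4
  hsX : s ≤ 10 ^ 6 * X
  hCX : C ≤ 10 ^ 6 * X
  hVX : 2 * V ≤ 10 ^ 6 * X
  hmX : m ≤ 36 * X
  hUX : U ≤ 36 * X
  hEX : E ≤ 36 * X

end Pool.Agent.FTB
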