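import Pool.Agent.FTB.Defs

/-!
# FTB/Dga: at most three coprime pairs at which both forms vanish

PROOF of `dga`.  If `(A, B, J) ≠ 0` the polynomial `-5 A X ^ 3 - 2 B X + J` over `ℚ` is not zero,
so it has at most 3 roots, and `x = c / v` is a root for every pair of the set (`v > 0`,
`fF A B J c v = v ^ 3 f(c / v)`); a coprime pair of positive integers is determined by `c / v`.
If `A = B = J = 0` then `gF = K v ^ 3`, `K ≠ 0`, has no zero.
-/

set_option autoImplicit false

namespace Pool.Agent.FTB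

theorem dga (C V : ℕ) (hV : 1 ≤ V) (b : ℤ × ℤ × ℤ × ℤ) (hb : b ≠ (0, 0, 0, 0)) :
    ((Cv C V).filter fun x => fF b.1 b.2.1 b.2.2.1 x.1 x.2 = 0 ∧
      gF b.2.1 b.2.2.1 b.2.2.2 x.1 x.2 = 0).card ≤ 3 := by
  classical
  obtain ⟨A, B, J, K⟩ := b
  simp only
  by_cases h0 : A = 0 ∧ B = 0 ∧ J = 0
  · obtain ⟨rfl, rfl, rfl⟩ := h0
    have hK : K ≠ 0 := by
      rintro rfl
      exact hb rfl
    have : ((Cv C V).filter fun x => fF 0 0 0 x.1 x.2 = 0 ∧ gF 0 0 K x.1 x.2 = 0) = ∅ := by
      rw [Finset.filter_eq_empty_iff]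
      rintro x hx ⟨-, h2⟩
      rw [mem_Cv] at hx
      have hv : (x.2 : ℤ) ≠ 0 := by
        have : 1 ≤ x.2 := hV.trans hx.2.1.1
        positivity
      unfold gF at h2
      have h3 : K * (x.2 : ℤ) ^ 3 = 0 := by linarith
      rcases mul_eq_zero.1 h3 with h | h
      · exact hK h
      · exact hv (pow_eq_zero_iff (by norm_num) |>.1 h)
    rw [this]
    simp
  · let P : Polynomial ℚ := Polynomial.C (-5 * (A : ℚ)) * Polynomial.X ^ 3 +
      Polynomial.C (-2 * (B : ℚ)) * Polynomial.X + Polynomial.C (J : ℚ)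
    have hP : P ≠ 0 := by
      intro hP
      apply h0
      have c3 : P.coeff 3 = -5 * (A : ℚ) := by
        simp only [P, Polynomial.coeff_add, Polynomial.coeff_C_mul, Polynomial.coeff_X_pow,
          Polynomial.coeff_X, Polynomial.coeff_C]
        norm_num
      have c1 : P.coeff 1 = -2 * (B : ℚ) := by
        simp only [P, Polynomial.coeff_add, Polynomial.coeff_C_mul, Polynomial.coeff_X_pow,
          Polynomial.coeff_X, Polynomial.coeff_C]
        norm_num
      have c0 : P.coeff 0 = (J : ℚ) := by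
        simp [P]
      rw [hP, Polynomial.coeff_zero] at c3 c1 c0
      refine ⟨?_, ?_, ?_⟩
      · have : (A : ℚ) = 0 := by linarith
        exact_mod_cast this
      · have : (B : ℚ) = 0 := by linarith
        exact_mod_cast this
      · exact_mod_cast c0.symm
    have hdeg : P.natDegree ≤ 3 := by
      have : P.degree ≤ 3 := by
        refine (Polynomial.degree_add_le _ _).trans (max_le ?_ ?_)
        · refine (Polynomial.degree_add_le _ _).trans (max_le ?_ ?_)
          · exact Polynomial.degree_C_mul_X_pow_le _ _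
          · refine (Polynomial.degree_C_mul_X_le _).trans ?_
            norm_num
        · refine Polynomial.degree_C_le.trans ?_
          norm_num
      exact Polynomial.natDegree_le_of_degree_le this
    refine (Finset.card_le_card_of_injOn (t := P.roots.toFinset)
      (fun x : ℕ × ℕ => (x.1 : ℚ) / x.2) ?_ ?_).trans ?_
    · intro x hx
      rw [Finset.mem_coe, Finset.mem_filter, mem_Cv] at hx
      obtain ⟨⟨hc, hv, hcop⟩, hf, -⟩ := hx
      have hv0 : (x.2 : ℚ) ≠ 0 := by
        have : 1 ≤ x.2 := hV.trans hv.1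
        positivity
      rw [Finset.mem_coe, Multiset.mem_toFinset, Polynomial.mem_roots hP]
      unfold fF at hf
      have hf' : -5 * (A : ℚ) * (x.1 : ℚ) ^ 3 - 2 * (B : ℚ) * (x.1 : ℚ) * (x.2 : ℚ) ^ 2 +
          (J : ℚ) * (x.2 : ℚ) ^ 3 = 0 := by exact_mod_cast hf
      simp only [Polynomial.IsRoot.def, P, Polynomial.eval_add, Polynomial.eval_mul,
        Polynomial.eval_C, Polynomial.eval_pow, Polynomial.eval_X]
      field_simp
      linarith
    · intro x hx y hy hxy
      rw [Finset.mem_coe, Finset.mem_filter, mem_Cv] at hx hy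
      obtain ⟨⟨hc, hv, hcop⟩, -⟩ := hx
      obtain ⟨⟨hc', hv', hcop'⟩, -⟩ := hy
      have hv0 : (x.2 : ℚ) ≠ 0 := by
        have : 1 ≤ x.2 := hV.trans hv.1
        positivity
      have hv0' : (y.2 : ℚ) ≠ 0 := by
        have : 1 ≤ y.2 := hV.trans hv'.1
        positivity
      simp only at hxy
      rw [div_eq_div_iff hv0 hv0'] at hxy
      have h1 : x.1 * y.2 = y.1 * x.2 := by exact_mod_cast hxy
      have h2 : x.1 ∣ y.1 := by
        have : x.1 ∣ y.1 * x.2 := ⟨y.2, h1.symm⟩
        exact hcop.dvd_of_dvd_mul_right this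
      have h3 : y.1 ∣ x.1 := by
        have : y.1 ∣ x.1 * y.2 := ⟨x.2, h1⟩
        exact hcop'.dvd_of_dvd_mul_right this
      have h4 : x.1 = y.1 := Nat.dvd_antisymm h2 h3
      have h5 : x.2 = y.2 := by
        rw [h4] at h1
        have hpos : 0 < y.1 := hc'.1
        exact (Nat.eq_of_mul_eq_mul_left hpos h1).symm
      exact Prod.ext h4 h5
    · exact (Multiset.toFinset_card_le _).trans ((Polynomial.card_roots' P).trans hdeg)

end Pool.Agent.FTB
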