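import Pool.Agent.FTB.Defs

/-!
# FTB/Dgc: the product formula for the resultant and a common root

PROOF of `dgc`.  Over `ℂ` the polynomial `X ^ 3 + (2 B / (5 A)) X - J / (5 A)` splits: there are
`x1 x2 x3 : ℂ` with `x1 + x2 + x3 = 0`, `x1 x2 + x1 x3 + x2 x3 = 2 B / (5 A)`,
`x1 x2 x3 = J / (5 A)` (take a root `x1` by `IsAlgClosed`, e.g. `IsAlgClosed.exists_root` or
`Complex.exists_root`, then `x2, x3` are the roots of the quadratic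
`X ^ 2 + x1 X + (x1 ^ 2 + 2 B / (5 A))`, from a square root of its discriminant:
`IsSquare`/`IsAlgClosed.exists_pow_nat_eq`).  So `x3 = -x1 - x2`,
`B = (5 A / 2) (x1 x2 + x1 x3 + x2 x3)`, `J = 5 A x1 x2 x3`, and with
`g(x) = -B x ^ 3 - 2 J x ^ 2 + K` the identity `RF A B J K = -125 A ^ 3 g(x1) g(x2) g(x3)` holds
(substitute and `ring`).  As `A ≠ 0` one of the `g(xi)` vanishes; `f(xi) = 0` as well.
-/

set_option autoImplicit false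

namespace Pool.Agent.FTB

theorem dgc (A B J K : ℤ) (hA : A ≠ 0) (hR : RF A B J K = 0) :
    ∃ x : ℂ, -5 * (A : ℂ) * x ^ 3 - 2 * (B : ℂ) * x + (J : ℂ) = 0 ∧
      -(B : ℂ) * x ^ 3 - 2 * (J : ℂ) * x ^ 2 + (K : ℂ) = 0 := by
  have hA' : (A : ℂ) ≠ 0 := by exact_mod_cast hA
  obtain ⟨p, hp⟩ : ∃ p : ℂ, p = 2 * (B : ℂ) / (5 * (A : ℂ)) := ⟨_, rfl⟩
  obtain ⟨q, hq⟩ : ∃ q : ℂ, q = (J : ℂ) / (5 * (A : ℂ)) := ⟨_, rfl⟩
  have hB : (B : ℂ) = 5 * (A : ℂ) / 2 * p := by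
    rw [hp]
    field_simp
  have hJ : (J : ℂ) = 5 * (A : ℂ) * q := by
    rw [hq]
    field_simp
  obtain ⟨x1, h1⟩ : ∃ x : ℂ, x ^ 3 + p * x - q = 0 := by
    have hnd : (Polynomial.X ^ 3 + Polynomial.C p * Polynomial.X - Polynomial.C q :
        Polynomial ℂ).natDegree = 3 := by compute_degree!
    have hdeg : (Polynomial.X ^ 3 + Polynomial.C p * Polynomial.X - Polynomial.C q :
        Polynomial ℂ).degree ≠ 0 := by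
      intro h
      have := Polynomial.natDegree_eq_of_degree_eq_some (n := 0) (by exact_mod_cast h)
      omega
    obtain ⟨x, hx⟩ := IsAlgClosed.exists_root _ hdeg
    refine ⟨x, ?_⟩
    simpa [Polynomial.IsRoot] using hx
  obtain ⟨s, hs⟩ := IsAlgClosed.exists_pow_nat_eq (x1 ^ 2 - 4 * (x1 ^ 2 + p)) (n := 2) (by norm_num)
  obtain ⟨x2, hx2⟩ : ∃ x2 : ℂ, x2 = (-x1 + s) / 2 := ⟨_, rfl⟩
  have hpx : p = -(x1 ^ 2 + x1 * x2 + x2 ^ 2) := by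
    rw [hx2]
    linear_combination (1 / 4 : ℂ) * hs
  have hqx : q = -x1 * x2 * (x1 + x2) := by
    have : q = x1 ^ 3 + p * x1 := by linear_combination -h1
    rw [this, hpx]
    ring
  have hR' : -125 * (A : ℂ) ^ 3 * (K : ℂ) ^ 3 - 125 * (A : ℂ) ^ 2 * B * J * (K : ℂ) ^ 2 -
      75 * A * (B : ℂ) ^ 2 * (J : ℂ) ^ 2 * K + 40 * A * (J : ℂ) ^ 5 - 8 * (B : ℂ) ^ 5 * K +
      5 * (B : ℂ) ^ 3 * (J : ℂ) ^ 3 = 0 := by
    unfold RF at hR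
    exact_mod_cast hR
  have hprod : (-(B : ℂ) * x1 ^ 3 - 2 * (J : ℂ) * x1 ^ 2 + (K : ℂ)) *
      (-(B : ℂ) * x2 ^ 3 - 2 * (J : ℂ) * x2 ^ 2 + (K : ℂ)) *
      (-(B : ℂ) * (-x1 - x2) ^ 3 - 2 * (J : ℂ) * (-x1 - x2) ^ 2 + (K : ℂ)) = 0 := by
    have h3 : -125 * (A : ℂ) ^ 3 * ((-(B : ℂ) * x1 ^ 3 - 2 * (J : ℂ) * x1 ^ 2 + (K : ℂ)) *
      (-(B : ℂ) * x2 ^ 3 - 2 * (J : ℂ) * x2 ^ 2 + (K : ℂ)) *
      (-(B : ℂ) * (-x1 - x2) ^ 3 - 2 * (J : ℂ) * (-x1 - x2) ^ 2 + (K : ℂ))) = 0 := by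
      rw [← hR', hB, hJ, hpx, hqx]
      ring
    have h4 : -125 * (A : ℂ) ^ 3 ≠ 0 := mul_ne_zero (by norm_num) (pow_ne_zero _ hA')
    exact (mul_eq_zero.1 h3).resolve_left h4
  rcases mul_eq_zero.1 hprod with h | h3
  · rcases mul_eq_zero.1 h with h1' | h2'
    · refine ⟨x1, ?_, h1'⟩
      rw [hB, hJ, hpx, hqx]
      ring
    · refine ⟨x2, ?_, h2'⟩
      rw [hB, hJ, hpx, hqx]
      ring
  · refine ⟨-x1 - x2, ?_, h3⟩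
    rw [hB, hJ, hpx, hqx]
    ring

end Pool.Agent.FTB
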