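import Pool.Agent.FTB.Dgc

/-!
# FTB/Dgd: quadruples with zero resultant, `A ≠ 0`, `J ≠ 0`

PROOF of `dgd`.  Take the common root `x` of `dgc`.  `5 A g - B f` at `x`:
`-10 A J x ^ 2 + 2 B ^ 2 x + (5 A K - B J) = 0`, and `A J ≠ 0`, so `x ^ 2 = -a x - b` with rational
`a = -B ^ 2 / (5 A J)`, `b = -(5 A K - B J) / (10 A J)`.
(i) `x` is rational, `x = p / q` in lowest terms, `q ≥ 1`: multiply `f(x) = 0`, `g(x) = 0` by
`q ^ 3`: first alternative.
(ii) `x` is not rational.  Then `r x + t = 0` with `r, t` rational implies `r = t = 0`.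
`x ^ 3 = (a ^ 2 - b) x + a b`.  `f(x) = 0`: `5 A (a ^ 2 - b) + 2 B = 0` and `J = 5 A a b`.
`g(x) = 0`: `-B (a ^ 2 - b) + 2 J a = 0` and `K = B a b - 2 J b`.  Insert:
`(5/2) A ((a ^ 2 - b) ^ 2 + 4 a ^ 2 b) = 0`, i.e. `(a ^ 2 + b) ^ 2 = 0`, `b = -a ^ 2`.  So with
`σ = -a`: `B = -5 A σ ^ 2`, `J = 5 A σ ^ 3`, `K = 5 A σ ^ 5`.
-/

set_option autoImplicit false

namespace Pool.Agent.FTB

theorem dgd (A B J K : ℤ) (hA : A ≠ 0) (hJ : J ≠ 0) (hR : RF A B J K = 0) :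
    (∃ p q : ℤ, 1 ≤ q ∧ IsCoprime p q ∧ fF A B J p q = 0 ∧ gF B J K p q = 0) ∨
    (∃ σ : ℚ, (B : ℚ) = -5 * A * σ ^ 2 ∧ (J : ℚ) = 5 * A * σ ^ 3 ∧ (K : ℚ) = 5 * A * σ ^ 5) := by
  obtain ⟨x, hf, hg⟩ := dgc A B J K hA hR
  have hA' : (A : ℂ) ≠ 0 := Int.cast_ne_zero.2 hA
  have hJ' : (J : ℂ) ≠ 0 := Int.cast_ne_zero.2 hJ
  by_cases hx : ∃ t : ℚ, (t : ℂ) = x
  · left
    obtain ⟨t, rfl⟩ := hx
    have h2 : (t.num : ℚ) = t * t.den := (Rat.mul_den_eq_num t).symm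
    have h1 : -5 * (A : ℚ) * t ^ 3 - 2 * B * t + J = 0 := by exact_mod_cast hf
    have h1' : -(B : ℚ) * t ^ 3 - 2 * J * t ^ 2 + K = 0 := by exact_mod_cast hg
    refine ⟨t.num, t.den, by exact_mod_cast t.den_pos, ?_, ?_, ?_⟩
    · rw [Int.isCoprime_iff_gcd_eq_one, Int.gcd_def, Int.natAbs_natCast]
      exact t.reduced
    · have h3 : ((fF A B J t.num t.den : ℤ) : ℚ) = 0 := by
        unfold fF
        push_cast
        rw [h2]
        linear_combination (t.den : ℚ) ^ 3 * h1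
      exact_mod_cast h3
    · have h3 : ((gF B J K t.num t.den : ℤ) : ℚ) = 0 := by
        unfold gF
        push_cast
        rw [h2]
        linear_combination (t.den : ℚ) ^ 3 * h1'
      exact_mod_cast h3
  · right
    have hlin : ∀ r s : ℚ, (r : ℂ) * x + s = 0 → r = 0 ∧ s = 0 := by
      intro r s h
      have hr : r = 0 := by
        by_contra hr
        apply hx
        have hr' : (r : ℂ) ≠ 0 := by exact_mod_cast hr
        refine ⟨-s / r, ?_⟩
        push_cast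
        rw [div_eq_iff hr']
        linear_combination -h
      subst hr
      refine ⟨rfl, ?_⟩
      rw [Rat.cast_zero, zero_mul, zero_add] at h
      exact_mod_cast h
    obtain ⟨a, ha⟩ : ∃ a : ℚ, a = -(B : ℚ) ^ 2 / (5 * A * J) := ⟨_, rfl⟩
    obtain ⟨b, hb⟩ : ∃ b : ℚ, b = -(5 * A * K - B * J) / (10 * A * J) := ⟨_, rfl⟩
    have ha' : (a : ℂ) = -(B : ℂ) ^ 2 / (5 * A * J) := by
      rw [ha]; push_cast; rfl
    have hb' : (b : ℂ) = -(5 * A * K - B * J) / (10 * A * J) := by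
      rw [hb]; push_cast; rfl
    have hx2 : x ^ 2 = -(a : ℂ) * x - b := by
      have h5 : (10 * (A : ℂ) * J) * (x ^ 2 + a * x + b) = 0 := by
        have e1 : (10 * (A : ℂ) * J) * a = -2 * (B : ℂ) ^ 2 := by
          rw [ha']; field_simp; ring
        have e2 : (10 * (A : ℂ) * J) * b = -(5 * A * K - B * J) := by
          rw [hb']; field_simp
        have e3 : (10 * (A : ℂ) * J) * (x ^ 2 + a * x + b) =
            (10 * (A : ℂ) * J) * x ^ 2 + ((10 * (A : ℂ) * J) * a) * x + (10 * (A : ℂ) * J) * b := by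
          ring
        rw [e3, e1, e2]
        linear_combination (B : ℂ) * hf - 5 * (A : ℂ) * hg
      have h6 : (10 * (A : ℂ) * J) ≠ 0 := mul_ne_zero (mul_ne_zero (by norm_num) hA') hJ'
      have h7 := (mul_eq_zero.1 h5).resolve_left h6
      linear_combination h7
    have hx3 : x ^ 3 = ((a : ℂ) ^ 2 - b) * x + a * b := by
      have : x ^ 3 = x * x ^ 2 := by ring
      rw [this, hx2]
      linear_combination -(a : ℂ) * hx2
    have hf2 := hlin (-5 * A * (a ^ 2 - b) - 2 * B) (J - 5 * A * a * b) (by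
      push_cast
      linear_combination hf + 5 * (A : ℂ) * hx3)
    have hg2 := hlin (-B * (a ^ 2 - b) + 2 * J * a) (K - B * a * b + 2 * J * b) (by
      push_cast
      linear_combination hg + (B : ℂ) * hx3 + 2 * (J : ℂ) * hx2)
    obtain ⟨f1, f2⟩ := hf2
    obtain ⟨g1, g2⟩ := hg2
    have hAq : (A : ℚ) ≠ 0 := Int.cast_ne_zero.2 hA
    have hsq : (a ^ 2 + b) ^ 2 = 0 := by
      have h8 : (A : ℚ) * (a ^ 2 + b) ^ 2 = 0 := by
        linear_combination (2 / 5 : ℚ) * g1 - (1 / 5 : ℚ) * (a ^ 2 - b) * f1 - (4 / 5 : ℚ) * a * f2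
      exact (mul_eq_zero.1 h8).resolve_left hAq
    have hb3 : b = -a ^ 2 := by
      have := pow_eq_zero_iff (two_ne_zero) |>.1 hsq
      linear_combination this
    refine ⟨-a, ?_, ?_, ?_⟩
    · rw [hb3] at f1
      linear_combination (-1 / 2 : ℚ) * f1
    · rw [hb3] at f2
      linear_combination f2
    · rw [hb3] at f1 f2 g2
      linear_combination g2 + (a ^ 3 / 2) * f1 + 2 * a ^ 2 * f2

end Pool.Agent.FTB
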