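import Pool.Agent.FTB.Dgd

/-!
# FTB/Dge: the number of `(B, K)` with zero resultant for given `A ≠ 0`, `J ≠ 0`

PROOF of `dge`.  By `dgd` every such `(B, K)` is of one of two kinds.
(i) `(p, q)` with `q ≥ 1`, coprime, `fF A B J p q = 0`: `5 A p ^ 3 = q ^ 2 (-2 B p + J q)`, so
`q ∣ 5 A`; and `p ∣ J q ^ 3`, so `p ∣ J` (so `p ≠ 0`).  So there are at most `T` values of `q` and at
most `2 T` of `p` (`|5 A| ≤ Z`, `|J| ≤ Z`).  And `(p, q)` determines `B` (`2 B p q ^ 2 = ..`) and
then `K` (`K q ^ 3 = B p ^ 3 + 2 J p ^ 2 q`).  At most `2 T ^ 2` pairs `(B, K)`.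
(ii) `σ ^ 3 = J / (5 A)` determines `σ` (odd power: `Odd.strictMono_pow` /
`pow_left_injective` for odd exponents on a linearly ordered field), hence `B` and `K`: at most one.
Total `≤ 2 T ^ 2 + 1 ≤ 3 T ^ 2`.
-/

set_option autoImplicit false

namespace Pool.Agent.FTB

theorem dge (Z : ℕ) (T : ℝ) (hT : TauB Z T) (A J : ℤ) (hA : A ≠ 0) (hJ : J ≠ 0)
    (hAZ : (5 * A).natAbs ≤ Z) (hJZ : J.natAbs ≤ Z) (S : Finset (ℤ × ℤ))
    (hS : ∀ x ∈ S, RF A x.1 J x.2 = 0) : (S.card : ℝ) ≤ 3 * T ^ 2 := by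
  classical
  obtain ⟨hT1, hTd⟩ := hT
  have hAq : (A : ℚ) ≠ 0 := by exact_mod_cast hA
  set P1 : ℤ × ℤ → Prop := fun x => ∃ p q : ℤ, 1 ≤ q ∧ IsCoprime p q ∧ fF A x.1 J p q = 0 ∧
    gF x.1 J x.2 p q = 0 with hP1
  set P2 : ℤ × ℤ → Prop := fun x => ∃ σ : ℚ, (x.1 : ℚ) = -5 * A * σ ^ 2 ∧
    (J : ℚ) = 5 * A * σ ^ 3 ∧ (x.2 : ℚ) = 5 * A * σ ^ 5 with hP2
  set S1 := S.filter P1 with hS1
  set S2 := S.filter P2 with hS2
  have hsub : S ⊆ S1 ∪ S2 := by
    intro x hx
    rw [Finset.mem_union, hS1, hS2, Finset.mem_filter, Finset.mem_filter]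
    rcases dgd A x.1 J x.2 hA hJ (hS x hx) with h | h
    · exact Or.inl ⟨hx, h⟩
    · exact Or.inr ⟨hx, h⟩
  have c2 : S2.card ≤ 1 := by
    rw [Finset.card_le_one]
    intro a ha b hb
    obtain ⟨σ, a1, a2, a3⟩ := (Finset.mem_filter.1 ha).2
    obtain ⟨τ, b1, b2, b3⟩ := (Finset.mem_filter.1 hb).2
    have e3 : σ ^ 3 = τ ^ 3 := by
      have h5 : (5 * (A : ℚ)) ≠ 0 := mul_ne_zero (by norm_num) hAq
      exact mul_left_cancel₀ h5 (a2.symm.trans b2)
    have est : σ = τ := (Odd.strictMono_pow (R := ℚ) (by decide : Odd 3)).injective e3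
    subst est
    apply Prod.ext
    · exact_mod_cast (a1.trans b1.symm)
    · exact_mod_cast (a3.trans b3.symm)
  have c1 : (S1.card : ℝ) ≤ 2 * T ^ 2 := by
    set PP : Finset ℤ := (J.natAbs.divisors.image fun d : ℕ => (d : ℤ)) ∪
      (J.natAbs.divisors.image fun d : ℕ => -(d : ℤ)) with hPP
    set QQ : Finset ℤ := (5 * A).natAbs.divisors.image fun d : ℕ => (d : ℤ) with hQQ
    have cP : (PP.card : ℝ) ≤ 2 * T := by
      have h1 : PP.card ≤ J.natAbs.divisors.card + J.natAbs.divisors.card :=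
        (Finset.card_union_le _ _).trans (add_le_add Finset.card_image_le Finset.card_image_le)
      have h2 := hTd J.natAbs (Int.natAbs_pos.2 hJ) hJZ
      have h3 : (PP.card : ℝ) ≤ J.natAbs.divisors.card + J.natAbs.divisors.card := by
        exact_mod_cast h1
      linarith
    have cQ : (QQ.card : ℝ) ≤ T := by
      have h1 : QQ.card ≤ (5 * A).natAbs.divisors.card := Finset.card_image_le
      have h2 := hTd (5 * A).natAbs (Int.natAbs_pos.2 (mul_ne_zero (by norm_num) hA)) hAZ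
      exact le_trans (by exact_mod_cast h1) h2
    have main : ∀ x ∈ S1, ∃ r ∈ PP ×ˢ QQ, r.1 ≠ 0 ∧ r.2 ≠ 0 ∧ fF A x.1 J r.1 r.2 = 0 ∧
        gF x.1 J x.2 r.1 r.2 = 0 := by
      intro x hx
      obtain ⟨p, q, hq, hpq, hf, hg⟩ := (Finset.mem_filter.1 hx).2
      have hq0 : q ≠ 0 := by omega
      have hqA : q ∣ 5 * A := by
        have h1 : q ∣ 5 * A * p ^ 3 := by
          refine ⟨q * (-2 * x.1 * p + J * q), ?_⟩
          unfold fF at hf
          linear_combination -hf
        exact (hpq.symm.pow_right (n := 3)).dvd_of_dvd_mul_right h1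
      have hpJ : p ∣ J := by
        have h1 : p ∣ J * q ^ 3 := by
          refine ⟨5 * A * p ^ 2 + 2 * x.1 * q ^ 2, ?_⟩
          unfold fF at hf
          linear_combination hf
        exact (hpq.pow_right (n := 3)).dvd_of_dvd_mul_right h1
      have hp0 : p ≠ 0 := by
        rintro rfl
        exact hJ (zero_dvd_iff.1 hpJ)
      refine ⟨(p, q), ?_, hp0, hq0, hf, hg⟩
      rw [Finset.mem_product]
      refine ⟨?_, ?_⟩
      · rw [hPP, Finset.mem_union, Finset.mem_image, Finset.mem_image]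
        have hd : p.natAbs ∈ J.natAbs.divisors := by
          rw [Nat.mem_divisors]
          exact ⟨Int.natAbs_dvd_natAbs.2 hpJ, Int.natAbs_ne_zero.2 hJ⟩
        rcases Int.natAbs_eq p with h | h
        · exact Or.inl ⟨p.natAbs, hd, h.symm⟩
        · exact Or.inr ⟨p.natAbs, hd, h.symm⟩
      · rw [hQQ, Finset.mem_image]
        refine ⟨q.natAbs, ?_, ?_⟩
        · rw [Nat.mem_divisors]
          exact ⟨Int.natAbs_dvd_natAbs.2 hqA,
            Int.natAbs_ne_zero.2 (mul_ne_zero (by norm_num) hA)⟩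
        · exact Int.natAbs_of_nonneg (by omega)
    choose! r hr using main
    have h1 : S1.card ≤ (PP ×ˢ QQ).card := by
      apply Finset.card_le_card_of_injOn r
      · intro x hx
        exact (hr x hx).1
      · intro x hx y hy e
        obtain ⟨-, p0, q0, xf, xg⟩ := hr x hx
        obtain ⟨-, -, -, yf, yg⟩ := hr y hy
        rw [← e] at yf yg
        have eB : x.1 = y.1 := by
          have hne : (-2 * (r x).1 * (r x).2 ^ 2) ≠ 0 :=
            mul_ne_zero (mul_ne_zero (by norm_num) p0) (pow_ne_zero 2 q0)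
          apply mul_left_cancel₀ hne
          unfold fF at xf yf
          linear_combination xf - yf
        have eK : x.2 = y.2 := by
          apply mul_left_cancel₀ (pow_ne_zero 3 q0)
          unfold gF at xg yg
          rw [eB] at xg
          linear_combination xg - yg
        exact Prod.ext eB eK
    rw [Finset.card_product] at h1
    have h2 : (S1.card : ℝ) ≤ PP.card * QQ.card := by exact_mod_cast h1
    have h3 : (PP.card : ℝ) * QQ.card ≤ 2 * T * T :=
      mul_le_mul cP cQ (Nat.cast_nonneg _) (by linarith)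
    nlinarith
  have h1 : (S.card : ℝ) ≤ S1.card + S2.card := by
    exact_mod_cast (Finset.card_le_card hsub).trans (Finset.card_union_le _ _)
  have h2 : (S2.card : ℝ) ≤ 1 := by exact_mod_cast c2
  nlinarith

end Pool.Agent.FTB
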