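import Pool.Agent.FTB.Cor

/-!
# FTB/Els: the elements attached to a class of order 5

`N = absNorm I`, `k = absNorm J`, `I I1 = (N)`, `J J1 = (k)`, `absNorm J1 = k`.

PROOF of `els1`.  `mk0 (I ^ 2 * J1) = A ^ 2 * (A ^ 2)⁻¹ = 1`, so `I ^ 2 * J1` is principal
(`ClassGroup.mk0_eq_one_iff`), `= span {β}`; coordinates `(b, c)` of `β` (`co_exists`); replacing
`β` by `-β` (`co_neg`, `Ideal.span_singleton_neg`) we get `0 ≤ c`.  Similarly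
`mk0 (J ^ 2 * I) = A ^ 5 = 1`, `J ^ 2 * I = span {γ}`, coordinates `(κ, v)`, `0 ≤ v`.
`co_conj` gives `βc` with coordinates `(b, -c)` and `β βc = absNorm (span {β}) = N ^ 2 k` (norm is
multiplicative, `absNorm J1 = k`).  So `span {β} * span {βc} = span {N} ^ 2 * span {k} =
(I I1) ^ 2 (J J1) = (I ^ 2 J1) (I1 ^ 2 J)`, and cancelling `span {β}` (`mul_left_cancel₀`)
`span {βc} = I1 ^ 2 * J`.
PROOF of `els2`.  `span {β γ} = I ^ 2 J1 J ^ 2 I = span {k} * (I ^ 3 J) ≤ span {k}`, so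
`β γ = k δ1`, and `span {δ1} = I ^ 3 J` by cancelling `span {k}` (`k ≠ 0`).
`span {βc γ} = I1 ^ 2 J J ^ 2 I = span {N} * (I1 J ^ 3)`: `βc γ = N δ2`, `span {δ2} = I1 J ^ 3`.
`span {δ1 β} = I ^ 3 J I ^ 2 J1 = span {k} I ^ 5`: `δ1 β = k α`, `span {α} = I ^ 5`.
`span {δ2 γ} = I1 J ^ 3 J ^ 2 I = span {N} J ^ 5`: `δ2 γ = N α2`, `span {α2} = J ^ 5`.
-/

set_option autoImplicit false

namespace Pool.Agent.FTB

open NumberField Pool.Agent.FTA nonZeroDivisors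

private theorem els_div (K : IntermediateField ℚ ℂ) [NumberField K] (x n : 𝓞 K)
    (P : Ideal (𝓞 K)) (hn : n ≠ 0) (h : Ideal.span {x} = Ideal.span {n} * P) :
    ∃ d : 𝓞 K, n * d = x ∧ Ideal.span {d} = P := by
  have h1 : x ∈ Ideal.span {n} := by
    have h2 : x ∈ Ideal.span {n} * P := by
      rw [← h]
      exact Ideal.mem_span_singleton_self x
    exact (Ideal.mul_le_left : Ideal.span {n} * P ≤ Ideal.span {n}) h2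
  obtain ⟨d, hd⟩ := Ideal.mem_span_singleton.1 h1
  refine ⟨d, hd.symm, ?_⟩
  rw [hd, ← Ideal.span_singleton_mul_span_singleton] at h
  have hn' : Ideal.span {n} ≠ 0 := by
    rw [Ne, Ideal.zero_eq_bot, Ideal.span_singleton_eq_bot]
    exact hn
  exact mul_left_cancel₀ hn' h

private theorem els_gen (K : IntermediateField ℚ ℂ) [NumberField K]
    (h2 : Module.finrank ℚ K = 2) (him : ∃ x : K, (x : ℂ).im ≠ 0) (P : (Ideal (𝓞 K))⁰)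
    (hP : ClassGroup.mk0 P = 1) :
    ∃ (β : 𝓞 K) (b c : ℤ), Co K β b c ∧ 0 ≤ c ∧ (P : Ideal (𝓞 K)) = Ideal.span {β} ∧
      b ^ 2 + (aD K : ℤ) * c ^ 2 = 4 * (Ideal.absNorm (P : Ideal (𝓞 K)) : ℤ) := by
  have h1 : (P : Ideal (𝓞 K)).IsPrincipal := (ClassGroup.mk0_eq_one_iff P.2).1 hP
  obtain ⟨β, hβ⟩ := h1
  rw [← Ideal.span] at hβ
  obtain ⟨b, c, hbc⟩ := co_exists K h2 him β
  have h3 := co_norm K h2 him β b c hbc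
  rw [← hβ] at h3
  rcases le_total 0 c with h | h
  · exact ⟨β, b, c, hbc, h, hβ, h3.symm⟩
  · refine ⟨-β, -b, -c, co_neg K β b c hbc, by linarith, ?_, ?_⟩
    · rw [hβ, Ideal.span_singleton_neg]
    · rw [h3]
      ring

theorem els1 (K : IntermediateField ℚ ℂ) [NumberField K] (h2 : Module.finrank ℚ K = 2)
    (him : ∃ x : K, (x : ℂ).im ≠ 0) (A : ClassGroup (𝓞 K)) (hA : A ^ 5 = 1)
    (I J I1 J1 : (Ideal (𝓞 K))⁰) (hI : ClassGroup.mk0 I = A) (hJ : ClassGroup.mk0 J = A ^ 2)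
    (N k : ℕ) (hN : Ideal.absNorm (I : Ideal (𝓞 K)) = N)
    (hk : Ideal.absNorm (J : Ideal (𝓞 K)) = k)
    (hI1 : (I : Ideal (𝓞 K)) * (I1 : Ideal (𝓞 K)) = Ideal.span {(N : 𝓞 K)})
    (hJ1 : (J : Ideal (𝓞 K)) * (J1 : Ideal (𝓞 K)) = Ideal.span {(k : 𝓞 K)})
    (hk1 : Ideal.absNorm (J1 : Ideal (𝓞 K)) = k)
    (hJc : ClassGroup.mk0 J1 = (ClassGroup.mk0 J)⁻¹) :
    ∃ (β βc γ : 𝓞 K) (b c κ v : ℤ), Co K β b c ∧ Co K βc b (-c) ∧ Co K γ κ v ∧ 0 ≤ c ∧ 0 ≤ v ∧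
      (I : Ideal (𝓞 K)) ^ 2 * (J1 : Ideal (𝓞 K)) = Ideal.span {β} ∧
      (I1 : Ideal (𝓞 K)) ^ 2 * (J : Ideal (𝓞 K)) = Ideal.span {βc} ∧
      (J : Ideal (𝓞 K)) ^ 2 * (I : Ideal (𝓞 K)) = Ideal.span {γ} ∧
      b ^ 2 + (aD K : ℤ) * c ^ 2 = 4 * (N : ℤ) ^ 2 * k ∧
      κ ^ 2 + (aD K : ℤ) * v ^ 2 = 4 * (k : ℤ) ^ 2 * N := by
  have hβ1 : ClassGroup.mk0 (I ^ 2 * J1) = 1 := by
    rw [map_mul, map_pow, hJc, hJ, hI, mul_inv_cancel]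
  have hγ1 : ClassGroup.mk0 (J ^ 2 * I) = 1 := by
    rw [map_mul, map_pow, hJ, hI, ← pow_mul, ← pow_succ]
    exact hA
  obtain ⟨β, b, c, hβ, hc, hβI, hβn⟩ := els_gen K h2 him _ hβ1
  obtain ⟨γ, κ, v, hγ, hv, hγI, hγn⟩ := els_gen K h2 him _ hγ1
  obtain ⟨βc, hβc, hββ⟩ := co_conj K h2 him β b c hβ
  rw [Submonoid.coe_mul, SubmonoidClass.coe_pow] at hβI hβn hγI hγn
  have hn1 : Ideal.absNorm ((I : Ideal (𝓞 K)) ^ 2 * (J1 : Ideal (𝓞 K))) = N ^ 2 * k := by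
    rw [map_mul, map_pow, hN, hk1]
  have hn2 : Ideal.absNorm ((J : Ideal (𝓞 K)) ^ 2 * (I : Ideal (𝓞 K))) = k ^ 2 * N := by
    rw [map_mul, map_pow, hN, hk]
  refine ⟨β, βc, γ, b, c, κ, v, hβ, hβc, hγ, hc, hv, hβI, ?_, hγI, ?_, ?_⟩
  · have h0 : (I : Ideal (𝓞 K)) ^ 2 * (J1 : Ideal (𝓞 K)) ≠ 0 :=
      mul_ne_zero (pow_ne_zero _ (nonZeroDivisors.ne_zero I.2)) (nonZeroDivisors.ne_zero J1.2)
    apply mul_left_cancel₀ h0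
    have h3 : (I : Ideal (𝓞 K)) ^ 2 * (J1 : Ideal (𝓞 K)) * Ideal.span {βc} =
        Ideal.span {(N : 𝓞 K)} ^ 2 * Ideal.span {(k : 𝓞 K)} := by
      rw [hβI, Ideal.span_singleton_mul_span_singleton, hββ, ← hβI, hn1,
        Ideal.span_singleton_pow, Ideal.span_singleton_mul_span_singleton]
      push_cast
      rfl
    rw [h3, ← hI1, ← hJ1]
    ring
  · rw [hβn, hn1]
    push_cast
    ring
  · rw [hγn, hn2]
    push_cast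
    ring

theorem els2 (K : IntermediateField ℚ ℂ) [NumberField K]
    (I J I1 J1 : (Ideal (𝓞 K))⁰) (N k : ℕ) (hN : 1 ≤ N) (hk : 1 ≤ k)
    (hI1 : (I : Ideal (𝓞 K)) * (I1 : Ideal (𝓞 K)) = Ideal.span {(N : 𝓞 K)})
    (hJ1 : (J : Ideal (𝓞 K)) * (J1 : Ideal (𝓞 K)) = Ideal.span {(k : 𝓞 K)})
    (β βc γ : 𝓞 K)
    (hβ : (I : Ideal (𝓞 K)) ^ 2 * (J1 : Ideal (𝓞 K)) = Ideal.span {β})
    (hβc : (I1 : Ideal (𝓞 K)) ^ 2 * (J : Ideal (𝓞 K)) = Ideal.span {βc})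
    (hγ : (J : Ideal (𝓞 K)) ^ 2 * (I : Ideal (𝓞 K)) = Ideal.span {γ}) :
    ∃ δ1 δ2 α α2 : 𝓞 K, (k : 𝓞 K) * δ1 = β * γ ∧ (N : 𝓞 K) * δ2 = βc * γ ∧
      (k : 𝓞 K) * α = δ1 * β ∧ (N : 𝓞 K) * α2 = δ2 * γ ∧
      Ideal.span {δ1} = (I : Ideal (𝓞 K)) ^ 3 * (J : Ideal (𝓞 K)) ∧
      Ideal.span {δ2} = (I1 : Ideal (𝓞 K)) * (J : Ideal (𝓞 K)) ^ 3 ∧
      Ideal.span {α} = (I : Ideal (𝓞 K)) ^ 5 ∧ Ideal.span {α2} = (J : Ideal (𝓞 K)) ^ 5 := by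
  have hN0 : (N : 𝓞 K) ≠ 0 := by
    rw [Ne, Nat.cast_eq_zero]
    omega
  have hk0 : (k : 𝓞 K) ≠ 0 := by
    rw [Ne, Nat.cast_eq_zero]
    omega
  obtain ⟨δ1, h1, h1'⟩ := els_div K (β * γ) (k : 𝓞 K)
    ((I : Ideal (𝓞 K)) ^ 3 * (J : Ideal (𝓞 K))) hk0 (by
      rw [← Ideal.span_singleton_mul_span_singleton, ← hβ, ← hγ, ← hJ1]
      ring)
  obtain ⟨δ2, h3, h3'⟩ := els_div K (βc * γ) (N : 𝓞 K)
    ((I1 : Ideal (𝓞 K)) * (J : Ideal (𝓞 K)) ^ 3) hN0 (by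
      rw [← Ideal.span_singleton_mul_span_singleton, ← hβc, ← hγ, ← hI1]
      ring)
  obtain ⟨α, h4, h4'⟩ := els_div K (δ1 * β) (k : 𝓞 K) ((I : Ideal (𝓞 K)) ^ 5) hk0 (by
      rw [← Ideal.span_singleton_mul_span_singleton, h1', ← hβ, ← hJ1]
      ring)
  obtain ⟨α2, h5, h5'⟩ := els_div K (δ2 * γ) (N : 𝓞 K) ((J : Ideal (𝓞 K)) ^ 5) hN0 (by
      rw [← Ideal.span_singleton_mul_span_singleton, h3', ← hγ, ← hI1]
      ring)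
  exact ⟨δ1, δ2, α, α2, h1, h3, h4, h5, h1', h3', h4', h5'⟩

end Pool.Agent.FTB
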