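import Pool.Agent.FTB.Bas

/-!
# FTB/FjA: a lower bound for a geometric sum

PROOF of `fja`.  Let `τ = θ - n`, `|τ| ≤ 1 / (4 m)`.  `ex (j θ) = ex (j τ)` (`j n` is an integer,
`ex_sub_int` or `ex_add`, `ex_int`).  Multiply the sum by `ex (-τ (m - 1) / 2)`, of norm 1
(`norm_ex`): the norm of the sum is the norm of `∑ ex (τ (j - (m - 1) / 2))`, which is at least its
real part `∑ cos (2 π τ (j - (m - 1) / 2))` (`ex_re`, `Complex.re_le_norm`).  Here
`|2 π τ (j - (m - 1) / 2)| ≤ 2 π (1 / (4 m)) (m / 2) = π / 4`, so every cosine is at least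
`cos (π / 4) = √2 / 2` (`Real.cos_abs`, `Real.cos_le_cos_of_nonneg_of_le_pi`,
`Real.cos_pi_div_four`).  So the norm is at least `m √2 / 2`, and its square at least `m ^ 2 / 2`.
-/

set_option autoImplicit false

namespace Pool.Agent.FTB

theorem fja (θ : ℝ) (m : ℕ) (hm : 1 ≤ m) (h : ∃ n : ℤ, |θ - n| ≤ 1 / (4 * (m : ℝ))) :
    (m : ℝ) ^ 2 / 2 ≤ ‖∑ j ∈ Finset.range m, ex ((j : ℝ) * θ)‖ ^ 2 := by
  obtain ⟨n, hn⟩ := h
  have hmR : (1 : ℝ) ≤ (m : ℝ) := by exact_mod_cast hm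
  have hm0 : (0 : ℝ) < (m : ℝ) := by linarith
  set τ : ℝ := θ - n with hτ
  have h1 : ∀ j ∈ Finset.range m, ex (-τ * ((m : ℝ) - 1) / 2) * ex ((j : ℝ) * θ) =
      ex (τ * ((j : ℝ) - ((m : ℝ) - 1) / 2)) := by
    intro j _
    have e1 : ex ((j : ℝ) * θ) = ex ((j : ℝ) * τ) := by
      rw [← ex_sub_int ((j : ℝ) * θ) ((j : ℤ) * n)]
      congr 1
      rw [hτ]
      push_cast
      ring
    rw [e1, ← ex_add]
    congr 1
    ring
  have h2 : ‖∑ j ∈ Finset.range m, ex ((j : ℝ) * θ)‖ =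
      ‖∑ j ∈ Finset.range m, ex (τ * ((j : ℝ) - ((m : ℝ) - 1) / 2))‖ := by
    rw [← Finset.sum_congr rfl h1, ← Finset.mul_sum, norm_mul, norm_ex, one_mul]
  have h3 : (m : ℝ) * (√2 / 2) ≤ ‖∑ j ∈ Finset.range m, ex ((j : ℝ) * θ)‖ := by
    rw [h2]
    refine le_trans ?_ (Complex.re_le_norm _)
    rw [Complex.re_sum]
    have h4 : ∀ j ∈ Finset.range m,
        √2 / 2 ≤ (ex (τ * ((j : ℝ) - ((m : ℝ) - 1) / 2))).re := by
      intro j hj
      rw [Finset.mem_range] at hj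
      have hj' : (j : ℝ) + 1 ≤ (m : ℝ) := by exact_mod_cast hj
      have hj0 : (0 : ℝ) ≤ (j : ℝ) := Nat.cast_nonneg j
      rw [ex_re, ← Real.cos_abs, ← Real.cos_pi_div_four]
      have hb : |(j : ℝ) - ((m : ℝ) - 1) / 2| ≤ (m : ℝ) / 2 := by
        rw [abs_le]
        constructor <;> linarith
      have hc : |τ * ((j : ℝ) - ((m : ℝ) - 1) / 2)| ≤ 1 / 8 := by
        rw [abs_mul]
        calc |τ| * |(j : ℝ) - ((m : ℝ) - 1) / 2| ≤ 1 / (4 * (m : ℝ)) * ((m : ℝ) / 2) :=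
              mul_le_mul hn hb (abs_nonneg _) (by positivity)
          _ = 1 / 8 := by field_simp; norm_num
      have hd : |2 * Real.pi * (τ * ((j : ℝ) - ((m : ℝ) - 1) / 2))| ≤ Real.pi / 4 := by
        rw [abs_mul, abs_of_pos (by positivity : (0 : ℝ) < 2 * Real.pi)]
        have := mul_le_mul_of_nonneg_left hc (by positivity : (0 : ℝ) ≤ 2 * Real.pi)
        linarith
      exact Real.cos_le_cos_of_nonneg_of_le_pi (abs_nonneg _) (by linarith [Real.pi_pos]) hd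
    calc (m : ℝ) * (√2 / 2) = ∑ j ∈ Finset.range m, (√2 / 2 : ℝ) := by
          rw [Finset.sum_const, Finset.card_range, nsmul_eq_mul]
      _ ≤ ∑ j ∈ Finset.range m, (ex (τ * ((j : ℝ) - ((m : ℝ) - 1) / 2))).re :=
          Finset.sum_le_sum h4
  have h5 : (m : ℝ) ^ 2 / 2 = ((m : ℝ) * (√2 / 2)) ^ 2 := by
    rw [mul_pow, div_pow, Real.sq_sqrt (by norm_num : (0 : ℝ) ≤ 2)]
    ring
  rw [h5]
  exact pow_le_pow_left₀ (by positivity) h3 2

end Pool.Agent.FTB
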