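import Pool.Agent.FTB.FjA

/-!
# FTB/FjB: counting points with `θ` close to an integer by exponential sums

PROOF of `fjb`.  By `fja`, `(m ^ 2 / 2) * card T ≤ ∑ x ∈ T, ‖∑ j ∈ range m, ex (j θ x)‖ ^ 2 ≤`
the same sum over `x ∈ S` (terms `≥ 0`).  For complex numbers `‖w‖ ^ 2 = w * conj w`, so
`∑ x ∈ S, ‖∑ j, ex (j θ x)‖ ^ 2 = ∑ i, ∑ j, ∑ x ∈ S, ex ((i - j) θ x)` (as complex numbers;
`ex_conj`, `ex_add`), so it is at most `∑ i, ∑ j, ‖∑ x ∈ S, ex ((i - j) θ x)‖` (over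
`i, j ∈ range m`).  The diagonal `i = j` gives `m * card S`.  For `i ≠ j` the norm depends only on
`d = |i - j| ∈ [1, m)` (for `i < j` the sum is the complex conjugate), and for given `i` and `d`
there are at most 2 such `j`; so the rest is at most
`m * (2 ∑ d ∈ Ico 1 m, ‖∑ x ∈ S, ex (d θ x)‖)`.  Divide by `m ^ 2 / 2`.
(Convenient: for fixed `i`, `∑ j ∈ range m, F |i - j| ≤ F 0 + 2 ∑ d ∈ Ico 1 m, F d` for `F ≥ 0`:
split `j < i`, `j = i`, `j > i` and inject `j ↦ i - j`, `j ↦ j - i` into `Ico 1 m`.)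
-/

set_option autoImplicit false

namespace Pool.Agent.FTB

private theorem FjB_row (F : ℕ → ℝ) (hF : ∀ d, 0 ≤ F d) (m i : ℕ) (hi : i < m) :
    ∑ j ∈ Finset.range m, (if j ≤ i then F (i - j) else F (j - i)) ≤
      F 0 + 2 * ∑ d ∈ Finset.Ico 1 m, F d := by
  have h1 : ∑ j ∈ Finset.range m, (if j ≤ i then F (i - j) else F (j - i)) =
      ∑ j ∈ Finset.range (i + 1), F (i - j) + ∑ j ∈ Finset.Ico (i + 1) m, F (j - i) := by
    rw [← Finset.sum_range_add_sum_Ico _ (by omega : i + 1 ≤ m)]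
    congr 1
    · refine Finset.sum_congr rfl fun j hj => ?_
      rw [if_pos (by have := Finset.mem_range.1 hj; omega)]
    · refine Finset.sum_congr rfl fun j hj => ?_
      rw [if_neg (by have := Finset.mem_Ico.1 hj; omega)]
  have h2 : ∑ j ∈ Finset.range (i + 1), F (i - j) = ∑ d ∈ Finset.range (i + 1), F d := by
    have := Finset.sum_range_reflect F (i + 1)
    rw [← this]
    refine Finset.sum_congr rfl fun j hj => ?_
    congr 1
  have h3 : ∑ d ∈ Finset.range (i + 1), F d ≤ F 0 + ∑ d ∈ Finset.Ico 1 m, F d := by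
    have e : ∑ d ∈ Finset.range m, F d = F 0 + ∑ d ∈ Finset.Ico 1 m, F d := by
      rw [← Finset.sum_range_add_sum_Ico F (by omega : 1 ≤ m), Finset.sum_range_one]
    rw [← e]
    exact Finset.sum_le_sum_of_subset_of_nonneg (Finset.range_mono (by omega))
      (fun d _ _ => hF d)
  have h4 : ∑ j ∈ Finset.Ico (i + 1) m, F (j - i) ≤ ∑ d ∈ Finset.Ico 1 m, F d := by
    have e : ∑ j ∈ Finset.Ico (i + 1) m, F (j - i) = ∑ d ∈ Finset.Ico 1 (m - i), F d := by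
      refine Finset.sum_bij' (fun j _ => j - i) (fun d _ => d + i) ?_ ?_ ?_ ?_ ?_
      · intro j hj
        have := Finset.mem_Ico.1 hj
        rw [Finset.mem_Ico]
        omega
      · intro d hd
        have := Finset.mem_Ico.1 hd
        rw [Finset.mem_Ico]
        omega
      · intro j hj
        have := Finset.mem_Ico.1 hj
        omega
      · intro d hd
        omega
      · intro j hj
        rfl
    rw [e]
    refine Finset.sum_le_sum_of_subset_of_nonneg ?_ (fun d _ _ => hF d)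
    intro d hd
    have := Finset.mem_Ico.1 hd
    rw [Finset.mem_Ico]
    omega
  rw [h1, h2]
  linarith

private theorem FjB_norm {α : Type*} (S : Finset α) (θ : α → ℝ) (i j : ℕ) :
    ‖∑ x ∈ S, ex ((i : ℝ) * θ x) * (starRingEnd ℂ) (ex ((j : ℝ) * θ x))‖ =
      if j ≤ i then ‖∑ x ∈ S, ex (((i - j : ℕ) : ℝ) * θ x)‖
      else ‖∑ x ∈ S, ex (((j - i : ℕ) : ℝ) * θ x)‖ := by
  split_ifs with h
  · congr 1
    refine Finset.sum_congr rfl fun x _ => ?_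
    rw [ex_conj, ← ex_add]
    congr 1
    rw [Nat.cast_sub h]
    ring
  · have h' : i ≤ j := by omega
    rw [← Complex.norm_conj, map_sum]
    congr 1
    refine Finset.sum_congr rfl fun x _ => ?_
    rw [map_mul, Complex.conj_conj, ex_conj, ← ex_add]
    congr 1
    rw [Nat.cast_sub h']
    ring

theorem fjb {α : Type*} (S T : Finset α) (θ : α → ℝ) (m : ℕ) (hm : 1 ≤ m) (hTS : T ⊆ S)
    (hT : ∀ x ∈ T, ∃ n : ℤ, |θ x - n| ≤ 1 / (4 * (m : ℝ))) :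
    (T.card : ℝ) ≤ 2 / (m : ℝ) *
      ((S.card : ℝ) + 2 * ∑ j ∈ Finset.Ico 1 m, ‖∑ x ∈ S, ex ((j : ℝ) * θ x)‖) := by
  classical
  have hm0 : (0 : ℝ) < m := by exact_mod_cast hm
  set F : ℕ → ℝ := fun d => ‖∑ x ∈ S, ex ((d : ℝ) * θ x)‖ with hF
  have hF0 : F 0 = (S.card : ℝ) := by
    simp only [hF, Nat.cast_zero, zero_mul, ex_zero, Finset.sum_const, nsmul_eq_mul, mul_one]
    rw [Complex.norm_natCast]
  have h1 : (m : ℝ) ^ 2 / 2 * (T.card : ℝ) ≤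
      ∑ x ∈ S, ‖∑ j ∈ Finset.range m, ex ((j : ℝ) * θ x)‖ ^ 2 := by
    calc (m : ℝ) ^ 2 / 2 * (T.card : ℝ) = ∑ x ∈ T, (m : ℝ) ^ 2 / 2 := by
          rw [Finset.sum_const, nsmul_eq_mul, mul_comm]
      _ ≤ ∑ x ∈ T, ‖∑ j ∈ Finset.range m, ex ((j : ℝ) * θ x)‖ ^ 2 :=
          Finset.sum_le_sum fun x hx => fja (θ x) m hm (hT x hx)
      _ ≤ _ := Finset.sum_le_sum_of_subset_of_nonneg hTS (fun x _ _ => by positivity)
  have h2 : ∑ x ∈ S, ‖∑ j ∈ Finset.range m, ex ((j : ℝ) * θ x)‖ ^ 2 ≤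
      ∑ i ∈ Finset.range m, ∑ j ∈ Finset.range m,
        ‖∑ x ∈ S, ex ((i : ℝ) * θ x) * (starRingEnd ℂ) (ex ((j : ℝ) * θ x))‖ := by
    have e : ((∑ x ∈ S, ‖∑ j ∈ Finset.range m, ex ((j : ℝ) * θ x)‖ ^ 2 : ℝ) : ℂ) =
        ∑ i ∈ Finset.range m, ∑ j ∈ Finset.range m,
          ∑ x ∈ S, ex ((i : ℝ) * θ x) * (starRingEnd ℂ) (ex ((j : ℝ) * θ x)) := by
      have e1 : ∀ x, ((‖∑ j ∈ Finset.range m, ex ((j : ℝ) * θ x)‖ ^ 2 : ℝ) : ℂ) =
          ∑ i ∈ Finset.range m, ∑ j ∈ Finset.range m,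
            ex ((i : ℝ) * θ x) * (starRingEnd ℂ) (ex ((j : ℝ) * θ x)) := by
        intro x
        rw [← Finset.sum_mul_sum, ← map_sum, Complex.mul_conj']
        push_cast
        rfl
      rw [Complex.ofReal_sum, Finset.sum_congr rfl (fun x _ => e1 x), Finset.sum_comm]
      refine Finset.sum_congr rfl fun i _ => ?_
      rw [Finset.sum_comm]
    have h0 : 0 ≤ ∑ x ∈ S, ‖∑ j ∈ Finset.range m, ex ((j : ℝ) * θ x)‖ ^ 2 :=
      Finset.sum_nonneg fun x _ => by positivity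
    have e2 : ∑ x ∈ S, ‖∑ j ∈ Finset.range m, ex ((j : ℝ) * θ x)‖ ^ 2 =
        ‖((∑ x ∈ S, ‖∑ j ∈ Finset.range m, ex ((j : ℝ) * θ x)‖ ^ 2 : ℝ) : ℂ)‖ := by
      rw [Complex.norm_real, Real.norm_of_nonneg h0]
    rw [e2, e]
    refine (norm_sum_le _ _).trans (Finset.sum_le_sum fun i _ => ?_)
    exact norm_sum_le _ _
  have h3 : ∑ i ∈ Finset.range m, ∑ j ∈ Finset.range m,
        ‖∑ x ∈ S, ex ((i : ℝ) * θ x) * (starRingEnd ℂ) (ex ((j : ℝ) * θ x))‖ ≤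
      (m : ℝ) * (F 0 + 2 * ∑ d ∈ Finset.Ico 1 m, F d) := by
    calc _ = ∑ i ∈ Finset.range m, ∑ j ∈ Finset.range m,
          (if j ≤ i then F (i - j) else F (j - i)) :=
          Finset.sum_congr rfl fun i _ => Finset.sum_congr rfl fun j _ => FjB_norm S θ i j
      _ ≤ ∑ i ∈ Finset.range m, (F 0 + 2 * ∑ d ∈ Finset.Ico 1 m, F d) :=
          Finset.sum_le_sum fun i hi =>
            FjB_row F (fun d => norm_nonneg _) m i (Finset.mem_range.1 hi)
      _ = _ := by rw [Finset.sum_const, Finset.card_range, nsmul_eq_mul]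
  have h4 := h1.trans (h2.trans h3)
  rw [hF0] at h4
  have h5 : (m : ℝ) * ((m : ℝ) / 2 * (T.card : ℝ)) ≤
      (m : ℝ) * ((S.card : ℝ) + 2 * ∑ d ∈ Finset.Ico 1 m, F d) := by
    calc (m : ℝ) * ((m : ℝ) / 2 * (T.card : ℝ)) = (m : ℝ) ^ 2 / 2 * (T.card : ℝ) := by ring
      _ ≤ _ := h4
  have h6 := le_of_mul_le_mul_left h5 hm0
  have h7 : (T.card : ℝ) = 2 / (m : ℝ) * ((m : ℝ) / 2 * (T.card : ℝ)) := by
    field_simp
  rw [h7]
  exact mul_le_mul_of_nonneg_left h6 (by positivity)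

end Pool.Agent.FTB
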