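import Pool.Agent.FTB.DefsI

/-!
# FTB/FmT: the sum over the fields

PROOF of `fmT`.  As `famSum` in Pool/Agent/FTA/Fam.lean: `IQ X` is finite (`famFin`) with at most `X`
elements (`famCard`).  Choose `A1 K`, `A2 K` for every `K ∈ IQ X`.  The sets
`{(aD K, a) : a ∈ A1 K}` are disjoint for different `K ∈ IQ X` (`aD` is injective on `IQ X`: `uniq`);
let `S` be their union: `card S = ∑ K, card (A1 K) ≤ B1`.  The same for `A2`.  So
`∑ K, n K ≤ ∑ K, (1 + 2 card (A1 K) + card (A2 K)) ≤ X + 2 B1 + B2`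
(`finsum_mem_eq_finite_toFinset_sum`).
-/

set_option autoImplicit false

namespace Pool.Agent.FTB

open NumberField Pool.Agent.FTA nonZeroDivisors

private theorem FmT_inj (X : ℕ) : Set.InjOn aD (IQ X) := by
  rintro K ⟨hK, h2, him, _⟩ K' ⟨hK', h2', him', _⟩ h
  exact uniq K K' h2 him h2' him' h

private theorem FmT_le (X : ℕ) : ∀ K ∈ IQ X, aD K ≤ X := by
  rintro K ⟨hK, h2, him, hX⟩
  exact hX

private theorem FmT_sum {α : Type} (X : ℕ) (Q : ℕ → α → Prop)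
    (A : IntermediateField ℚ ℂ → Finset α) (hA : ∀ K ∈ IQ X, ∀ a ∈ A K, Q (aD K) a) (B : ℝ)
    (hB : ∀ S : Finset (ℕ × α), (∀ q ∈ S, q.1 ≤ X ∧ Q q.1 q.2) → (S.card : ℝ) ≤ B) :
    ∑ K ∈ (famFin X).toFinset, ((A K).card : ℝ) ≤ B := by
  classical
  have hmem : ∀ K, K ∈ (famFin X).toFinset ↔ K ∈ IQ X := fun K => Set.Finite.mem_toFinset _
  let S : IntermediateField ℚ ℂ → Finset (ℕ × α) := fun K => (A K).image (fun a => (aD K, a))
  have hS : ∀ K, (S K).card = (A K).card := by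
    intro K
    apply Finset.card_image_of_injective
    intro a a' h
    exact (Prod.ext_iff.1 h).2
  have h5 : (((famFin X).toFinset.biUnion S).card : ℝ) = ∑ K ∈ (famFin X).toFinset,
      ((A K).card : ℝ) := by
    rw [Finset.card_biUnion]
    · push_cast
      exact Finset.sum_congr rfl fun K _ => by rw [hS K]
    · intro K hK K' hK' hne
      apply Finset.disjoint_left.2
      intro q hq hq'
      apply hne
      have i1 := (hmem K).1 (Finset.mem_coe.1 hK)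
      have i2 := (hmem K').1 (Finset.mem_coe.1 hK')
      obtain ⟨a, _, rfl⟩ := Finset.mem_image.1 hq
      obtain ⟨a', _, h⟩ := Finset.mem_image.1 hq'
      exact FmT_inj X i1 i2 (Prod.ext_iff.1 h).1.symm
  rw [← h5]
  apply hB
  intro q hq
  obtain ⟨K, hK, hqK⟩ := Finset.mem_biUnion.1 hq
  obtain ⟨a, ha, rfl⟩ := Finset.mem_image.1 hqK
  have i1 := (hmem K).1 hK
  exact ⟨FmT_le X K i1, hA K i1 a ha⟩

theorem fmT {α β : Type} (X : ℕ) (Q1 : ℕ → α → Prop) (Q2 : ℕ → β → Prop)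
    (n : IntermediateField ℚ ℂ → ℕ)
    (hn : ∀ K ∈ IQ X, ∃ (A1 : Finset α) (A2 : Finset β), (∀ a ∈ A1, Q1 (aD K) a) ∧
      (∀ a ∈ A2, Q2 (aD K) a) ∧ n K ≤ 1 + 2 * A1.card + A2.card) (B1 B2 : ℝ)
    (hB1 : ∀ S : Finset (ℕ × α), (∀ q ∈ S, q.1 ≤ X ∧ Q1 q.1 q.2) → (S.card : ℝ) ≤ B1)
    (hB2 : ∀ S : Finset (ℕ × β), (∀ q ∈ S, q.1 ≤ X ∧ Q2 q.1 q.2) → (S.card : ℝ) ≤ B2) :
    ∑ᶠ K ∈ IQ X, (n K : ℝ) ≤ X + 2 * B1 + B2 := by
  classical
  rw [finsum_mem_eq_finite_toFinset_sum _ (famFin X)]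
  have hloc : ∀ K : IntermediateField ℚ ℂ, ∃ (A1 : Finset α) (A2 : Finset β), K ∈ IQ X →
      (∀ a ∈ A1, Q1 (aD K) a) ∧ (∀ a ∈ A2, Q2 (aD K) a) ∧ n K ≤ 1 + 2 * A1.card + A2.card := by
    intro K
    by_cases hK : K ∈ IQ X
    · obtain ⟨A1, A2, hA⟩ := hn K hK
      exact ⟨A1, A2, fun _ => hA⟩
    · exact ⟨∅, ∅, fun h => absurd h hK⟩
  choose A1 A2 hA using hloc
  have hmem : ∀ K, K ∈ (famFin X).toFinset ↔ K ∈ IQ X := fun K => Set.Finite.mem_toFinset _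
  have h1 : ∑ K ∈ (famFin X).toFinset, (n K : ℝ) ≤
      ∑ K ∈ (famFin X).toFinset, (1 + 2 * ((A1 K).card : ℝ) + ((A2 K).card : ℝ)) := by
    apply Finset.sum_le_sum
    intro K hK
    have h2 := (hA K ((hmem K).1 hK)).2.2
    exact_mod_cast h2
  have h3 : ((famFin X).toFinset.card : ℝ) ≤ X := by
    have h4 := famCard X
    rw [Set.ncard_eq_toFinset_card _ (famFin X)] at h4
    exact_mod_cast h4
  have h4 := FmT_sum X Q1 A1 (fun K hK => (hA K hK).1) B1 hB1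
  have h5 := FmT_sum X Q2 A2 (fun K hK => (hA K hK).2.1) B2 hB2
  rw [Finset.sum_add_distrib, Finset.sum_add_distrib, Finset.sum_const, nsmul_eq_mul, mul_one,
    ← Finset.mul_sum] at h1
  linarith

end Pool.Agent.FTB
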