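import Pool.Agent.FTB.CMn

/-!
# FTB/GIa: a common prime factor is ramified

PROOF of `gia`.  `absNorm (span {p}) = p ^ 2` (`nrm_nat`).  Take a maximal ideal `P ≥ span {p}`;
`span {p} = P * Q`.  `absNorm P` divides `p ^ 2` and is not 1.
(1) `absNorm P = p ^ 2`: then `absNorm Q = 1`, `Q = ⊤`, `span {p} = P` is prime, and
`J ^ 2 * I ≤ P` gives `J ≤ P` or `I ≤ P`, a contradiction.
(2) `absNorm P = p = absNorm Q`; `Q` is prime (`Ideal.isPrime_of_irreducible_absNorm`).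
(2a) `P = Q`, `span {p} = P ^ 2`.  If `¬ J ≤ P`, then from `P ^ 2 ∣ J ^ 2 * I` and `P` prime,
`P ^ 2 ∣ I` (e.g. `Prime.pow_dvd_of_dvd_mul_left`), i.e. `I ≤ span {p}`, a contradiction; so
`J ≤ P`.  If `¬ I ≤ P`, then `P ^ 2 ∣ J1`, a contradiction to `hJ1p`; so `I ≤ P`.  `J ≤ P` gives
`(k : 𝓞 K) ∈ P` (as `k ∈ span {k} = J * J1 ≤ J`), so `p ∣ k` (otherwise `1 ∈ P`, since
`p ∈ P`), so `J * J1 = span {k} ≤ span {p} = P ^ 2`; if `¬ J1 ≤ P` then `P ^ 2 ∣ J`, a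
contradiction; so `J1 ≤ P`.
(2b) `P ≠ Q`: both are maximal, `X ≤ P` and `X ≤ Q` imply `X ≤ P * Q = span {p}` (coprime ideals:
`Ideal.mul_eq_inf_of_coprime` or distinct primes dividing `X`).  So none of `I, J, J1` is
contained in both.  `J ^ 2 * I ≤ P`, so `J ≤ P` or `I ≤ P`; `J ^ 2 * I ≤ Q`, so `J ≤ Q` or `I ≤ Q`.
So (`J ≤ P`, `I ≤ Q`, `¬ J ≤ Q`, `¬ I ≤ P`) or the same with `P, Q` exchanged; by symmetry the
first.  `I ^ 2 * J1 ≤ P` and `¬ I ≤ P` give `J1 ≤ P`, so `¬ J1 ≤ Q`.  As above `J ≤ P` gives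
`p ∣ k`, so `J * J1 = span {k} ≤ span {p} ≤ Q`, so `J ≤ Q` or `J1 ≤ Q`, a contradiction.
-/

set_option autoImplicit false

namespace Pool.Agent.FTB

open NumberField Pool.Agent.FTA nonZeroDivisors

theorem gia (K : IntermediateField ℚ ℂ) [NumberField K] (h2 : Module.finrank ℚ K = 2)
    (p : ℕ) (hp : p.Prime) (I J J1 : (Ideal (𝓞 K))⁰) (k : ℕ) (hk : 1 ≤ k)
    (hJ1 : (J : Ideal (𝓞 K)) * (J1 : Ideal (𝓞 K)) = Ideal.span {(k : 𝓞 K)})
    (hIp : ¬ (I : Ideal (𝓞 K)) ≤ Ideal.span {(p : 𝓞 K)})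
    (hJp : ¬ (J : Ideal (𝓞 K)) ≤ Ideal.span {(p : 𝓞 K)})
    (hJ1p : ¬ (J1 : Ideal (𝓞 K)) ≤ Ideal.span {(p : 𝓞 K)})
    (hg : (J : Ideal (𝓞 K)) ^ 2 * (I : Ideal (𝓞 K)) ≤ Ideal.span {(p : 𝓞 K)})
    (hb : (I : Ideal (𝓞 K)) ^ 2 * (J1 : Ideal (𝓞 K)) ≤ Ideal.span {(p : 𝓞 K)}) :
    ∃ P : Ideal (𝓞 K), P.IsPrime ∧ Ideal.span {(p : 𝓞 K)} = P ^ 2 ∧ Ideal.absNorm P = p ∧
      (I : Ideal (𝓞 K)) ≤ P ∧ (J : Ideal (𝓞 K)) ≤ P ∧ (J1 : Ideal (𝓞 K)) ≤ P := by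
  set S : Ideal (𝓞 K) := Ideal.span {(p : 𝓞 K)} with hS
  have hSn : Ideal.absNorm S = p ^ 2 := nrm_nat K h2 p
  have hp1 : 1 < p := hp.one_lt
  have hS1 : S ≠ ⊤ := by
    intro h
    rw [h, Ideal.absNorm_top] at hSn
    nlinarith
  have hS0 : S ≠ ⊥ := by
    intro h
    rw [h, Ideal.absNorm_bot] at hSn
    nlinarith
  have hpS : (p : 𝓞 K) ∈ S := Ideal.mem_span_singleton_self _
  -- `J ≤ X` for a prime ideal `X ≥ S` gives `J * J1 ≤ S`
  have hkS : ∀ X : Ideal (𝓞 K), X.IsPrime → S ≤ X → (J : Ideal (𝓞 K)) ≤ X →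
      (J : Ideal (𝓞 K)) * (J1 : Ideal (𝓞 K)) ≤ S := by
    intro X hX hSX hJX
    have hkX : (k : 𝓞 K) ∈ X := by
      apply hJX
      apply Ideal.mul_le_left (I := (J : Ideal (𝓞 K))) (J := (J1 : Ideal (𝓞 K)))
      rw [hJ1]
      exact Ideal.mem_span_singleton_self _
    have hpk : p ∣ k := by
      by_contra hn
      have hcop : Nat.Coprime p k := (Nat.Prime.coprime_iff_not_dvd hp).mpr hn
      have hcop' : IsCoprime ((p : ℕ) : ℤ) ((k : ℕ) : ℤ) := Nat.isCoprime_iff_coprime.mpr hcop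
      obtain ⟨a, b, hab⟩ := hcop'
      have h1 : (1 : 𝓞 K) ∈ X := by
        have e1 : (1 : 𝓞 K) = (a : 𝓞 K) * (p : 𝓞 K) + (b : 𝓞 K) * (k : 𝓞 K) := by
          have := congrArg (fun t : ℤ => (t : 𝓞 K)) hab
          push_cast at this
          exact this.symm
        rw [e1]
        exact X.add_mem (X.mul_mem_left _ (hSX hpS)) (X.mul_mem_left _ hkX)
      exact hX.ne_top ((Ideal.eq_top_iff_one X).mpr h1)
    rw [hJ1, Ideal.span_singleton_le_iff_mem, hS, Ideal.mem_span_singleton]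
    obtain ⟨c, rfl⟩ := hpk
    exact ⟨(c : 𝓞 K), by push_cast; ring⟩
  have hsq : ∀ X Y Z : Ideal (𝓞 K), X.IsPrime → Y ^ 2 * Z ≤ X → Y ≤ X ∨ Z ≤ X := by
    intro X Y Z hX h
    rcases hX.mul_le.mp h with h | h
    · left
      exact (Ideal.IsPrime.pow_le_iff (hP := hX) two_ne_zero).mp h
    · exact Or.inr h
  obtain ⟨P, hPm, hSP⟩ := Ideal.exists_le_maximal S hS1
  have hPp : P.IsPrime := hPm.isPrime
  obtain ⟨Q, hQ⟩ := Ideal.dvd_iff_le.mpr hSP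
  have hP0 : P ≠ ⊥ := by
    intro h
    apply hS0
    rw [hQ, h]
    exact Ideal.bot_mul _
  have hPrime : Prime P := Ideal.prime_of_isPrime hP0 hPp
  have hPn1 : Ideal.absNorm P ≠ 1 := fun h => hPm.ne_top (Ideal.absNorm_eq_one_iff.mp h)
  have hmul : Ideal.absNorm P * Ideal.absNorm Q = p ^ 2 := by
    rw [← map_mul, ← hQ, hSn]
  obtain ⟨i, hi2, hi⟩ := (Nat.dvd_prime_pow hp).mp (Dvd.intro _ hmul)
  have hi0 : i ≠ 0 := by
    rintro rfl
    exact hPn1 (by rw [hi, pow_zero])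
  have hi' : i = 1 ∨ i = 2 := by omega
  rcases hi' with rfl | rfl
  swap
  · -- `absNorm P = p ^ 2`
    exfalso
    rw [hi] at hmul
    have hQ1 : Ideal.absNorm Q = 1 := by
      have hpp : 0 < p ^ 2 := by positivity
      exact Nat.eq_of_mul_eq_mul_left hpp (by rw [hmul, mul_one])
    have hQt : Q = ⊤ := Ideal.absNorm_eq_one_iff.mp hQ1
    have hSP' : S = P := by rw [hQ, hQt, Ideal.mul_top]
    rcases hsq S _ _ (hSP' ▸ hPp) hg with h | h
    · exact hJp h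
    · exact hIp h
  rw [pow_one] at hi
  have hQn : Ideal.absNorm Q = p := by
    rw [hi, pow_two] at hmul
    exact Nat.eq_of_mul_eq_mul_left (by omega) hmul
  have hQp : Q.IsPrime := by
    apply Ideal.isPrime_of_irreducible_absNorm
    rw [hQn]
    exact hp
  by_cases hPQ : P = Q
  · -- ramified
    have hSP2 : S = P ^ 2 := by rw [hQ, ← hPQ, pow_two]
    have hJP : (J : Ideal (𝓞 K)) ≤ P := by
      by_contra hn
      apply hIp
      rw [hSP2] at hg ⊢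
      apply Ideal.dvd_iff_le.mp
      refine hPrime.pow_dvd_of_dvd_mul_left 2 ?_ (Ideal.dvd_iff_le.mpr hg)
      intro h
      exact hn (Ideal.dvd_iff_le.mp (hPrime.dvd_of_dvd_pow h))
    have hIP : (I : Ideal (𝓞 K)) ≤ P := by
      by_contra hn
      apply hJ1p
      rw [hSP2] at hb ⊢
      apply Ideal.dvd_iff_le.mp
      refine hPrime.pow_dvd_of_dvd_mul_left 2 ?_ (Ideal.dvd_iff_le.mpr hb)
      intro h
      exact hn (Ideal.dvd_iff_le.mp (hPrime.dvd_of_dvd_pow h))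
    have hJ1P : (J1 : Ideal (𝓞 K)) ≤ P := by
      by_contra hn
      apply hJp
      have h1 := hkS P hPp hSP hJP
      rw [hSP2] at h1 ⊢
      apply Ideal.dvd_iff_le.mp
      refine hPrime.pow_dvd_of_dvd_mul_right 2 ?_ (Ideal.dvd_iff_le.mpr h1)
      intro h
      exact hn (Ideal.dvd_iff_le.mp h)
    exact ⟨P, hPp, hSP2, hi, hIP, hJP, hJ1P⟩
  · exfalso
    have hSQ : S ≤ Q := by
      rw [hQ]
      exact Ideal.mul_le_right
    have hQ0 : Q ≠ ⊥ := by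
      intro h
      apply hS0
      rw [hQ, h]
      exact Ideal.mul_bot _
    have hQm : Q.IsMaximal := hQp.isMaximal hQ0
    have hcop : IsCoprime P Q := by
      rw [Ideal.isCoprime_iff_sup_eq]
      exact hPm.coprime_of_ne hQm hPQ
    have hboth : ∀ X : Ideal (𝓞 K), X ≤ P → X ≤ Q → X ≤ S := by
      intro X h1 h3
      rw [hQ, Ideal.mul_eq_inf_of_isCoprime hcop]
      exact le_inf h1 h3
    have key : ∀ X Y : Ideal (𝓞 K), X.IsPrime → Y.IsPrime → S ≤ X → S ≤ Y →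
        (∀ Z : Ideal (𝓞 K), Z ≤ X → Z ≤ Y → Z ≤ S) → (J : Ideal (𝓞 K)) ≤ X →
        (I : Ideal (𝓞 K)) ≤ Y → False := by
      intro X Y hX hY hSX hSY hXY hJX hIY
      have hJY : ¬ (J : Ideal (𝓞 K)) ≤ Y := fun h => hJp (hXY _ hJX h)
      have hIX : ¬ (I : Ideal (𝓞 K)) ≤ X := fun h => hIp (hXY _ h hIY)
      have hJ1X : (J1 : Ideal (𝓞 K)) ≤ X := by
        rcases hsq X _ _ hX (hb.trans hSX) with h | h
        · exact absurd h hIX
        · exact h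
      have hJ1Y : ¬ (J1 : Ideal (𝓞 K)) ≤ Y := fun h => hJ1p (hXY _ hJ1X h)
      have h1 := hkS X hX hSX hJX
      rcases hY.mul_le.mp (h1.trans hSY) with h | h
      · exact hJY h
      · exact hJ1Y h
    rcases hsq P _ _ hPp (hg.trans hSP) with h1 | h1
    · rcases hsq Q _ _ hQp (hg.trans hSQ) with h3 | h3
      · exact hJp (hboth _ h1 h3)
      · exact key P Q hPp hQp hSP hSQ hboth h1 h3
    · rcases hsq Q _ _ hQp (hg.trans hSQ) with h3 | h3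
      · exact key Q P hQp hPp hSQ hSP (fun Z h4 h5 => hboth Z h5 h4) h3 h1
      · exact hIp (hboth _ h1 h3)

end Pool.Agent.FTB
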