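import Pool.Agent.FTB.Cor

/-!
# FTB/ImZ: integers whose imaginary coordinate is divisible by `n`

PROOF of `omg_exists`.  Take a basis `b` (`exists_basis`), `r = b.repr 1`.  The integers `r 0, r 1`
are coprime: if a prime `p` divides both then `1 = p x` in `𝓞 K`, impossible (norms, or `1 / p` is not
integral; e.g. `p` would be a unit, `absNorm (span {p}) = p ^ 2 ≠ 1`).  So there are integers
`x0, x1` with `x0 r1 - x1 r0 = ± 1` (choose the sign of `om K b`); let
`ω = x0 • b 0 + x1 • b 1`.  By `im_eq` (with `y = 1`) `Im ω = (x0 r1 - x1 r0) om K b`, and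
`√D = 2 |om K b|` (`sqrt_aD`), so the second coordinate of `ω` is `1` (see the proof of `coord`).

PROOF of `imz`.  Let `y = n y'`.  `a - y ω` has second coordinate `0`, so `2 (a - y ω) = T` with an
integer `T`; so `a - y ω` is a rational number integral over `ℤ`, so an integer `z`
(`IsIntegrallyClosed`, or: its norm `(T / 2) ^ 2` is an integer, so `T` is even).
`a = z + n (y' ω)`.
PROOF of `imz'`: let `(T, Y)` be the coordinates of `x`; then those of `z + n x` are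
`(2 z + n T, n Y)` and `co_unique`.
PROOF of `pdv`.  `a = z + p x` (`imz`); let `a'`, `x'` be the conjugates (`co_conj`),
`a' = z + p x'` (by `co_inj`), so `absNorm (span {a}) = a a' = z ^ 2 + p (z x + z x' + p x x')`.
As `p ∣ absNorm (span {a})`, `z ^ 2 = p w` with `w ∈ 𝓞 K`, so `p ∣ z ^ 2` in `ℤ` (norms:
`z ^ 4 = p ^ 2 * N(w)`), so `p ∣ z` and `p ∣ a`.
-/

set_option autoImplicit false

namespace Pool.Agent.FTB

open NumberField Pool.Agent.FTA nonZeroDivisors

private theorem iz_add (K : IntermediateField ℚ ℂ) [NumberField K] (a b : 𝓞 K) (t y t' y' : ℤ)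
    (h : Co K a t y) (h' : Co K b t' y') : Co K (a + b) (t + t') (y + y') := by
  unfold Co at *
  push_cast
  rw [mul_add, h, h']
  ring

private theorem iz_mul (K : IntermediateField ℚ ℂ) [NumberField K] (a : 𝓞 K) (t y n : ℤ)
    (h : Co K a t y) : Co K ((n : 𝓞 K) * a) (n * t) (n * y) := by
  have hc : ((((n : ℤ) : 𝓞 K) : K) : ℂ) = (n : ℂ) := by simp
  unfold Co at *
  push_cast
  rw [hc, mul_left_comm, h]
  ring

private theorem iz_int (K : IntermediateField ℚ ℂ) [NumberField K] (z : ℤ) :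
    Co K (z : 𝓞 K) (2 * z) 0 := by
  have hc : ((((z : ℤ) : 𝓞 K) : K) : ℂ) = (z : ℂ) := by simp
  unfold Co
  rw [hc]
  push_cast
  ring

private theorem iz_im (K : IntermediateField ℚ ℂ) [NumberField K] (a : 𝓞 K) (t y : ℤ)
    (h : Co K a t y) : 2 * ((a : K) : ℂ).im = y * √(aD K : ℝ) := by
  unfold Co at h
  have h1 := congrArg Complex.im h
  simp only [Complex.add_im, Complex.intCast_re, Complex.intCast_im,
    Complex.ofReal_re, Complex.ofReal_im, Complex.I_re, Complex.I_im, Complex.mul_im,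
    Complex.mul_re, Complex.re_ofNat, Complex.im_ofNat] at h1
  linarith

private theorem iz_unit (K : IntermediateField ℚ ℂ) [NumberField K]
    (h2 : Module.finrank ℚ K = 2) (d : ℤ) (x : 𝓞 K) (h : (1 : 𝓞 K) = (d : 𝓞 K) * x) :
    d.natAbs = 1 := by
  have h1 : Ideal.absNorm (Ideal.span {(1 : 𝓞 K)}) = 1 := by
    rw [Ideal.span_singleton_one, Ideal.absNorm_top]
  rw [h, ← Ideal.span_singleton_mul_span_singleton, map_mul] at h1
  have h3 := Nat.eq_one_of_mul_eq_one_right h1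
  rw [Ideal.absNorm_span_singleton] at h3
  have h4 : Algebra.norm ℤ ((d : ℤ) : 𝓞 K) = d ^ 2 := by
    have h5 := Algebra.norm_algebraMap_of_basis (exists_basis K h2).some d
    rw [Fintype.card_fin] at h5
    simpa using h5
  rw [h4, Int.natAbs_pow] at h3
  exact (Nat.pow_eq_one.1 h3).resolve_right two_ne_zero

theorem omg_exists (K : IntermediateField ℚ ℂ) [NumberField K] (h2 : Module.finrank ℚ K = 2)
    (him : ∃ x : K, (x : ℂ).im ≠ 0) : ∃ ω : 𝓞 K, ∃ t : ℤ, Co K ω t 1 := by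
  obtain ⟨b⟩ := exists_basis K h2
  set r0 : ℤ := b.repr 1 0 with hr0
  set r1 : ℤ := b.repr 1 1 with hr1
  have hcop : Int.gcd r0 r1 = 1 := by
    obtain ⟨s0, hs0⟩ := Int.gcd_dvd_left (a := r0) (b := r1)
    obtain ⟨s1, hs1⟩ := Int.gcd_dvd_right (a := r0) (b := r1)
    generalize Int.gcd r0 r1 = g at hs0 hs1 ⊢
    have h1 : (1 : 𝓞 K) = (((g : ℕ) : ℤ) : 𝓞 K) * (s0 • b 0 + s1 • b 1) := by
      have h := b.sum_repr 1
      rw [Fin.sum_univ_two, ← hr0, ← hr1, hs0, hs1] at h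
      rw [← h]
      simp only [zsmul_eq_mul]
      push_cast
      ring
    have h2' := iz_unit K h2 _ _ h1
    simpa using h2'
  obtain ⟨p, q, hpq⟩ := (Int.isCoprime_iff_gcd_eq_one.2 hcop)
  -- `p * r0 + q * r1 = 1`
  set x : 𝓞 K := q • b 0 + (-p) • b 1 with hx
  have hx0 : b.repr x 0 = q := by
    rw [hx, map_add, map_zsmul, map_zsmul, Module.Basis.repr_self, Module.Basis.repr_self]
    simp
  have hx1 : b.repr x 1 = -p := by
    rw [hx, map_add, map_zsmul, map_zsmul, Module.Basis.repr_self, Module.Basis.repr_self]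
    simp
  have him1 := im_eq K b x 1
  have hone : ((((1 : 𝓞 K) : 𝓞 K) : K) : ℂ) = 1 := by simp
  rw [hone, map_one, mul_one, hx0, hx1, ← hr0, ← hr1,
    show q * r1 - -p * r0 = 1 by linarith, Int.cast_one, one_mul] at him1
  obtain ⟨t, y, hty⟩ := co_exists K h2 him x
  have h3 := iz_im K x t y hty
  rw [him1, sqrt_aD K h2 him b] at h3
  have hom := om_ne_zero K h2 him b
  have h4 : om K b = (y : ℝ) * |om K b| := by linarith
  rcases lt_or_gt_of_ne hom with h | h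
  · rw [abs_of_neg h] at h4
    have h5 : (y : ℝ) = -1 := by
      have h6 : ((y : ℝ) + 1) * om K b = 0 := by linarith
      rcases mul_eq_zero.1 h6 with h7 | h7
      · linarith
      · exact absurd h7 hom
    have h6 : y = -1 := by exact_mod_cast h5
    have h7 := co_neg K x t y hty
    rw [h6, neg_neg] at h7
    exact ⟨-x, -t, h7⟩
  · rw [abs_of_pos h] at h4
    have h5 : (y : ℝ) = 1 := by
      have h6 : ((y : ℝ) - 1) * om K b = 0 := by linarith
      rcases mul_eq_zero.1 h6 with h7 | h7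
      · linarith
      · exact absurd h7 hom
    have h6 : y = 1 := by exact_mod_cast h5
    rw [h6] at hty
    exact ⟨x, t, hty⟩

theorem imz (K : IntermediateField ℚ ℂ) [NumberField K] (h2 : Module.finrank ℚ K = 2)
    (him : ∃ x : K, (x : ℂ).im ≠ 0) (a : 𝓞 K) (t y n : ℤ) (h : Co K a t y) (hn : n ∣ y) :
    ∃ z : ℤ, ∃ x : 𝓞 K, a = (z : 𝓞 K) + (n : 𝓞 K) * x := by
  obtain ⟨y', rfl⟩ := hn
  obtain ⟨ω, t0, hω⟩ := omg_exists K h2 him
  have h1 : Co K (a + ((-(n * y') : ℤ) : 𝓞 K) * ω) (t + -(n * y') * t0)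
      (n * y' + -(n * y') * 1) :=
    iz_add K _ _ _ _ _ _ h (iz_mul K ω t0 1 (-(n * y')) hω)
  have h0 : n * y' + -(n * y') * 1 = 0 := by ring
  rw [h0] at h1
  have h3 := co_norm K h2 him _ _ _ h1
  have h4 : (2 : ℤ) ∣ (t + -(n * y') * t0) := by
    have h5 : (2 : ℤ) ∣ (t + -(n * y') * t0) ^ 2 :=
      ⟨2 * (Ideal.absNorm (Ideal.span {a + ((-(n * y') : ℤ) : 𝓞 K) * ω}) : ℤ), by linarith⟩
    exact Int.prime_two.dvd_of_dvd_pow h5
  obtain ⟨z, hz⟩ := h4
  rw [hz] at h1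
  have h5 := co_inj K _ _ _ _ h1 (iz_int K z)
  refine ⟨z, (y' : 𝓞 K) * ω, ?_⟩
  rw [← h5]
  push_cast
  ring

theorem imz' (K : IntermediateField ℚ ℂ) [NumberField K] (h2 : Module.finrank ℚ K = 2)
    (him : ∃ x : K, (x : ℂ).im ≠ 0) (x : 𝓞 K) (z n t y : ℤ)
    (h : Co K ((z : 𝓞 K) + (n : 𝓞 K) * x) t y) : n ∣ y := by
  obtain ⟨T, Y, hx⟩ := co_exists K h2 him x
  have h1 := iz_add K _ _ _ _ _ _ (iz_int K z) (iz_mul K x T Y n hx)
  have h3 := (co_unique K _ _ _ _ _ h h1).2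
  exact ⟨Y, by rw [h3]; ring⟩

theorem pdv (K : IntermediateField ℚ ℂ) [NumberField K] (h2 : Module.finrank ℚ K = 2)
    (him : ∃ x : K, (x : ℂ).im ≠ 0) (a : 𝓞 K) (t y : ℤ) (h : Co K a t y) (p : ℕ) (hp : p.Prime)
    (hy : (p : ℤ) ∣ y) (hN : p ∣ Ideal.absNorm (Ideal.span {a})) :
    ∃ b : 𝓞 K, a = (p : 𝓞 K) * b := by
  obtain ⟨z, x, hzx⟩ := imz K h2 him a t y p h hy
  obtain ⟨T, Y, hx⟩ := co_exists K h2 him x
  have h1 := iz_add K _ _ _ _ _ _ (iz_int K z) (iz_mul K x T Y p hx)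
  rw [← hzx] at h1
  obtain ⟨ht, hy'⟩ := co_unique K _ _ _ _ _ h h1
  have h3 := co_norm K h2 him a t y h
  have h4 := co_norm K h2 him x T Y hx
  have h5 : (Ideal.absNorm (Ideal.span {a}) : ℤ) =
      z ^ 2 + (p : ℤ) * (z * T + p * (Ideal.absNorm (Ideal.span {x}) : ℤ)) := by
    rw [ht, hy'] at h3
    have h6 : 4 * (Ideal.absNorm (Ideal.span {a}) : ℤ) =
        4 * (z ^ 2 + (p : ℤ) * (z * T + p * (Ideal.absNorm (Ideal.span {x}) : ℤ))) := by
      linear_combination h3 - (p : ℤ) ^ 2 * h4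
    linarith
  have hN' : (p : ℤ) ∣ (Ideal.absNorm (Ideal.span {a}) : ℤ) := Int.natCast_dvd_natCast.2 hN
  have h6 : (p : ℤ) ∣ z ^ 2 := by
    rw [h5] at hN'
    exact (dvd_add_left (dvd_mul_right _ _)).1 hN'
  obtain ⟨z', hz'⟩ := (Nat.prime_iff_prime_int.1 hp).dvd_of_dvd_pow h6
  refine ⟨(z' : 𝓞 K) + x, ?_⟩
  rw [hzx, hz']
  push_cast
  ring

end Pool.Agent.FTB
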