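import Pool.Agent.FTB.GIa
import Pool.Agent.FTB.ImZ

/-!
# FTB/GIb: at a common ramified prime the first coordinate is divisible by `p` only once

PROOF of `gib`.  `I = P I'`, `J = P J'`, `J1 = P J1'` (`Ideal.dvd_iff_le`), `P ≠ ⊥`.
Suppose `p ^ 2 ∣ c`.  `absNorm (span {β}) = absNorm (I ^ 2 * J1) = N ^ 2 k` with
`N = absNorm I = p absNorm I'`, `absNorm J1 = p absNorm J1'`; so `p ^ 3` divides
`absNorm (span {β})`.  `pdv` (as `p ∣ c`) gives `β = p β0`; coordinates `(b0, c0)` of `β0`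
(`co_exists`) satisfy `c = p c0` (`co_nat`, `co_unique`), so `p ∣ c0`; and
`absNorm (span {β}) = p ^ 2 * absNorm (span {β0})` (`nrm_nat`), so `p ∣ absNorm (span {β0})`.  `pdv`
again: `β0 = p β1`, `β = p ^ 2 β1`, so `I ^ 2 * J1 = span {β} ≤ span {p} ^ 2 = P ^ 4`.  Cancel
`P ^ 3`: `P ∣ I' ^ 2 * J1'`, so `P ∣ I'` or `P ∣ J1'`, i.e. `I ≤ P ^ 2 = span {p}` or
`J1 ≤ span {p}`, a contradiction.
-/

set_option autoImplicit false

namespace Pool.Agent.FTB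

open NumberField Pool.Agent.FTA nonZeroDivisors

theorem gib (K : IntermediateField ℚ ℂ) [NumberField K] (h2 : Module.finrank ℚ K = 2)
    (him : ∃ x : K, (x : ℂ).im ≠ 0)
    (p : ℕ) (hp : p.Prime) (I J1 : (Ideal (𝓞 K))⁰) (P : Ideal (𝓞 K)) (hP : P.IsPrime)
    (hP2 : Ideal.span {(p : 𝓞 K)} = P ^ 2) (hPn : Ideal.absNorm P = p)
    (hIP : (I : Ideal (𝓞 K)) ≤ P) (hJ1P : (J1 : Ideal (𝓞 K)) ≤ P)
    (hIp : ¬ (I : Ideal (𝓞 K)) ≤ Ideal.span {(p : 𝓞 K)})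
    (hJ1p : ¬ (J1 : Ideal (𝓞 K)) ≤ Ideal.span {(p : 𝓞 K)})
    (β : 𝓞 K) (hβ : (I : Ideal (𝓞 K)) ^ 2 * (J1 : Ideal (𝓞 K)) = Ideal.span {β})
    (b c : ℤ) (hbc : Co K β b c) : ¬ (p : ℤ) ^ 2 ∣ c := by
  intro hc2
  have hp0 : (p : 𝓞 K) ≠ 0 := by exact_mod_cast hp.ne_zero
  have hpZ : (p : ℤ) ≠ 0 := by exact_mod_cast hp.ne_zero
  have hpc : (p : ℤ) ∣ c := (dvd_pow_self (p : ℤ) two_ne_zero).trans hc2
  have hP0 : P ≠ ⊥ := by
    rintro rfl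
    rw [← Ideal.zero_eq_bot, zero_pow two_ne_zero, Ideal.zero_eq_bot,
      Ideal.span_singleton_eq_bot] at hP2
    exact hp0 hP2
  have hPp : Prime P := (Ideal.prime_iff_isPrime hP0).2 hP
  obtain ⟨I', hI'⟩ := Ideal.dvd_iff_le.2 hIP
  obtain ⟨J', hJ'⟩ := Ideal.dvd_iff_le.2 hJ1P
  have hN : p ^ 3 ∣ Ideal.absNorm (Ideal.span {β}) := by
    rw [← hβ, map_mul, map_pow, hI', hJ', map_mul, map_mul, hPn]
    exact ⟨Ideal.absNorm I' ^ 2 * Ideal.absNorm J', by ring⟩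
  obtain ⟨β0, hβ0⟩ := pdv K h2 him β b c hbc p hp hpc
    ((dvd_pow_self p three_ne_zero).trans hN)
  obtain ⟨b0, c0, h0⟩ := co_exists K h2 him β0
  have h1 := co_nat K β0 b0 c0 p h0
  rw [← hβ0] at h1
  obtain ⟨-, hc⟩ := co_unique K β b c _ _ hbc h1
  have hc0 : (p : ℤ) ∣ c0 := by
    rw [hc, sq] at hc2
    exact (mul_dvd_mul_iff_left hpZ).1 hc2
  have hN0 : p ∣ Ideal.absNorm (Ideal.span {β0}) := by
    rw [hβ0, ← Ideal.span_singleton_mul_span_singleton, map_mul, nrm_nat K h2 p,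
      pow_succ p 2] at hN
    exact (mul_dvd_mul_iff_left (pow_ne_zero 2 hp.ne_zero)).1 hN
  obtain ⟨β1, hβ1⟩ := pdv K h2 him β0 b0 c0 h0 p hp hc0 hN0
  have h3 : P ^ 3 * (I' ^ 2 * J') = P ^ 3 * (P * Ideal.span {β1}) := by
    have h4 : Ideal.span {β} = P ^ 4 * Ideal.span {β1} := by
      rw [hβ0, hβ1, ← Ideal.span_singleton_mul_span_singleton,
        ← Ideal.span_singleton_mul_span_singleton, hP2, ← mul_assoc, ← pow_add]
    rw [hI', hJ', h4] at hβ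
    have h5 : (P * I') ^ 2 * (P * J') = P ^ 3 * (I' ^ 2 * J') := by ring
    have h6 : P ^ 4 * Ideal.span {β1} = P ^ 3 * (P * Ideal.span {β1}) := by ring
    rw [← h5, ← h6]
    exact hβ
  have h7 := mul_left_cancel₀ (pow_ne_zero 3 hPp.ne_zero) h3
  have h8 : P ∣ I' ^ 2 * J' := ⟨_, h7⟩
  rcases hPp.dvd_or_dvd h8 with h9 | h9
  · refine hIp ?_
    rw [← Ideal.dvd_iff_le, hI', hP2, sq]
    exact mul_dvd_mul_left P (hPp.dvd_of_dvd_pow h9)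
  · refine hJ1p ?_
    rw [← Ideal.dvd_iff_le, hJ', hP2, sq]
    exact mul_dvd_mul_left P h9

end Pool.Agent.FTB
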