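import Pool.Agent.FTB.Bas

/-!
# FTB/Geo: geometric sums over an interval

PROOF of `geo`.  The sum has at most `2 L + 1` terms of norm 1, so its norm is at most `2 L + 1`.
If `2 (2 L + 1) dn x > 1` then `dn x > 0`, so `ex x ≠ 1`, and (with `q = ex x`)
`(q - 1) * ∑ n ∈ Icc a b, q ^ n = q ^ (b + 1) - q ^ a` (telescoping, `ex ((n + 1) x) = q ex (n x)`),
so the norm of the sum is at most `2 / ‖q - 1‖`, and `‖q - 1‖ = 2 |sin (π x)| ≥ 4 dn x`:
`ex x = ex y` with `y = x - round x`, `|y| = dn x ≤ 1 / 2` (`ex_mul_round`, `dn_le_half`), and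
`‖ex y - 1‖ = ‖ex (y / 2) - ex (-y / 2)‖ = 2 |sin (π y)|`, `|sin (π y)| = sin (π |y|) ≥ 2 |y|`
(`Real.mul_le_sin : 0 ≤ x → x ≤ π / 2 → 2 / π * x ≤ sin x`).  So the bound is
`2 / (4 dn x) = 1 / (2 dn x)`.  If `Icc a b` is empty the sum is `0 ≤ gm L x`.
-/

set_option autoImplicit false

namespace Pool.Agent.FTB

theorem gm_nonneg (L : ℕ) (x : ℝ) : 0 ≤ gm L x := by
  unfold gm
  split_ifs
  · positivity
  · have := dn_nonneg x
    positivity

private theorem Geo_tel (x : ℝ) (a b : ℤ) (h : a ≤ b) :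
    (ex x - 1) * ∑ n ∈ Finset.Icc a b, ex ((n : ℝ) * x) =
      ex (((b + 1 : ℤ) : ℝ) * x) - ex ((a : ℝ) * x) := by
  have step : ∀ n : ℤ, (ex x - 1) * ex ((n : ℝ) * x) =
      ex (((n + 1 : ℤ) : ℝ) * x) - ex ((n : ℝ) * x) := by
    intro n
    have e : ((n + 1 : ℤ) : ℝ) * x = x + (n : ℝ) * x := by push_cast; ring
    rw [e, ex_add]
    ring
  induction b, h using Int.le_induction with
  | base =>
    rw [Finset.Icc_self, Finset.sum_singleton, step]
  | succ b hb ih =>
    have e : Finset.Icc a (b + 1) = insert (b + 1) (Finset.Icc a b) := by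
      ext n
      simp only [Finset.mem_insert, Finset.mem_Icc]
      omega
    rw [e, Finset.sum_insert (by simp), mul_add, ih, step]
    ring

private theorem Geo_low (x : ℝ) : 4 * dn x ≤ ‖ex x - 1‖ := by
  rw [ex_mul_round x]
  set y := x - round x with hy
  have hd : dn x = |y| := rfl
  have hh : |y| ≤ 1 / 2 := hd ▸ dn_le_half x
  have h1 : ‖ex y - 1‖ = ‖2 * Real.sin (Real.pi * y)‖ := by
    have h2 := Complex.norm_exp_I_mul_ofReal_sub_one (2 * Real.pi * y)
    have e1 : Complex.I * ((2 * Real.pi * y : ℝ) : ℂ) =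
        2 * (Real.pi : ℂ) * (y : ℂ) * Complex.I := by push_cast; ring
    have e2 : 2 * Real.pi * y / 2 = Real.pi * y := by ring
    rw [e1, e2] at h2
    exact h2
  have h3 : |Real.sin (Real.pi * y)| = Real.sin (Real.pi * |y|) := by
    have hp := Real.pi_pos
    rcases abs_cases y with ⟨h4, h5⟩ | ⟨h4, h5⟩
    · rw [h4]
      apply abs_of_nonneg
      apply Real.sin_nonneg_of_nonneg_of_le_pi
      · positivity
      · rw [h4] at hh
        nlinarith
    · rw [h4, mul_neg, Real.sin_neg]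
      apply abs_of_nonpos
      apply Real.sin_nonpos_of_nonpos_of_neg_pi_le
      · nlinarith
      · rw [h4] at hh
        nlinarith
  have h4 : 2 * |y| ≤ Real.sin (Real.pi * |y|) := by
    have hp := Real.pi_pos
    have h5 := Real.mul_le_sin (x := Real.pi * |y|) (by positivity) (by nlinarith)
    have e : 2 / Real.pi * (Real.pi * |y|) = 2 * |y| := by field_simp
    rw [e] at h5
    exact h5
  rw [h1, hd, Real.norm_eq_abs, abs_mul, abs_of_pos (by norm_num : (0:ℝ) < 2), h3]
  linarith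

theorem geo (a b : ℤ) (x : ℝ) (L : ℕ) (h : b - a ≤ 2 * L) :
    ‖∑ n ∈ Finset.Icc a b, ex ((n : ℝ) * x)‖ ≤ gm L x := by
  rcases lt_or_ge b a with hab | hab
  · rw [Finset.Icc_eq_empty (by omega), Finset.sum_empty, norm_zero]
    exact gm_nonneg L x
  unfold gm
  split_ifs with hc
  · calc ‖∑ n ∈ Finset.Icc a b, ex ((n : ℝ) * x)‖ ≤ ∑ n ∈ Finset.Icc a b, ‖ex ((n : ℝ) * x)‖ :=
          norm_sum_le _ _
      _ = ((Finset.Icc a b).card : ℝ) := by simp [norm_ex]
      _ ≤ 2 * (L : ℝ) + 1 := by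
          rw [Int.card_Icc]
          have : (b + 1 - a).toNat ≤ 2 * L + 1 := by omega
          exact_mod_cast this
  · have hd : 0 < dn x := by
      rcases (dn_nonneg x).lt_or_eq with h1 | h1
      · exact h1
      · exfalso
        apply hc
        rw [← h1]
        norm_num
    have h1 := Geo_tel x a b hab
    have h2 := Geo_low x
    have h3 : ‖ex x - 1‖ * ‖∑ n ∈ Finset.Icc a b, ex ((n : ℝ) * x)‖ ≤ 2 := by
      rw [← norm_mul, h1]
      refine (norm_sub_le _ _).trans ?_
      rw [norm_ex, norm_ex]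
      norm_num
    rw [le_div_iff₀ (by positivity)]
    have h4 := norm_nonneg (∑ n ∈ Finset.Icc a b, ex ((n : ℝ) * x))
    nlinarith [mul_le_mul_of_nonneg_right h2 h4]

end Pool.Agent.FTB
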