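import Pool.Agent.FTB.Defs

/-!
# FTB/Jsm: splitting off the part of `j` composed of the primes of `r`

PROOF of `jsm`.  Every `j ≥ 1` is `j = q n` with `q.primeFactors ⊆ r.primeFactors` and `n` coprime
to `r` (strong induction: if `j` is coprime to `r` take `q = 1`; otherwise divide by a common
prime; or via `Nat.factorization`).  For `j ∈ Ico 1 m` we have `n, q ∈ Ico 1 m` and
`F j ≤ F n`.  The map `j ↦ (q, n)` is injective (`j = q n`).  So
`∑ j, F j ≤ ∑ (q, n), F n` over all pairs, which is the right hand side.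
-/

set_option autoImplicit false

namespace Pool.Agent.FTB

private theorem Jsm_split (r : ℕ) (hr : 1 ≤ r) : ∀ j : ℕ, 1 ≤ j →
    ∃ q n : ℕ, j = q * n ∧ q.primeFactors ⊆ r.primeFactors ∧ Nat.Coprime n r := by
  intro j
  induction j using Nat.strong_induction_on with
  | _ j ih =>
    intro hj
    by_cases hc : Nat.Coprime j r
    · exact ⟨1, j, by ring, by simp, hc⟩
    · obtain ⟨p, hp, hpj, hpr⟩ := Nat.Prime.not_coprime_iff_dvd.1 hc
      obtain ⟨j', rfl⟩ := hpj
      have hj'0 : 1 ≤ j' := by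
        rcases Nat.eq_zero_or_pos j' with h | h
        · subst h
          simp at hj
        · exact h
      have hlt : j' < p * j' := by
        have := hp.two_le
        nlinarith
      obtain ⟨q, n, h1, h2, h3⟩ := ih j' hlt hj'0
      refine ⟨p * q, n, by rw [h1]; ring, ?_, h3⟩
      have hq : q ≠ 0 := by
        rintro rfl
        rw [zero_mul] at h1
        omega
      rw [Nat.primeFactors_mul hp.ne_zero hq, hp.primeFactors]
      refine Finset.union_subset ?_ h2
      rw [Finset.singleton_subset_iff, Nat.mem_primeFactors]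
      exact ⟨hp, hpr, by omega⟩

theorem jsm (m r : ℕ) (hr : 1 ≤ r) (F : ℕ → ℝ) (hF0 : ∀ n, 0 ≤ F n)
    (hF : ∀ j n : ℕ, 1 ≤ j → n ∣ j → F j ≤ F n) :
    ∑ j ∈ Finset.Ico 1 m, F j ≤
      (((Finset.Icc 1 m).filter fun q => q.primeFactors ⊆ r.primeFactors).card : ℝ) *
        ∑ n ∈ (Finset.Ico 1 m).filter (fun n => Nat.Coprime n r), F n := by
  classical
  choose! q n h1 h2 h3 using Jsm_split r hr
  set A := (Finset.Icc 1 m).filter fun q => q.primeFactors ⊆ r.primeFactors with hA
  set B := (Finset.Ico 1 m).filter (fun n => Nat.Coprime n r) with hB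
  have hmem : ∀ j ∈ Finset.Ico 1 m, (q j, n j) ∈ A ×ˢ B := by
    intro j hj
    obtain ⟨hj1, hj2⟩ := Finset.mem_Ico.1 hj
    have e := h1 j hj1
    have hq : 1 ≤ q j := by
      rcases Nat.eq_zero_or_pos (q j) with h | h
      · rw [h, zero_mul] at e
        omega
      · exact h
    have hn : 1 ≤ n j := by
      rcases Nat.eq_zero_or_pos (n j) with h | h
      · rw [h, mul_zero] at e
        omega
      · exact h
    have hq2 : q j ≤ j := Nat.le_of_dvd hj1 ⟨n j, e⟩
    have hn2 : n j ≤ j := Nat.le_of_dvd hj1 ⟨q j, by rw [mul_comm]; exact e⟩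
    rw [Finset.mem_product]
    refine ⟨Finset.mem_filter.2 ⟨Finset.mem_Icc.2 ⟨hq, by omega⟩, h2 j hj1⟩,
      Finset.mem_filter.2 ⟨Finset.mem_Ico.2 ⟨hn, by omega⟩, h3 j hj1⟩⟩
  have hinj : Set.InjOn (fun j => (q j, n j)) (Finset.Ico 1 m) := by
    intro i hi j hj hij
    have hi1 := (Finset.mem_Ico.1 hi).1
    have hj1 := (Finset.mem_Ico.1 hj).1
    have e1 := congrArg Prod.fst hij
    have e2 := congrArg Prod.snd hij
    simp only at e1 e2
    rw [h1 i hi1, h1 j hj1, e1, e2]
  calc ∑ j ∈ Finset.Ico 1 m, F j ≤ ∑ j ∈ Finset.Ico 1 m, F (n j) := by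
        refine Finset.sum_le_sum fun j hj => ?_
        have hj1 := (Finset.mem_Ico.1 hj).1
        exact hF j (n j) hj1 ⟨q j, by rw [mul_comm]; exact h1 j hj1⟩
    _ = ∑ p ∈ (Finset.Ico 1 m).image (fun j => (q j, n j)), F p.2 := by
        rw [Finset.sum_image hinj]
    _ ≤ ∑ p ∈ A ×ˢ B, F p.2 := by
        refine Finset.sum_le_sum_of_subset_of_nonneg ?_ (fun _ _ _ => hF0 _)
        intro p hp
        obtain ⟨j, hj, rfl⟩ := Finset.mem_image.1 hp
        exact hmem j hj
    _ = (A.card : ℝ) * ∑ n ∈ B, F n := by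
        rw [Finset.sum_product]
        simp only [Finset.sum_const, nsmul_eq_mul]

end Pool.Agent.FTB
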