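import Pool.Agent.FTB.GIb
import Pool.Agent.FTB.Els

/-!
# FTB/LmG: the greatest common divisor of `c, v` divides the other coordinates

PROOF of `lmG`.  It is enough (`Nat.dvd_iff_prime_pow_dvd_dvd` or a similar lemma, for
`Int.gcd c v` and `natAbs` of `u, e, w, z`) to show: `p` prime, `n ≥ 1`, `p ^ n ∣ c`, `p ^ n ∣ v`
imply `p ^ n ∣ u, e, w, z`.
Case 1: `p` does not divide `N k`.  By `imz` `β = z1 + p ^ n x1`, `βc = z1' + p ^ n x1'`,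
`γ = z2 + p ^ n x2`; products of such elements have the same form, so by `imz'` the second
coordinates of `β γ = k δ1`, `βc γ = N δ2`, `β γ β = k ^ 2 α` and `βc γ γ = N ^ 2 α2`, which are
`k u`, `N e`, `k ^ 2 w`, `N ^ 2 z` (`co_nat`, `co_unique`), are divisible by `p ^ n`; `p` is prime to
`N, k`.
Case 2: `p ∣ N k`.  `p ∣ N ^ 2 k = absNorm (span {β})` (from `hnb` and `co_norm`) and `p ∣ c`, so
`p ∣ β` (`pdv`); `p ∣ k ^ 2 N = absNorm (span {γ})`, `p ∣ v`, so `p ∣ γ`.  So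
`I ^ 2 * J1 ≤ span {p}`, `J ^ 2 * I ≤ span {p}`, and `gia` gives `P`.  By `gib`,
`p ^ 2` does not divide `c`, so `n = 1`.  And `span {δ1} = I ^ 3 * J ≤ P ^ 2 = span {p}`, so
`δ1 = p x` and `p ∣ u` (`co_nat`, `co_unique`); `span {δ2} = I1 * J ^ 3 ≤ J ^ 2 ≤ P ^ 2`,
`span {α} = I ^ 5 ≤ P ^ 2`, `span {α2} = J ^ 5 ≤ P ^ 2`: `p ∣ e, w, z`.
-/

set_option autoImplicit false

namespace Pool.Agent.FTB

open NumberField Pool.Agent.FTA nonZeroDivisors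

/-- `z + m x` -/
private def Qm (K : IntermediateField ℚ ℂ) [NumberField K] (m : ℤ) (a : 𝓞 K) : Prop :=
  ∃ z : ℤ, ∃ x : 𝓞 K, a = (z : 𝓞 K) + (m : 𝓞 K) * x

private theorem Qm_mul (K : IntermediateField ℚ ℂ) [NumberField K] (m : ℤ) (a b : 𝓞 K)
    (ha : Qm K m a) (hb : Qm K m b) : Qm K m (a * b) := by
  obtain ⟨z, x, rfl⟩ := ha
  obtain ⟨z', x', rfl⟩ := hb
  refine ⟨z * z', (z : 𝓞 K) * x' + (z' : 𝓞 K) * x + (m : 𝓞 K) * x * x', ?_⟩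
  push_cast
  ring

private theorem Qm_dvd (K : IntermediateField ℚ ℂ) [NumberField K]
    (h2 : Module.finrank ℚ K = 2) (him : ∃ x : K, (x : ℂ).im ≠ 0) (m : ℤ) (a : 𝓞 K) (t y : ℤ)
    (h : Co K a t y) (ha : Qm K m a) : m ∣ y := by
  obtain ⟨z, x, rfl⟩ := ha
  exact imz' K h2 him x z m t y h

private theorem case1 (K : IntermediateField ℚ ℂ) [NumberField K]
    (h2 : Module.finrank ℚ K = 2) (him : ∃ x : K, (x : ℂ).im ≠ 0) (N k : ℕ)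
    (β βc γ δ1 δ2 α α2 : 𝓞 K) (b c κ v t1 u t2 e t3 w t4 z : ℤ)
    (cβ : Co K β b c) (cβc : Co K βc b (-c)) (cγ : Co K γ κ v) (cδ1 : Co K δ1 t1 u)
    (cδ2 : Co K δ2 t2 e) (cα : Co K α t3 w) (cα2 : Co K α2 t4 z)
    (e1 : (k : 𝓞 K) * δ1 = β * γ) (e2 : (N : 𝓞 K) * δ2 = βc * γ)
    (e3 : (k : 𝓞 K) * α = δ1 * β) (e4 : (N : 𝓞 K) * α2 = δ2 * γ)
    (m : ℤ) (hmN : IsCoprime m (N : ℤ)) (hmk : IsCoprime m (k : ℤ)) (hc : m ∣ c) (hv : m ∣ v) :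
    m ∣ u ∧ m ∣ e ∧ m ∣ w ∧ m ∣ z := by
  have qβ : Qm K m β := imz K h2 him β b c m cβ hc
  have qβc : Qm K m βc := imz K h2 him βc b (-c) m cβc ((dvd_neg).mpr hc)
  have qγ : Qm K m γ := imz K h2 him γ κ v m cγ hv
  have d1 : m ∣ (k : ℤ) * u := by
    refine Qm_dvd K h2 him m _ _ _ (co_nat K δ1 t1 u k cδ1) ?_
    rw [e1]
    exact Qm_mul K m _ _ qβ qγ
  have d2 : m ∣ (N : ℤ) * e := by
    refine Qm_dvd K h2 him m _ _ _ (co_nat K δ2 t2 e N cδ2) ?_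
    rw [e2]
    exact Qm_mul K m _ _ qβc qγ
  have d3 : m ∣ (k : ℤ) * ((k : ℤ) * w) := by
    refine Qm_dvd K h2 him m _ _ _ (co_nat K _ _ _ k (co_nat K α t3 w k cα)) ?_
    rw [e3, ← mul_assoc, e1]
    exact Qm_mul K m _ _ (Qm_mul K m _ _ qβ qγ) qβ
  have d4 : m ∣ (N : ℤ) * ((N : ℤ) * z) := by
    refine Qm_dvd K h2 him m _ _ _ (co_nat K _ _ _ N (co_nat K α2 t4 z N cα2)) ?_
    rw [e4, ← mul_assoc, e2]
    exact Qm_mul K m _ _ (Qm_mul K m _ _ qβc qγ) qγ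
  exact ⟨hmk.dvd_of_dvd_mul_left d1, hmN.dvd_of_dvd_mul_left d2,
    hmk.dvd_of_dvd_mul_left (hmk.dvd_of_dvd_mul_left d3),
    hmN.dvd_of_dvd_mul_left (hmN.dvd_of_dvd_mul_left d4)⟩

private theorem dvd_co (K : IntermediateField ℚ ℂ) [NumberField K]
    (h2 : Module.finrank ℚ K = 2) (him : ∃ x : K, (x : ℂ).im ≠ 0) (a : 𝓞 K) (t y : ℤ)
    (h : Co K a t y) (p : ℕ) (ha : a ∈ Ideal.span {(p : 𝓞 K)}) : (p : ℤ) ∣ y := by
  obtain ⟨x, rfl⟩ := Ideal.mem_span_singleton.mp ha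
  obtain ⟨T, Y, hx⟩ := co_exists K h2 him x
  have h1 := co_nat K x T Y p hx
  obtain ⟨-, h3⟩ := co_unique K _ _ _ _ _ h h1
  exact ⟨Y, h3⟩

theorem lmG (K : IntermediateField ℚ ℂ) [NumberField K] (h2 : Module.finrank ℚ K = 2)
    (him : ∃ x : K, (x : ℂ).im ≠ 0) (I J I1 J1 : (Ideal (𝓞 K))⁰) (N k : ℕ) (hN : 1 ≤ N)
    (hk : 1 ≤ k)
    (hI1 : (I : Ideal (𝓞 K)) * (I1 : Ideal (𝓞 K)) = Ideal.span {(N : 𝓞 K)})
    (hJ1 : (J : Ideal (𝓞 K)) * (J1 : Ideal (𝓞 K)) = Ideal.span {(k : 𝓞 K)})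
    (hIp : ∀ n : ℕ, 2 ≤ n → ¬ (I : Ideal (𝓞 K)) ≤ Ideal.span {(n : 𝓞 K)})
    (hJp : ∀ n : ℕ, 2 ≤ n → ¬ (J : Ideal (𝓞 K)) ≤ Ideal.span {(n : 𝓞 K)})
    (hJ1p : ∀ n : ℕ, 2 ≤ n → ¬ (J1 : Ideal (𝓞 K)) ≤ Ideal.span {(n : 𝓞 K)})
    (β βc γ δ1 δ2 α α2 : 𝓞 K) (b c κ v t1 u t2 e t3 w t4 z : ℤ)
    (cβ : Co K β b c) (cβc : Co K βc b (-c)) (cγ : Co K γ κ v) (cδ1 : Co K δ1 t1 u)
    (cδ2 : Co K δ2 t2 e) (cα : Co K α t3 w) (cα2 : Co K α2 t4 z)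
    (hβ : (I : Ideal (𝓞 K)) ^ 2 * (J1 : Ideal (𝓞 K)) = Ideal.span {β})
    (hγ : (J : Ideal (𝓞 K)) ^ 2 * (I : Ideal (𝓞 K)) = Ideal.span {γ})
    (hnb : b ^ 2 + (aD K : ℤ) * c ^ 2 = 4 * (N : ℤ) ^ 2 * k)
    (hng : κ ^ 2 + (aD K : ℤ) * v ^ 2 = 4 * (k : ℤ) ^ 2 * N)
    (e1 : (k : 𝓞 K) * δ1 = β * γ) (e2 : (N : 𝓞 K) * δ2 = βc * γ)
    (e3 : (k : 𝓞 K) * α = δ1 * β) (e4 : (N : 𝓞 K) * α2 = δ2 * γ)
    (s1 : Ideal.span {δ1} = (I : Ideal (𝓞 K)) ^ 3 * (J : Ideal (𝓞 K)))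
    (s2 : Ideal.span {δ2} = (I1 : Ideal (𝓞 K)) * (J : Ideal (𝓞 K)) ^ 3)
    (s3 : Ideal.span {α} = (I : Ideal (𝓞 K)) ^ 5)
    (s4 : Ideal.span {α2} = (J : Ideal (𝓞 K)) ^ 5) :
    (Int.gcd c v : ℤ) ∣ u ∧ (Int.gcd c v : ℤ) ∣ e ∧ (Int.gcd c v : ℤ) ∣ w ∧
      (Int.gcd c v : ℤ) ∣ z := by
  have main : ∀ p n : ℕ, p.Prime → 1 ≤ n → ((p ^ n : ℕ) : ℤ) ∣ c → ((p ^ n : ℕ) : ℤ) ∣ v →
      ((p ^ n : ℕ) : ℤ) ∣ u ∧ ((p ^ n : ℕ) : ℤ) ∣ e ∧ ((p ^ n : ℕ) : ℤ) ∣ w ∧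
        ((p ^ n : ℕ) : ℤ) ∣ z := by
    intro p n hp hn hc hv
    by_cases hpNk : p ∣ N ∨ p ∣ k
    · have hpc : (p : ℤ) ∣ c := (Int.natCast_dvd_natCast.mpr (dvd_pow_self p (by omega))).trans hc
      have hpv : (p : ℤ) ∣ v := (Int.natCast_dvd_natCast.mpr (dvd_pow_self p (by omega))).trans hv
      have nβ : Ideal.absNorm (Ideal.span {β}) = N ^ 2 * k := by
        have h := co_norm K h2 him β b c cβ
        rw [hnb] at h
        have h3 : (Ideal.absNorm (Ideal.span {β}) : ℤ) = (N : ℤ) ^ 2 * k := by linarith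
        exact_mod_cast h3
      have nγ : Ideal.absNorm (Ideal.span {γ}) = k ^ 2 * N := by
        have h := co_norm K h2 him γ κ v cγ
        rw [hng] at h
        have h3 : (Ideal.absNorm (Ideal.span {γ}) : ℤ) = (k : ℤ) ^ 2 * N := by linarith
        exact_mod_cast h3
      have pβ : p ∣ Ideal.absNorm (Ideal.span {β}) := by
        rw [nβ]
        rcases hpNk with h | h
        · exact (dvd_pow h two_ne_zero).mul_right _
        · exact h.mul_left _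
      have pγ : p ∣ Ideal.absNorm (Ideal.span {γ}) := by
        rw [nγ]
        rcases hpNk with h | h
        · exact h.mul_left _
        · exact (dvd_pow h two_ne_zero).mul_right _
      obtain ⟨β0, hβ0⟩ := pdv K h2 him β b c cβ p hp hpc pβ
      obtain ⟨γ0, hγ0⟩ := pdv K h2 him γ κ v cγ p hp hpv pγ
      have lb : (I : Ideal (𝓞 K)) ^ 2 * (J1 : Ideal (𝓞 K)) ≤ Ideal.span {(p : 𝓞 K)} := by
        rw [hβ, Ideal.span_singleton_le_iff_mem, Ideal.mem_span_singleton]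
        exact ⟨β0, hβ0⟩
      have lg : (J : Ideal (𝓞 K)) ^ 2 * (I : Ideal (𝓞 K)) ≤ Ideal.span {(p : 𝓞 K)} := by
        rw [hγ, Ideal.span_singleton_le_iff_mem, Ideal.mem_span_singleton]
        exact ⟨γ0, hγ0⟩
      obtain ⟨P, hPp, hP2, hPn, hIP, hJP, hJ1P⟩ := gia K h2 p hp I J J1 k hk hJ1
        (hIp p hp.two_le) (hJp p hp.two_le) (hJ1p p hp.two_le) lg lb
      have hnc := gib K h2 him p hp I J1 P hPp hP2 hPn hIP hJ1P (hIp p hp.two_le)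
        (hJ1p p hp.two_le) β hβ b c cβ
      have hn1 : n = 1 := by
        by_contra hn1
        apply hnc
        have h3 : ((p ^ 2 : ℕ) : ℤ) ∣ ((p ^ n : ℕ) : ℤ) :=
          Int.natCast_dvd_natCast.mpr (pow_dvd_pow p (by omega))
        have h4 := h3.trans hc
        push_cast at h4
        exact h4
      subst hn1
      rw [pow_one]
      have hle : ∀ (X : Ideal (𝓞 K)) (j : ℕ), 2 ≤ j → X ≤ P →
          X ^ j ≤ Ideal.span {(p : 𝓞 K)} := by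
        intro X j hj hX
        rw [hP2]
        exact (Ideal.pow_le_pow_right hj).trans (Ideal.pow_right_mono hX 2)
      have memδ1 : δ1 ∈ Ideal.span {(p : 𝓞 K)} := by
        rw [← Ideal.span_singleton_le_iff_mem, s1]
        exact Ideal.mul_le_left.trans (hle _ 3 (by norm_num) hIP)
      have memδ2 : δ2 ∈ Ideal.span {(p : 𝓞 K)} := by
        rw [← Ideal.span_singleton_le_iff_mem, s2]
        exact Ideal.mul_le_right.trans (hle _ 3 (by norm_num) hJP)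
      have memα : α ∈ Ideal.span {(p : 𝓞 K)} := by
        rw [← Ideal.span_singleton_le_iff_mem, s3]
        exact hle _ 5 (by norm_num) hIP
      have memα2 : α2 ∈ Ideal.span {(p : 𝓞 K)} := by
        rw [← Ideal.span_singleton_le_iff_mem, s4]
        exact hle _ 5 (by norm_num) hJP
      exact ⟨dvd_co K h2 him _ _ _ cδ1 p memδ1, dvd_co K h2 him _ _ _ cδ2 p memδ2,
        dvd_co K h2 him _ _ _ cα p memα, dvd_co K h2 him _ _ _ cα2 p memα2⟩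
    · push Not at hpNk
      obtain ⟨hpN, hpk⟩ := hpNk
      have hN' : IsCoprime ((p ^ n : ℕ) : ℤ) (N : ℤ) := by
        rw [Nat.isCoprime_iff_coprime]
        exact Nat.Coprime.pow_left n ((Nat.Prime.coprime_iff_not_dvd hp).mpr hpN)
      have hk' : IsCoprime ((p ^ n : ℕ) : ℤ) (k : ℤ) := by
        rw [Nat.isCoprime_iff_coprime]
        exact Nat.Coprime.pow_left n ((Nat.Prime.coprime_iff_not_dvd hp).mpr hpk)
      exact case1 K h2 him N k β βc γ δ1 δ2 α α2 b c κ v t1 u t2 e t3 w t4 z cβ cβc cγ cδ1 cδ2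
        cα cα2 e1 e2 e3 e4 _ hN' hk' hc hv
  have main2 : ∀ y : ℤ, (∀ p n : ℕ, p.Prime → 1 ≤ n → ((p ^ n : ℕ) : ℤ) ∣ c →
      ((p ^ n : ℕ) : ℤ) ∣ v → ((p ^ n : ℕ) : ℤ) ∣ y) → (Int.gcd c v : ℤ) ∣ y := by
    intro y hy
    rw [Int.natCast_dvd]
    rw [Nat.dvd_iff_prime_pow_dvd_dvd]
    intro p n hp hpn
    rcases Nat.eq_zero_or_pos n with rfl | hn
    · rw [pow_zero]
      exact one_dvd _
    · rw [← Int.natCast_dvd]
      have h1 : ((p ^ n : ℕ) : ℤ) ∣ (Int.gcd c v : ℤ) := Int.natCast_dvd_natCast.mpr hpn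
      exact hy p n hp hn (h1.trans (Int.gcd_dvd_left c v)) (h1.trans (Int.gcd_dvd_right c v))
  exact ⟨main2 u fun p n hp hn h3 h4 => (main p n hp hn h3 h4).1,
    main2 e fun p n hp hn h3 h4 => (main p n hp hn h3 h4).2.1,
    main2 w fun p n hp hn h3 h4 => (main p n hp hn h3 h4).2.2.1,
    main2 z fun p n hp hn h3 h4 => (main p n hp hn h3 h4).2.2.2⟩

end Pool.Agent.FTB
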