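import Pool.Agent.FTA.DefsC
import Pool.Agent.FTA.Fib
import Pool.Agent.FTA.Small1
import Pool.Agent.FTB.Defs

/-!
# FTB/SqN: the solutions with given `N`

PROOF of `sqN`.  This is the inner part of the proof of `small` in Pool/Agent/FTA/Small.lean (copy
it), for one `N` and without the condition on the odd part.  For `q = (D, t, y) ∈ S` let
`g = Int.gcd t y ≥ 1`, `t = g t₁`, `y = g y₁`, `y₁ ≥ 1`, `t₁`, `y₁` coprime,
`g ^ 2 (t₁ ^ 2 + D y₁ ^ 2) = 4 N ^ 5`; `g` divides `4 N ^ 5` (at most `T` values), and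
`N ^ 2 (g y₁) ^ 2 ≤ D y ^ 2 ≤ 4 N ^ 5`, so `g y₁ ≤ 2 √(N ^ 3)`: at most `2 √(N ^ 3) / g` values of
`y₁`.  For given `(g, y₁)` `small1` gives at most `2 T ^ 2 (X g / √(N ^ 5) + 1)` (`D` is determined
by `t, y`).  So for given `g` at most
`2 √(N ^ 3) / g * 2 T ^ 2 (X g / √(N ^ 5) + 1) ≤ 4 T ^ 2 (X / N + √(N ^ 3))`
(`√(N ^ 3) / √(N ^ 5) = 1 / N`, `g ≥ 1`).  Total `≤ 4 T ^ 3 (X / N + √(N ^ 3))`.
-/

set_option autoImplicit false

namespace Pool.Agent.FTB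

open Pool.Agent.FTA

private theorem sqN_basic (D N : ℕ) (t y : ℤ) (h : SolP 5 D N t y) :
    1 ≤ Int.gcd t y ∧ 1 ≤ y1 t y ∧ (Int.gcd t y : ℤ) * (y1 t y : ℤ) = y ∧
      (Int.gcd t y : ℤ) * (t / (Int.gcd t y : ℤ)) = t ∧
      IsCoprime (t / (Int.gcd t y : ℤ)) (y1 t y : ℤ) ∧
      (Int.gcd t y * y1 t y) ^ 2 ≤ 4 * N ^ 3 := by
  obtain ⟨hN, hD, hy, heq, -⟩ := h
  have hg : 0 < Int.gcd t y := Int.gcd_pos_of_ne_zero_right _ (by omega)
  have hgZ : (0 : ℤ) < (Int.gcd t y : ℤ) := by exact_mod_cast hg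
  have e1 : (Int.gcd t y : ℤ) * (y / (Int.gcd t y : ℤ)) = y :=
    Int.mul_ediv_cancel' (Int.gcd_dvd_right ..)
  have e2 : (Int.gcd t y : ℤ) * (t / (Int.gcd t y : ℤ)) = t :=
    Int.mul_ediv_cancel' (Int.gcd_dvd_left ..)
  have hpos : 0 < y / (Int.gcd t y : ℤ) := by
    by_contra hcon
    push Not at hcon
    have := mul_nonpos_of_nonneg_of_nonpos hgZ.le hcon
    omega
  have hyZ : (y1 t y : ℤ) = y / (Int.gcd t y : ℤ) := by
    unfold y1
    rw [Int.natCast_natAbs, abs_of_pos hpos]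
  refine ⟨hg, ?_, by rw [hyZ]; exact e1, e2, ?_, ?_⟩
  · have : (0 : ℤ) < (y1 t y : ℤ) := by rw [hyZ]; exact hpos
    exact_mod_cast this
  · rw [hyZ, Int.isCoprime_iff_gcd_eq_one]
    exact Int.gcd_ediv_gcd_ediv_gcd hg
  · have h1 : ((Int.gcd t y * y1 t y : ℕ) : ℤ) = y := by
      rw [Nat.cast_mul, hyZ]
      exact e1
    have h2 : (N : ℤ) ^ 2 * y ^ 2 ≤ 4 * (N : ℤ) ^ 5 := by
      have h3 : (N : ℤ) ^ 2 ≤ (D : ℤ) := by exact_mod_cast hD
      have h4 : (N : ℤ) ^ 2 * y ^ 2 ≤ (D : ℤ) * y ^ 2 :=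
        mul_le_mul_of_nonneg_right h3 (sq_nonneg _)
      have := sq_nonneg t
      linarith
    have hNZ : (0 : ℤ) < (N : ℤ) ^ 2 := by
      have : (0 : ℤ) < (N : ℤ) := by omega
      positivity
    have h5 : y ^ 2 ≤ 4 * (N : ℤ) ^ 3 := by
      have h6 : (N : ℤ) ^ 2 * y ^ 2 ≤ (N : ℤ) ^ 2 * (4 * (N : ℤ) ^ 3) := by
        calc (N : ℤ) ^ 2 * y ^ 2 ≤ 4 * (N : ℤ) ^ 5 := h2
          _ = _ := by ring
      exact le_of_mul_le_mul_left h6 hNZ
    have h7 : (((Int.gcd t y * y1 t y) ^ 2 : ℕ) : ℤ) ≤ ((4 * N ^ 3 : ℕ) : ℤ) := by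
      rw [Nat.cast_pow, h1]
      push_cast
      exact h5
    exact_mod_cast h7

theorem sqN (N X Z : ℕ) (T : ℝ) (hN : 2 ≤ N) (hT : TauB Z T) (hZ : 4 * N ^ 5 ≤ Z)
    (S : Finset (ℕ × ℤ × ℤ)) (hS : ∀ q ∈ S, SolP 5 q.1 N q.2.1 q.2.2 ∧ q.1 ≤ X) :
    (S.card : ℝ) ≤ 4 * T ^ 3 * ((X : ℝ) / N + √((N : ℝ) ^ 3)) := by
  classical
  obtain ⟨hT1, hTd⟩ := hT
  have hXR : (0 : ℝ) ≤ (X : ℝ) := Nat.cast_nonneg _
  have hNR : (0 : ℝ) < (N : ℝ) := by
    have : 0 < N := by omega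
    exact_mod_cast this
  have hs3 : 0 < √((N : ℝ) ^ 3) := Real.sqrt_pos.2 (by positivity)
  have hs5 : 0 < √((N : ℝ) ^ 5) := Real.sqrt_pos.2 (by positivity)
  have hs35 : √((N : ℝ) ^ 5) = N * √((N : ℝ) ^ 3) := by
    have : ((N : ℝ)) ^ 5 = (N : ℝ) ^ 2 * (N : ℝ) ^ 3 := by ring
    rw [this, Real.sqrt_mul (by positivity), Real.sqrt_sq hNR.le]
  have h4N1 : 1 ≤ 4 * N ^ 5 := by
    have : 0 < N ^ 5 := by positivity
    omega
  have hcard : ((4 * N ^ 5).divisors.card : ℝ) ≤ T := hTd _ h4N1 hZ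
  set B : ℝ := 4 * T ^ 2 * ((X : ℝ) / N + √((N : ℝ) ^ 3)) with hB
  have hB0 : 0 ≤ B := by positivity
  have step : (S.card : ℝ) ≤ ((4 * N ^ 5).divisors.card : ℝ) * B := by
    refine fib_const S (fun q => Int.gcd q.2.1 q.2.2) (Nat.divisors (4 * N ^ 5)) ?_ B ?_
    · intro q hq
      obtain ⟨hsol, -⟩ := hS q hq
      obtain ⟨-, -, hy, heq, -⟩ := hsol
      rw [Nat.mem_divisors]
      refine ⟨?_, by omega⟩
      rw [← Int.natCast_dvd_natCast]
      have h1 : (Int.gcd q.2.1 q.2.2 : ℤ) ∣ q.2.1 ^ 2 :=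
        (Int.gcd_dvd_left ..).trans (dvd_pow_self _ two_ne_zero)
      have h2 : (Int.gcd q.2.1 q.2.2 : ℤ) ∣ (q.1 : ℤ) * q.2.2 ^ 2 :=
        ((Int.gcd_dvd_right ..).trans (dvd_pow_self _ two_ne_zero)).mul_left _
      have h3 := dvd_add h1 h2
      rw [heq] at h3
      push_cast
      exact h3
    intro g hg
    set SG := S.filter (fun q => Int.gcd q.2.1 q.2.2 = g) with hSG
    rcases SG.eq_empty_or_nonempty with hSG0 | ⟨qG, hqG⟩
    · rw [hSG0]
      simp only [Finset.card_empty, Nat.cast_zero]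
      exact hB0
    have hSGmem : ∀ q ∈ SG, (SolP 5 q.1 N q.2.1 q.2.2 ∧ q.1 ≤ X) ∧
        Int.gcd q.2.1 q.2.2 = g := by
      intro q hq
      rw [hSG, Finset.mem_filter] at hq
      exact ⟨hS q hq.1, hq.2⟩
    have hg1 : 1 ≤ g := by
      obtain ⟨⟨hsol, -⟩, hgg⟩ := hSGmem qG hqG
      rw [← hgg]
      exact (sqN_basic _ _ _ _ hsol).1
    have hgR1 : (1 : ℝ) ≤ (g : ℝ) := by exact_mod_cast hg1
    have hgR : (0 : ℝ) < (g : ℝ) := by linarith
    set Y₀ := SG.image (fun q => y1 q.2.1 q.2.2) with hY₀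
    have hY₀mem : ∀ y ∈ Y₀, 1 ≤ y ∧ (g * y) ^ 2 ≤ 4 * N ^ 3 := by
      intro y hy
      rw [hY₀, Finset.mem_image] at hy
      obtain ⟨q, hq, rfl⟩ := hy
      obtain ⟨⟨hsol, -⟩, hgg⟩ := hSGmem q hq
      have hb := sqN_basic _ _ _ _ hsol
      refine ⟨hb.2.1, ?_⟩
      have := hb.2.2.2.2.2
      rw [hgg] at this
      exact this
    have hYa : (Y₀.card : ℝ) ≤ 2 * √((N : ℝ) ^ 3) / g := by
      have hsub : Y₀ ⊆ Finset.Icc 1 ⌊2 * √((N : ℝ) ^ 3) / g⌋₊ := by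
        intro y hy
        obtain ⟨hy1, hy2⟩ := hY₀mem y hy
        rw [Finset.mem_Icc]
        refine ⟨hy1, Nat.le_floor ?_⟩
        rw [le_div_iff₀ hgR]
        have h1 : ((g : ℝ) * y) ^ 2 ≤ (2 * √((N : ℝ) ^ 3)) ^ 2 := by
          rw [mul_pow 2, Real.sq_sqrt (by positivity)]
          have : (((g * y) ^ 2 : ℕ) : ℝ) ≤ ((4 * N ^ 3 : ℕ) : ℝ) := by exact_mod_cast hy2
          push_cast at this
          linarith
        have h2 := abs_le_of_sq_le_sq h1 (by positivity)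
        have h3 := (le_abs_self _).trans h2
        linarith
      have h1 : Y₀.card ≤ ⌊2 * √((N : ℝ) ^ 3) / g⌋₊ := by
        have := Finset.card_le_card hsub
        rwa [Nat.card_Icc, Nat.add_sub_cancel] at this
      exact (Nat.cast_le.2 h1).trans (Nat.floor_le (by positivity))
    set b' : ℝ := 2 * T ^ 2 * ((X : ℝ) * g / √((N : ℝ) ^ 5) + 1) with hb'
    have step2 : (SG.card : ℝ) ≤ (Y₀.card : ℝ) * b' := by
      apply fib_const SG (fun q => y1 q.2.1 q.2.2) Y₀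
      · intro q hq
        exact Finset.mem_image_of_mem _ hq
      intro y hy
      obtain ⟨hy1, hy2⟩ := hY₀mem y hy
      have hinj : Set.InjOn (fun q : ℕ × ℤ × ℤ => q.2.1 / (g : ℤ))
          (↑(SG.filter (fun q => y1 q.2.1 q.2.2 = y)) : Set (ℕ × ℤ × ℤ)) := by
        intro q hq q' hq' heq
        rw [Finset.mem_coe, Finset.mem_filter] at hq hq'
        obtain ⟨⟨hsol, -⟩, hgg⟩ := hSGmem q hq.1
        obtain ⟨⟨hsol', -⟩, hgg'⟩ := hSGmem q' hq'.1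
        have hb := sqN_basic _ _ _ _ hsol
        have hb' := sqN_basic _ _ _ _ hsol'
        rw [hgg, hq.2] at hb
        rw [hgg', hq'.2] at hb'
        have heq' : q.2.1 / (g : ℤ) = q'.2.1 / (g : ℤ) := heq
        have ht : q.2.1 = q'.2.1 := by
          rw [← hb.2.2.2.1, ← hb'.2.2.2.1, heq']
        have hyy : q.2.2 = q'.2.2 := by
          rw [← hb.2.2.1, ← hb'.2.2.1]
        obtain ⟨-, -, hyq, heq1, -⟩ := hsol
        obtain ⟨-, -, hyq', heq2, -⟩ := hsol'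
        have hD' : (q.1 : ℤ) = q'.1 := by
          have h5 : (q.1 : ℤ) * q'.2.2 ^ 2 = (q'.1 : ℤ) * q'.2.2 ^ 2 := by
            rw [hyy, ht] at heq1
            linarith
          exact mul_right_cancel₀ (pow_ne_zero 2 (by omega)) h5
        exact Prod.ext (by exact_mod_cast hD') (Prod.ext ht hyy)
      rw [← Finset.card_image_of_injOn hinj]
      have hτ : ((y ^ 2).divisors.card : ℝ) ≤ T := by
        apply hTd _ (Nat.one_le_pow _ _ hy1)
        have h1 : y ^ 2 ≤ (g * y) ^ 2 := by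
          apply Nat.pow_le_pow_left
          exact Nat.le_mul_of_pos_left _ hg1
        have h3 : N ^ 3 ≤ N ^ 5 := Nat.pow_le_pow_right (by omega) (by norm_num)
        omega
      refine (small1 N g y X hN hg1 hy1 _ ?_).trans ?_
      · intro t ht
        rw [Finset.mem_image] at ht
        obtain ⟨q, hq, rfl⟩ := ht
        rw [Finset.mem_filter] at hq
        obtain ⟨⟨hsol, hX⟩, hgg⟩ := hSGmem q hq.1
        have hb := sqN_basic _ _ _ _ hsol
        rw [hgg, hq.2] at hb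
        refine ⟨hb.2.2.2.2.1, q.1, hX, ?_⟩
        obtain ⟨-, -, hyq, heq1, -⟩ := hsol
        rw [← heq1]
        conv_rhs => rw [← hb.2.2.1, ← hb.2.2.2.1]
        ring
      · rw [hb']
        apply mul_le_mul_of_nonneg_right _ (by positivity)
        apply mul_le_mul_of_nonneg_left _ (by norm_num)
        exact pow_le_pow_left₀ (by positivity) hτ 2
    refine step2.trans ?_
    calc (Y₀.card : ℝ) * b'
        = 2 * T ^ 2 * ((Y₀.card : ℝ) * ((X : ℝ) * g / √((N : ℝ) ^ 5)) + (Y₀.card : ℝ)) := by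
          rw [hb']; ring
      _ ≤ 2 * T ^ 2 * ((2 * √((N : ℝ) ^ 3) / g) * ((X : ℝ) * g / √((N : ℝ) ^ 5)) +
            2 * √((N : ℝ) ^ 3) / g) := by
          apply mul_le_mul_of_nonneg_left _ (by positivity)
          apply add_le_add _ hYa
          exact mul_le_mul_of_nonneg_right hYa (by positivity)
      _ = 2 * T ^ 2 * (2 * X / N + 2 * √((N : ℝ) ^ 3) / g) := by
          rw [hs35]
          field_simp
      _ ≤ 2 * T ^ 2 * (2 * X / N + 2 * √((N : ℝ) ^ 3)) := by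
          apply mul_le_mul_of_nonneg_left _ (by positivity)
          have : 2 * √((N : ℝ) ^ 3) / g ≤ 2 * √((N : ℝ) ^ 3) := div_le_self (by positivity) hgR1
          linarith
      _ = B := by
          rw [hB]
          ring
  calc (S.card : ℝ) ≤ ((4 * N ^ 5).divisors.card : ℝ) * B := step
    _ ≤ T * B := mul_le_mul_of_nonneg_right hcard hB0
    _ = 4 * T ^ 3 * ((X : ℝ) / N + √((N : ℝ) ^ 3)) := by
        rw [hB]
        ring

end Pool.Agent.FTB
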