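import Pool.Agent.FTA.DivB
import Pool.Agent.FTB.SqN

/-!
# FTB/SqC: the solutions whose `N` is a square

PROOF of `sqC1`.  The `N` occurring are `N = s ^ 2` with `s ≥ 2`, and `N ^ 2 ≤ D ≤ X`, so
`s ^ 4 ≤ X`.  For each such `s`, `sqN` gives at most `4 T ^ 3 (X / s ^ 2 + s ^ 3)`
(`√(s ^ 6) = s ^ 3`; `4 N ^ 5 ≤ 4 X ^ 3 ≤ Z`).  Sum over `s` with `2 ≤ s`, `s ^ 4 ≤ X`:
`∑ X / s ^ 2 ≤ X` and `∑ s ^ 3 ≤ (number of s) * (max s) ^ 3 ≤ (max s) ^ 4 ≤ X`.  Total `≤ 8 T ^ 3 X`.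
PROOF of `sqC`.  Divisor bound (`divisor_bound`) with exponent `δ = ε / 100`,
`Z = 4 X ^ 3`, `T = 1 + c Z ^ δ ≤ C X ^ (3 δ)`.
-/

set_option autoImplicit false

namespace Pool.Agent.FTB

open Pool.Agent.FTA

theorem sqC1 (X Z : ℕ) (T : ℝ) (hX : 1 ≤ X) (hT : TauB Z T) (hZ : 4 * X ^ 3 ≤ Z)
    (S : Finset (ℕ × ℕ × ℤ × ℤ))
    (hS : ∀ q ∈ S, q.1 ≤ X ∧ (SolP 5 q.1 q.2.1 q.2.2.1 q.2.2.2 ∧ IsSquare q.2.1)) :
    (S.card : ℝ) ≤ 8 * T ^ 3 * X := by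
  classical
  have hT1 : 1 ≤ T := hT.1
  have hT0 : 0 ≤ T := by linarith
  obtain ⟨M, hM⟩ : ∃ M : ℕ, M = Nat.sqrt (Nat.sqrt X) := ⟨_, rfl⟩
  have hM4 : M ^ 4 ≤ X := by
    have h1 : M * M ≤ Nat.sqrt X := by rw [hM]; exact Nat.sqrt_le _
    have h2 : Nat.sqrt X * Nat.sqrt X ≤ X := Nat.sqrt_le _
    calc M ^ 4 = (M * M) * (M * M) := by ring
      _ ≤ Nat.sqrt X * Nat.sqrt X := Nat.mul_le_mul h1 h1
      _ ≤ X := h2
  have hkey : ∀ q ∈ S, ∃ s, s ∈ Finset.Icc 2 M ∧ q.2.1 = s ^ 2 := by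
    intro q hq
    obtain ⟨h1, h2, s, hs⟩ := hS q hq
    have hN2 : 2 ≤ q.2.1 := h2.1
    have hND : q.2.1 ^ 2 ≤ q.1 := h2.2.1
    refine ⟨s, ?_, by rw [hs]; ring⟩
    rw [Finset.mem_Icc]
    constructor
    · by_contra hcon
      have h3 : s ≤ 1 := by omega
      have h4 : s * s ≤ 1 * 1 := Nat.mul_le_mul h3 h3
      omega
    · rw [hM, Nat.le_sqrt, Nat.le_sqrt]
      calc s * s * (s * s) = q.2.1 ^ 2 := by rw [hs]; ring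
        _ ≤ X := hND.trans h1
  have hmaps : ∀ q ∈ S, Nat.sqrt q.2.1 ∈ Finset.Icc 2 M := by
    intro q hq
    obtain ⟨s, hs, hqs⟩ := hkey q hq
    rw [hqs, Nat.sqrt_eq']
    exact hs
  have hcard : S.card = ∑ s ∈ Finset.Icc 2 M, (S.filter (fun q => Nat.sqrt q.2.1 = s)).card :=
    Finset.card_eq_sum_card_fiberwise hmaps
  have hfib : ∀ s ∈ Finset.Icc 2 M,
      ((S.filter (fun q => Nat.sqrt q.2.1 = s)).card : ℝ) ≤
        4 * T ^ 3 * ((X : ℝ) * ((s : ℝ) ^ 2)⁻¹ + (s : ℝ) ^ 3) := by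
    intro s hs
    rw [Finset.mem_Icc] at hs
    have hs0 : (0 : ℝ) ≤ s := Nat.cast_nonneg s
    have hq2 : ∀ q ∈ S.filter (fun q => Nat.sqrt q.2.1 = s), q ∈ S ∧ q.2.1 = s ^ 2 := by
      intro q hq
      rw [Finset.mem_filter] at hq
      obtain ⟨s', _, hs2⟩ := hkey q hq.1
      refine ⟨hq.1, ?_⟩
      have h5 := hq.2
      rw [hs2, Nat.sqrt_eq'] at h5
      rw [hs2, h5]
    have hinj : Set.InjOn (fun q : ℕ × ℕ × ℤ × ℤ => (q.1, q.2.2))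
        ((S.filter (fun q => Nat.sqrt q.2.1 = s) : Finset (ℕ × ℕ × ℤ × ℤ)) :
          Set (ℕ × ℕ × ℤ × ℤ)) := by
      intro q hq q' hq' h
      have h1 := (hq2 q (Finset.mem_coe.1 hq)).2
      have h2 := (hq2 q' (Finset.mem_coe.1 hq')).2
      have h3 := congrArg Prod.fst h
      have h4 := congrArg Prod.snd h
      simp only at h3 h4
      exact Prod.ext h3 (Prod.ext (h1.trans h2.symm) h4)
    rw [← Finset.card_image_of_injOn hinj]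
    have h6 := sqN (s ^ 2) X Z T (by nlinarith [hs.1]) hT ?_
      ((S.filter (fun q => Nat.sqrt q.2.1 = s)).image (fun q => (q.1, q.2.2))) ?_
    · refine h6.trans (le_of_eq ?_)
      have h7 : √(((s ^ 2 : ℕ) : ℝ) ^ 3) = (s : ℝ) ^ 3 := by
        have : ((s ^ 2 : ℕ) : ℝ) ^ 3 = ((s : ℝ) ^ 3) ^ 2 := by push_cast; ring
        rw [this, Real.sqrt_sq (by positivity)]
      rw [h7, div_eq_mul_inv]
      push_cast
      rfl
    · refine le_trans ?_ hZ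
      refine Nat.mul_le_mul_left 4 ?_
      calc (s ^ 2) ^ 5 = s ^ 10 := by ring
        _ ≤ s ^ 12 := Nat.pow_le_pow_right (by omega) (by norm_num)
        _ = (s ^ 4) ^ 3 := by ring
        _ ≤ X ^ 3 := Nat.pow_le_pow_left ((Nat.pow_le_pow_left hs.2 4).trans hM4) 3
    · intro q hq
      rw [Finset.mem_image] at hq
      obtain ⟨q', hq', rfl⟩ := hq
      obtain ⟨h8, h9⟩ := hq2 q' hq'
      obtain ⟨h10, h11, -⟩ := hS q' h8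
      rw [h9] at h11
      exact ⟨h11, h10⟩
  rw [hcard]
  push_cast
  refine (Finset.sum_le_sum hfib).trans ?_
  rw [← Finset.mul_sum, Finset.sum_add_distrib, ← Finset.mul_sum]
  have hX0 : (0 : ℝ) ≤ X := Nat.cast_nonneg X
  have hsum1 : ∑ s ∈ Finset.Icc 2 M, ((s : ℝ) ^ 2)⁻¹ ≤ 1 := by
    rcases Nat.lt_or_ge M 1 with h | h
    · have : Finset.Icc 2 M = ∅ := Finset.Icc_eq_empty (by omega)
      rw [this, Finset.sum_empty]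
      norm_num
    · have h1 := sum_Ioc_inv_sq_le_sub (α := ℝ) (k := 1) (n := M) one_ne_zero h
      have h2 : Finset.Icc 2 M = Finset.Ioc 1 M := by
        ext i
        rw [Finset.mem_Icc, Finset.mem_Ioc]
        omega
      rw [h2]
      refine h1.trans ?_
      have h3 : (0 : ℝ) ≤ (M : ℝ)⁻¹ := by positivity
      rw [Nat.cast_one, inv_one]
      linarith
  have hsum2 : ∑ s ∈ Finset.Icc 2 M, (s : ℝ) ^ 3 ≤ X := by
    have h1 : ∑ s ∈ Finset.Icc 2 M, (s : ℝ) ^ 3 ≤ ∑ _s ∈ Finset.Icc 2 M, (M : ℝ) ^ 3 := by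
      refine Finset.sum_le_sum fun s hs => ?_
      rw [Finset.mem_Icc] at hs
      have h2 : (s : ℝ) ≤ M := by exact_mod_cast hs.2
      exact pow_le_pow_left₀ (Nat.cast_nonneg s) h2 3
    refine h1.trans ?_
    rw [Finset.sum_const, Nat.card_Icc, nsmul_eq_mul]
    have h2 : ((M + 1 - 2 : ℕ) : ℝ) ≤ M := by
      have : M + 1 - 2 ≤ M := by omega
      exact_mod_cast this
    have h3 : (0 : ℝ) ≤ (M : ℝ) ^ 3 := by positivity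
    calc ((M + 1 - 2 : ℕ) : ℝ) * (M : ℝ) ^ 3 ≤ M * (M : ℝ) ^ 3 :=
          mul_le_mul_of_nonneg_right h2 h3
      _ = ((M ^ 4 : ℕ) : ℝ) := by push_cast; ring
      _ ≤ X := by exact_mod_cast hM4
  have h1 : (X : ℝ) * ∑ s ∈ Finset.Icc 2 M, ((s : ℝ) ^ 2)⁻¹ ≤ X * 1 :=
    mul_le_mul_of_nonneg_left hsum1 hX0
  have h2 : (0 : ℝ) ≤ 4 * T ^ 3 := by positivity
  calc 4 * T ^ 3 * ((X : ℝ) * ∑ s ∈ Finset.Icc 2 M, ((s : ℝ) ^ 2)⁻¹ +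
        ∑ s ∈ Finset.Icc 2 M, (s : ℝ) ^ 3) ≤ 4 * T ^ 3 * (X * 1 + X) :=
        mul_le_mul_of_nonneg_left (add_le_add h1 hsum2) h2
    _ = 8 * T ^ 3 * X := by ring

theorem sqC (ε : ℝ) (hε : 0 < ε) : ∃ K : ℝ, 0 < K ∧ ∀ X : ℕ, 1 ≤ X →
    ∀ S : Finset (ℕ × ℕ × ℤ × ℤ),
      (∀ q ∈ S, q.1 ≤ X ∧ (SolP 5 q.1 q.2.1 q.2.2.1 q.2.2.2 ∧ IsSquare q.2.1)) →
      (S.card : ℝ) ≤ K * (X : ℝ) ^ (1 + ε) := by
  obtain ⟨c, hc, hd⟩ := divisor_bound (ε := ε / 9) (by positivity)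
  refine ⟨8 * ((1 + c) * (4 : ℝ) ^ (ε / 9)) ^ 3, by positivity, fun X hX S hS => ?_⟩
  have hX' : (1 : ℝ) ≤ X := by exact_mod_cast hX
  have hX0 : (0 : ℝ) < X := by linarith
  obtain ⟨T, hTdef⟩ : ∃ T : ℝ, T = (1 + c) * ((4 : ℝ) * (X : ℝ) ^ 3) ^ (ε / 9) := ⟨_, rfl⟩
  have hX3 : (1 : ℝ) ≤ (X : ℝ) ^ 3 := one_le_pow₀ hX'
  have hZ1 : 1 ≤ ((4 : ℝ) * (X : ℝ) ^ 3) ^ (ε / 9) :=
    Real.one_le_rpow (by linarith) (by positivity)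
  have hT : TauB (4 * X ^ 3) T := by
    refine ⟨?_, fun n hn1 hn2 => ?_⟩
    · rw [hTdef]
      nlinarith
    · refine (hd n (by omega)).trans ?_
      rw [hTdef]
      have h1 : (n : ℝ) ≤ 4 * (X : ℝ) ^ 3 := by exact_mod_cast hn2
      have h2 : (n : ℝ) ^ (ε / 9) ≤ ((4 : ℝ) * (X : ℝ) ^ 3) ^ (ε / 9) :=
        Real.rpow_le_rpow (Nat.cast_nonneg n) h1 (by positivity)
      have h3 : c * (n : ℝ) ^ (ε / 9) ≤ c * ((4 : ℝ) * (X : ℝ) ^ 3) ^ (ε / 9) :=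
        mul_le_mul_of_nonneg_left h2 hc.le
      linarith
  refine (sqC1 X (4 * X ^ 3) T hX hT le_rfl S hS).trans (le_of_eq ?_)
  have h3 : T = ((1 + c) * (4 : ℝ) ^ (ε / 9)) * (X : ℝ) ^ (ε / 3) := by
    rw [hTdef, Real.mul_rpow (by norm_num) (by positivity), ← Real.rpow_natCast (X : ℝ) 3,
      ← Real.rpow_mul hX0.le]
    have h4 : ((3 : ℕ) : ℝ) * (ε / 9) = ε / 3 := by push_cast; ring
    rw [h4]
    ring
  have h4 : ((X : ℝ) ^ (ε / 3)) ^ 3 = (X : ℝ) ^ ε := by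
    rw [← Real.rpow_natCast, ← Real.rpow_mul hX0.le]
    congr 1
    push_cast
    ring
  rw [h3, mul_pow, h4, Real.rpow_add hX0, Real.rpow_one]
  ring

end Pool.Agent.FTB
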