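import Pool.Agent.FTA.Main
import Pool.Agent.FTB.Clt
import Pool.Agent.FTB.FmT
import Pool.Agent.FTB.SqC
import Pool.Agent.FTB.DCt

/-! # FTB/Mai: the average of the 5-torsion, exponent `1 + ε` -/

set_option autoImplicit false

namespace Pool.Agent.FTB

open NumberField Pool.Agent.FTA nonZeroDivisors

theorem mai (ε : ℝ) (hε : 0 < ε) : ∃ C : ℝ, ∀ X : ℝ, 1 ≤ X →
    ∑ᶠ K ∈ IQ ⌊X⌋₊, (Nat.card {c : ClassGroup (𝓞 K) // c ^ 5 = 1} : ℝ) ≤ C * X ^ (1 + ε) := by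
  obtain ⟨C1, hC1, h1⟩ := sqC ε hε
  obtain ⟨C2, hC2, h2⟩ := dct ε hε
  refine ⟨1 + 2 * C1 + C2, ?_⟩
  intro X hX
  have hf : 1 ≤ ⌊X⌋₊ := Nat.le_floor (by simpa using hX)
  have h := fmT ⌊X⌋₊ (fun D a => SolP 5 D a.1 a.2.1 a.2.2 ∧ IsSquare a.1)
    (fun D a => Dat D a.1 a.2) (fun K => Nat.card {c : ClassGroup (𝓞 K) // c ^ 5 = 1})
    (by
      rintro K ⟨hK, hk2, him, -⟩
      exact clt K hk2 him)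
    (C1 * (⌊X⌋₊ : ℝ) ^ (1 + ε)) (C2 * (⌊X⌋₊ : ℝ) ^ (1 + ε))
    (fun S hS => h1 ⌊X⌋₊ hf S hS) (fun S hS => h2 ⌊X⌋₊ hf S hS)
  have hle : ((⌊X⌋₊ : ℕ) : ℝ) ≤ X := Nat.floor_le (by linarith)
  have h3 : (⌊X⌋₊ : ℝ) ^ (1 + ε) ≤ X ^ (1 + ε) :=
    Real.rpow_le_rpow (by positivity) hle (by linarith)
  have h4 : X ≤ X ^ (1 + ε) := by
    calc X = X ^ (1 : ℝ) := (Real.rpow_one X).symm
      _ ≤ X ^ (1 + ε) := Real.rpow_le_rpow_of_exponent_le hX (by linarith)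
  calc _ ≤ (⌊X⌋₊ : ℝ) + 2 * (C1 * (⌊X⌋₊ : ℝ) ^ (1 + ε)) + C2 * (⌊X⌋₊ : ℝ) ^ (1 + ε) := h
    _ ≤ X ^ (1 + ε) + 2 * (C1 * X ^ (1 + ε)) + C2 * X ^ (1 + ε) := by
      gcongr
      exact hle.trans h4
    _ = (1 + 2 * C1 + C2) * X ^ (1 + ε) := by ring

end Pool.Agent.FTB
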