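import Pool.Agent.FTB.Defs

/-!
# FTB/Rta: common roots modulo `n` that agree modulo all primes agree modulo `n`

`f(x) = -5 A x ^ 3 - 2 B x + J`, `g(x) = -B x ^ 3 - 2 J x ^ 2 + K`.

PROOF of `rta`.  Let `d = gcd (x - y, n)`, `n = d n1`, `x - y = d δ`, `gcd (δ, n1) = 1`.  From
`n ∣ f(x) - f(y) = (x - y) Φ`, `Φ = -5 A Q - 2 B`, `Q = x ^ 2 + x y + y ^ 2`, we get `n1 ∣ Φ`; from
`n ∣ g(x) - g(y) = (x - y) Ψ`, `Ψ = -B Q - 2 J (x + y)`, `n1 ∣ Ψ`.  Modulo `n1`: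
`2 B = -5 A Q`, `J = 5 A x ^ 3 + 2 B x = 5 A x (x ^ 2 - Q) = -5 A x y (x + y)`, so
`0 = 2 B Q + 4 J (x + y) = -5 A Q ^ 2 - 20 A x y (x + y) ^ 2 = -5 A (x ^ 2 + 3 x y + y ^ 2) ^ 2`
(with `S = x + y`, `P = x y`: `Q = S ^ 2 - P`, `Q ^ 2 + 4 P S ^ 2 = (S ^ 2 + P) ^ 2`).  Explicitly
`5 A (x ^ 2 + 3 x y + y ^ 2) ^ 2` is an integral linear combination of `Φ, Ψ, f(x)`.
Now `x ^ 2 + 3 x y + y ^ 2` is coprime to `n1`: a prime `p` dividing both divides `n`, so `p ∣ x - y`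
and `p ∣ x ^ 2 + 3 x y + y ^ 2` give `p ∣ 5 x ^ 2`, but `n` is coprime to `10` and to `x`.
So `n1 ∣ 5 A`, `n1 ∣ A` (coprime to 5), `n1 ∣ 2 B`, `n1 ∣ B` (coprime to 2), `n1 ∣ J` and
`n1 ∣ K = g(x) + B x ^ 3 + 2 J x ^ 2`.  By `hprim`, `n1` is a unit, so `n ∣ x - y`.
-/

set_option autoImplicit false

namespace Pool.Agent.FTB

theorem rta (n A B J K x y : ℤ) (hn : n ≠ 0) (h10 : IsCoprime n 10) (hx : IsCoprime n x)
    (hfx : n ∣ -5 * A * x ^ 3 - 2 * B * x + J) (hgx : n ∣ -B * x ^ 3 - 2 * J * x ^ 2 + K)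
    (hfy : n ∣ -5 * A * y ^ 3 - 2 * B * y + J) (hgy : n ∣ -B * y ^ 3 - 2 * J * y ^ 2 + K)
    (hp : ∀ p : ℤ, Prime p → p ∣ n → p ∣ x - y)
    (hprim : ∀ d : ℤ, d ∣ A → d ∣ B → d ∣ J → d ∣ K → IsUnit d) : n ∣ x - y := by
  -- the gcd
  have hd0 : (Int.gcd (x - y) n : ℤ) ≠ 0 := by
    intro h0
    have h1 : Int.gcd (x - y) n = 0 := by exact_mod_cast h0
    rw [Int.gcd_eq_zero_iff] at h1
    exact hn h1.2
  obtain ⟨δ, hδ⟩ : (Int.gcd (x - y) n : ℤ) ∣ x - y := Int.gcd_dvd_left _ _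
  obtain ⟨n1, hn1⟩ : (Int.gcd (x - y) n : ℤ) ∣ n := Int.gcd_dvd_right _ _
  have hbez : ∃ r t : ℤ, (Int.gcd (x - y) n : ℤ) = (x - y) * r + n * t :=
    ⟨_, _, Int.gcd_eq_gcd_ab (x - y) n⟩
  set d : ℤ := (Int.gcd (x - y) n : ℤ) with hd
  have hcop : IsCoprime δ n1 := by
    obtain ⟨r, t, hrt⟩ := hbez
    refine ⟨r, t, ?_⟩
    have h1 : d * (r * δ + t * n1) = d * 1 := by
      rw [mul_one]
      calc d * (r * δ + t * n1) = (d * δ) * r + (d * n1) * t := by ring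
        _ = (x - y) * r + n * t := by rw [← hδ, ← hn1]
        _ = d := hrt.symm
    exact mul_left_cancel₀ hd0 h1
  have hn1n : n1 ∣ n := ⟨d, by rw [hn1]; ring⟩
  -- n1 divides Φ and Ψ
  have hcancel : ∀ Z : ℤ, n ∣ (x - y) * Z → n1 ∣ Z := by
    intro Z hZ
    obtain ⟨q, hq⟩ := hZ
    have h1 : d * (δ * Z) = d * (n1 * q) := by
      calc d * (δ * Z) = (d * δ) * Z := by ring
        _ = (x - y) * Z := by rw [← hδ]
        _ = n * q := hq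
        _ = (d * n1) * q := by rw [← hn1]
        _ = d * (n1 * q) := by ring
    have h2 : δ * Z = n1 * q := mul_left_cancel₀ hd0 h1
    exact hcop.symm.dvd_of_dvd_mul_left ⟨q, h2⟩
  have hΦ : n1 ∣ -5 * A * (x ^ 2 + x * y + y ^ 2) - 2 * B := by
    apply hcancel
    have h1 := dvd_sub hfx hfy
    have h2 : (x - y) * (-5 * A * (x ^ 2 + x * y + y ^ 2) - 2 * B) =
        (-5 * A * x ^ 3 - 2 * B * x + J) - (-5 * A * y ^ 3 - 2 * B * y + J) := by ring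
    rw [h2]
    exact h1
  have hΨ : n1 ∣ -B * (x ^ 2 + x * y + y ^ 2) - 2 * J * (x + y) := by
    apply hcancel
    have h1 := dvd_sub hgx hgy
    have h2 : (x - y) * (-B * (x ^ 2 + x * y + y ^ 2) - 2 * J * (x + y)) =
        (-B * x ^ 3 - 2 * J * x ^ 2 + K) - (-B * y ^ 3 - 2 * J * y ^ 2 + K) := by ring
    rw [h2]
    exact h1
  have hfx1 : n1 ∣ -5 * A * x ^ 3 - 2 * B * x + J := hn1n.trans hfx
  have hgx1 : n1 ∣ -B * x ^ 3 - 2 * J * x ^ 2 + K := hn1n.trans hgx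
  -- the coprimality with the quadratic form
  have hA5 : n1 ∣ 5 * A := by
    have hsq : n1 ∣ (5 * A) * (x ^ 2 + 3 * x * y + y ^ 2) ^ 2 := by
      have h1 : (5 * A) * (x ^ 2 + 3 * x * y + y ^ 2) ^ 2 =
          (-((x ^ 2 + x * y + y ^ 2) + 4 * x * (x + y))) *
              (-5 * A * (x ^ 2 + x * y + y ^ 2) - 2 * B) +
            2 * (-B * (x ^ 2 + x * y + y ^ 2) - 2 * J * (x + y)) +
            4 * (x + y) * (-5 * A * x ^ 3 - 2 * B * x + J) := by ring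
      rw [h1]
      exact dvd_add (dvd_add (Dvd.dvd.mul_left hΦ _) (Dvd.dvd.mul_left hΨ _))
        (Dvd.dvd.mul_left hfx1 _)
    have hcop2 : IsCoprime n1 ((x ^ 2 + 3 * x * y + y ^ 2) ^ 2) := by
      apply IsCoprime.pow_right
      by_contra hnc
      have hg : Int.gcd n1 (x ^ 2 + 3 * x * y + y ^ 2) ≠ 1 := by
        intro h1
        exact hnc (Int.isCoprime_iff_gcd_eq_one.mpr h1)
      obtain ⟨p, hpp, hpd⟩ := Nat.exists_prime_and_dvd hg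
      have hpi : Prime (p : ℤ) := Nat.prime_iff_prime_int.mp hpp
      have hp1 : (p : ℤ) ∣ n1 := (Int.natCast_dvd_natCast.mpr hpd).trans (Int.gcd_dvd_left _ _)
      have hp2 : (p : ℤ) ∣ x ^ 2 + 3 * x * y + y ^ 2 :=
        (Int.natCast_dvd_natCast.mpr hpd).trans (Int.gcd_dvd_right _ _)
      have hpn : (p : ℤ) ∣ n := hp1.trans hn1n
      have hpxy := hp p hpi hpn
      have h5 : (p : ℤ) ∣ 5 * x ^ 2 := by
        have h1 : 5 * x ^ 2 = (x ^ 2 + 3 * x * y + y ^ 2) + (x - y) * (4 * x + y) := by ring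
        rw [h1]
        exact dvd_add hp2 (Dvd.dvd.mul_right hpxy _)
      rcases hpi.dvd_or_dvd h5 with h6 | h6
      · have h7 : (p : ℤ) ∣ 10 := h6.trans ⟨2, by norm_num⟩
        exact hpi.not_isUnit (h10.isUnit_of_dvd' hpn h7)
      · have h7 : (p : ℤ) ∣ x := hpi.dvd_of_dvd_pow h6
        exact hpi.not_isUnit (hx.isUnit_of_dvd' hpn h7)
    exact hcop2.dvd_of_dvd_mul_right hsq
  have hn110 : IsCoprime n1 10 := h10.of_isCoprime_of_dvd_left hn1n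
  have hn15 : IsCoprime n1 5 := hn110.of_isCoprime_of_dvd_right ⟨2, by norm_num⟩
  have hn12 : IsCoprime n1 2 := hn110.of_isCoprime_of_dvd_right ⟨5, by norm_num⟩
  have hA : n1 ∣ A := hn15.dvd_of_dvd_mul_left hA5
  have hB2 : n1 ∣ 2 * B := by
    have h1 : 2 * B = -(-5 * A * (x ^ 2 + x * y + y ^ 2) - 2 * B) +
        A * (-5 * (x ^ 2 + x * y + y ^ 2)) := by ring
    rw [h1]
    exact dvd_add ((dvd_neg).mpr hΦ) (Dvd.dvd.mul_right hA _)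
  have hB : n1 ∣ B := hn12.dvd_of_dvd_mul_left hB2
  have hJ : n1 ∣ J := by
    have h1 : J = (-5 * A * x ^ 3 - 2 * B * x + J) + (A * (5 * x ^ 3) + B * (2 * x)) := by ring
    rw [h1]
    exact dvd_add hfx1 (dvd_add (Dvd.dvd.mul_right hA _) (Dvd.dvd.mul_right hB _))
  have hK : n1 ∣ K := by
    have h1 : K = (-B * x ^ 3 - 2 * J * x ^ 2 + K) + (B * x ^ 3 + J * (2 * x ^ 2)) := by ring
    rw [h1]
    exact dvd_add hgx1 (dvd_add (Dvd.dvd.mul_right hB _) (Dvd.dvd.mul_right hJ _))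
  have hu : IsUnit n1 := hprim n1 hA hB hJ hK
  rw [hn1]
  have h1 : d * n1 ∣ d := by
    rw [IsUnit.mul_right_dvd hu]
  exact h1.trans ⟨δ, hδ⟩

end Pool.Agent.FTB
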