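import Pool.Agent.FTB.Rta

/-!
# FTB/Rtb: two pairs `(c, v)`, `(c', v')` that are proportional modulo all primes

PROOF of `rtb`.  `n` is coprime to `v`, `v'`, `c`, `10`.  Let `v * w = 1`, `v' * w' = 1` modulo `n`
(`w, w'` integers), `x = c w`, `y = c' w'`.  Then `fF A B J c v = v ^ 3 f(x)` modulo `n` (as
`c = x v`), so `n ∣ f(x)`, and so on.  `x` is coprime to `n` (`c`, `w` are).  For a prime `p ∣ n`:
`p ∣ c v' - c' v` gives `p ∣ x - y` (multiply by `w w'`).  `rta` gives `n ∣ x - y`, and multiplying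
by `v v'`, `n ∣ c v' - c' v`.  The hypothesis `gB b = 1` gives `hprim`.
-/

set_option autoImplicit false

namespace Pool.Agent.FTB

theorem gB_dvd (b : ℤ × ℤ × ℤ × ℤ) : ((gB b : ℤ) ∣ b.1) ∧ ((gB b : ℤ) ∣ b.2.1) ∧
    ((gB b : ℤ) ∣ b.2.2.1) ∧ ((gB b : ℤ) ∣ b.2.2.2) := by
  unfold gB
  refine ⟨?_, ?_, ?_, ?_⟩
  · exact Int.natCast_dvd.2 (Nat.gcd_dvd_left _ _)
  · exact Int.natCast_dvd.2 ((Nat.gcd_dvd_right _ _).trans (Nat.gcd_dvd_left _ _))
  · exact Int.natCast_dvd.2 (((Nat.gcd_dvd_right _ _).trans (Nat.gcd_dvd_right _ _)).trans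
      (Nat.gcd_dvd_left _ _))
  · exact Int.natCast_dvd.2 (((Nat.gcd_dvd_right _ _).trans (Nat.gcd_dvd_right _ _)).trans
      (Nat.gcd_dvd_right _ _))

theorem dvd_gB (b : ℤ × ℤ × ℤ × ℤ) (d : ℤ) (h1 : d ∣ b.1) (h2 : d ∣ b.2.1) (h3 : d ∣ b.2.2.1)
    (h4 : d ∣ b.2.2.2) : d ∣ (gB b : ℤ) := by
  unfold gB
  apply Int.dvd_natCast.2
  exact Nat.dvd_gcd (Int.natAbs_dvd_natAbs.2 h1) (Nat.dvd_gcd (Int.natAbs_dvd_natAbs.2 h2)
    (Nat.dvd_gcd (Int.natAbs_dvd_natAbs.2 h3) (Int.natAbs_dvd_natAbs.2 h4)))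

theorem rtb (n : ℕ) (b : ℤ × ℤ × ℤ × ℤ) (hb : gB b = 1) (hn : 1 ≤ n) (x y : ℕ × ℕ)
    (hx : Nat.Coprime n (10 * x.1 * x.2)) (hy : Nat.Coprime n (10 * y.1 * y.2))
    (hdx : DvF n b x.1 x.2) (hdy : DvF n b y.1 y.2)
    (hp : ∀ p ∈ n.primeFactors, (p : ℤ) ∣ (x.1 : ℤ) * y.2 - (y.1 : ℤ) * x.2) :
    (n : ℤ) ∣ (x.1 : ℤ) * y.2 - (y.1 : ℤ) * x.2 := by
  obtain ⟨c, v⟩ := x
  obtain ⟨c', v'⟩ := y
  obtain ⟨A, B, J, K⟩ := b
  simp only [DvF] at hx hy hdx hdy hp ⊢
  obtain ⟨hfx, hgx⟩ := hdx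
  obtain ⟨hfy, hgy⟩ := hdy
  have cx : IsCoprime (n : ℤ) (10 * (c : ℤ) * v) := by
    have := Nat.isCoprime_iff_coprime.2 hx
    push_cast at this
    exact this
  have cy : IsCoprime (n : ℤ) (10 * (c' : ℤ) * v') := by
    have := Nat.isCoprime_iff_coprime.2 hy
    push_cast at this
    exact this
  have cxv : IsCoprime (n : ℤ) (v : ℤ) := cx.of_mul_right_right
  have cxc : IsCoprime (n : ℤ) (c : ℤ) := cx.of_mul_right_left.of_mul_right_right
  have c10 : IsCoprime (n : ℤ) 10 := cx.of_mul_right_left.of_mul_right_left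
  have cyv : IsCoprime (n : ℤ) (v' : ℤ) := cy.of_mul_right_right
  obtain ⟨a, w, haw⟩ := cxv
  obtain ⟨a', w', haw'⟩ := cyv
  have hw : (n : ℤ) ∣ v * w - 1 := ⟨-a, by linear_combination haw⟩
  have hw' : (n : ℤ) ∣ v' * w' - 1 := ⟨-a', by linear_combination haw'⟩
  have cw : IsCoprime (n : ℤ) w := ⟨a, v, by linear_combination haw⟩
  have cX : IsCoprime (n : ℤ) (c * w) := cxc.mul_right cw
  have key : (n : ℤ) ∣ (c : ℤ) * w - c' * w' := by
    apply rta (n : ℤ) A B J K (c * w) (c' * w') (by exact_mod_cast (by omega : n ≠ 0)) c10 cX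
    · have e : -5 * A * ((c : ℤ) * w) ^ 3 - 2 * B * (c * w) + J =
          w ^ 3 * fF A B J c v +
            (v * w - 1) * (2 * B * (c * w) * (v * w + 1) - J * ((v * w) ^ 2 + v * w + 1)) := by
        unfold fF
        ring
      rw [e]
      exact dvd_add (hfx.mul_left _) (hw.mul_right _)
    · have e : -B * ((c : ℤ) * w) ^ 3 - 2 * J * (c * w) ^ 2 + K =
          w ^ 3 * gF B J K c v +
            (v * w - 1) * (2 * J * (c * w) ^ 2 - K * ((v * w) ^ 2 + v * w + 1)) := by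
        unfold gF
        ring
      rw [e]
      exact dvd_add (hgx.mul_left _) (hw.mul_right _)
    · have e : -5 * A * ((c' : ℤ) * w') ^ 3 - 2 * B * (c' * w') + J =
          w' ^ 3 * fF A B J c' v' +
            (v' * w' - 1) *
              (2 * B * (c' * w') * (v' * w' + 1) - J * ((v' * w') ^ 2 + v' * w' + 1)) := by
        unfold fF
        ring
      rw [e]
      exact dvd_add (hfy.mul_left _) (hw'.mul_right _)
    · have e : -B * ((c' : ℤ) * w') ^ 3 - 2 * J * (c' * w') ^ 2 + K =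
          w' ^ 3 * gF B J K c' v' +
            (v' * w' - 1) * (2 * J * (c' * w') ^ 2 - K * ((v' * w') ^ 2 + v' * w' + 1)) := by
        unfold gF
        ring
      rw [e]
      exact dvd_add (hgy.mul_left _) (hw'.mul_right _)
    · intro p pp hpn
      have h1 : p.natAbs ∈ n.primeFactors := by
        rw [Nat.mem_primeFactors]
        exact ⟨Int.prime_iff_natAbs_prime.1 pp, Int.natAbs_dvd_natAbs.2 hpn |>.trans
          (by simp), by omega⟩
      have h2 := hp _ h1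
      rw [Int.natAbs_dvd] at h2
      have e : (c : ℤ) * w - c' * w' = (w * w') * ((c : ℤ) * v' - c' * v) -
          (c * w) * (v' * w' - 1) + (c' * w') * (v * w - 1) := by ring
      rw [e]
      exact dvd_add (dvd_sub (h2.mul_left _) ((hpn.trans hw').mul_left _))
        ((hpn.trans hw).mul_left _)
    · intro d h1 h2 h3 h4
      have h5 := dvd_gB (A, B, J, K) d h1 h2 h3 h4
      rw [hb] at h5
      exact isUnit_of_dvd_one (by exact_mod_cast h5)
  have e : (c : ℤ) * v' - c' * v = (v * v') * ((c : ℤ) * w - c' * w') -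
      (c * v') * (v * w - 1) + (c' * v) * (v' * w' - 1) := by ring
  rw [e]
  exact dvd_add (dvd_sub (key.mul_left _) (hw.mul_left _)) (hw'.mul_left _)

end Pool.Agent.FTB
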