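import Pool.Agent.FTB.Rtb

/-!
# FTB/Rtc: at most 3 common roots modulo a prime

`rootsP p b` is the set of the common roots of `f, g` in `ZMod p`.

PROOF of `rtc`.  If the polynomial `-5 A X ^ 3 - 2 B X + J` over `ZMod p` is not zero, it has at
most 3 roots (`Polynomial.card_roots'`, degree `≤ 3`), and `rootsP` is a subset of its roots.
If it is zero, then `p ∣ 5 A`, `p ∣ 2 B`, `p ∣ J`, so `p ∣ A, B, J` (`p` is coprime to 10), so `p ∤ K`
(`gB b = 1`), and `g(x) = K ≠ 0` for every `x`: no roots.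
PROOF of `rtc2`: `v` is invertible in `ZMod p`; `fF A B J c v = v ^ 3 f(c / v)`.
PROOF of `rtc3`: `c / v = c' / v'` in `ZMod p` with `v, v'` invertible.
-/

set_option autoImplicit false

namespace Pool.Agent.FTB

open Polynomial in
private lemma Rtc_coeffs {R : Type*} [CommRing R] (a b d : R)
    (h : C a * X ^ 3 + C b * X + C d = 0) : a = 0 ∧ b = 0 ∧ d = 0 := by
  have c3 : (C a * X ^ 3 + C b * X + C d).coeff 3 = 0 := by rw [h]; simp
  have c1 : (C a * X ^ 3 + C b * X + C d).coeff 1 = 0 := by rw [h]; simp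
  have c0 : (C a * X ^ 3 + C b * X + C d).coeff 0 = 0 := by rw [h]; simp
  refine ⟨?_, ?_, ?_⟩
  · simpa [coeff_X, coeff_C, coeff_X_pow] using c3
  · simpa [coeff_X, coeff_C, coeff_X_pow] using c1
  · simpa [coeff_X, coeff_C, coeff_X_pow] using c0

open Classical in
/-- the common roots modulo `p` -/
noncomputable def rootsP (p : ℕ) [Fact p.Prime] (b : ℤ × ℤ × ℤ × ℤ) : Finset (ZMod p) :=
  Finset.univ.filter fun x => -5 * (b.1 : ZMod p) * x ^ 3 - 2 * (b.2.1 : ZMod p) * x +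
    (b.2.2.1 : ZMod p) = 0 ∧
    -(b.2.1 : ZMod p) * x ^ 3 - 2 * (b.2.2.1 : ZMod p) * x ^ 2 + (b.2.2.2 : ZMod p) = 0

theorem rtc (p : ℕ) [Fact p.Prime] (b : ℤ × ℤ × ℤ × ℤ) (hb : gB b = 1)
    (hp : Nat.Coprime p 10) : (rootsP p b).card ≤ 3 := by
  have hpp : p.Prime := Fact.out
  have hpZ : Prime (p : ℤ) := Nat.prime_iff_prime_int.1 hpp
  have n2 : ¬ (p : ℤ) ∣ 2 := by
    intro h
    have h1 : p ∣ 2 := by exact_mod_cast h
    have h2 : p ∣ 10 := h1.trans (by norm_num)
    have h3 : p ∣ 1 := by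
      have := Nat.dvd_gcd (dvd_refl p) h2
      rwa [hp.gcd_eq_one] at this
    exact hpp.one_lt.ne' (Nat.dvd_one.1 h3)
  have n5 : ¬ (p : ℤ) ∣ 5 := by
    intro h
    have h1 : p ∣ 5 := by exact_mod_cast h
    have h2 : p ∣ 10 := h1.trans (by norm_num)
    have h3 : p ∣ 1 := by
      have := Nat.dvd_gcd (dvd_refl p) h2
      rwa [hp.gcd_eq_one] at this
    exact hpp.one_lt.ne' (Nat.dvd_one.1 h3)
  obtain ⟨A, B, J, K⟩ := b
  set P : Polynomial (ZMod p) := Polynomial.C ((-5 * A : ℤ) : ZMod p) * Polynomial.X ^ 3 +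
    Polynomial.C ((-2 * B : ℤ) : ZMod p) * Polynomial.X + Polynomial.C ((J : ℤ) : ZMod p) with hP
  by_cases h0 : P = 0
  · obtain ⟨d3, d1, d0⟩ := Rtc_coeffs _ _ _ (hP ▸ h0)
    rw [ZMod.intCast_zmod_eq_zero_iff_dvd] at d3 d1 d0
    have e3 : (p : ℤ) ∣ A := by
      have h : (p : ℤ) ∣ 5 * A := by
        have := dvd_neg.2 d3
        rwa [show -(-5 * A) = 5 * A by ring] at this
      exact (hpZ.dvd_or_dvd h).resolve_left n5
    have e1 : (p : ℤ) ∣ B := by
      have h : (p : ℤ) ∣ 2 * B := by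
        have := dvd_neg.2 d1
        rwa [show -(-2 * B) = 2 * B by ring] at this
      exact (hpZ.dvd_or_dvd h).resolve_left n2
    have hemp : rootsP p (A, B, J, K) = ∅ := by
      unfold rootsP
      rw [Finset.filter_eq_empty_iff]
      rintro y _ ⟨_, hg⟩
      have hB0 : ((B : ℤ) : ZMod p) = 0 := (ZMod.intCast_zmod_eq_zero_iff_dvd _ _).2 e1
      have hJ0 : ((J : ℤ) : ZMod p) = 0 := (ZMod.intCast_zmod_eq_zero_iff_dvd _ _).2 d0
      have hK0 : ((K : ℤ) : ZMod p) = 0 := by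
        have := hg
        simp only [hB0, hJ0] at this
        simpa using this
      have e4 : (p : ℤ) ∣ K := (ZMod.intCast_zmod_eq_zero_iff_dvd _ _).1 hK0
      have hd := dvd_gB (A, B, J, K) (p : ℤ) e3 e1 d0 e4
      rw [hb] at hd
      have : (p : ℕ) ∣ 1 := by exact_mod_cast hd
      exact hpp.one_lt.ne' (Nat.dvd_one.1 this)
    rw [hemp]
    simp
  · have hdeg : P.natDegree ≤ 3 := by
      rw [hP]
      compute_degree
    calc (rootsP p (A, B, J, K)).card
        ≤ P.roots.toFinset.card := by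
          refine Finset.card_le_card ?_
          intro y hy
          have hy' := (Finset.mem_filter.1 hy).2.1
          rw [Multiset.mem_toFinset, Polynomial.mem_roots h0, Polynomial.IsRoot.def, hP]
          simp only [Polynomial.eval_add, Polynomial.eval_mul, Polynomial.eval_C,
            Polynomial.eval_pow, Polynomial.eval_X]
          rw [← hy']
          push_cast
          ring
      _ ≤ Multiset.card P.roots := Multiset.toFinset_card_le _
      _ ≤ P.natDegree := Polynomial.card_roots' P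
      _ ≤ 3 := hdeg

theorem rtc2 (p : ℕ) [Fact p.Prime] (b : ℤ × ℤ × ℤ × ℤ) (c v : ℕ) (hv : ¬ p ∣ v)
    (h : DvF p b c v) : (c : ZMod p) * ((v : ZMod p))⁻¹ ∈ rootsP p b := by
  obtain ⟨h1, h2⟩ := h
  have hv0 : (v : ZMod p) ≠ 0 := by
    intro h0
    exact hv ((ZMod.natCast_eq_zero_iff _ _).1 h0)
  unfold rootsP
  rw [Finset.mem_filter]
  refine ⟨Finset.mem_univ _, ?_, ?_⟩
  · have e1 := (ZMod.intCast_zmod_eq_zero_iff_dvd _ _).2 h1
    unfold fF at e1
    push_cast at e1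
    field_simp
    linear_combination e1
  · have e2 := (ZMod.intCast_zmod_eq_zero_iff_dvd _ _).2 h2
    unfold gF at e2
    push_cast at e2
    field_simp
    linear_combination e2

theorem rtc3 (p : ℕ) [Fact p.Prime] (c v c' v' : ℕ) (hv : ¬ p ∣ v) (hv' : ¬ p ∣ v')
    (h : (c : ZMod p) * ((v : ZMod p))⁻¹ = (c' : ZMod p) * ((v' : ZMod p))⁻¹) :
    (p : ℤ) ∣ (c : ℤ) * v' - (c' : ℤ) * v := by
  have hv0 : (v : ZMod p) ≠ 0 := by
    intro h0
    exact hv ((ZMod.natCast_eq_zero_iff _ _).1 h0)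
  have hv1 : (v' : ZMod p) ≠ 0 := by
    intro h0
    exact hv' ((ZMod.natCast_eq_zero_iff _ _).1 h0)
  rw [← ZMod.intCast_zmod_eq_zero_iff_dvd]
  push_cast
  field_simp at h
  linear_combination h

end Pool.Agent.FTB
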